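import Pool.Agent.P.MP_dc0411_ag.Defs
import Mathlib

-- part Pool.Agent.P.MP_dc0411_ag.Geom
section

/-!
Open subschemes of affine space: smoothness, quasi-projectivity, points and morphisms.
-/

open CategoryTheory AlgebraicGeometry MvPolynomial

namespace Pool.Agent.P.MP_dc0411_ag

noncomputable section

abbrev Rn (n : ℕ) : Type := MvPolynomial (Fin n) ℂ

abbrev SpecR (n : ℕ) : Scheme.{0} := Spec (CommRingCat.of (Rn n))

abbrev strMap (n : ℕ) : SpecR n ⟶ SpecC := Spec.map (CommRingCat.ofHom (algebraMap ℂ (Rn n)))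

abbrev opn {n : ℕ} (U : (SpecR n).Opens) : Over SpecC := Over.mk (U.ι ≫ strMap n)

theorem std_smooth (n : ℕ) : Algebra.IsStandardSmoothOfRelativeDimension n ℂ (Rn n) := by
  let v : Empty → Rn n := Empty.elim
  let P : Algebra.SubmersivePresentation ℂ (Rn n ⧸ Ideal.span (Set.range v)) (Fin n) Empty :=
    { toPreSubmersivePresentation := Algebra.PreSubmersivePresentation.naive (v := v)
        Empty.elim (fun a => a.elim)
      jacobian_isUnit := by
        rw [Algebra.PreSubmersivePresentation.jacobian_eq_jacobiMatrix_det]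
        simp }
  have h1 : Algebra.IsStandardSmoothOfRelativeDimension n ℂ
      (Rn n ⧸ Ideal.span (Set.range v)) :=
    P.isStandardSmoothOfRelativeDimension (by simp [Algebra.Presentation.dimension])
  have hbot : Ideal.span (Set.range v) = ⊥ := by
    rw [Set.range_eq_empty v, Ideal.span_empty]
  exact Algebra.IsStandardSmoothOfRelativeDimension.of_algEquiv n
    ((Ideal.quotientEquivAlgOfEq ℂ hbot).trans (AlgEquiv.quotientBot ℂ (Rn n)))

theorem smooth_strMap (n : ℕ) : SmoothOfRelativeDimension n (strMap n) := by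
  rw [HasRingHomProperty.Spec_iff (P := @SmoothOfRelativeDimension n)]
  refine RingHom.locally_of RingHom.isStandardSmoothOfRelativeDimension_respectsIso _ ?_
  exact (RingHom.isStandardSmoothOfRelativeDimension_algebraMap n).mpr (std_smooth n)

theorem smooth_opn {n : ℕ} (U : (SpecR n).Opens) : SmoothOfRelativeDimension n (opn U).hom := by
  have := smooth_strMap n
  have h : SmoothOfRelativeDimension (0 + n) (U.ι ≫ strMap n) := inferInstance
  rw [zero_add] at h
  exact h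

theorem integral_opn {n : ℕ} (U : (SpecR n).Opens) (hU : (U : Set (SpecR n)).Nonempty) :
    IsIntegral (opn U).left := by
  have : Nonempty U := by
    obtain ⟨x, hx⟩ := hU
    exact ⟨⟨x, hx⟩⟩
  change IsIntegral U.toScheme
  exact isIntegral_of_isOpenImmersion U.ι

/-- Dehomogenisation `x₀ ↦ 1`, `xᵢ₊₁ ↦ xᵢ`. -/
def dehom (n : ℕ) : Rn (n + 1) →ₐ[ℂ] Rn n := aeval (Fin.cases 1 X)

theorem quasiProjective_opn {n : ℕ} (U : (SpecR n).Opens) : IsQuasiProjective (opn U) := by
  let _ := MvPolynomial.gradedAlgebra (σ := Fin (n + 1)) (R := ℂ)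
  let 𝒜 := MvPolynomial.homogeneousSubmodule (Fin (n + 1)) ℂ
  have hX : ∀ i : Fin (n + 1), (X i : Rn (n + 1)) ∈ 𝒜 1 := fun i => isHomogeneous_X ℂ i
  have hv : (dehom n).toRingHom (X 0) * 1 = 1 := by simp [dehom]
  have hu : IsUnit ((dehom n).toRingHom (X 0)) := isUnit_iff_exists_inv.mpr ⟨1, hv⟩
  let φ : HomogeneousLocalization.Away 𝒜 (X 0) →+* Rn n :=
    (Localization.awayLift (dehom n).toRingHom (X 0) hu).comp
      (algebraMap (HomogeneousLocalization.Away 𝒜 (X 0)) (Localization.Away (X 0 : Rn (n + 1))))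
  have hφC : ∀ c : ℂ, φ (HomogeneousLocalization.fromZeroRingHom 𝒜 _ (algebraMap ℂ (𝒜 0) c)) =
      algebraMap ℂ (Rn n) c := by
    intro c
    have h := Localization.awayLift_mk (dehom n).toRingHom (X 0) (C c) 1 hv 0
    have h2 : (dehom n).toRingHom (C c) * 1 ^ 0 = algebraMap ℂ (Rn n) c := by simp [dehom]
    rw [h2] at h
    exact h
  have hφX : ∀ i : Fin n, φ (HomogeneousLocalization.Away.mk 𝒜 (hX 0) 1 (X i.succ)
      (by simpa using hX i.succ)) = X i := by
    intro i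
    have h := Localization.awayLift_mk (dehom n).toRingHom (X 0) (X i.succ) 1 hv 1
    have h2 : (dehom n).toRingHom (X i.succ) * 1 ^ 1 = X i := by simp [dehom]
    rw [h2] at h
    exact h
  have hsurj : Function.Surjective φ := by
    intro r
    induction r using MvPolynomial.induction_on with
    | C c => exact ⟨_, hφC c⟩
    | add p q hp hq =>
      obtain ⟨a, rfl⟩ := hp
      obtain ⟨b, rfl⟩ := hq
      exact ⟨a + b, map_add _ _ _⟩
    | mul_X p i hp =>
      obtain ⟨a, rfl⟩ := hp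
      exact ⟨a * _, by rw [map_mul, hφX i]⟩
  have hcl : IsClosedImmersion (Spec.map (CommRingCat.ofHom φ)) :=
    IsClosedImmersion.spec_of_surjective _ hsurj
  refine ⟨n, Over.homMk (U.ι ≫ Spec.map (CommRingCat.ofHom φ) ≫
    Proj.awayι 𝒜 (X 0) (hX 0) one_pos) ?_, ?_⟩
  · change (U.ι ≫ Spec.map (CommRingCat.ofHom φ) ≫ Proj.awayι 𝒜 (X 0) (hX 0) one_pos) ≫
      (Proj.toSpecZero 𝒜 ≫ Spec.map (CommRingCat.ofHom (algebraMap ℂ (𝒜 0)))) = U.ι ≫ strMap n
    simp only [Category.assoc]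
    rw [Proj.awayι_toSpecZero_assoc, ← Spec.map_comp, ← Spec.map_comp]
    congr 2
    exact CommRingCat.hom_ext (RingHom.ext hφC)
  · change IsImmersion (U.ι ≫ Spec.map (CommRingCat.ofHom φ) ≫
      Proj.awayι 𝒜 (X 0) (hX 0) one_pos)
    infer_instance

/-- The morphism of affine spaces attached to an algebra map. -/
abbrev algMap {A : Type} [CommRing A] [Algebra ℂ A] {n : ℕ} (ψ : Rn n →ₐ[ℂ] A) :
    Spec (CommRingCat.of A) ⟶ SpecR n :=
  Spec.map (CommRingCat.ofHom ψ.toRingHom)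

theorem algMap_strMap {A : Type} [CommRing A] [Algebra ℂ A] {n : ℕ} (ψ : Rn n →ₐ[ℂ] A) :
    algMap ψ ≫ strMap n = Spec.map (CommRingCat.ofHom (algebraMap ℂ A)) := by
  rw [← Spec.map_comp]
  congr 1
  ext c
  exact ψ.commutes c

theorem algMap_mem_basicOpen {A : Type} [CommRing A] [Algebra ℂ A] {n : ℕ} (ψ : Rn n →ₐ[ℂ] A)
    (x : Spec (CommRingCat.of A)) (r : Rn n) :
    algMap ψ x ∈ PrimeSpectrum.basicOpen r ↔ ψ r ∉ x.asIdeal := Iff.rfl

theorem range_sub {n : ℕ} (U : (SpecR n).Opens) {T : Scheme.{0}} (g : T ⟶ SpecR n)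
    (h : ∀ x, g x ∈ U) : Set.range g ⊆ Set.range U.ι := by
  rintro _ ⟨x, rfl⟩
  rw [Scheme.Opens.range_ι]
  exact h x

/-- A morphism between open subschemes of affine spaces. -/
def liftHom {m n : ℕ} (V : (SpecR m).Opens) (U : (SpecR n).Opens) (ψ : Rn n →ₐ[ℂ] Rn m)
    (h : ∀ x ∈ V, algMap ψ x ∈ U) : opn V ⟶ opn U :=
  Over.homMk (IsOpenImmersion.lift U.ι (V.ι ≫ algMap ψ)
    (range_sub U _ fun x => h x.1 x.2)) (by
    change IsOpenImmersion.lift U.ι (V.ι ≫ algMap ψ) _ ≫ U.ι ≫ strMap n = V.ι ≫ strMap m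
    rw [IsOpenImmersion.lift_fac_assoc, Category.assoc, algMap_strMap])

theorem liftHom_ι {m n : ℕ} (V : (SpecR m).Opens) (U : (SpecR n).Opens) (ψ : Rn n →ₐ[ℂ] Rn m)
    (h : ∀ x ∈ V, algMap ψ x ∈ U) : (liftHom V U ψ h).left ≫ U.ι = V.ι ≫ algMap ψ :=
  IsOpenImmersion.lift_fac _ _ _

/-- A complex point of an open subscheme of affine space. -/
def pointOf {n : ℕ} (U : (SpecR n).Opens) (ψ : Rn n →ₐ[ℂ] ℂ) (h : ∀ x, algMap ψ x ∈ U) :
    CPoint (opn U) :=
  Over.homMk (IsOpenImmersion.lift U.ι (algMap ψ) (range_sub U _ h)) (by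
    change IsOpenImmersion.lift U.ι (algMap ψ) (range_sub U _ h) ≫ U.ι ≫ strMap n = 𝟙 SpecC
    rw [IsOpenImmersion.lift_fac_assoc, algMap_strMap]
    simp)

theorem pointOf_ι {n : ℕ} (U : (SpecR n).Opens) (ψ : Rn n →ₐ[ℂ] ℂ) (h : ∀ x, algMap ψ x ∈ U) :
    (pointOf U ψ h).left ≫ U.ι = algMap ψ :=
  IsOpenImmersion.lift_fac _ _ _

theorem algMap_comp {A : Type} [CommRing A] [Algebra ℂ A] {m n : ℕ} (ψ : Rn n →ₐ[ℂ] Rn m)
    (χ : Rn m →ₐ[ℂ] A) : algMap χ ≫ algMap ψ = algMap (χ.comp ψ) := by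
  rw [← Spec.map_comp]
  rfl

theorem algMap_injective {A : Type} [CommRing A] [Algebra ℂ A] {n : ℕ} {ψ χ : Rn n →ₐ[ℂ] A}
    (h : algMap ψ = algMap χ) : ψ = χ := by
  have h1 := Spec.map_injective h
  ext1 i
  exact congrArg (fun f : CommRingCat.of (Rn n) ⟶ CommRingCat.of A => f.hom (X i)) h1

theorem cpoint_ext {n : ℕ} {U : (SpecR n).Opens} {T : Over SpecC} {p q : T ⟶ opn U}
    (h : p.left ≫ U.ι = q.left ≫ U.ι) : p = q := by
  ext1
  exact (cancel_mono U.ι).mp h

/-- Every complex point comes from an algebra map. -/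
theorem exists_algHom {n : ℕ} {U : (SpecR n).Opens} (p : CPoint (opn U)) :
    ∃ ψ : Rn n →ₐ[ℂ] ℂ, p.left ≫ U.ι = algMap ψ := by
  let φ : CommRingCat.of (Rn n) ⟶ CommRingCat.of ℂ := Spec.preimage (p.left ≫ U.ι)
  have hφ : Spec.map φ = p.left ≫ U.ι := Spec.map_preimage _
  have hw : p.left ≫ U.ι ≫ strMap n = 𝟙 SpecC := Over.w p
  have h2 : Spec.map (CommRingCat.ofHom (algebraMap ℂ (Rn n)) ≫ φ) = Spec.map (𝟙 _) := by
    rw [Spec.map_comp, hφ, Category.assoc, Spec.map_id]
    exact hw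
  have h3 := Spec.map_injective h2
  refine ⟨{ φ.hom with commutes' := fun c => ?_ }, hφ.symm⟩
  exact congrArg (fun f : CommRingCat.of ℂ ⟶ CommRingCat.of ℂ => f.hom c) h3

theorem mem_top {X : Over SpecC} (p : CPoint X) : p.Mem ⊤ := by
  simp [CPoint.Mem]

/-- The regular function on `U` given by a polynomial. -/
def sec {n : ℕ} (U : (SpecR n).Opens) (r : Rn n) : Γ((opn U).left, ⊤) :=
  U.ι.appTop ((Scheme.ΓSpecIso (CommRingCat.of (Rn n))).inv r)

theorem eval_sec {n : ℕ} {U : (SpecR n).Opens} (p : CPoint (opn U)) {ψ : Rn n →ₐ[ℂ] ℂ}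
    (h : p.left ≫ U.ι = algMap ψ) (r : Rn n) : p.eval ⊤ (sec U r) = ψ r := by
  rw [CPoint.eval, dif_pos (mem_top p)]
  have h1 : p.left.appLE ⊤ ⊤ (mem_top p) = p.left.appTop := Scheme.Hom.appLE_eq_app _
  have h2 : U.ι.appTop ≫ p.left.appTop = (algMap ψ).appTop := by
    rw [← h]; exact (Scheme.Hom.comp_appTop _ _).symm
  have h3 := Scheme.ΓSpecIso_naturality (CommRingCat.ofHom ψ.toRingHom)
  have h4 : (Scheme.ΓSpecIso (CommRingCat.of (Rn n))).inv ≫ U.ι.appTop ≫ p.left.appTop ≫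
      (Scheme.ΓSpecIso (CommRingCat.of ℂ)).hom = CommRingCat.ofHom ψ.toRingHom := by
    rw [reassoc_of% h2, h3, Iso.inv_hom_id_assoc]
  rw [h1]
  exact congrArg (fun f : CommRingCat.of (Rn n) ⟶ CommRingCat.of ℂ => f.hom r) h4

end

end Pool.Agent.P.MP_dc0411_ag
end

-- part Pool.Agent.P.MP_dc0411_ag.Picard
section

/-!
Bloch's theorem for entire functions and the little Picard theorem.
-/

open Metric Set Complex Filter Topology

namespace Pool.Agent.P.MP_dc0411_ag

theorem exists_log {f : ℂ → ℂ} (hf : Differentiable ℂ f) (h0 : ∀ z, f z ≠ 0) :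
    ∃ g : ℂ → ℂ, Differentiable ℂ g ∧ ∀ z, exp (g z) = f z := by
  have hd : Differentiable ℂ (fun z => deriv f z / f z) :=
    (hf.deriv).div hf h0
  obtain ⟨G, hG⟩ := hd.isExactOn_univ
  have hG' : ∀ z, HasDerivAt G (deriv f z / f z) z := fun z => hG z (mem_univ z)
  have hGd : Differentiable ℂ G := fun z => (hG' z).differentiableAt
  have hk : ∀ z, HasDerivAt (fun z => f z * exp (-G z)) 0 z := by
    intro z
    have h1 := (hf z).hasDerivAt
    have h2 : HasDerivAt (fun z => exp (-G z)) (exp (-G z) * (-(deriv f z / f z))) z :=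
      (hG' z).neg.cexp
    have h3 : HasDerivAt (fun z => f z * exp (-G z))
        (deriv f z * exp (-G z) + f z * (exp (-G z) * (-(deriv f z / f z)))) z := h1.mul h2
    have h4 : deriv f z * exp (-G z) + f z * (exp (-G z) * (-(deriv f z / f z))) = 0 := by
      have := h0 z
      field_simp
      ring
    rwa [h4] at h3
  have hc : ∀ z, f z * exp (-G z) = f 0 * exp (-G 0) := fun z =>
    is_const_of_deriv_eq_zero (fun z => (hk z).differentiableAt) (fun z => (hk z).deriv) z 0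
  have hc0 : f 0 * exp (-G 0) ≠ 0 := mul_ne_zero (h0 0) (exp_ne_zero _)
  refine ⟨fun z => G z + log (f 0 * exp (-G 0)), hGd.add_const _, fun z => ?_⟩
  rw [exp_add, exp_log hc0, ← hc z, exp_neg]
  have := exp_ne_zero (G z)
  field_simp

theorem bloch_entire {g : ℂ → ℂ} (hg : Differentiable ℂ g) {a : ℂ} (ha : deriv g a ≠ 0)
    (R : ℝ) : ∃ w, ball w R ⊆ range g := by
  have hA0 : 0 < ‖deriv g a‖ := norm_pos_iff.mpr ha
  set ρ : ℝ := (100 * |R| + 1) / ‖deriv g a‖ with hρ
  have hρ0 : 0 < ρ := by positivity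
  have hd : Differentiable ℂ (deriv g) := hg.deriv
  have hcont : ContinuousOn (fun z => (ρ - ‖z - a‖) * ‖deriv g z‖) (closedBall a ρ) := by
    have := hd.continuous
    fun_prop
  obtain ⟨p, hp, hmax⟩ := (isCompact_closedBall a ρ).exists_isMaxOn
    ⟨a, mem_closedBall_self hρ0.le⟩ hcont
  have hM : ρ * ‖deriv g a‖ ≤ (ρ - ‖p - a‖) * ‖deriv g p‖ := by
    have := hmax (mem_closedBall_self hρ0.le)
    simpa using this
  have hρA : ρ * ‖deriv g a‖ = 100 * |R| + 1 := by
    rw [hρ]; field_simp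
  set A := deriv g p with hA
  set t : ℝ := (ρ - ‖p - a‖) / 2 with ht
  have hpa : ‖p - a‖ ≤ ρ := by simpa [dist_eq_norm] using hp
  have hpos : 0 < (ρ - ‖p - a‖) * ‖A‖ := by
    have : 0 < 100 * |R| + 1 := by positivity
    linarith
  have ht0 : 0 < t := by
    rcases (pos_and_pos_or_neg_and_neg_of_mul_pos hpos) with h | h
    · rw [ht]; linarith [h.1]
    · linarith [h.2, norm_nonneg A]
  have hApos : 0 < ‖A‖ := by
    rcases (pos_and_pos_or_neg_and_neg_of_mul_pos hpos) with h | h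
    · exact h.2
    · linarith [h.2, norm_nonneg A]
  have hbound : ∀ z ∈ ball p t, ‖deriv g z‖ ≤ 2 * ‖A‖ := by
    intro z hz
    have hz1 : ‖z - p‖ < t := by simpa [dist_eq_norm] using hz
    have hz2 : ‖z - a‖ ≤ ρ - t := by
      have : ‖z - a‖ ≤ ‖z - p‖ + ‖p - a‖ := by
        simpa using norm_add_le (z - p) (p - a)
      rw [ht] at hz1 ⊢
      linarith
    have hz3 : z ∈ closedBall a ρ := by
      simp only [mem_closedBall, dist_eq_norm]; linarith
    have h1 : (ρ - ‖z - a‖) * ‖deriv g z‖ ≤ (ρ - ‖p - a‖) * ‖A‖ := hmax hz3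
    have h2 : t * ‖deriv g z‖ ≤ (ρ - ‖z - a‖) * ‖deriv g z‖ :=
      mul_le_mul_of_nonneg_right (by linarith) (norm_nonneg _)
    have h3 : (ρ - ‖p - a‖) * ‖A‖ = t * (2 * ‖A‖) := by rw [ht]; ring
    exact le_of_mul_le_mul_left (by linarith) ht0
  have hmaps : MapsTo (deriv g) (ball p t) (closedBall (deriv g p) (3 * ‖A‖)) := by
    intro z hz
    simp only [mem_closedBall, dist_eq_norm]
    have := norm_sub_le (deriv g z) A
    have := hbound z hz
    linarith
  have hsch : ∀ z ∈ ball p t, ‖deriv g z - A‖ ≤ 3 * ‖A‖ / t * ‖z - p‖ := by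
    intro z hz
    have := dist_le_div_mul_dist_of_mapsTo_ball hd.differentiableOn hmaps hz
    simpa [dist_eq_norm] using this
  set r : ℝ := t / 6 with hr
  have hr0 : 0 < r := by positivity
  have hmv : ∀ z ∈ closedBall p r, ‖(g z - A * z) - (g p - A * p)‖ ≤ ‖A‖ / 2 * ‖z - p‖ := by
    intro z hz
    have hdiff : ∀ x, HasDerivAt (fun z => g z - A * z) (deriv g x - A) x := by
      intro x
      have h5 : HasDerivAt (fun z => g z - A * z) (deriv g x - A * 1) x :=
        (hg x).hasDerivAt.sub ((hasDerivAt_id x).const_mul A)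
      rwa [mul_one] at h5
    refine Convex.norm_image_sub_le_of_norm_deriv_le (f := fun z => g z - A * z)
      (fun x _ => (hdiff x).differentiableAt) (fun x hx => ?_) (convex_closedBall p r)
      (mem_closedBall_self hr0.le) hz
    rw [(hdiff x).deriv]
    have hx1 : ‖x - p‖ ≤ r := by simpa [dist_eq_norm] using hx
    have hx2 : x ∈ ball p t := by
      simp only [mem_ball, dist_eq_norm]; rw [hr] at hx1; linarith
    calc ‖deriv g x - A‖ ≤ 3 * ‖A‖ / t * ‖x - p‖ := hsch x hx2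
      _ ≤ 3 * ‖A‖ / t * r := by gcongr
      _ = ‖A‖ / 2 := by rw [hr]; field_simp; norm_num
  have hlow : ∀ z ∈ closedBall p r, ‖A‖ / 2 * ‖z - p‖ ≤ ‖g z - g p‖ := by
    intro z hz
    have h1 := hmv z hz
    have h2 : A * (z - p) = (g z - g p) - ((g z - A * z) - (g p - A * p)) := by ring
    have h3 : ‖A‖ * ‖z - p‖ ≤ ‖g z - g p‖ + ‖(g z - A * z) - (g p - A * p)‖ := by
      rw [← norm_mul, h2]; exact norm_sub_le _ _
    linarith
  have hsph : ∀ z ∈ sphere p r, ‖A‖ / 2 * r ≤ ‖g z - g p‖ := by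
    intro z hz
    have h1 := hlow z (sphere_subset_closedBall hz)
    have h2 : ‖z - p‖ = r := by simpa [dist_eq_norm] using hz
    rwa [h2] at h1
  have hfreq : ∃ᶠ z in 𝓝 p, g z ≠ g p := by
    have h1 : ∀ᶠ z in 𝓝[≠] p, g z ≠ g p := by
      filter_upwards [mem_nhdsWithin_of_mem_nhds (closedBall_mem_nhds p hr0),
        self_mem_nhdsWithin] with z hz hzp heq
      have h2 := hlow z hz
      rw [heq, sub_self, norm_zero] at h2
      have h3 : 0 < ‖z - p‖ := norm_pos_iff.mpr (sub_ne_zero.mpr hzp)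
      have : 0 < ‖A‖ / 2 * ‖z - p‖ := by positivity
      linarith
    exact h1.frequently.filter_mono nhdsWithin_le_nhds
  have hsub := DiffContOnCl.ball_subset_image_closedBall (hg.diffContOnCl (s := ball p r)) hr0
    hsph hfreq
  refine ⟨g p, (ball_subset_ball ?_).trans (hsub.trans (image_subset_range _ _))⟩
  have h4 : ‖A‖ / 2 * r / 2 = (ρ - ‖p - a‖) * ‖A‖ / 48 := by rw [hr, ht]; ring
  rw [h4]
  have := le_abs_self R
  have := abs_nonneg R
  linarith

theorem exists_cosh_int (w : ℂ) : ∃ v ∈ ball w 10, ∃ n : ℤ, cosh v = n := by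
  obtain ⟨s, hs, n, hn⟩ : ∃ s ∈ Icc |w.re| (|w.re| + 2), ∃ n : ℤ, Real.cosh s = n := by
    set t := |w.re| with ht
    have ht0 : 0 ≤ t := abs_nonneg _
    have h1 : Real.cosh t + 1 ≤ Real.cosh (t + 2) := by
      rw [Real.cosh_add]
      have h2 : 1 ≤ Real.cosh t := Real.one_le_cosh t
      have h3 : 0 ≤ Real.sinh t := Real.sinh_nonneg_iff.mpr ht0
      have h4 : 0 ≤ Real.sinh 2 := Real.sinh_nonneg_iff.mpr (by norm_num)
      have h5 : (2 : ℝ) ≤ Real.cosh 2 := by
        rw [Real.cosh_eq]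
        have := Real.add_one_le_exp (1 : ℝ)
        have h6 : Real.exp 2 = Real.exp 1 * Real.exp 1 := by rw [← Real.exp_add]; norm_num
        have := Real.exp_pos (-2)
        nlinarith
      nlinarith [mul_nonneg h3 h4]
    have hmem : ((⌈Real.cosh t⌉ : ℤ) : ℝ) ∈ Icc (Real.cosh t) (Real.cosh (t + 2)) :=
      ⟨Int.le_ceil _, by linarith [Int.ceil_lt_add_one (Real.cosh t)]⟩
    obtain ⟨s, hs, hs'⟩ := intermediate_value_Icc (by linarith : t ≤ t + 2)
      Real.continuous_cosh.continuousOn hmem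
    exact ⟨s, hs, _, hs'⟩
  obtain ⟨x, hx, hxn⟩ : ∃ x : ℝ, |x - w.re| ≤ 2 ∧ Real.cosh x = n := by
    rcases le_total 0 w.re with h | h
    · rw [abs_of_nonneg h] at hs
      exact ⟨s, abs_le.mpr ⟨by linarith [hs.1], by linarith [hs.2]⟩, hn⟩
    · rw [abs_of_nonpos h] at hs
      exact ⟨-s, abs_le.mpr ⟨by linarith [hs.2], by linarith [hs.1]⟩, by rwa [Real.cosh_neg]⟩
  set m : ℤ := round (w.im / (2 * Real.pi)) with hm
  have hpi := Real.pi_pos
  have hm1 : |w.im - m * (2 * Real.pi)| ≤ 4 := by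
    have h1 := abs_sub_round (w.im / (2 * Real.pi))
    have h2 : w.im - m * (2 * Real.pi) = (w.im / (2 * Real.pi) - m) * (2 * Real.pi) := by
      field_simp
    rw [h2, abs_mul, abs_of_pos (by positivity : 0 < 2 * Real.pi)]
    have := Real.pi_le_four
    have h3 : 0 ≤ |w.im / (2 * Real.pi) - m| := abs_nonneg _
    nlinarith
  refine ⟨x + m * (2 * Real.pi * I), ?_, n, ?_⟩
  · rw [mem_ball, dist_eq_norm]
    refine lt_of_le_of_lt (norm_le_abs_re_add_abs_im _) ?_
    have h1 : ((x : ℂ) + m * (2 * Real.pi * I) - w).re = x - w.re := by simp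
    have h2 : ((x : ℂ) + m * (2 * Real.pi * I) - w).im = -(w.im - m * (2 * Real.pi)) := by simp
    rw [h1, h2, abs_neg]
    linarith
  · rw [cosh_periodic.int_mul m x, ← ofReal_cosh, hxn]
    simp

theorem little_picard {f : ℂ → ℂ} (hf : Differentiable ℂ f) (h0 : ∀ z, f z ≠ 0)
    (h1 : ∀ z, f z ≠ 1) (z w : ℂ) : f z = f w := by
  obtain ⟨L, hL, hLf⟩ := exists_log hf h0
  have hpi : (2 * Real.pi * I : ℂ) ≠ 0 := two_pi_I_ne_zero
  set u : ℂ → ℂ := fun z => L z / (2 * Real.pi * I) with hu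
  have hud : Differentiable ℂ u := hL.div_const _
  have hLu : ∀ z, L z = u z * (2 * Real.pi * I) := fun z => by
    simp only [hu]; field_simp
  have hun : ∀ z (n : ℤ), u z ≠ n := by
    intro z n h
    apply h1 z
    rw [← hLf z, hLu z, h]
    exact exp_int_mul_two_pi_mul_I n
  have hsq : ∀ z, u z ^ 2 - 1 ≠ 0 := by
    intro z h
    have h2 : (u z - 1) * (u z + 1) = 0 := by rw [← h]; ring
    rcases mul_eq_zero.mp h2 with h3 | h3
    · exact hun z 1 (by push_cast; linear_combination h3)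
    · exact hun z (-1) (by push_cast; linear_combination h3)
  obtain ⟨L2, hL2, hL2f⟩ := exists_log (f := fun z => u z ^ 2 - 1) (by fun_prop) hsq
  set v : ℂ → ℂ := fun z => exp (L2 z / 2) with hv
  have hvd : Differentiable ℂ v := by simp only [hv]; fun_prop
  have hv2 : ∀ z, v z ^ 2 = u z ^ 2 - 1 := by
    intro z
    rw [← hL2f z, hv, sq, ← exp_add]
    congr 1; ring
  have hprod : ∀ z, (u z + v z) * (u z - v z) = 1 := by
    intro z; linear_combination -hv2 z
  have huv : ∀ z, u z + v z ≠ 0 := fun z => left_ne_zero_of_mul_eq_one (hprod z)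
  obtain ⟨g, hg, hgf⟩ := exists_log (f := fun z => u z + v z) (hud.add hvd) huv
  have hcosh : ∀ z, cosh (g z) = u z := by
    intro z
    have h2 : exp (-g z) = u z - v z := by
      rw [exp_neg, hgf z]
      exact (eq_inv_of_mul_eq_one_right (hprod z)).symm
    rw [cosh, h2, hgf z]
    ring
  have hg0 : ∀ a, deriv g a = 0 := by
    intro a
    by_contra ha
    obtain ⟨c, hc⟩ := bloch_entire hg ha 10
    obtain ⟨y, hy, n, hn⟩ := exists_cosh_int c
    obtain ⟨x, rfl⟩ := hc hy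
    exact hun x n (by rw [← hcosh, hn])
  have hconst := is_const_of_deriv_eq_zero hg hg0 z w
  rw [← hLf z, ← hLf w, hLu z, hLu w, ← hcosh, ← hcosh, hconst]

/-- An entire function omitting two distinct values is constant. -/
theorem little_picard' {f : ℂ → ℂ} (hf : Differentiable ℂ f) {a b : ℂ} (hab : a ≠ b)
    (h0 : ∀ z, f z ≠ a) (h1 : ∀ z, f z ≠ b) (z w : ℂ) : f z = f w := by
  have hba : b - a ≠ 0 := sub_ne_zero.mpr hab.symm
  have := little_picard (f := fun z => (f z - a) / (b - a)) (by fun_prop)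
    (fun z => div_ne_zero (sub_ne_zero.mpr (h0 z)) hba)
    (fun z h => h1 z (by rw [div_eq_one_iff_eq hba] at h; linear_combination h)) z w
  rw [div_left_inj' hba] at this
  linear_combination this

end Pool.Agent.P.MP_dc0411_ag
end
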