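import Pool.Agent.K.MP_dc0411_ag.C0

/-!
The surface `X = 𝔸² ∖ ({g = 1} ∪ {g = 2} ∪ {g = q = 0})`, `g = xy(x + y)`,
`q = x² + xy + y² - 1`, is Brody hyperbolic, and the lines `s ↦ (as, bs)` with `ab(a + b) = 1`
give infinitely many pointed maps from the curve `{s³ ≠ 1, 2}`.
-/

open CategoryTheory AlgebraicGeometry MvPolynomial

namespace Pool.Agent.P.MP_dc0411_ag

noncomputable section

theorem entire_const {x y : ℂ → ℂ} (hx : Differentiable ℂ x) (hy : Differentiable ℂ y)
    (h1 : ∀ z, x z * y z * (x z + y z) ≠ 1) (h2 : ∀ z, x z * y z * (x z + y z) ≠ 2)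
    (h3 : ∀ z, x z * y z * (x z + y z) ≠ 0 ∨ x z ^ 2 + x z * y z + y z ^ 2 - 1 ≠ 0) (z w : ℂ) :
    x z = x w ∧ y z = y w := by
  have hg := little_picard' (f := fun z => x z * y z * (x z + y z)) (by fun_prop)
    (by norm_num : (1 : ℂ) ≠ 2) h1 h2
  by_cases h0 : x 0 * y 0 * (x 0 + y 0) = 0
  · have hz : ∀ z, x z * y z * (x z + y z) = 0 := fun z => (hg z 0).trans h0
    have hq : ∀ z, x z ^ 2 + x z * y z + y z ^ 2 - 1 ≠ 0 := fun z =>
      (h3 z).resolve_left (not_not.mpr (hz z))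
    have hne : (1 : ℂ) ≠ -1 := by norm_num
    refine ⟨little_picard' hx hne (fun z h => hq z ?_) (fun z h => hq z ?_) z w,
      little_picard' hy hne (fun z h => hq z ?_) (fun z h => hq z ?_) z w⟩
    all_goals
      have := hz z
      rw [h] at this ⊢
    · linear_combination this
    · linear_combination -this
    · linear_combination this
    · linear_combination -this
  · have hz : ∀ z, x z * y z * (x z + y z) ≠ 0 := fun z => by rw [hg z 0]; exact h0
    have hx0 : ∀ z, x z ≠ 0 := fun z h => hz z (by simp [h])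
    have hy0 : ∀ z, y z ≠ 0 := fun z h => hz z (by simp [h])
    have hxy : ∀ z, x z + y z ≠ 0 := fun z h => hz z (by simp [h])
    have hr := little_picard' (f := fun z => x z / y z) (hx.div hy hy0)
      (by norm_num : (0 : ℂ) ≠ -1) (fun z => div_ne_zero (hx0 z) (hy0 z))
      (fun z h => hxy z (by rw [div_eq_iff (hy0 z)] at h; linear_combination h))
    set r := x 0 / y 0 with hrdef
    have hxr : ∀ z, x z = r * y z := fun z => by
      have := hr z 0
      rw [hrdef, ← this, div_mul_cancel₀ _ (hy0 z)]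
    have hyc : y z = y w := by
      refine little_picard' hy (a := 0) (b := 2 * y 0)
        (mul_ne_zero two_ne_zero (hy0 0)).symm hy0 (fun z h => ?_) z w
      have h4 := hg z 0
      apply h0
      rw [hxr z, h, hxr 0] at h4
      rw [hxr 0]
      linear_combination h4 / 7
    exact ⟨by rw [hxr z, hxr w, hyc], hyc⟩

/-- `g = xy(x + y)`. -/
def gP : Rn 2 := X 0 * X 1 * (X 0 + X 1)

/-- `q = x² + xy + y² - 1`. -/
def qP : Rn 2 := X 0 ^ 2 + X 0 * X 1 + X 1 ^ 2 - 1

/-- The surface, an open subset of the affine plane. -/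
def UX : (SpecR 2).Opens :=
  PrimeSpectrum.basicOpen ((gP - 1) * (gP - 2) * gP) ⊔
    PrimeSpectrum.basicOpen ((gP - 1) * (gP - 2) * qP)

/-- The curve, an open subset of the affine line. -/
def VC : (SpecR 1).Opens := PrimeSpectrum.basicOpen (((X 0 : Rn 1) ^ 3 - 1) * (X 0 ^ 3 - 2))

theorem algMap_mem_UX {A : Type} [CommRing A] [Algebra ℂ A] (ψ : Rn 2 →ₐ[ℂ] A)
    (x : Spec (CommRingCat.of A)) :
    algMap ψ x ∈ UX ↔ ψ ((gP - 1) * (gP - 2) * gP) ∉ x.asIdeal ∨
      ψ ((gP - 1) * (gP - 2) * qP) ∉ x.asIdeal := Iff.rfl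

theorem not_mem_of_ne_zero (x : Spec (CommRingCat.of ℂ)) {c : ℂ} : c ∉ x.asIdeal ↔ c ≠ 0 := by
  have h : x.asIdeal = ⊥ := by
    rcases Ideal.eq_bot_or_top x.asIdeal with h | h
    · exact h
    · exact absurd h x.isPrime.ne_top
  rw [h]
  exact Ideal.mem_bot.not

theorem brody : BrodyHyperbolic (opn UX) := by
  intro f hf z w
  choose ψ hψ using fun z => exists_algHom (f z)
  have hd : ∀ r : Rn 2, Differentiable ℂ (fun z => ψ z r) := by
    intro r
    have h := (hf ⊤).2 (sec UX r)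
    have huniv : {z | (f z).Mem ⊤} = Set.univ := Set.eq_univ_of_forall fun z => mem_top _
    rw [huniv, differentiableOn_univ] at h
    have h2 : (fun z => (f z).eval ⊤ (sec UX r)) = fun z => ψ z r :=
      funext fun z => eval_sec (f z) (hψ z) r
    rwa [h2] at h
  have hmem : ∀ z, ψ z ((gP - 1) * (gP - 2) * gP) ≠ 0 ∨ ψ z ((gP - 1) * (gP - 2) * qP) ≠ 0 := by
    intro z
    let x : Spec (CommRingCat.of ℂ) := IsLocalRing.closedPoint ℂ
    have h : algMap (ψ z) x ∈ UX := by
      rw [← hψ z]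
      exact ((f z).left x).2
    rw [algMap_mem_UX, not_mem_of_ne_zero, not_mem_of_ne_zero] at h
    exact h
  have key := entire_const (hd (X 0)) (hd (X 1)) (fun z h => ?_) (fun z h => ?_) (fun z => ?_) z w
  · apply cpoint_ext
    rw [hψ z, hψ w]
    congr 1
    ext1 i
    fin_cases i
    · exact key.1
    · exact key.2
  · rcases hmem z with h' | h' <;> apply h' <;> simp [gP, h]
  · rcases hmem z with h' | h' <;> apply h' <;> simp [gP, h, map_ofNat]
  · rcases hmem z with h' | h'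
    · left
      intro h
      apply h'
      simp only [gP, map_mul, map_add, h, mul_zero]
    · right
      intro h
      apply h'
      have : ψ z qP = 0 := by simpa [qP] using h
      simp only [map_mul, this, mul_zero]

/-- The line `s ↦ (as, bs)`. -/
def lineHom (a b : ℂ) : Rn 2 →ₐ[ℂ] Rn 1 := aeval ![C a * X 0, C b * X 0]

theorem line_mem {a b : ℂ} (hab : a * b * (a + b) = 1) (x : SpecR 1) (hx : x ∈ VC) :
    algMap (lineHom a b) x ∈ UX := by
  have hx' : ((X 0 : Rn 1) ^ 3 - 1) * (X 0 ^ 3 - 2) ∉ x.asIdeal := hx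
  have hC : (C a * C b * (C a + C b) : Rn 1) = 1 := by
    rw [← C_add, ← C_mul, ← C_mul, hab, C_1]
  have hg : lineHom a b gP = X 0 ^ 3 := by
    simp only [lineHom, gP, map_mul, map_add, aeval_X, Matrix.cons_val_zero, Matrix.cons_val_one]
    linear_combination (X 0 : Rn 1) ^ 3 * hC
  have hq : lineHom a b qP = (C a ^ 2 + C a * C b + C b ^ 2) * X 0 * X 0 - 1 := by
    simp only [lineHom, qP, map_mul, map_add, map_sub, map_pow, map_one, aeval_X,
      Matrix.cons_val_zero, Matrix.cons_val_one]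
    ring
  rw [algMap_mem_UX]
  simp only [map_mul, map_sub, map_one, map_ofNat, hg, hq]
  by_cases hs : (X 0 : Rn 1) ∈ x.asIdeal
  · right
    intro h
    rcases x.isPrime.mem_or_mem h with h | h
    · exact hx' h
    · apply x.isPrime.ne_top
      rw [Ideal.eq_top_iff_one]
      have := x.asIdeal.sub_mem
        (x.asIdeal.mul_mem_left ((C a ^ 2 + C a * C b + C b ^ 2) * X 0) hs) h
      simpa using this
  · left
    intro h
    rcases x.isPrime.mem_or_mem h with h | h
    · exact hx' h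
    · exact hs (x.isPrime.mem_of_pow_mem 3 h)

theorem ev_mem_VC (t : ℂ) (ht : (t ^ 3 - 1) * (t ^ 3 - 2) ≠ 0) (x : Spec (CommRingCat.of ℂ)) :
    algMap (aeval ![t] : Rn 1 →ₐ[ℂ] ℂ) x ∈ VC := by
  refine (algMap_mem_basicOpen _ x _).mpr ((not_mem_of_ne_zero x).mpr ?_)
  simpa [map_ofNat] using ht

theorem origin_mem (x : Spec (CommRingCat.of ℂ)) :
    algMap (aeval ![0, 0] : Rn 2 →ₐ[ℂ] ℂ) x ∈ UX := by
  rw [algMap_mem_UX, not_mem_of_ne_zero, not_mem_of_ne_zero]
  right
  simp [gP, qP, map_ofNat]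

theorem exists_b (a : ℂ) (ha : a ≠ 0) : ∃ b, a * b * (a + b) = 1 := by
  obtain ⟨d, hd⟩ := IsAlgClosed.exists_eq_mul_self (a ^ 4 + 4 * a)
  refine ⟨(-a ^ 2 + d) / (2 * a), ?_⟩
  field_simp
  linear_combination -hd

theorem not_pointedFinite : ¬ PointedFinite (opn UX) := by
  intro h
  have h0 : ((0 : ℂ) ^ 3 - 1) * (0 ^ 3 - 2) ≠ 0 := by norm_num
  have h2 : ((2 : ℂ) ^ 3 - 1) * (2 ^ 3 - 2) ≠ 0 := by norm_num
  let c := pointOf VC _ (ev_mem_VC 0 h0)
  let c2 := pointOf VC _ (ev_mem_VC 2 h2)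
  let x := pointOf UX _ origin_mem
  have hint : IsIntegral (opn VC).left :=
    integral_opn VC ⟨_, ev_mem_VC 0 h0 (IsLocalRing.closedPoint ℂ)⟩
  have hfin := h (opn VC) (quasiProjective_opn VC) (smooth_opn VC) inferInstance c x
  have hne : ∀ n : ℕ, ((n : ℂ) + 1) ≠ 0 := fun n => Nat.cast_add_one_ne_zero n
  choose b hb using fun n : ℕ => exists_b _ (hne n)
  let F : ℕ → (opn VC ⟶ opn UX) := fun n =>
    liftHom VC UX (lineHom (n + 1) (b n)) (line_mem (hb n))
  have hcomp : ∀ (n : ℕ) (t : ℂ) (ht : (t ^ 3 - 1) * (t ^ 3 - 2) ≠ 0),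
      (pointOf VC _ (ev_mem_VC t ht) ≫ F n).left ≫ UX.ι =
        algMap ((aeval ![t] : Rn 1 →ₐ[ℂ] ℂ).comp (lineHom (n + 1) (b n))) := by
    intro n t ht
    have e1 := liftHom_ι VC UX (lineHom (n + 1) (b n)) (line_mem (hb n))
    have e2 := pointOf_ι VC _ (ev_mem_VC t ht)
    rw [← algMap_comp, ← e2, Category.assoc, ← e1]
    rfl
  refine Set.infinite_of_injective_forall_mem (f := F) ?_ ?_ hfin
  · intro m n hmn
    have e := hcomp m 2 h2
    rw [hmn, hcomp n 2 h2] at e
    have e' := congrArg (fun χ : Rn 2 →ₐ[ℂ] ℂ => χ (X 0)) (algMap_injective e)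
    simp [lineHom] at e'
    exact e'.symm
  · intro n
    apply cpoint_ext
    rw [hcomp n 0 h0, pointOf_ι]
    congr 1
    ext1 i
    fin_cases i <;> simp [lineHom]

theorem integral_X : IsIntegral (opn UX).left :=
  integral_opn UX ⟨_, origin_mem (IsLocalRing.closedPoint ℂ)⟩

end

end Pool.Agent.P.MP_dc0411_ag
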