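import Mathlib
import Pool.Agent.P.MP_dc0411_ag.LcDefs
import Pool.Agent.K.MP_dc0411_ag.C0

-- part Pool.Agent.P.MP_dc0411_ag.LcMH
section

/-!
Multi-homogeneous polynomials, charts of a product of projective spaces, Jacobian determinants.
-/

set_option linter.unusedSectionVars false

open MvPolynomial

namespace Pool.Agent.P.MP_dc0411_ag

noncomputable section

variable {V G R : Type} [Fintype V] [DecidableEq V] [Fintype G] [DecidableEq G]

/-- `p` is multi-homogeneous of multi-degree `d`; the variable `v` belongs to the group `g v`. -/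
def MH (g : V → G) (p : MvPolynomial V ℂ) (d : G → ℕ) : Prop :=
  p.IsWeightedHomogeneous (fun v => (Pi.single (g v) 1 : G → ℕ)) d

/-- A choice of one variable in each group. -/
abbrev Chart (g : V → G) : Type := {I : G → V // ∀ γ, g (I γ) = γ}

/-- The equations of the affine chart `I`. -/
def rel {g : V → G} (F : R → MvPolynomial V ℂ) (I : Chart g) : R ⊕ G → MvPolynomial V ℂ :=
  Sum.elim F fun γ => X (I.1 γ) - 1

/-- The Jacobian determinant of the family `(Q, ζ)`. -/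
def jacDet {ρ : Type} [Fintype ρ] [DecidableEq ρ] {n : ℕ} (e : ρ ⊕ Fin n ≃ V)
    (Q : ρ → MvPolynomial V ℂ) (ζ : Fin n → MvPolynomial V ℂ) : MvPolynomial V ℂ :=
  (Matrix.of fun i j => pderiv (e j) (Sum.elim Q ζ i)).det

variable {g : V → G} {p q : MvPolynomial V ℂ} {d d' : G → ℕ}

theorem MH.X (g : V → G) (v : V) : MH g (X v) (Pi.single (g v) 1) := by
  exact isWeightedHomogeneous_X ℂ (fun v => (Pi.single (g v) 1 : G → ℕ)) v

theorem MH.C (g : V → G) (a : ℂ) : MH g (C a) 0 := by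
  exact isWeightedHomogeneous_C _ a

theorem MH.one (g : V → G) : MH g 1 0 := by
  exact isWeightedHomogeneous_one ℂ _

theorem MH.add (hp : MH g p d) (hq : MH g q d) : MH g (p + q) d := by
  exact IsWeightedHomogeneous.add hp hq

theorem MH.sub (hp : MH g p d) (hq : MH g q d) : MH g (p - q) d := by
  exact IsWeightedHomogeneous.sub hp hq

theorem MH.mul (hp : MH g p d) (hq : MH g q d') : MH g (p * q) (d + d') := by
  exact IsWeightedHomogeneous.mul hp hq

theorem MH.pow (hp : MH g p d) (k : ℕ) : MH g (p ^ k) (k • d) := by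
  exact IsWeightedHomogeneous.pow hp k

theorem MH.C_mul (hp : MH g p d) (a : ℂ) : MH g (MvPolynomial.C a * p) d := by
  exact IsWeightedHomogeneous.C_mul hp a

theorem MH.prod {ι : Type} (s : Finset ι) {f : ι → MvPolynomial V ℂ} {e : ι → G → ℕ}
    (h : ∀ i ∈ s, MH g (f i) (e i)) : MH g (∏ i ∈ s, f i) (∑ i ∈ s, e i) := by
  exact IsWeightedHomogeneous.prod s f e h

theorem MH.of_eq (hp : MH g p d) (h : d = d') : MH g p d' := h ▸ hp

theorem lcmh_weight (hp : MH g p d) {s : V →₀ ℕ} (hs : coeff s p ≠ 0) (γ : G) :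
    ∑ v, (if g v = γ then s v else 0) = d γ := by
  have h := hp hs
  rw [Finsupp.weight_eq_sum] at h
  rw [← h, Finset.sum_apply]
  refine Finset.sum_congr rfl fun v _ => ?_
  by_cases hv : g v = γ
  · simp [hv]
  · simp [hv, Ne.symm hv]

theorem lcmh_prod_pow {A : Type} [CommRing A] (hp : MH g p d) {s : V →₀ ℕ} (hs : coeff s p ≠ 0)
    (c : G → A) : ∏ v, c (g v) ^ s v = ∏ γ, c γ ^ d γ := by
  have h : ∀ γ, c γ ^ d γ = ∏ v, (if g v = γ then c (g v) ^ s v else 1) := by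
    intro γ
    rw [← lcmh_weight hp hs γ, ← Finset.prod_pow_eq_pow_sum]
    refine Finset.prod_congr rfl fun v _ => ?_
    by_cases hv : g v = γ
    · simp [hv]
    · simp [hv]
  simp_rw [h]
  rw [Finset.prod_comm]
  refine Finset.prod_congr rfl fun v _ => ?_
  simp

theorem lcmh_aeval_monomial {σ A : Type} [CommRing A] [Algebra ℂ A] (c x : σ → A)
    (s : σ →₀ ℕ) (a : ℂ) :
    aeval (fun v => c v * x v) (monomial s a) =
      (s.prod fun v k => c v ^ k) * aeval x (monomial s a) := by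
  rw [aeval_monomial, aeval_monomial]
  simp only [mul_pow, Finsupp.prod_mul]
  ring

theorem MH.isHomogeneous (hp : MH g p d) : p.IsHomogeneous (∑ γ, d γ) := by
  intro s hs
  rw [Finsupp.weight_eq_sum]
  simp_rw [← lcmh_weight hp hs]
  rw [Finset.sum_comm]
  refine Finset.sum_congr rfl fun v _ => ?_
  simp

theorem MH.scale {A : Type} [CommRing A] [Algebra ℂ A] (hp : MH g p d) (c : G → A) (x : V → A) :
    aeval (fun v => c (g v) * x v) p = (∏ γ, c γ ^ d γ) * aeval x p := by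
  conv_lhs => rw [p.as_sum]
  conv_rhs => rw [p.as_sum]
  rw [map_sum, map_sum, Finset.mul_sum]
  refine Finset.sum_congr rfl fun s hs => ?_
  rw [lcmh_aeval_monomial (fun v => c (g v)) x, Finsupp.prod_fintype _ _ (by simp),
    lcmh_prod_pow hp (mem_support_iff.1 hs)]

theorem MH.scale_pderiv {A : Type} [CommRing A] [Algebra ℂ A] (hp : MH g p d) (c : G → A)
    (x : V → A) (v : V) :
    c (g v) * aeval (fun v => c (g v) * x v) (pderiv v p) =
      (∏ γ, c γ ^ d γ) * aeval x (pderiv v p) := by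
  conv_lhs => rw [p.as_sum]
  conv_rhs => rw [p.as_sum]
  rw [map_sum, map_sum, map_sum, Finset.mul_sum, Finset.mul_sum]
  refine Finset.sum_congr rfl fun s hs => ?_
  rw [pderiv_monomial]
  by_cases h0 : s v = 0
  · simp [h0]
  rw [lcmh_aeval_monomial (fun v => c (g v)) x, Finsupp.prod_fintype _ _ (by simp),
    ← lcmh_prod_pow hp (mem_support_iff.1 hs), ← mul_assoc]
  congr 1
  rw [← Finset.mul_prod_erase Finset.univ _ (Finset.mem_univ v),
    ← Finset.mul_prod_erase Finset.univ (fun u => c (g u) ^ s u) (Finset.mem_univ v), ← mul_assoc]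
  congr 1
  · obtain ⟨k, hk⟩ := Nat.exists_eq_succ_of_ne_zero h0
    simp [hk, pow_succ']
  · refine Finset.prod_congr rfl fun u hu => ?_
    simp [(Finset.ne_of_mem_erase hu).symm]

/-- Euler identity in the group `γ`. -/
theorem MH.euler {A : Type} [CommRing A] [Algebra ℂ A] (hp : MH g p d) (x : V → A) (γ : G) :
    ∑ v, (if g v = γ then x v else 0) * aeval x (pderiv v p) = (d γ : A) * aeval x p := by
  have h : p.IsWeightedHomogeneous (fun v => if g v = γ then 1 else 0) (d γ) := by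
    intro s hs
    rw [Finsupp.weight_eq_sum, ← lcmh_weight hp hs γ]
    refine Finset.sum_congr rfl fun v _ => ?_
    simp
  have h2 := congrArg (aeval x) h.sum_weight_X_mul_pderiv
  rw [map_sum, map_nsmul, nsmul_eq_mul] at h2
  rw [← h2]
  refine Finset.sum_congr rfl fun v _ => ?_
  by_cases hv : g v = γ
  · simp [hv]
  · simp [hv]

/-- Scaling of a homogeneous polynomial. -/
theorem aeval_scale_of_isHomogeneous {σ A : Type} [CommRing A] [Algebra ℂ A]
    {p : MvPolynomial σ ℂ} {n : ℕ} (hp : p.IsHomogeneous n) (c : A) (x : σ → A) :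
    aeval (fun v => c * x v) p = c ^ n * aeval x p := by
  conv_lhs => rw [p.as_sum]
  conv_rhs => rw [p.as_sum]
  rw [map_sum, map_sum, Finset.mul_sum]
  refine Finset.sum_congr rfl fun s hs => ?_
  rw [lcmh_aeval_monomial (fun _ => c) x, Finsupp.prod, Finset.prod_pow_eq_pow_sum,
    hp.degree_eq_sum_deg_support hs]

omit [Fintype G] [DecidableEq G] in
/-- Chain rule. -/
theorem derivation_aeval {A M : Type} [CommRing A] [Algebra ℂ A] [AddCommGroup M] [Module A M]
    [Module ℂ M] (D : Derivation ℂ A M) (x : V → A) (p : MvPolynomial V ℂ) :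
    D (aeval x p) = ∑ v, aeval x (pderiv v p) • D (x v) := by
  induction p using MvPolynomial.induction_on with
  | C a => simp [Derivation.map_algebraMap]
  | add p q hp hq => simp [hp, hq, add_smul, Finset.sum_add_distrib]
  | mul_X p i hp =>
    rw [map_mul, aeval_X, Derivation.leibniz, hp, Finset.smul_sum]
    simp only [Derivation.leibniz, pderiv_X, smul_eq_mul, map_add, map_mul, aeval_X, add_smul,
      Finset.sum_add_distrib, mul_smul]
    congr 1
    rw [Finset.sum_eq_single i]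
    · simp
    · intro b _ hb
      simp [hb.symm]
    · simp

end

end Pool.Agent.P.MP_dc0411_ag
end

-- part Pool.Agent.P.MP_dc0411_ag.LcData
section

/-!
Chart descriptions of closed subschemes of a projective space and of a product of projective
spaces.
-/

set_option linter.unusedSectionVars false

open CategoryTheory AlgebraicGeometry MvPolynomial

namespace Pool.Agent.P.MP_dc0411_ag

noncomputable section

/-- The regular functions on an open subset of a scheme over `ℂ` form a `ℂ`-algebra. -/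
abbrev secAlgebra (Y : Over SpecC) (U : Y.left.Opens) : Algebra ℂ Γ(Y.left, U) := secAlg Y.hom U

/-- Restriction of a regular function to a smaller open subset. -/
abbrev res {Y : Over SpecC} {U W : Y.left.Opens} (h : W ≤ U) (s : Γ(Y.left, U)) : Γ(Y.left, W) :=
  restr h s

attribute [local instance] secAlgebra

/-- The affine scheme of a `ℂ`-algebra. -/
abbrev specOf (A : Type) [CommRing A] [Algebra ℂ A] : Over SpecC :=
  Over.mk (Spec.map (CommRingCat.ofHom (algebraMap ℂ A)) : Spec (CommRingCat.of A) ⟶ SpecC)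

/-- The differential `ds` of a regular function `s`, a Kähler differential over `ℂ`. -/
abbrev dif {Y : Over SpecC} {U : Y.left.Opens} (s : Γ(Y.left, U)) : Ω[Γ(Y.left, U)⁄ℂ] :=
  KaehlerDifferential.D ℂ Γ(Y.left, U) s

/-- Restriction as a homomorphism of `ℂ`-algebras. -/
def resAlg {Y : Over SpecC} {U W : Y.left.Opens} (h : W ≤ U) :
    Γ(Y.left, U) →ₐ[ℂ] Γ(Y.left, W) where
  toRingHom := (Y.left.presheaf.map (homOfLE h).op).hom
  commutes' c := by
    have h1 := Scheme.Hom.appLE_map Y.hom (U := ⊤) (V := U) le_top (homOfLE h).op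
    exact congrArg (fun f : Γ(SpecC, ⊤) ⟶ Γ(Y.left, W) =>
      f.hom ((Scheme.ΓSpecIso (CommRingCat.of ℂ)).inv.hom c)) h1

theorem resAlg_apply {Y : Over SpecC} {U W : Y.left.Opens} (h : W ≤ U) (s : Γ(Y.left, U)) :
    resAlg h s = res h s := rfl

theorem res_res {Y : Over SpecC} {U W T : Y.left.Opens} (h : W ≤ U) (h' : T ≤ W)
    (s : Γ(Y.left, U)) : res h' (res h s) = res (h'.trans h) s := by
  change (Y.left.presheaf.map (homOfLE h).op ≫ Y.left.presheaf.map (homOfLE h').op) s = _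
  rw [← Functor.map_comp]
  rfl

theorem res_aeval {Y : Over SpecC} {U W : Y.left.Opens} (h : W ≤ U) {V : Type}
    (Z : V → Γ(Y.left, U)) (p : MvPolynomial V ℂ) :
    res h (aeval Z p) = aeval (fun v => res h (Z v)) p := by
  rw [← resAlg_apply, ← AlgHom.comp_apply, comp_aeval]
  rfl

theorem basicOpen_res' {Y : Over SpecC} {U W : Y.left.Opens} (h : W ≤ U) (s : Γ(Y.left, U)) :
    Y.left.basicOpen (res h s) = W ⊓ Y.left.basicOpen s :=
  Y.left.basicOpen_res s (homOfLE h).op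

/-- `Y` is the closed subscheme of `Proj ℂ[σ]` defined by the homogeneous ideal `a`. -/
structure PData {σ : Type} (a : Ideal (MvPolynomial σ ℂ)) (Y : Over SpecC) where
  U : σ → Y.left.Opens
  aff : ∀ j, IsAffineOpen (U j)
  cover : ⨆ j, U j = ⊤
  W : ∀ j, σ → Γ(Y.left, U j)
  surj : ∀ j, Function.Surjective (aeval (W j) : MvPolynomial σ ℂ →ₐ[ℂ] Γ(Y.left, U j))
  ker : ∀ j, RingHom.ker (aeval (W j) : MvPolynomial σ ℂ →ₐ[ℂ] Γ(Y.left, U j)) =
    a ⊔ Ideal.span {X j - 1}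
  inter : ∀ j k, Y.left.basicOpen (W j k) = U j ⊓ U k
  trans : ∀ j k i, res (inf_le_left : U j ⊓ U k ≤ U j) (W j i) =
    res inf_le_left (W j k) * res inf_le_right (W k i)
  pts : ∀ (A : Type) [CommRing A] [Algebra ℂ A] (z : σ → A), (∀ p ∈ a, aeval z p = 0) →
    (∀ P : PrimeSpectrum A, ∃ j, z j ∉ P.asIdeal) →
    ∃ f : specOf A ⟶ Y, ∀ (j : σ) (p : MvPolynomial σ ℂ) (n : ℕ), p.IsHomogeneous n →
      ∀ P : PrimeSpectrum A, f.left P ∈ Y.left.basicOpen (aeval (W j) p) ↔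
        z j ∉ P.asIdeal ∧ aeval z p ∉ P.asIdeal

variable {V G R : Type} [Fintype V] [DecidableEq V] [Fintype G] [DecidableEq G]

/-- `Y` is the closed subscheme of a product of projective spaces defined by the
multi-homogeneous equations `F`. -/
structure MPData (g : V → G) (F : R → MvPolynomial V ℂ) (Y : Over SpecC) where
  U : Chart g → Y.left.Opens
  aff : ∀ I, IsAffineOpen (U I)
  cover : ⨆ I, U I = ⊤
  Z : ∀ I, V → Γ(Y.left, U I)
  surj : ∀ I, Function.Surjective (aeval (Z I) : MvPolynomial V ℂ →ₐ[ℂ] Γ(Y.left, U I))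
  ker : ∀ I, RingHom.ker (aeval (Z I) : MvPolynomial V ℂ →ₐ[ℂ] Γ(Y.left, U I)) =
    Ideal.span (Set.range (rel F I))
  inter : ∀ I J : Chart g, Y.left.basicOpen (∏ γ, Z I (J.1 γ)) = U I ⊓ U J
  trans : ∀ (I J : Chart g) (v : V), res (inf_le_left : U I ⊓ U J ≤ U I) (Z I v) =
    res inf_le_left (Z I (J.1 (g v))) * res inf_le_right (Z J v)
  pts : ∀ (A : Type) [CommRing A] [Algebra ℂ A] (z : V → A), (∀ r, aeval z (F r) = 0) →
    (∀ P : PrimeSpectrum A, ∃ I : Chart g, ∀ γ, z (I.1 γ) ∉ P.asIdeal) →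
    ∃ f : specOf A ⟶ Y, ∀ (I : Chart g) (p : MvPolynomial V ℂ) (d : G → ℕ), MH g p d →
      ∀ P : PrimeSpectrum A, f.left P ∈ Y.left.basicOpen (aeval (Z I) p) ↔
        (∀ γ, z (I.1 γ) ∉ P.asIdeal) ∧ aeval z p ∉ P.asIdeal

variable {g : V → G} {F : R → MvPolynomial V ℂ} {Y : Over SpecC}

theorem MPData.Z_self (D : MPData g F Y) (I : Chart g) (γ : G) : D.Z I (I.1 γ) = 1 := by
  have h : rel F I (Sum.inr γ) ∈
      RingHom.ker (aeval (D.Z I) : MvPolynomial V ℂ →ₐ[ℂ] Γ(Y.left, D.U I)) := by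
    rw [D.ker]
    exact Ideal.subset_span ⟨_, rfl⟩
  rw [RingHom.mem_ker] at h
  simpa [rel, sub_eq_zero] using h

theorem MPData.aeval_F (D : MPData g F Y) (I : Chart g) (r : R) : aeval (D.Z I) (F r) = 0 := by
  have h : rel F I (Sum.inl r) ∈
      RingHom.ker (aeval (D.Z I) : MvPolynomial V ℂ →ₐ[ℂ] Γ(Y.left, D.U I)) := by
    rw [D.ker]
    exact Ideal.subset_span ⟨_, rfl⟩
  exact h

/-- The open subset where the local equations `P I` of the boundary do not vanish. -/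
def MPData.intr (D : MPData g F Y) (P : Chart g → MvPolynomial V ℂ) : Y.left.Opens :=
  ⨆ I, Y.left.basicOpen (aeval (D.Z I) (P I))

end

end Pool.Agent.P.MP_dc0411_ag
end

-- part Pool.Agent.P.MP_dc0411_ag.LcQuot
section

/-!
The quotient of a graded algebra by a homogeneous ideal, and the closed immersion of `Proj`.
-/

open CategoryTheory AlgebraicGeometry

namespace Pool.Agent.P.MP_dc0411_ag

noncomputable section

variable {A : Type} [CommRing A] [Algebra ℂ A] (𝒜 : ℕ → Submodule ℂ A) [GradedAlgebra 𝒜]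
  (a : HomogeneousIdeal 𝒜)

/-- The grading of the quotient. -/
def qgr (n : ℕ) : Submodule ℂ (A ⧸ a.toIdeal) :=
  (𝒜 n).map (Ideal.Quotient.mkₐ ℂ a.toIdeal).toLinearMap

theorem mk_mem_qgr {n : ℕ} {x : A} (hx : x ∈ 𝒜 n) :
    Ideal.Quotient.mk a.toIdeal x ∈ qgr 𝒜 a n := ⟨x, hx, rfl⟩

omit [GradedAlgebra 𝒜] in
theorem lcquot_ind {I : Ideal A} (ℬ : ℕ → Submodule ℂ (A ⧸ I))
    (hB : ∀ n, ∀ y ∈ ℬ n, ∃ x ∈ 𝒜 n, Ideal.Quotient.mk I x = y) (z : DirectSum ℕ fun n => ℬ n) :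
    ∃ w : DirectSum ℕ fun n => 𝒜 n, (∀ n, Ideal.Quotient.mk I (w n) = z n) ∧
      Ideal.Quotient.mk I (DirectSum.coeAddMonoidHom 𝒜 w) = DirectSum.coeAddMonoidHom ℬ z := by
  induction z using DirectSum.induction_on with
  | zero => exact ⟨0, fun n => by simp, by simp⟩
  | of n y =>
    obtain ⟨x, hx, e⟩ := hB n y y.2
    refine ⟨DirectSum.of (fun n => 𝒜 n) n ⟨x, hx⟩, fun k => ?_, by simpa using e⟩
    by_cases h : n = k
    · subst h
      simpa using e
    · rw [DirectSum.of_eq_of_ne _ _ _ (Ne.symm h), DirectSum.of_eq_of_ne _ _ _ (Ne.symm h)]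
      simp
  | add z z' h h' =>
    obtain ⟨w, h1, h2⟩ := h
    obtain ⟨w', h1', h2'⟩ := h'
    exact ⟨w + w', fun n => by simp [h1, h1'], by rw [map_add, map_add, map_add, h2, h2']⟩

theorem lcquot_internal : DirectSum.IsInternal (qgr 𝒜 a) := by
  refine ⟨(injective_iff_map_eq_zero _).2 fun z hz => ?_, fun y => ?_⟩
  · obtain ⟨w, h1, h2⟩ := lcquot_ind 𝒜 (qgr 𝒜 a) (fun n y hy => hy) z
    rw [hz, Ideal.Quotient.eq_zero_iff_mem] at h2
    refine DFinsupp.ext fun n => Subtype.ext ?_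
    have h3 := a.isHomogeneous n h2
    rw [show DirectSum.decompose 𝒜 (DirectSum.coeAddMonoidHom 𝒜 w) = w from
      (DirectSum.decompose 𝒜).apply_symm_apply w] at h3
    exact (h1 n).symm.trans (Ideal.Quotient.eq_zero_iff_mem.2 h3)
  · obtain ⟨x, rfl⟩ := Ideal.Quotient.mk_surjective y
    induction x using DirectSum.Decomposition.inductionOn 𝒜 with
    | zero => exact ⟨0, by simp⟩
    | homogeneous x =>
      exact ⟨DirectSum.of (fun n => qgr 𝒜 a n) _ ⟨_, mk_mem_qgr 𝒜 a x.2⟩, by simp⟩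
    | add x x' h h' =>
      obtain ⟨z, hz⟩ := h
      obtain ⟨z', hz'⟩ := h'
      exact ⟨z + z', by rw [map_add, map_add, hz, hz']⟩

instance qgrGraded : GradedAlgebra (qgr 𝒜 a) := by
  exact
    { (lcquot_internal 𝒜 a).chooseDecomposition with
      one_mem := mk_mem_qgr 𝒜 a SetLike.GradedOne.one_mem
      mul_mem := by
        rintro i j _ _ ⟨x, hx, rfl⟩ ⟨y, hy, rfl⟩
        exact ⟨x * y, SetLike.GradedMul.mul_mem hx hy, map_mul (Ideal.Quotient.mk a.toIdeal) x y⟩ }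

/-- The quotient map as a graded homomorphism. -/
def qmk : 𝒜 →+*ᵍ qgr 𝒜 a where
  toRingHom := Ideal.Quotient.mk a.toIdeal
  map_mem hx := mk_mem_qgr 𝒜 a hx

theorem qmk_apply (x : A) : qmk 𝒜 a x = Ideal.Quotient.mk a.toIdeal x := rfl

theorem qmk_irrelevant : HomogeneousIdeal.irrelevant (qgr 𝒜 a) ≤
    (HomogeneousIdeal.irrelevant 𝒜).map (qmk 𝒜 a) := by
  refine (HomogeneousIdeal.irrelevant_le _).2 ?_
  rintro i hi _ ⟨x, hx, rfl⟩
  exact Ideal.mem_map_of_mem (qmk 𝒜 a) (HomogeneousIdeal.mem_irrelevant_of_mem 𝒜 hi hx)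

theorem isClosedImmersion_qmk :
    IsClosedImmersion (Proj.map (qmk 𝒜 a) (qmk_irrelevant 𝒜 a)) := by
  refine IsZariskiLocalAtTarget.of_iSup_eq_top
    (fun s : Σ i : PNat, 𝒜 i => Proj.basicOpen 𝒜 (s.2 : A))
    (Proj.iSup_basicOpen_eq_top 𝒜 _ ((HomogeneousIdeal.toIdeal_irrelevant_le _).2
      fun i hi x hx => Ideal.subset_span ⟨⟨⟨i, hi⟩, ⟨x, hx⟩⟩, rfl⟩)) ?_
  rintro ⟨⟨i, hi⟩, s, hs'⟩
  have hs : s ∈ 𝒜 i := hs'
  have hsurj : Function.Surjective (HomogeneousLocalization.Away.map (qmk 𝒜 a) s) := fun y => by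
    obtain ⟨n, _, ⟨x, hx, rfl⟩, rfl⟩ :=
      HomogeneousLocalization.Away.mk_surjective (qgr 𝒜 a) (mk_mem_qgr 𝒜 a hs) y
    exact ⟨_, HomogeneousLocalization.Away.map_mk (qmk 𝒜 a) s hs n x hx⟩
  have h1 : IsClosedImmersion
      (Spec.map (CommRingCat.ofHom (HomogeneousLocalization.Away.map (qmk 𝒜 a) s))) :=
    IsClosedImmersion.spec_of_surjective _ hsurj
  have h2 : IsClosedImmersion
      ((Proj.basicOpenIsoSpec (qgr 𝒜 a) (qmk 𝒜 a s) (mk_mem_qgr 𝒜 a hs) hi).hom ≫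
        Spec.map (CommRingCat.ofHom (HomogeneousLocalization.Away.map (qmk 𝒜 a) s)) ≫
          (Proj.basicOpenIsoSpec 𝒜 s hs hi).inv) := inferInstance
  have e : Proj.map (qmk 𝒜 a) (qmk_irrelevant 𝒜 a) ∣_ Proj.basicOpen 𝒜 s =
      (Proj.basicOpenIsoSpec (qgr 𝒜 a) (qmk 𝒜 a s) (mk_mem_qgr 𝒜 a hs) hi).hom ≫
        Spec.map (CommRingCat.ofHom (HomogeneousLocalization.Away.map (qmk 𝒜 a) s)) ≫
          (Proj.basicOpenIsoSpec 𝒜 s hs hi).inv := by
    have e1 := Proj.awayι_comp_map (qmk 𝒜 a) (qmk_irrelevant 𝒜 a) hi s hs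
    unfold Proj.awayι at e1
    rw [Category.assoc, Iso.inv_comp_eq] at e1
    refine (cancel_mono (Proj.basicOpen 𝒜 s).ι).1 ((morphismRestrict_ι _ _).trans (e1.trans ?_))
    exact ((Category.assoc _ _ _).trans (congrArg (_ ≫ ·) (Category.assoc _ _ _))).symm
  exact e ▸ h2

theorem map_qmk_toSpec :
    Proj.map (qmk 𝒜 a) (qmk_irrelevant 𝒜 a) ≫ Proj.toSpecZero 𝒜 ≫
        Spec.map (CommRingCat.ofHom (algebraMap ℂ (𝒜 0))) =
      Proj.toSpecZero (qgr 𝒜 a) ≫
        Spec.map (CommRingCat.ofHom (algebraMap ℂ (qgr 𝒜 a 0))) := by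
  refine (Proj.mapAffineOpenCover _ (qmk_irrelevant 𝒜 a)).openCover.hom_ext _ _ ?_
  rintro ⟨⟨i, hi⟩, s, hs'⟩
  have hs : s ∈ 𝒜 i := hs'
  have e1 := Proj.awayι_comp_map_assoc (qmk 𝒜 a) (qmk_irrelevant 𝒜 a) hi s hs
    (Proj.toSpecZero 𝒜 ≫ Spec.map (CommRingCat.ofHom (algebraMap ℂ (𝒜 0))))
  have e2 := Proj.awayι_toSpecZero_assoc (qgr 𝒜 a) (qmk 𝒜 a s) (mk_mem_qgr 𝒜 a hs) hi
    (Spec.map (CommRingCat.ofHom (algebraMap ℂ (qgr 𝒜 a 0))))
  refine e1.trans (Eq.trans ?_ e2.symm)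
  rw [Proj.awayι_toSpecZero_assoc, ← Spec.map_comp, ← Spec.map_comp, ← Spec.map_comp]
  congr 1

end

end Pool.Agent.P.MP_dc0411_ag
end

-- part Pool.Agent.P.MP_dc0411_ag.LcProj
section

/-!
The closed subscheme of projective space defined by a homogeneous ideal, with its charts.
-/

open CategoryTheory AlgebraicGeometry MvPolynomial HomogeneousLocalization

namespace Pool.Agent.P.MP_dc0411_ag

noncomputable section

attribute [local instance] secAlgebra MvPolynomial.gradedAlgebra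

section general

variable {B : Type} [CommRing B] [Algebra ℂ B] (ℬ : ℕ → Submodule ℂ B) [GradedAlgebra ℬ]

/-- `Proj` of a graded `ℂ`-algebra as a scheme over `ℂ`. -/
abbrev projOver : Over SpecC :=
  Over.mk (Proj.toSpecZero ℬ ≫ Spec.map (CommRingCat.ofHom (algebraMap ℂ (ℬ 0))))

theorem lcproj_mem_basicOpen {f : B} {d : ℕ} (hf : f ∈ ℬ d) (n : ℕ) (x : B) (hx : x ∈ ℬ (n • d))
    (y : Proj ℬ) : y ∈ (Proj ℬ).basicOpen (Proj.awayToSection ℬ f (Away.mk ℬ hf n x hx)) ↔
      f ∉ y.asHomogeneousIdeal ∧ x ∉ y.asHomogeneousIdeal := by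
  by_cases hy : y ∈ Proj.basicOpen ℬ f
  · rw [Scheme.mem_basicOpen _ _ y hy]
    have h := congrArg (fun φ => φ.hom (Away.mk ℬ hf n x hx))
      (ProjectiveSpectrum.Proj.awayToSection_germ ℬ f y hy)
    simp only [CommRingCat.hom_comp, RingHom.comp_apply, CommRingCat.hom_ofHom] at h
    have h2 : IsUnit ((Proj ℬ).presheaf.germ _ y hy
        (Proj.awayToSection ℬ f (Away.mk ℬ hf n x hx))) ↔
        IsUnit (mapId ℬ (Submonoid.powers_le.mpr hy : _ ≤ y.asHomogeneousIdeal.toIdeal.primeCompl)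
          (Away.mk ℬ hf n x hx)) := by
      erw [h]
      exact MulEquiv.isUnit_map (Proj.stalkIso' ℬ y).symm
    rw [h2, ← isUnit_iff_isUnit_val, Away.mk, map_mk, val_mk, Localization.mk_eq_mk',
      IsLocalization.AtPrime.isUnit_mk'_iff]
    exact ⟨fun h => ⟨hy, h⟩, fun h => h.2⟩
  · exact ⟨fun h => absurd ((Proj ℬ).basicOpen_le _ h) hy, fun h => absurd h.1 hy⟩

theorem lcproj_algebraMap {f : B} {d : ℕ} (hf : f ∈ ℬ d) (hd : 0 < d) (c : ℂ) :
    algebraMap ℂ Γ((projOver ℬ).left, Proj.basicOpen ℬ f) c =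
      Proj.awayToSection ℬ f (fromZeroRingHom ℬ _ (algebraMap ℂ (ℬ 0) c)) := by
  have hV := Proj.isAffineOpen_basicOpen ℬ f hf hd
  have h1 := IsAffineOpen.SpecMap_appLE_fromSpec (projOver ℬ).hom (isAffineOpen_top SpecC) hV le_top
  have h2 : hV.fromSpec = Spec.map (Proj.awayToSection ℬ f) ≫ Proj.awayι ℬ f hf hd := by
    rw [← cancel_epi hV.isoSpec.hom, IsAffineOpen.isoSpec_hom, IsAffineOpen.toSpecΓ_fromSpec,
      ← Category.assoc]
    exact ((Proj.basicOpenIsoSpec ℬ f hf hd).hom_inv_id_assoc _).symm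
  rw [IsAffineOpen.fromSpec_top, Scheme.isoSpec_Spec_inv, ← Spec.map_comp, h2] at h1
  have h3 : (Spec.map (Proj.awayToSection ℬ f) ≫ Proj.awayι ℬ f hf hd) ≫ (projOver ℬ).hom =
      Spec.map (CommRingCat.ofHom (algebraMap ℂ (ℬ 0)) ≫
        CommRingCat.ofHom (fromZeroRingHom ℬ _) ≫ Proj.awayToSection ℬ f) := by
    change (Spec.map (Proj.awayToSection ℬ f) ≫ Proj.awayι ℬ f hf hd) ≫
      Proj.toSpecZero ℬ ≫ Spec.map (CommRingCat.ofHom (algebraMap ℂ (ℬ 0))) = _
    rw [Category.assoc, Proj.awayι_toSpecZero_assoc, Spec.map_comp, Spec.map_comp, Category.assoc]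
  have h4 := Spec.map_injective (h1.trans h3)
  exact congrArg (fun φ => φ.hom c) h4

variable {σ : Type} (t : σ → B) (ht : ∀ i, t i ∈ ℬ 1)

/-- The function `tᵢ / tⱼ`. -/
def lcW (j i : σ) : Γ((projOver ℬ).left, Proj.basicOpen ℬ (t j)) :=
  Proj.awayToSection ℬ (t j) (Away.mk ℬ (ht j) 1 (t i) (by simpa using ht i))

include ht in
theorem lcproj_aeval_mem {p : MvPolynomial σ ℂ} {n : ℕ} (hp : p.IsHomogeneous n) :
    aeval t p ∈ ℬ (n • 1) := by
  rw [smul_eq_mul, mul_one]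
  classical
  rw [p.as_sum, map_sum]
  refine Submodule.sum_mem _ fun s hs => ?_
  rw [aeval_monomial, ← Algebra.smul_def]
  refine Submodule.smul_mem _ _ ?_
  have hd : s.degree = n := by
    rw [Finsupp.degree_eq_weight_one]
    exact hp (mem_support_iff.mp hs)
  rw [← hd, Finsupp.prod, Finsupp.degree_apply]
  refine SetLike.prod_mem_graded ℬ _ _ fun i _ => ?_
  simpa using SetLike.pow_mem_graded (s i) (ht i)

theorem lcproj_aeval {p : MvPolynomial σ ℂ} {n : ℕ} (hp : p.IsHomogeneous n) (j : σ) :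
    aeval (lcW ℬ t ht j) p = Proj.awayToSection ℬ (t j)
      (Away.mk ℬ (ht j) n (aeval t p) (lcproj_aeval_mem ℬ t ht hp)) := by
  let χ : MvPolynomial σ ℂ →+* Away ℬ (t j) :=
    eval₂Hom ((fromZeroRingHom ℬ _).comp (algebraMap ℂ (ℬ 0)))
      fun i => Away.mk ℬ (ht j) 1 (t i) (by simpa using ht i)
  have h1 : (aeval (lcW ℬ t ht j)).toRingHom = (Proj.awayToSection ℬ (t j)).hom.comp χ := by
    refine ringHom_ext (fun c => ?_) (fun i => ?_)
    · simp only [χ, AlgHom.toRingHom_eq_coe, RingHom.coe_coe, aeval_C, RingHom.comp_apply,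
        eval₂Hom_C]
      exact lcproj_algebraMap ℬ (ht j) one_pos c
    · simp only [χ, AlgHom.toRingHom_eq_coe, RingHom.coe_coe, aeval_X, RingHom.comp_apply,
        eval₂Hom_X']
      rfl
  let u : Localization.Away (t j) := Localization.mk 1 ⟨t j, Submonoid.mem_powers _⟩
  have h2 : (algebraMap (Away ℬ (t j)) (Localization.Away (t j))).comp χ =
      (aeval fun i => u * algebraMap B (Localization.Away (t j)) (t i) :
        MvPolynomial σ ℂ →ₐ[ℂ] Localization.Away (t j)).toRingHom := by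
    refine ringHom_ext (fun c => ?_) (fun i => ?_)
    · simp only [χ, AlgHom.toRingHom_eq_coe, RingHom.coe_coe, aeval_C, RingHom.comp_apply,
        eval₂Hom_C]
      rfl
    · simp only [χ, u, AlgHom.toRingHom_eq_coe, RingHom.coe_coe, aeval_X, RingHom.comp_apply,
        eval₂Hom_X', HomogeneousLocalization.algebraMap_apply, Away.val_mk,
        ← Localization.mk_one_eq_algebraMap, Localization.mk_mul]
      congr 1
      · simp
      · ext
        simp
  have h3 : χ p = Away.mk ℬ (ht j) n (aeval t p) (lcproj_aeval_mem ℬ t ht hp) := by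
    apply val_injective
    have h4 : (χ p).val = aeval (fun i => u * algebraMap B (Localization.Away (t j)) (t i)) p :=
      congrArg (fun φ => φ p) h2
    have h5 : aeval (fun i => algebraMap B (Localization.Away (t j)) (t i)) p =
        algebraMap B (Localization.Away (t j)) (aeval t p) := by
      rw [← aeval_algebraMap_apply]
      rfl
    rw [h4, aeval_scale_of_isHomogeneous hp, h5, Away.val_mk, ← Localization.mk_one_eq_algebraMap,
      Localization.mk_pow, Localization.mk_mul]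
    congr 1
    · simp
    · ext
      simp
  rw [← h3]
  exact congrArg (fun φ => φ p) h1

theorem lcproj_trans (j k i : σ) :
    res (Y := projOver ℬ) (inf_le_left : Proj.basicOpen ℬ (t j) ⊓ Proj.basicOpen ℬ (t k) ≤ _)
      (lcW ℬ t ht j i) =
    res (Y := projOver ℬ) inf_le_left (lcW ℬ t ht j k) *
      res (Y := projOver ℬ) inf_le_right (lcW ℬ t ht k i) := by
  have hle : Proj.basicOpen ℬ (t j) ⊓ Proj.basicOpen ℬ (t k) ≤ Proj.basicOpen ℬ (t j * t k) :=
    (Proj.basicOpen_mul ℬ _ _).ge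
  have e1 : ∀ a, res (Y := projOver ℬ) inf_le_left (Proj.awayToSection ℬ (t j) a) =
      res (Y := projOver ℬ) hle (Proj.awayToSection ℬ (t j * t k) (awayMap ℬ (ht k) rfl a)) := by
    intro a
    have h := congrArg (fun φ => φ.hom a) (Proj.awayMap_awayToSection ℬ (ht k) (rfl : _ = t j * t k))
    simp only [CommRingCat.hom_comp, RingHom.comp_apply, CommRingCat.hom_ofHom] at h
    erw [h]
    exact (res_res (Y := projOver ℬ) _ hle _).symm
  have e2 : ∀ a, res (Y := projOver ℬ) inf_le_right (Proj.awayToSection ℬ (t k) a) =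
      res (Y := projOver ℬ) hle (Proj.awayToSection ℬ (t j * t k)
        (awayMap ℬ (ht j) (mul_comm _ _) a)) := by
    intro a
    have h := congrArg (fun φ => φ.hom a)
      (Proj.awayMap_awayToSection ℬ (ht j) (mul_comm (t j) (t k)))
    simp only [CommRingCat.hom_comp, RingHom.comp_apply, CommRingCat.hom_ofHom] at h
    erw [h]
    exact (res_res (Y := projOver ℬ) _ hle _).symm
  rw [lcW, lcW, lcW, e1, e1, e2, ← map_mul, ← map_mul]
  congr 2
  apply val_injective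
  simp only [awayMap_mk, val_mul, Away.val_mk, Localization.mk_mul]
  rw [Localization.mk_eq_mk_iff, Localization.r_iff_exists]
  exact ⟨1, by simp; ring⟩

end general

/-- Every polynomial is congruent to a homogeneous one modulo `X j - 1`. -/
theorem lcproj_homogenise {σ : Type} (j : σ) (p : MvPolynomial σ ℂ) :
    ∃ (q : MvPolynomial σ ℂ) (n : ℕ), q.IsHomogeneous n ∧ p - q ∈ Ideal.span {X j - 1} := by
  have hpow : ∀ k : ℕ, (1 - X j ^ k : MvPolynomial σ ℂ) ∈ Ideal.span {X j - 1} := fun k => by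
    rw [Ideal.mem_span_singleton, ← dvd_neg, neg_sub]
    simpa using sub_dvd_pow_sub_pow (X j : MvPolynomial σ ℂ) 1 k
  induction p using MvPolynomial.induction_on with
  | C c => exact ⟨C c, 0, isHomogeneous_C _ _, by simp⟩
  | add p p' hp hp' =>
    obtain ⟨q, n, hq, h⟩ := hp
    obtain ⟨q', n', hq', h'⟩ := hp'
    refine ⟨q * X j ^ n' + q' * X j ^ n, n + n', (hq.mul (isHomogeneous_X_pow j n')).add ?_, ?_⟩
    · rw [add_comm]
      exact hq'.mul (isHomogeneous_X_pow j n)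
    · have e : p + p' - (q * X j ^ n' + q' * X j ^ n) =
          (p - q) + (p' - q') + q * (1 - X j ^ n') + q' * (1 - X j ^ n) := by ring
      rw [e]
      exact add_mem (add_mem (add_mem h h') (Ideal.mul_mem_left _ _ (hpow _)))
        (Ideal.mul_mem_left _ _ (hpow _))
  | mul_X p i hp =>
    obtain ⟨q, n, hq, h⟩ := hp
    refine ⟨q * X i, n + 1, hq.mul (isHomogeneous_X _ _), ?_⟩
    rw [← sub_mul]
    exact Ideal.mul_mem_right _ _ h

theorem lcproj_irrelevant {σ : Type} {p : MvPolynomial σ ℂ}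
    (hp : p ∈ HomogeneousIdeal.irrelevant (homogeneousSubmodule σ ℂ)) :
    p ∈ Ideal.span (Set.range (X : σ → MvPolynomial σ ℂ)) := by
  have h0 : homogeneousComponent 0 p = 0 := by
    have h := (HomogeneousIdeal.mem_irrelevant_iff _ _).mp hp
    rw [GradedRing.proj_apply] at h
    rw [← h]
    exact (decomposition.decompose'_apply p 0).symm
  rw [homogeneousComponent_zero, C_eq_zero] at h0
  rw [← Set.image_univ, mem_ideal_span_X_image]
  intro m hm
  by_contra hc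
  have : m = 0 := by
    ext i
    by_contra hi
    exact hc ⟨i, Set.mem_univ _, hi⟩
  rw [this, mem_support_iff] at hm
  exact hm h0

theorem lcproj_pdata {σ : Type} (𝔞 : HomogeneousIdeal (homogeneousSubmodule σ ℂ)) :
    Nonempty (PData 𝔞.toIdeal (projOver (qgr _ 𝔞))) := by
  let t : σ → MvPolynomial σ ℂ ⧸ 𝔞.toIdeal :=
    fun i => Ideal.Quotient.mk _ (X i)
  have ht : ∀ i, t i ∈ (qgr _ 𝔞) 1 := fun i => mk_mem_qgr _ 𝔞 (isHomogeneous_X ℂ i)
  have hπ : ∀ p, aeval t p = Ideal.Quotient.mk 𝔞.toIdeal p := fun p => by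
    have : aeval t = Ideal.Quotient.mkₐ ℂ 𝔞.toIdeal := algHom_ext fun i => by simp [t]
    rw [this]
    rfl
  have hirr : (HomogeneousIdeal.irrelevant (qgr _ 𝔞)).toIdeal ≤ Ideal.span (Set.range t) := by
    refine (toIdeal_le_toIdeal_iff.mpr (qmk_irrelevant _ 𝔞)).trans ?_
    refine Ideal.map_le_of_le_comap fun p hp => ?_
    have h := Ideal.mem_map_of_mem (Ideal.Quotient.mk 𝔞.toIdeal) (lcproj_irrelevant hp)
    rw [Ideal.map_span, ← Set.range_comp] at h
    exact h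
  have hinj : ∀ j, Function.Bijective (Proj.awayToSection (qgr _ 𝔞) (t j)) := fun j =>
    ConcreteCategory.bijective_of_isIso (Proj.basicOpenIsoAway (qgr _ 𝔞) (t j) (ht j) one_pos).hom
  have hone : ∀ j, lcW (qgr _ 𝔞) t ht j j = 1 := fun j => by
    rw [lcW, ← map_one (Proj.awayToSection (qgr _ 𝔞) (t j)).hom]
    congr 1
    apply val_injective
    rw [Away.val_mk, val_one, ← Localization.mk_one, Localization.mk_eq_mk_iff,
      Localization.r_iff_exists]
    exact ⟨1, by simp⟩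
  have hzero : ∀ j (p : MvPolynomial σ ℂ) (n : ℕ), p.IsHomogeneous n →
      (aeval (lcW (qgr _ 𝔞) t ht j) p = 0 ↔ ∃ k : ℕ, X j ^ k * p ∈ 𝔞.toIdeal) := by
    intro j p n hp
    rw [lcproj_aeval (qgr _ 𝔞) t ht hp, map_eq_zero_iff _ (hinj j).1, ext_iff_val, Away.val_mk, val_zero,
      Localization.mk_eq_mk', IsLocalization.mk'_eq_zero_iff, hπ]
    constructor
    · rintro ⟨⟨_, k, rfl⟩, hk⟩
      refine ⟨k, (Ideal.Quotient.eq_zero_iff_mem (I := 𝔞.toIdeal)).mp ?_⟩
      rw [map_mul, map_pow]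
      exact hk
    · rintro ⟨k, hk⟩
      refine ⟨⟨_, k, rfl⟩, ?_⟩
      have h := (Ideal.Quotient.eq_zero_iff_mem (I := 𝔞.toIdeal)).mpr hk
      rw [map_mul, map_pow] at h
      exact h
  have hbo : ∀ j (p : MvPolynomial σ ℂ) (n : ℕ), p.IsHomogeneous n → ∀ y : Proj (qgr _ 𝔞),
      (y ∈ (Proj (qgr _ 𝔞)).basicOpen (aeval (lcW (qgr _ 𝔞) t ht j) p) ↔
        y ∈ Proj.basicOpen (qgr _ 𝔞) (aeval t (X j * p))) := by
    intro j p n hp y
    rw [lcproj_aeval (qgr _ 𝔞) t ht hp, lcproj_mem_basicOpen, map_mul, Proj.basicOpen_mul, aeval_X]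
    rfl
  refine ⟨{
      U := fun j => Proj.basicOpen (qgr _ 𝔞) (t j)
      aff := fun j => Proj.isAffineOpen_basicOpen (qgr _ 𝔞) _ (ht j) one_pos
      cover := Proj.iSup_basicOpen_eq_top (qgr _ 𝔞) t hirr
      W := lcW (qgr _ 𝔞) t ht
      surj := fun j s => ?_
      ker := fun j => ?_
      inter := fun j k => ?_
      trans := lcproj_trans (qgr _ 𝔞) t ht
      pts := fun A _ _ z hz hP => ?_ }⟩
  · obtain ⟨s, rfl⟩ := (hinj j).2 s
    obtain ⟨n, x, hx, rfl⟩ := Away.mk_surjective (qgr _ 𝔞) (ht j) s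
    obtain ⟨p, hp, rfl⟩ := hx
    have hp' : p.IsHomogeneous n := by simpa using hp
    refine ⟨p, ?_⟩
    rw [lcproj_aeval (qgr _ 𝔞) t ht hp']
    congr 2
    exact hπ p
  · have hX : (X j - 1 : MvPolynomial σ ℂ) ∈
        RingHom.ker (aeval (lcW (qgr _ 𝔞) t ht j) : MvPolynomial σ ℂ →ₐ[ℂ] _) := by
      rw [RingHom.mem_ker, map_sub, aeval_X, hone, map_one, sub_self]
    have hs : Ideal.span {X j - 1} ≤
        RingHom.ker (aeval (lcW (qgr _ 𝔞) t ht j) : MvPolynomial σ ℂ →ₐ[ℂ] _) :=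
      (Ideal.span_singleton_le_iff_mem _).mpr hX
    refine le_antisymm (fun p hp => ?_) (sup_le (fun p hp => ?_) hs)
    · obtain ⟨q, n, hq, h⟩ := lcproj_homogenise j p
      have hq0 : aeval (lcW (qgr _ 𝔞) t ht j) q = 0 := by
        have := sub_mem hp (hs h)
        rwa [sub_sub_cancel] at this
      obtain ⟨k, hk⟩ := (hzero j q n hq).mp hq0
      have hpow : (1 - X j ^ k : MvPolynomial σ ℂ) ∈ Ideal.span {X j - 1} := by
        rw [Ideal.mem_span_singleton, ← dvd_neg, neg_sub]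
        simpa using sub_dvd_pow_sub_pow (X j : MvPolynomial σ ℂ) 1 k
      have e : p = X j ^ k * q + ((p - q) + q * (1 - X j ^ k)) := by ring
      rw [e]
      exact Submodule.add_mem_sup hk (add_mem h (Ideal.mul_mem_left _ _ hpow))
    · rw [RingHom.mem_ker, ← sum_homogeneousComponent p, map_sum]
      refine Finset.sum_eq_zero fun n _ => ?_
      refine (hzero j _ n (homogeneousComponent_isHomogeneous n p)).mpr ⟨0, ?_⟩
      rw [pow_zero, one_mul, ← decomposition.decompose'_apply p n]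
      exact 𝔞.isHomogeneous n hp
  · ext y
    exact lcproj_mem_basicOpen (qgr _ 𝔞) (ht j) 1 (t k) _ y
  · let ψ : (MvPolynomial σ ℂ ⧸ 𝔞.toIdeal) →ₐ[ℂ] A :=
      Ideal.Quotient.liftₐ 𝔞.toIdeal (aeval z) hz
    let φ : (MvPolynomial σ ℂ ⧸ 𝔞.toIdeal) →+* Γ(Spec (CommRingCat.of A), ⊤) :=
      (Scheme.ΓSpecIso (CommRingCat.of A)).inv.hom.comp ψ.toRingHom
    have hψ : ∀ p, ψ (aeval t p) = aeval z p := fun p => by
      rw [hπ]
      rfl
    have htop : Ideal.span (Set.range z) = ⊤ := by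
      by_contra hne
      obtain ⟨M, hM, hle⟩ := Ideal.exists_le_maximal _ hne
      obtain ⟨j, hj⟩ := hP ⟨M, hM.isPrime⟩
      exact hj (hle (Ideal.subset_span ⟨j, rfl⟩))
    have hφ : (HomogeneousIdeal.irrelevant (qgr _ 𝔞)).toIdeal.map φ = ⊤ := by
      have h1 : Ideal.map (Scheme.ΓSpecIso (CommRingCat.of A)).inv.hom
          (Ideal.span (Set.range z)) = ⊤ := by
        rw [htop, Ideal.map_top]
      rw [eq_top_iff, ← h1, Ideal.map_span, Ideal.span_le]
      rintro _ ⟨_, ⟨j, rfl⟩, rfl⟩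
      have h2 : z j = ψ (t j) := by
        rw [← aeval_X (R := ℂ) t j, hψ, aeval_X]
      rw [h2]
      exact Ideal.mem_map_of_mem φ (HomogeneousIdeal.mem_irrelevant_of_mem (qgr _ 𝔞) one_pos (ht j))
    refine ⟨Over.homMk (Proj.fromOfGlobalSections (qgr _ 𝔞) φ hφ) ?_, fun j p n hp P => ?_⟩
    · change Proj.fromOfGlobalSections (qgr _ 𝔞) φ hφ ≫ Proj.toSpecZero (qgr _ 𝔞) ≫
        Spec.map (CommRingCat.ofHom (algebraMap ℂ ((qgr _ 𝔞) 0))) =
        Spec.map (CommRingCat.ofHom (algebraMap ℂ A))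
      rw [Proj.fromOfGlobalSections_toSpecZero_assoc, ← SpecMap_ΓSpecIso_hom, ← Spec.map_comp,
        ← Spec.map_comp]
      congr 1
      ext c
      change (Scheme.ΓSpecIso (CommRingCat.of A)).hom
        ((Scheme.ΓSpecIso (CommRingCat.of A)).inv (ψ (algebraMap ℂ _ c))) = _
      rw [Iso.inv_hom_id_apply, AlgHom.commutes]
      rfl
    · have hXp : (X j * p).IsHomogeneous (1 + n) := (isHomogeneous_X ℂ j).mul hp
      have h1 := Proj.fromOfGlobalSections_preimage_basicOpen (qgr _ 𝔞) φ hφ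
        (show 0 < (1 + n) • 1 by simp) (lcproj_aeval_mem (qgr _ 𝔞) t ht hXp)
      refine (hbo j p n hp _).trans ?_
      change P ∈ Proj.fromOfGlobalSections (qgr _ 𝔞) φ hφ ⁻¹ᵁ Proj.basicOpen (qgr _ 𝔞) (aeval t (X j * p)) ↔ _
      rw [h1]
      change P ∈ (Spec (CommRingCat.of A)).basicOpen
        ((Scheme.ΓSpecIso (CommRingCat.of A)).inv (ψ (aeval t (X j * p)))) ↔ _
      rw [basicOpen_eq_of_affine, hψ, map_mul, aeval_X]
      change z j * aeval z p ∉ P.asIdeal ↔ _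
      rw [P.isPrime.mul_mem_iff_mem_or_mem, not_or]

theorem lcproj_exists (N : ℕ) (𝔞 : HomogeneousIdeal (homogeneousSubmodule (Fin (N + 1)) ℂ)) :
    ∃ Y : Over SpecC, IsProjective Y ∧ Nonempty (PData 𝔞.toIdeal Y) :=
  ⟨projOver (qgr _ 𝔞), ⟨N, Over.homMk (Proj.map (qmk _ 𝔞) (qmk_irrelevant _ 𝔞))
    (map_qmk_toSpec _ 𝔞), isClosedImmersion_qmk _ 𝔞⟩, lcproj_pdata 𝔞⟩

theorem exists_pdata (N : ℕ) (a : Ideal (MvPolynomial (Fin (N + 1)) ℂ))
    (ha : a.IsHomogeneous (homogeneousSubmodule (Fin (N + 1)) ℂ)) :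
    ∃ Y : Over SpecC, IsProjective Y ∧ Nonempty (PData a Y) :=
  lcproj_exists N ⟨a, ha⟩

end

end Pool.Agent.P.MP_dc0411_ag
end

-- part Pool.Agent.P.MP_dc0411_ag.LcSegre
section

/-!
Closed subschemes of a product of projective spaces, through the Segre embedding.
-/

open CategoryTheory AlgebraicGeometry MvPolynomial

namespace Pool.Agent.P.MP_dc0411_ag

noncomputable section

attribute [local instance] secAlgebra MvPolynomial.gradedAlgebra

variable {V G R : Type} [Fintype V] [DecidableEq V] [Fintype G] [DecidableEq G]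

/-- The chart `I` with the variable of the group of `v` replaced by `v`. -/
def lcsegreUpd {g : V → G} (I : Chart g) (v : V) : Chart g :=
  ⟨Function.update I.1 (g v) v, fun γ => by
    by_cases h : γ = g v
    · subst h
      rw [Function.update_self]
    · rw [Function.update_of_ne h, I.2]⟩

omit [Fintype V] [DecidableEq V] [Fintype G] in
theorem lcsegreUpd_self {g : V → G} (I : Chart g) (γ : G) : lcsegreUpd I (I.1 γ) = I := by
  apply Subtype.ext
  change Function.update I.1 (g (I.1 γ)) (I.1 γ) = I.1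
  rw [I.2, Function.update_eq_self]

section
variable {A : Type} [CommRing A] {g : V → G}

/-- The Segre coordinate of the chart `I`. -/
def lcsegreSeg (z : V → A) (I : Chart g) : A := ∏ γ, z (I.1 γ)

/-- The Segre coordinate without its factor in the group `γ`. -/
def lcsegreCof (z : V → A) (I : Chart g) (γ : G) : A := ∏ γ' ∈ Finset.univ.erase γ, z (I.1 γ')

omit [Fintype V] [DecidableEq V] in
theorem lcsegre_seg_upd (z : V → A) (I : Chart g) (v : V) :
    lcsegreSeg z (lcsegreUpd I v) = lcsegreCof z I (g v) * z v := by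
  rw [lcsegreSeg, ← Finset.prod_erase_mul _ _ (Finset.mem_univ (g v))]
  congr 1
  · refine Finset.prod_congr rfl fun γ hγ => ?_
    change z (Function.update I.1 (g v) v γ) = _
    rw [Function.update_of_ne (Finset.ne_of_mem_erase hγ)]
  · change z (Function.update I.1 (g v) v (g v)) = _
    rw [Function.update_self]

omit [Fintype V] [DecidableEq V] in
theorem lcsegre_seg_eq (z : V → A) (I : Chart g) (γ : G) :
    lcsegreSeg z I = lcsegreCof z I γ * z (I.1 γ) := by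
  have h := lcsegre_seg_upd z I (I.1 γ)
  rwa [lcsegreUpd_self, I.2] at h

omit [Fintype V] [DecidableEq V] in
theorem lcsegre_rel1 (z : V → A) (I J : Chart g) :
    lcsegreSeg z J * lcsegreSeg z I ^ Fintype.card G =
      (∏ γ, lcsegreSeg z (lcsegreUpd I (J.1 γ))) * lcsegreSeg z I := by
  have h : ∀ γ, lcsegreSeg z (lcsegreUpd I (J.1 γ)) * z (I.1 γ) = z (J.1 γ) * lcsegreSeg z I := by
    intro γ
    rw [lcsegre_seg_upd, J.2, lcsegre_seg_eq z I γ]
    ring
  have h2 : (∏ γ, lcsegreSeg z (lcsegreUpd I (J.1 γ))) * lcsegreSeg z I =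
      ∏ γ, (lcsegreSeg z (lcsegreUpd I (J.1 γ)) * z (I.1 γ)) := by
    rw [Finset.prod_mul_distrib]
    rfl
  rw [h2]
  simp only [h]
  rw [Finset.prod_mul_distrib, Finset.prod_const, Finset.card_univ]
  rfl

omit [Fintype V] [DecidableEq V] in
theorem lcsegre_rel2 (z : V → A) (I J : Chart g) (v : V) :
    lcsegreSeg z (lcsegreUpd I v) * lcsegreSeg z J =
      lcsegreSeg z (lcsegreUpd I (J.1 (g v))) * lcsegreSeg z (lcsegreUpd J v) := by
  rw [lcsegre_seg_upd, lcsegre_seg_upd, lcsegre_seg_upd, J.2, lcsegre_seg_eq z J (g v)]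
  ring

end

section
variable {g : V → G} {σ : Type} (e : σ ≃ Chart g)

/-- The Segre substitution. -/
def lcsegrePhi : MvPolynomial σ ℂ →ₐ[ℂ] MvPolynomial V ℂ :=
  aeval fun j => lcsegreSeg X (e j)

/-- A polynomial in the variables `V`, written in the Segre coordinates near the chart `I`. -/
def lcsegreLift (I : Chart g) : MvPolynomial V ℂ →ₐ[ℂ] MvPolynomial σ ℂ :=
  rename fun v => e.symm (lcsegreUpd I v)

/-- The homogeneous ideal of the image of the Segre embedding. -/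
def lcsegreIdeal (F : R → MvPolynomial V ℂ) : HomogeneousIdeal (homogeneousSubmodule σ ℂ) :=
  ((Ideal.span (Set.range F)).comap (lcsegrePhi e)).homogeneousCore (homogeneousSubmodule σ ℂ)

variable {A : Type} [CommRing A] [Algebra ℂ A]

omit [Fintype V] [DecidableEq V] [DecidableEq G] in
theorem lcsegre_phi_X (I : Chart g) : lcsegrePhi e (X (e.symm I)) = lcsegreSeg X I := by
  rw [lcsegrePhi, aeval_X, Equiv.apply_symm_apply]

omit [Fintype V] [DecidableEq V] [DecidableEq G] in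
theorem lcsegre_aeval_phi (z : V → A) (p : MvPolynomial σ ℂ) :
    aeval z (lcsegrePhi e p) = aeval (fun j => lcsegreSeg z (e j)) p := by
  rw [lcsegrePhi, ← AlgHom.comp_apply, comp_aeval]
  simp only [lcsegreSeg, map_prod, aeval_X]

omit [Fintype V] [DecidableEq V] [Fintype G] in
theorem lcsegre_aeval_lift (w : σ → A) (I : Chart g) (p : MvPolynomial V ℂ) :
    aeval w (lcsegreLift e I p) = aeval (fun v => w (e.symm (lcsegreUpd I v))) p := by
  rw [lcsegreLift, aeval_rename]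
  rfl

theorem lcsegre_seg_lift (z : V → A) (I : Chart g) {p : MvPolynomial V ℂ} {d : G → ℕ}
    (hp : MH g p d) : aeval (fun j => lcsegreSeg z (e j)) (lcsegreLift e I p) =
      (∏ γ, lcsegreCof z I γ ^ d γ) * aeval z p := by
  rw [lcsegre_aeval_lift, ← hp.scale]
  simp only [Equiv.apply_symm_apply, lcsegre_seg_upd]

theorem lcsegre_lift_hom (I : Chart g) {p : MvPolynomial V ℂ} {d : G → ℕ} (hp : MH g p d) :
    (lcsegreLift e I p).IsHomogeneous (∑ γ, d γ) :=
  hp.isHomogeneous.rename_isHomogeneous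

variable {F : R → MvPolynomial V ℂ}

omit [Fintype V] [DecidableEq V] [DecidableEq G] in
theorem lcsegre_mem {p : MvPolynomial σ ℂ} {n : ℕ} (hp : p.IsHomogeneous n)
    (h : lcsegrePhi e p ∈ Ideal.span (Set.range F)) : p ∈ (lcsegreIdeal e F).toIdeal :=
  Ideal.mem_homogeneousCore_of_homogeneous_of_mem ⟨n, hp⟩ h

omit [Fintype V] [DecidableEq V] [DecidableEq G] in
theorem lcsegre_le {p : MvPolynomial σ ℂ} (hp : p ∈ (lcsegreIdeal e F).toIdeal) :
    lcsegrePhi e p ∈ Ideal.span (Set.range F) :=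
  Ideal.mem_comap.1 (Ideal.toIdeal_homogeneousCore_le (homogeneousSubmodule σ ℂ)
    ((Ideal.span (Set.range F)).comap (lcsegrePhi e)) hp)

omit [Fintype V] [DecidableEq V] in
theorem lcsegre_w1 {w : σ → A} (hw : ∀ p ∈ (lcsegreIdeal e F).toIdeal, aeval w p = 0)
    {I : Chart g} (h1 : w (e.symm I) = 1) (J : Chart g) :
    w (e.symm J) = ∏ γ, w (e.symm (lcsegreUpd I (J.1 γ))) := by
  have hh : (X (e.symm J) * X (e.symm I) ^ Fintype.card G -
      (∏ γ, X (e.symm (lcsegreUpd I (J.1 γ)))) * X (e.symm I) : MvPolynomial σ ℂ).IsHomogeneous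
      (Fintype.card G + 1) := by
    refine IsHomogeneous.sub ?_ ?_
    · have := (isHomogeneous_X ℂ (e.symm J)).mul
        ((isHomogeneous_X ℂ (e.symm I)).pow (Fintype.card G))
      rwa [one_mul, add_comm] at this
    · have := (IsHomogeneous.prod Finset.univ (fun γ => X (e.symm (lcsegreUpd I (J.1 γ))))
        (fun _ => 1) fun γ _ => isHomogeneous_X ℂ _).mul (isHomogeneous_X ℂ (e.symm I))
      rwa [Finset.sum_const, Finset.card_univ, smul_eq_mul, mul_one] at this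
  have h := hw _ (lcsegre_mem e (F := F) hh (by
    simp only [map_sub, map_mul, map_pow, map_prod, lcsegre_phi_X]
    rw [lcsegre_rel1, sub_self]
    exact zero_mem _))
  simpa only [map_sub, map_mul, map_pow, map_prod, aeval_X, h1, one_pow, mul_one, sub_eq_zero]
    using h

omit [Fintype V] [DecidableEq V] in
theorem lcsegre_w2 {w : σ → A} (hw : ∀ p ∈ (lcsegreIdeal e F).toIdeal, aeval w p = 0)
    (I J : Chart g) (v : V) : w (e.symm (lcsegreUpd I v)) * w (e.symm J) =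
      w (e.symm (lcsegreUpd I (J.1 (g v)))) * w (e.symm (lcsegreUpd J v)) := by
  have hh : (X (e.symm (lcsegreUpd I v)) * X (e.symm J) -
      X (e.symm (lcsegreUpd I (J.1 (g v)))) * X (e.symm (lcsegreUpd J v)) :
        MvPolynomial σ ℂ).IsHomogeneous (1 + 1) :=
    ((isHomogeneous_X ℂ _).mul (isHomogeneous_X ℂ _)).sub
      ((isHomogeneous_X ℂ _).mul (isHomogeneous_X ℂ _))
  have h := hw _ (lcsegre_mem e (F := F) hh (by
    simp only [map_sub, map_mul, lcsegre_phi_X]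
    rw [lcsegre_rel2, sub_self]
    exact zero_mem _))
  simpa only [map_sub, map_mul, aeval_X, sub_eq_zero] using h

theorem lcsegre_wF {dF : R → G → ℕ} (hF : ∀ r, MH g (F r) (dF r)) {w : σ → A}
    (hw : ∀ p ∈ (lcsegreIdeal e F).toIdeal, aeval w p = 0) (I : Chart g) (r : R) :
    aeval (fun v => w (e.symm (lcsegreUpd I v))) (F r) = 0 := by
  rw [← lcsegre_aeval_lift]
  refine hw _ (lcsegre_mem e (lcsegre_lift_hom e I (hF r)) ?_)
  rw [lcsegrePhi, lcsegre_seg_lift e X I (hF r), aeval_X_left_apply]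
  exact Ideal.mul_mem_left _ _ (Ideal.subset_span ⟨r, rfl⟩)

theorem lcsegre_ker {dF : R → G → ℕ} (hF : ∀ r, MH g (F r) (dF r)) {w : σ → A} (I : Chart g)
    (hk : RingHom.ker (aeval w : MvPolynomial σ ℂ →ₐ[ℂ] A) =
      (lcsegreIdeal e F).toIdeal ⊔ Ideal.span {X (e.symm I) - 1})
    (hw : ∀ p ∈ (lcsegreIdeal e F).toIdeal, aeval w p = 0) (h1 : w (e.symm I) = 1) :
    RingHom.ker (aeval (fun v => w (e.symm (lcsegreUpd I v))) : MvPolynomial V ℂ →ₐ[ℂ] A) =
      Ideal.span (Set.range (rel F I)) := by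
  apply le_antisymm
  · intro p hp
    rw [RingHom.mem_ker, ← lcsegre_aeval_lift, ← RingHom.mem_ker, hk] at hp
    let q := Ideal.Quotient.mkₐ ℂ (Ideal.span (Set.range (rel F I)))
    have hq1 : ∀ γ, q (X (I.1 γ)) = 1 := by
      intro γ
      have h : q (X (I.1 γ) - 1) = 0 :=
        Ideal.Quotient.eq_zero_iff_mem.2 (Ideal.subset_span ⟨Sum.inr γ, rfl⟩)
      rwa [map_sub, map_one, sub_eq_zero] at h
    have hle : (lcsegreIdeal e F).toIdeal ⊔ Ideal.span {X (e.symm I) - 1} ≤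
        RingHom.ker (q.comp (lcsegrePhi e)) := by
      refine sup_le (fun x hx => ?_) ((Ideal.span_singleton_le_iff_mem _).2 ?_)
      · refine Ideal.Quotient.eq_zero_iff_mem.2 (Ideal.span_mono ?_ (lcsegre_le e hx))
        rintro _ ⟨r, rfl⟩
        exact ⟨Sum.inl r, rfl⟩
      · rw [RingHom.mem_ker, map_sub, map_one, AlgHom.comp_apply, lcsegre_phi_X, lcsegreSeg,
          map_prod]
        simp only [hq1, Finset.prod_const_one, sub_self]
    have hc : (q.comp (lcsegrePhi e)).comp (lcsegreLift e I) = q := by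
      refine algHom_ext fun v => ?_
      rw [AlgHom.comp_apply, AlgHom.comp_apply, lcsegreLift, rename_X, lcsegre_phi_X,
        lcsegre_seg_upd, map_mul, lcsegreCof, map_prod]
      simp only [hq1, Finset.prod_const_one, one_mul]
    have h := hle hp
    rw [RingHom.mem_ker, ← AlgHom.comp_apply, hc] at h
    exact Ideal.Quotient.eq_zero_iff_mem.1 h
  · rw [Ideal.span_le]
    rintro _ ⟨r | γ, rfl⟩
    · exact lcsegre_wF e hF hw I r
    · change aeval _ (X (I.1 γ) - 1) = 0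
      rw [map_sub, map_one, aeval_X, lcsegreUpd_self, h1, sub_self]

end

theorem PData.lcsegre_zero {σ : Type} {a : Ideal (MvPolynomial σ ℂ)} {Y : Over SpecC}
    (P : PData a Y) (j : σ) : ∀ p ∈ a, aeval (P.W j) p = 0 := by
  intro p hp
  rw [← RingHom.mem_ker, P.ker]
  exact Ideal.mem_sup_left hp

theorem PData.lcsegre_one {σ : Type} {a : Ideal (MvPolynomial σ ℂ)} {Y : Over SpecC}
    (P : PData a Y) (j : σ) : P.W j j = 1 := by
  have h : X j - 1 ∈
      RingHom.ker (aeval (P.W j) : MvPolynomial σ ℂ →ₐ[ℂ] Γ(Y.left, P.U j)) := by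
    rw [P.ker]
    exact Ideal.mem_sup_right (Ideal.mem_span_singleton_self _)
  rwa [RingHom.mem_ker, map_sub, map_one, aeval_X, sub_eq_zero] at h

/-- The multi-projective charts obtained from the charts of the image of the Segre embedding. -/
def lcsegreData {g : V → G} {σ : Type} (e : σ ≃ Chart g) {F : R → MvPolynomial V ℂ}
    {dF : R → G → ℕ} (hF : ∀ r, MH g (F r) (dF r)) {Y : Over SpecC}
    (P : PData (lcsegreIdeal e F).toIdeal Y) : MPData g F Y where
  U I := P.U (e.symm I)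
  aff I := P.aff _
  cover := (e.symm.iSup_comp (g := P.U)).trans P.cover
  Z I v := P.W (e.symm I) (e.symm (lcsegreUpd I v))
  surj I := by
    intro s
    obtain ⟨p, rfl⟩ := P.surj _ s
    refine ⟨lcsegrePhi e p, ?_⟩
    rw [lcsegre_aeval_phi]
    congr 2
    funext j
    have h := lcsegre_w1 e (P.lcsegre_zero (e.symm I)) (P.lcsegre_one _) (e j)
    rw [Equiv.symm_apply_apply] at h
    exact h.symm
  ker I := lcsegre_ker e hF I (P.ker _) (P.lcsegre_zero _) (P.lcsegre_one _)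
  inter I J := by
    rw [← lcsegre_w1 e (P.lcsegre_zero (e.symm I)) (P.lcsegre_one _) J]
    exact P.inter _ _
  trans I J v := by
    have h1 := P.trans (e.symm I) (e.symm J) (e.symm I)
    have h2 := P.trans (e.symm I) (e.symm J) (e.symm (lcsegreUpd J v))
    have h3 := congrArg (resAlg (inf_le_left : P.U (e.symm I) ⊓ P.U (e.symm J) ≤ _))
      (lcsegre_w2 e (P.lcsegre_zero (e.symm I)) I J v)
    rw [P.lcsegre_one] at h1
    simp only [← resAlg_apply, map_one, map_mul] at h1 h2 h3 ⊢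
    rw [h2] at h3
    have hu := IsUnit.of_mul_eq_one _ h1.symm
    refine hu.mul_right_cancel ?_
    rw [h3]
    ring
  pts A _ _ z hz hP := by
    obtain ⟨f, hf⟩ := P.pts A (fun j => lcsegreSeg z (e j)) (fun p hp => by
      rw [← lcsegre_aeval_phi, ← RingHom.mem_ker]
      refine (Ideal.span_le.2 ?_ : Ideal.span (Set.range F) ≤ _) (lcsegre_le e hp)
      rintro _ ⟨r, rfl⟩
      exact hz r) fun Q => by
      obtain ⟨I, hI⟩ := hP Q
      refine ⟨e.symm I, fun h => ?_⟩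
      rw [Equiv.apply_symm_apply, lcsegreSeg, Ideal.IsPrime.prod_mem_iff] at h
      obtain ⟨γ, -, h⟩ := h
      exact hI γ h
    refine ⟨f, fun I p d hp Q => ?_⟩
    rw [← lcsegre_aeval_lift, hf _ _ _ (lcsegre_lift_hom e I hp), lcsegre_seg_lift e z I hp,
      Equiv.apply_symm_apply, lcsegreSeg, Ideal.IsPrime.prod_mem_iff]
    have e1 : (¬ ∃ γ ∈ Finset.univ, z (I.1 γ) ∈ Q.asIdeal) ↔ ∀ γ, z (I.1 γ) ∉ Q.asIdeal := by
      simp
    rw [e1]
    refine and_congr_right fun hI => not_congr ?_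
    rw [Q.isPrime.mul_mem_iff_mem_or_mem]
    refine or_iff_right fun h => ?_
    rw [Ideal.IsPrime.prod_mem_iff] at h
    obtain ⟨γ, -, h⟩ := h
    have h2 := Q.isPrime.mem_of_pow_mem _ h
    rw [lcsegreCof, Ideal.IsPrime.prod_mem_iff] at h2
    obtain ⟨γ', -, h2⟩ := h2
    exact hI γ' h2

theorem exists_mpdata [Nonempty G] (g : V → G) [Nonempty (Chart g)] (F : R → MvPolynomial V ℂ)
    (dF : R → G → ℕ) (hF : ∀ r, MH g (F r) (dF r)) :
    ∃ Y : Over SpecC, IsProjective Y ∧ Nonempty (MPData g F Y) := by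
  obtain ⟨N, hN⟩ := Nat.exists_eq_succ_of_ne_zero (Fintype.card_ne_zero (α := Chart g))
  let e : Fin (N + 1) ≃ Chart g := (Fintype.equivFinOfCardEq hN).symm
  obtain ⟨Y, hY, ⟨P⟩⟩ := exists_pdata N (lcsegreIdeal e F).toIdeal (lcsegreIdeal e F).isHomogeneous
  exact ⟨Y, hY, ⟨lcsegreData e hF P⟩⟩

end

end Pool.Agent.P.MP_dc0411_ag
end

-- part Pool.Agent.P.MP_dc0411_ag.LcChart
section

/-!
Étale coordinates from an invertible Jacobian determinant.
-/

open MvPolynomial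

namespace Pool.Agent.P.MP_dc0411_ag

noncomputable section

section
variable {V ρ B : Type} [CommRing B] [Algebra ℂ B] {n : ℕ}

/-- The relations of the presentation with the extra variables. -/
def lcchartRel (Q : ρ → MvPolynomial V ℂ) (ζ : Fin n → MvPolynomial V ℂ) :
    ρ ⊕ Fin n → MvPolynomial (V ⊕ Fin n) ℂ :=
  Sum.elim (fun r => rename Sum.inl (Q r)) fun i => rename Sum.inl (ζ i) - X (Sum.inr i)

theorem lcchart_inl (Z : V → B) (W : Fin n → B) (p : MvPolynomial V ℂ) :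
    aeval (Sum.elim Z W) (rename Sum.inl p) = aeval Z p := by
  rw [aeval_rename, Sum.elim_comp_inl]

theorem lcchart_ker (Q : ρ → MvPolynomial V ℂ) (ζ : Fin n → MvPolynomial V ℂ) (Z : V → B)
    (hk : RingHom.ker (aeval Z : MvPolynomial V ℂ →ₐ[ℂ] B) = Ideal.span (Set.range Q)) :
    Ideal.span (Set.range (lcchartRel Q ζ)) = RingHom.ker
      (aeval (Sum.elim Z fun i => aeval Z (ζ i)) : MvPolynomial (V ⊕ Fin n) ℂ →ₐ[ℂ] B) := by
  apply le_antisymm
  · rw [Ideal.span_le]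
    rintro _ ⟨r | i, rfl⟩
    · change aeval _ (rename Sum.inl (Q r)) = 0
      rw [lcchart_inl, ← RingHom.mem_ker, hk]
      exact Ideal.subset_span ⟨r, rfl⟩
    · change aeval _ (rename Sum.inl (ζ i) - X (Sum.inr i)) = 0
      rw [map_sub, lcchart_inl, aeval_X, Sum.elim_inr, sub_self]
  · intro p hp
    let φ : MvPolynomial (V ⊕ Fin n) ℂ →ₐ[ℂ] MvPolynomial V ℂ := aeval (Sum.elim X ζ)
    have h1 : (aeval Z).comp φ = aeval (Sum.elim Z fun i => aeval Z (ζ i)) := by
      refine algHom_ext ?_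
      rintro (v | i) <;> simp [φ]
    have h2 : φ p ∈ Ideal.span (Set.range Q) := by
      rw [← hk, RingHom.mem_ker, ← AlgHom.comp_apply, h1]
      exact hp
    have h3 : rename Sum.inl (φ p) ∈ Ideal.span (Set.range (lcchartRel Q ζ)) := by
      have h := Ideal.mem_map_of_mem (rename (R := ℂ) (Sum.inl : V → V ⊕ Fin n)) h2
      rw [Ideal.map_span] at h
      refine Ideal.span_mono ?_ h
      rintro _ ⟨_, ⟨r, rfl⟩, rfl⟩
      exact ⟨Sum.inl r, rfl⟩
    have h4 : ((Ideal.Quotient.mkₐ ℂ (Ideal.span (Set.range (lcchartRel Q ζ)))).comp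
        (rename Sum.inl)).comp φ = Ideal.Quotient.mkₐ ℂ _ := by
      refine algHom_ext ?_
      rintro (v | i)
      · simp [φ]
      · simp only [φ, AlgHom.comp_apply, aeval_X, Sum.elim_inr, Ideal.Quotient.mkₐ_eq_mk]
        exact Ideal.Quotient.eq.mpr (Ideal.subset_span ⟨Sum.inr i, rfl⟩)
    have h5 := DFunLike.congr_fun h4 p
    simp only [AlgHom.comp_apply, Ideal.Quotient.mkₐ_eq_mk] at h5
    rw [← Ideal.Quotient.eq_zero_iff_mem, ← h5, Ideal.Quotient.eq_zero_iff_mem]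
    exact h3

/-- The presentation with the extra variables. -/
def lcchartPres (e : ρ ⊕ Fin n ≃ V) (Q : ρ → MvPolynomial V ℂ) (ζ : Fin n → MvPolynomial V ℂ)
    (Z : V → B) (hs : Function.Surjective (aeval Z : MvPolynomial V ℂ →ₐ[ℂ] B))
    (hk : RingHom.ker (aeval Z : MvPolynomial V ℂ →ₐ[ℂ] B) = Ideal.span (Set.range Q)) :
    Algebra.PreSubmersivePresentation ℂ B (V ⊕ Fin n) (ρ ⊕ Fin n) where
  toGenerators := Algebra.Generators.ofSurjective (Sum.elim Z fun i => aeval Z (ζ i)) fun b => by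
    obtain ⟨p, rfl⟩ := hs b
    exact ⟨rename Sum.inl p, lcchart_inl _ _ p⟩
  relation := lcchartRel Q ζ
  span_range_relation_eq_ker := by
    rw [Algebra.Generators.ker_eq_ker_aeval_val]
    exact lcchart_ker Q ζ Z hk
  map j := Sum.inl (e j)
  map_inj := Sum.inl_injective.comp e.injective

theorem lcchart_jac [Fintype V] [DecidableEq V] [Fintype ρ] [DecidableEq ρ]
    (e : ρ ⊕ Fin n ≃ V) (Q : ρ → MvPolynomial V ℂ) (ζ : Fin n → MvPolynomial V ℂ)
    (Z : V → B) (hs : Function.Surjective (aeval Z : MvPolynomial V ℂ →ₐ[ℂ] B))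
    (hk : RingHom.ker (aeval Z : MvPolynomial V ℂ →ₐ[ℂ] B) = Ideal.span (Set.range Q)) :
    (lcchartPres e Q ζ Z hs hk).jacobian = aeval Z (jacDet e Q ζ) := by
  have h : (lcchartPres e Q ζ Z hs hk).jacobiMatrix = ((rename Sum.inl).mapMatrix
      (Matrix.of fun i j => pderiv (e j) (Sum.elim Q ζ i))).transpose := by
    ext i j : 1
    rw [Algebra.PreSubmersivePresentation.jacobiMatrix_apply]
    change pderiv (Sum.inl (e i)) (lcchartRel Q ζ j) =
      rename Sum.inl (pderiv (e i) (Sum.elim Q ζ j))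
    rcases j with r | j
    · exact pderiv_rename Sum.inl_injective _ _
    · change pderiv _ (rename Sum.inl (ζ j) - X (Sum.inr j)) = _
      rw [map_sub, pderiv_rename Sum.inl_injective, pderiv_X_of_ne (by simp), sub_zero]
      rfl
  rw [Algebra.PreSubmersivePresentation.jacobian_eq_jacobiMatrix_det, h, Matrix.det_transpose,
    ← AlgHom.map_det, Algebra.Generators.algebraMap_apply]
  exact lcchart_inl _ _ _

end

theorem chart_smooth {V ρ B A : Type} [Fintype V] [DecidableEq V] [Fintype ρ] [DecidableEq ρ]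
    [CommRing B] [Algebra ℂ B] [CommRing A] [Algebra ℂ A] [Algebra B A] [IsScalarTower ℂ B A]
    {n : ℕ} (e : ρ ⊕ Fin n ≃ V) (Q : ρ → MvPolynomial V ℂ) (ζ : Fin n → MvPolynomial V ℂ)
    (Z : V → B) (hs : Function.Surjective (aeval Z : MvPolynomial V ℂ →ₐ[ℂ] B))
    (hk : RingHom.ker (aeval Z : MvPolynomial V ℂ →ₐ[ℂ] B) = Ideal.span (Set.range Q))
    (δ : B) [IsLocalization.Away δ A] (hu : IsUnit (algebraMap B A (aeval Z (jacDet e Q ζ)))) :
    Algebra.IsStandardSmoothOfRelativeDimension n ℂ A ∧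
      (LinearIndependent A fun i => KaehlerDifferential.D ℂ A (algebraMap B A (aeval Z (ζ i)))) ∧
      Submodule.span A (Set.range fun i =>
        KaehlerDifferential.D ℂ A (algebraMap B A (aeval Z (ζ i)))) = ⊤ := by
  let P : Algebra.SubmersivePresentation ℂ A (Unit ⊕ (V ⊕ Fin n)) (Unit ⊕ (ρ ⊕ Fin n)) :=
    { toPreSubmersivePresentation :=
        (Algebra.PreSubmersivePresentation.localizationAway A δ).comp (lcchartPres e Q ζ Z hs hk)
      jacobian_isUnit := by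
        rw [Algebra.PreSubmersivePresentation.comp_jacobian_eq_jacobian_smul_jacobian,
          Algebra.PreSubmersivePresentation.localizationAway_jacobian, lcchart_jac,
          Algebra.smul_def]
        exact hu.mul (IsLocalization.Away.algebraMap_isUnit δ) }
  have hf : Function.Injective
      (fun i : Fin n => (Sum.inr (Sum.inr i) : Unit ⊕ (V ⊕ Fin n))) :=
    Sum.inr_injective.comp Sum.inr_injective
  have hc : IsCompl (Set.range fun i : Fin n => (Sum.inr (Sum.inr i) : Unit ⊕ (V ⊕ Fin n)))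
      (Set.range P.map) := by
    constructor
    · rw [Set.disjoint_left]
      rintro _ ⟨i, rfl⟩ ⟨u | j, h⟩
      · exact Sum.inl_ne_inr h
      · exact Sum.inl_ne_inr (Sum.inr_injective h)
    · rw [codisjoint_iff]
      refine Set.eq_univ_iff_forall.mpr ?_
      rintro (u | v | i)
      · exact Or.inr ⟨Sum.inl (), rfl⟩
      · exact Or.inr ⟨Sum.inr (e.symm v), congrArg (fun w => Sum.inr (Sum.inl w))
          (e.apply_symm_apply v)⟩
      · exact Or.inl ⟨i, rfl⟩
  have hb : (fun i => KaehlerDifferential.D ℂ A (algebraMap B A (aeval Z (ζ i)))) =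
      P.basisKaehlerOfIsCompl hf hc := by
    funext i
    rw [Algebra.SubmersivePresentation.basisKaehlerOfIsCompl_apply]
    rfl
  refine ⟨P.isStandardSmoothOfRelativeDimension ?_, ?_, ?_⟩
  · have h := Fintype.card_congr e
    simp only [Algebra.Presentation.dimension, Nat.card_eq_fintype_card, Fintype.card_sum,
      Fintype.card_fin] at h ⊢
    omega
  · rw [hb]
    exact Module.Basis.linearIndependent _
  · rw [hb]
    exact Module.Basis.span_eq _

end

end Pool.Agent.P.MP_dc0411_ag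
end

-- part Pool.Agent.P.MP_dc0411_ag.LcCocycle
section

/-!
The change of coordinates between two charts and its determinant.
-/

set_option linter.unusedSectionVars false

open MvPolynomial

namespace Pool.Agent.P.MP_dc0411_ag

noncomputable section

variable {V G R : Type} [Fintype V] [DecidableEq V] [Fintype G] [DecidableEq G] [Fintype R]
  [DecidableEq R]

/-- The matrix `B` of the rank correction. -/
def lccocycleB {A : Type} [CommRing A] {g : V → G} (I J : Chart g) (c : G → A) : Matrix G V A :=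
  Matrix.of fun γ w => -c γ * (if w = I.1 γ then 1 else 0) + (if w = J.1 γ then 1 else 0)

/-- The matrix of the change of coordinates. -/
def lccocycleT {A : Type} [CommRing A] {g : V → G} (I J : Chart g) (x : V → A) (c : G → A) :
    Matrix V V A :=
  Matrix.of fun v w => c (g v) * ((if v = w then 1 else 0) + x v * lccocycleB I J c (g v) w)

theorem lccocycle_det {A : Type} [CommRing A] {g : V → G} (I J : Chart g) (x : V → A) (c : G → A)
    (hJ : ∀ γ, x (J.1 γ) = 1) (hc : ∀ γ, c γ * x (I.1 γ) = 1) :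
    (lccocycleT I J x c).det = ∏ v, c (g v) := by
  have h1 : lccocycleT I J x c = Matrix.diagonal (fun v => c (g v)) *
      (1 + (Matrix.of fun v γ => if g v = γ then x v else 0 : Matrix V G A) *
        lccocycleB I J c) := by
    ext v w
    rw [Matrix.diagonal_mul, Matrix.add_apply, Matrix.mul_apply, Matrix.one_apply]
    simp [lccocycleT]
  have h2 : lccocycleB I J c *
      (Matrix.of fun v γ => if g v = γ then x v else 0 : Matrix V G A) = 0 := by
    ext γ γ'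
    rw [Matrix.mul_apply]
    simp only [lccocycleB, Matrix.of_apply, add_mul, Finset.sum_add_distrib, mul_assoc,
      ← Finset.mul_sum, ite_mul, one_mul, zero_mul, Finset.sum_ite_eq', Finset.mem_univ, if_true,
      I.2 γ, J.2 γ, Matrix.zero_apply]
    by_cases h : γ = γ'
    · rw [if_pos h, if_pos h, hJ]
      linear_combination -hc γ
    · rw [if_neg h, if_neg h]
      ring
  rw [h1, Matrix.det_mul, Matrix.det_diagonal, Matrix.det_one_add_mul_comm, h2, add_zero,
    Matrix.det_one, mul_one]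

theorem lccocycle_D {A M : Type} [CommRing A] [Algebra ℂ A] [AddCommGroup M] [Module A M]
    [Module ℂ M] (D : Derivation ℂ A M) {g : V → G} (I J : Chart g) (x : V → A) (c : G → A)
    (hJ : ∀ γ, x (J.1 γ) = 1) (hc : ∀ γ, c γ * x (I.1 γ) = 1) (v : V) :
    D (c (g v) * x v) = ∑ w, lccocycleT I J x c v w • D (x w) := by
  have h1 : ∀ γ, D (x (J.1 γ)) = 0 := fun γ => by rw [hJ, D.map_one_eq_zero]
  have h2 : ∀ γ, D (c γ) = -(c γ * c γ) • D (x (I.1 γ)) := by
    intro γ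
    have h := D.leibniz (c γ) (x (I.1 γ))
    rw [hc, D.map_one_eq_zero] at h
    have h' : c γ • (c γ • D (x (I.1 γ)) + x (I.1 γ) • D (c γ)) = 0 := by rw [← h, smul_zero]
    rw [smul_add, smul_smul, smul_smul, hc, one_smul] at h'
    rw [neg_smul]
    exact eq_neg_of_add_eq_zero_right h'
  have h3 : ∀ w, lccocycleT I J x c v w • D (x w) =
      (if v = w then c (g v) • D (x w) else 0) +
        (if w = I.1 (g v) then (x v * -(c (g v) * c (g v))) • D (x w) else 0) +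
        (if w = J.1 (g v) then (c (g v) * x v) • D (x w) else 0) := by
    intro w
    have : lccocycleT I J x c v w = (if v = w then c (g v) else 0) +
        (if w = I.1 (g v) then x v * -(c (g v) * c (g v)) else 0) +
        (if w = J.1 (g v) then c (g v) * x v else 0) := by
      simp only [lccocycleT, lccocycleB, Matrix.of_apply]
      split_ifs <;> ring
    rw [this, add_smul, add_smul, ite_smul, ite_smul, ite_smul, zero_smul]
  simp only [h3, Finset.sum_add_distrib, Finset.sum_ite_eq, Finset.sum_ite_eq', Finset.mem_univ,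
    if_true, h1, smul_zero, add_zero]
  rw [D.leibniz, h2, smul_smul]

theorem lccocycle_rowF {A : Type} [CommRing A] [Algebra ℂ A] {g : V → G} {p : MvPolynomial V ℂ}
    {d : G → ℕ} (hp : MH g p d) (I J : Chart g) (x : V → A) (c : G → A) (h0 : aeval x p = 0)
    (w : V) :
    ∑ v, aeval (fun v => c (g v) * x v) (pderiv v p) * lccocycleT I J x c v w =
      (∏ γ, c γ ^ d γ) * aeval x (pderiv w p) := by
  have hy : aeval (fun v => c (g v) * x v) p = 0 := by rw [hp.scale, h0, mul_zero]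
  have h1 : ∀ v, aeval (fun v => c (g v) * x v) (pderiv v p) * lccocycleT I J x c v w =
      (if v = w then c (g v) * aeval (fun v => c (g v) * x v) (pderiv v p) else 0) +
        ∑ γ, lccocycleB I J c γ w * ((if g v = γ then c (g v) * x v else 0) *
          aeval (fun v => c (g v) * x v) (pderiv v p)) := by
    intro v
    simp only [ite_mul, zero_mul, mul_ite, mul_zero, Finset.sum_ite_eq, Finset.mem_univ, if_true,
      lccocycleT, Matrix.of_apply]
    split_ifs <;> ring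
  simp only [h1]
  rw [Finset.sum_add_distrib, Finset.sum_ite_eq', if_pos (Finset.mem_univ _), hp.scale_pderiv,
    Finset.sum_comm, Finset.sum_eq_zero, add_zero]
  intro γ _
  rw [← Finset.mul_sum, hp.euler (fun v => c (g v) * x v) γ, hy, mul_zero, mul_zero]

theorem lccocycle_rowG {A : Type} [CommRing A] [Algebra ℂ A] {g : V → G} (I J : Chart g)
    (x y : V → A) (c : G → A) (hc : ∀ γ, c γ * x (I.1 γ) = 1) (γ : G) (w : V) :
    ∑ v, aeval y (pderiv v (X (I.1 γ) - 1 : MvPolynomial V ℂ)) * lccocycleT I J x c v w =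
      aeval x (pderiv w (X (J.1 γ) - 1 : MvPolynomial V ℂ)) := by
  have h1 : ∀ (z : V → A) (u v : V), aeval z (pderiv v (X u - 1 : MvPolynomial V ℂ)) =
      if v = u then 1 else 0 := by
    intro z u v
    rw [map_sub, pderiv_one, sub_zero, pderiv_X, Pi.single_apply]
    by_cases h : v = u
    · rw [if_pos h, if_pos h.symm, map_one]
    · rw [if_neg h, if_neg fun h' => h h'.symm, map_zero]
  simp only [h1, ite_mul, one_mul, zero_mul, Finset.sum_ite_eq', Finset.mem_univ, if_true,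
    lccocycleT, lccocycleB, Matrix.of_apply, I.2 γ]
  have h2 := hc γ
  by_cases h : w = I.1 γ
  · rw [if_pos h, if_pos h.symm]
    linear_combination (-c γ + (if w = J.1 γ then 1 else 0)) * h2
  · rw [if_neg h, if_neg fun h' => h h'.symm]
    linear_combination (if w = J.1 γ then 1 else 0) * h2

theorem cocycle {A M : Type} [CommRing A] [Algebra ℂ A] [AddCommGroup M] [Module A M]
    [Module ℂ M] (D : Derivation ℂ A M) {g : V → G} (F : R → MvPolynomial V ℂ)
    (dF : R → G → ℕ) (hF : ∀ r, MH g (F r) (dF r)) {n : ℕ} (e : (R ⊕ G) ⊕ Fin n ≃ V)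
    (I J : Chart g) (ζ ξ : Fin n → MvPolynomial V ℂ) (x : V → A) (c : G → A)
    (hJ : ∀ γ, x (J.1 γ) = 1) (hc : ∀ γ, c γ * x (I.1 γ) = 1) (h0 : ∀ r, aeval x (F r) = 0)
    (hu : IsUnit (aeval x (jacDet e (rel F J) ξ))) :
    ∃ T : Matrix (Fin n) (Fin n) A,
      (∀ i, D (aeval (fun v => c (g v) * x v) (ζ i)) = ∑ j, T i j • D (aeval x (ξ j))) ∧
      aeval (fun v => c (g v) * x v) (jacDet e (rel F I) ζ) * ∏ v, c (g v) =
        T.det * (∏ r, ∏ γ, c γ ^ dF r γ) * aeval x (jacDet e (rel F J) ξ) := by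
  have hdet : ∀ (z : V → A) (Q : R ⊕ G → MvPolynomial V ℂ) (η : Fin n → MvPolynomial V ℂ),
      aeval z (jacDet e Q η) =
        (Matrix.of fun i j => aeval z (pderiv (e j) (Sum.elim Q η i))).det := by
    intro z Q η
    rw [jacDet, AlgHom.map_det]
    rfl
  rw [hdet] at hu
  rw [hdet, hdet]
  generalize hJx : (Matrix.of fun i j => aeval x (pderiv (e j) (Sum.elim (rel F J) ξ i))) = Jx
    at hu ⊢
  generalize hJy : (Matrix.of fun i j => aeval (fun v => c (g v) * x v)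
    (pderiv (e j) (Sum.elim (rel F I) ζ i))) = Jy
  have hP : ∀ i j, (Jy * (lccocycleT I J x c).submatrix e e) i j =
      ∑ v, aeval (fun v => c (g v) * x v) (pderiv v (Sum.elim (rel F I) ζ i)) *
        lccocycleT I J x c v (e j) := by
    intro i j
    rw [Matrix.mul_apply, ← hJy, ← e.sum_comp]
    rfl
  have hrow : ∀ a j, (Jy * (lccocycleT I J x c).submatrix e e) (Sum.inl a) j =
      Sum.elim (fun r => ∏ γ, c γ ^ dF r γ) (fun _ => 1) a * Jx (Sum.inl a) j := by
    intro a j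
    rw [hP, ← hJx]
    rcases a with r | γ
    · exact lccocycle_rowF (hF r) I J x c (h0 r) (e j)
    · rw [Sum.elim_inr, one_mul]
      exact lccocycle_rowG I J x _ c hc γ (e j)
  have hNJ : Jy * (lccocycleT I J x c).submatrix e e * Jx⁻¹ * Jx =
      Jy * (lccocycleT I J x c).submatrix e e := by
    rw [Matrix.mul_assoc, Matrix.nonsing_inv_mul _ hu, Matrix.mul_one]
  have hN1 : ∀ a j, (Jy * (lccocycleT I J x c).submatrix e e * Jx⁻¹) (Sum.inl a) j =
      Sum.elim (fun r => ∏ γ, c γ ^ dF r γ) (fun _ => 1) a *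
        (1 : Matrix ((R ⊕ G) ⊕ Fin n) ((R ⊕ G) ⊕ Fin n) A) (Sum.inl a) j := by
    intro a j
    rw [← Matrix.mul_nonsing_inv _ hu, Matrix.mul_apply, Matrix.mul_apply, Finset.mul_sum]
    exact Finset.sum_congr rfl fun k _ => by rw [hrow, mul_assoc]
  generalize Jy * (lccocycleT I J x c).submatrix e e * Jx⁻¹ = N at hNJ hN1
  refine ⟨N.toBlocks₂₂, fun i => ?_, ?_⟩
  · have h1 : ∀ k, ∑ j, Jx k j • D (x (e j)) = D (aeval x (Sum.elim (rel F J) ξ k)) := by
      intro k
      rw [derivation_aeval, ← e.sum_comp, ← hJx]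
      rfl
    have h2 : ∀ a, D (aeval x (Sum.elim (rel F J) ξ (Sum.inl a))) = 0 := by
      intro a
      rcases a with r | γ
      · have : aeval x (Sum.elim (rel F J) ξ (Sum.inl (Sum.inl r))) = 0 := h0 r
        rw [this, map_zero]
      · have : aeval x (Sum.elim (rel F J) ξ (Sum.inl (Sum.inr γ))) = 0 := by
          change aeval x (X (J.1 γ) - 1 : MvPolynomial V ℂ) = 0
          rw [map_sub, aeval_X, map_one, hJ, sub_self]
        rw [this, map_zero]
    calc D (aeval (fun v => c (g v) * x v) (ζ i))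
        = ∑ v, ∑ j, (aeval (fun v => c (g v) * x v) (pderiv v (ζ i)) *
            lccocycleT I J x c v (e j)) • D (x (e j)) := by
          rw [derivation_aeval]
          refine Finset.sum_congr rfl fun v _ => ?_
          rw [lccocycle_D D I J x c hJ hc v, ← e.sum_comp, Finset.smul_sum]
          exact Finset.sum_congr rfl fun j _ => smul_smul _ _ _
      _ = ∑ j, (N * Jx) (Sum.inr i) j • D (x (e j)) := by
          rw [Finset.sum_comm]
          refine Finset.sum_congr rfl fun j _ => ?_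
          rw [hNJ, hP, Finset.sum_smul]
          rfl
      _ = ∑ k, N (Sum.inr i) k • D (aeval x (Sum.elim (rel F J) ξ k)) := by
          simp only [Matrix.mul_apply, Finset.sum_smul, ← h1, Finset.smul_sum, smul_smul]
          exact Finset.sum_comm
      _ = ∑ j, N.toBlocks₂₂ i j • D (aeval x (ξ j)) := by
          rw [Fintype.sum_sum_type]
          simp only [h2, smul_zero, Finset.sum_const_zero, zero_add]
          rfl
  · have hN : N = Matrix.fromBlocks
        (Matrix.diagonal (Sum.elim (fun r => ∏ γ, c γ ^ dF r γ) fun _ => 1)) 0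
        N.toBlocks₂₁ N.toBlocks₂₂ := by
      ext i j
      rcases i with a | i <;> rcases j with b | j
      · rw [hN1, Matrix.fromBlocks_apply₁₁, Matrix.one_apply, Matrix.diagonal_apply]
        by_cases h : a = b
        · rw [if_pos h, if_pos (congrArg _ h), mul_one]
        · rw [if_neg h, if_neg fun h' => h (Sum.inl_injective h'), mul_zero]
      · rw [hN1, Matrix.fromBlocks_apply₁₂, Matrix.one_apply, if_neg Sum.inl_ne_inr, mul_zero]
        rfl
      · rfl
      · rfl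
    have hd : N.det = (∏ r, ∏ γ, c γ ^ dF r γ) * N.toBlocks₂₂.det := by
      conv_lhs => rw [hN]
      rw [Matrix.det_fromBlocks_zero₁₂, Matrix.det_diagonal, Fintype.prod_sum_type]
      simp
    have h := congrArg Matrix.det hNJ
    rw [Matrix.det_mul, Matrix.det_mul, Matrix.det_submatrix_equiv_self,
      lccocycle_det I J x c hJ hc, hd] at h
    rw [← h]
    ring

end

end Pool.Agent.P.MP_dc0411_ag
end

-- part Pool.Agent.P.MP_dc0411_ag.LcExt
section

/-!
Completing the boundary equations that vanish at a point to a system of coordinates.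
-/

open MvPolynomial

namespace Pool.Agent.P.MP_dc0411_ag

noncomputable section

variable {V G R S : Type} [Fintype V] [DecidableEq V] [Fintype G] [DecidableEq G] [Fintype R]
  [DecidableEq R] [Fintype S] [DecidableEq S]

/-- At the point `x` the gradients of the equations `F` and of the functions `h s` that vanish
at `x` are linearly independent. -/
def RankAt {K : Type} [Field K] [Algebra ℂ K] (F : R → MvPolynomial V ℂ)
    (h : S → MvPolynomial V ℂ) (x : V → K) : Prop :=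
  ∀ (l : R → K) (μ : S → K), (∀ s, aeval x (h s) ≠ 0 → μ s = 0) →
    (∀ v, ∑ r, l r * aeval x (pderiv v (F r)) + ∑ s, μ s * aeval x (pderiv v (h s)) = 0) →
    (∀ r, l r = 0) ∧ ∀ s, μ s = 0

omit [Fintype G] [DecidableEq G] [Fintype R] [DecidableEq R] [Fintype S] [DecidableEq S] in
/-- An independent family of rows can be extended by unit vectors. -/
theorem lcext_extend {K ι : Type} [Field K] [Fintype ι] (w : ι → V → K)
    (hw : LinearIndependent K w) (m : ℕ) (hm : Fintype.card ι + m ≤ Fintype.card V) :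
    ∃ u : Fin m → V,
      LinearIndependent K (Sum.elim w fun j => (Pi.single (u j) 1 : V → K)) := by
  induction m with
  | zero =>
    refine ⟨Fin.elim0, ?_⟩
    have h1 : (Sum.elim w fun j : Fin 0 => (Pi.single (Fin.elim0 j) 1 : V → K)) =
        w ∘ Sum.elim id Fin.elim0 := by
      funext i
      rcases i with i | j
      · rfl
      · exact j.elim0
    rw [h1]
    refine hw.comp _ ?_
    rintro (i | j) (i' | j') h
    · exact congrArg Sum.inl h
    · exact j'.elim0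
    · exact j.elim0
    · exact j.elim0
  | succ m ih =>
    obtain ⟨u, hu⟩ := ih (by omega)
    obtain ⟨w', hw'⟩ : ∃ w', w' = Sum.elim w fun j => (Pi.single (u j) 1 : V → K) := ⟨_, rfl⟩
    rw [← hw'] at hu
    have hv : ∃ v : V, (Pi.single v 1 : V → K) ∉ Submodule.span K (Set.range w') := by
      by_contra hcon
      have hall : ∀ v : V, (Pi.single v 1 : V → K) ∈ Submodule.span K (Set.range w') :=
        fun v => by_contra fun hv => hcon ⟨v, hv⟩
      have htop : Submodule.span K (Set.range w') = ⊤ := by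
        refine eq_top_iff.2 fun y _ => ?_
        rw [pi_eq_sum_univ' y]
        exact Submodule.sum_mem _ fun v _ => Submodule.smul_mem _ _ (hall v)
      have h1 := finrank_span_eq_card hu
      rw [htop, finrank_top, Module.finrank_fintype_fun_eq_card, Fintype.card_sum,
        Fintype.card_fin] at h1
      omega
    obtain ⟨v, hv⟩ := hv
    have h2 : LinearIndependent K
        (fun o : Option (ι ⊕ Fin m) => (o.elim (Pi.single v 1) w' : V → K)) :=
      linearIndependent_option.2 ⟨hu, hv⟩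
    refine ⟨Fin.cons v u, ?_⟩
    let σ : ι ⊕ Fin (m + 1) → Option (ι ⊕ Fin m) :=
      Sum.elim (fun i => some (Sum.inl i)) (Fin.cons none fun j => some (Sum.inr j))
    have h3 : (Sum.elim w fun j : Fin (m + 1) =>
        (Pi.single ((Fin.cons v u : Fin (m + 1) → V) j) 1 : V → K)) =
        (fun o : Option (ι ⊕ Fin m) => (o.elim (Pi.single v 1) w' : V → K)) ∘ σ := by
      funext i
      rcases i with i | j
      · simp [σ, hw']
      · refine Fin.cases ?_ (fun j => ?_) j <;> simp [σ, hw']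
    rw [h3]
    refine h2.comp σ ?_
    rintro (i | j) (i' | j')
    · simp [σ]
    · refine Fin.cases ?_ (fun j' => ?_) j' <;> simp [σ]
    · refine Fin.cases ?_ (fun j => ?_) j <;> simp [σ]
    · refine Fin.cases ?_ (fun j => ?_) j <;> refine Fin.cases ?_ (fun j' => ?_) j' <;> simp [σ]

omit [DecidableEq R] [DecidableEq S] in
/-- The rows of the equations, of the chart and of the vanishing functions are independent. -/
theorem lcext_indep {K : Type} [Field K] [Algebra ℂ K] {g : V → G} (F : R → MvPolynomial V ℂ)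
    (dF : R → G → ℕ) (hF : ∀ r, MH g (F r) (dF r))
    (I : Chart g) (h : S → MvPolynomial V ℂ) (hh : ∀ s, ∃ d, MH g (h s) d) (x : V → K)
    (hI : ∀ γ, x (I.1 γ) = 1) (h0 : ∀ r, aeval x (F r) = 0) (hr : RankAt F h x)
    (p : S → Prop) [DecidablePred p] (hp : ∀ s, p s → aeval x (h s) = 0) :
    LinearIndependent K (fun (i : (R ⊕ G) ⊕ {s // p s}) (v : V) =>
      aeval x (pderiv v (Sum.elim (rel F I) (fun s => h s.1) i))) := by
  refine Fintype.linearIndependent_iff.2 fun c hc => ?_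
  have hc1 : ∀ v, ∑ r, c (Sum.inl (Sum.inl r)) * aeval x (pderiv v (F r)) +
      ∑ γ, c (Sum.inl (Sum.inr γ)) * (if I.1 γ = v then 1 else 0) +
      ∑ s : {s // p s}, c (Sum.inr s) * aeval x (pderiv v (h s.1)) = 0 := by
    intro v
    have := congrFun hc v
    simp only [Finset.sum_apply, Pi.smul_apply, smul_eq_mul, Fintype.sum_sum_type, Sum.elim_inl,
      Sum.elim_inr, rel, Pi.zero_apply, map_sub, pderiv_X, Derivation.map_one_eq_zero, sub_zero,
      Pi.single_apply] at this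
    simpa only [apply_ite (aeval x), map_one, map_zero] using this
  have hG : ∀ γ, c (Sum.inl (Sum.inr γ)) = 0 := by
    intro γ
    have h1 : ∑ v, (if g v = γ then x v else 0) *
        (∑ r, c (Sum.inl (Sum.inl r)) * aeval x (pderiv v (F r)) +
        ∑ γ', c (Sum.inl (Sum.inr γ')) * (if I.1 γ' = v then 1 else 0) +
        ∑ s : {s // p s}, c (Sum.inr s) * aeval x (pderiv v (h s.1))) = 0 :=
      Finset.sum_eq_zero fun v _ => by rw [hc1 v, mul_zero]
    have h2 : ∑ v, (if g v = γ then x v else 0) *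
        ∑ r, c (Sum.inl (Sum.inl r)) * aeval x (pderiv v (F r)) = 0 := by
      simp only [Finset.mul_sum]
      rw [Finset.sum_comm]
      refine Finset.sum_eq_zero fun r _ => ?_
      simp only [mul_left_comm _ (c _)]
      rw [← Finset.mul_sum, (hF r).euler x γ, h0 r, mul_zero, mul_zero]
    have h3 : ∑ v, (if g v = γ then x v else 0) *
        ∑ s : {s // p s}, c (Sum.inr s) * aeval x (pderiv v (h s.1)) = 0 := by
      simp only [Finset.mul_sum]
      rw [Finset.sum_comm]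
      refine Finset.sum_eq_zero fun s _ => ?_
      obtain ⟨d, hd⟩ := hh s.1
      simp only [mul_left_comm _ (c _)]
      rw [← Finset.mul_sum, hd.euler x γ, hp s.1 s.2, mul_zero, mul_zero]
    have h4 : ∑ v, (if g v = γ then x v else 0) *
        ∑ γ', c (Sum.inl (Sum.inr γ')) * (if I.1 γ' = v then 1 else 0) =
        c (Sum.inl (Sum.inr γ)) := by
      simp only [Finset.mul_sum]
      rw [Finset.sum_comm, Finset.sum_eq_single γ]
      · rw [Finset.sum_eq_single (I.1 γ)]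
        · simp [I.2 γ, hI γ]
        · intro v _ hv
          rw [if_neg hv.symm, mul_zero, mul_zero]
        · simp
      · intro γ' _ hγ
        refine Finset.sum_eq_zero fun v _ => ?_
        by_cases hv : I.1 γ' = v
        · rw [if_neg (by rw [← hv, I.2 γ']; exact hγ), zero_mul]
        · rw [if_neg hv, mul_zero, mul_zero]
      · simp
    simp only [mul_add, Finset.sum_add_distrib] at h1
    rw [h2, h3, h4, zero_add, add_zero] at h1
    exact h1
  obtain ⟨hl, hμ⟩ := hr (fun r => c (Sum.inl (Sum.inl r)))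
    (fun s => if hs : p s then c (Sum.inr ⟨s, hs⟩) else 0)
    (fun s hs => dif_neg fun hps => hs (hp s hps)) (by
      intro v
      have h1 := hc1 v
      simp only [hG, zero_mul, Finset.sum_const_zero, add_zero] at h1
      refine Eq.trans ?_ h1
      congr 1
      rw [← Fintype.sum_subtype_add_sum_subtype p]
      have h2 : ∑ s : {s // ¬ p s}, (if hs : p s.1 then c (Sum.inr ⟨s.1, hs⟩) else 0) *
          aeval x (pderiv v (h s.1)) = 0 :=
        Finset.sum_eq_zero fun s _ => by rw [dif_neg s.2, zero_mul]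
      rw [h2, add_zero]
      exact Finset.sum_congr rfl fun s _ => by rw [dif_pos s.2])
  rintro ((r | γ) | s)
  · exact hl r
  · exact hG γ
  · have := hμ s.1
    rwa [dif_pos s.2] at this

theorem exists_coords {K : Type} [Field K] [Algebra ℂ K] {g : V → G} (F : R → MvPolynomial V ℂ)
    (dF : R → G → ℕ) (hF : ∀ r, MH g (F r) (dF r)) {n : ℕ} (e : (R ⊕ G) ⊕ Fin n ≃ V)
    (I : Chart g) (h : S → MvPolynomial V ℂ) (hh : ∀ s, ∃ d, MH g (h s) d) (x : V → K)
    (hI : ∀ γ, x (I.1 γ) = 1) (h0 : ∀ r, aeval x (F r) = 0) (hr : RankAt F h x) :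
    ∃ (ζ : Fin n → MvPolynomial V ℂ) (k : Finset (Fin n)) (δ : MvPolynomial V ℂ),
      aeval x (jacDet e (rel F I) ζ) ≠ 0 ∧ aeval x δ ≠ 0 ∧ (∏ i ∈ k, ζ i) * δ = ∏ s, h s := by
  classical
  let p : S → Prop := fun s => aeval x (h s) = 0
  have hw := lcext_indep F dF hF I h hh x hI h0 hr p fun _ hs => hs
  have hV : Fintype.card V = Fintype.card (R ⊕ G) + n := by
    rw [← Fintype.card_congr e, Fintype.card_sum (α := R ⊕ G), Fintype.card_fin]
  have hle : Fintype.card {s // p s} ≤ n := by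
    have := hw.fintype_card_le_finrank
    rw [Module.finrank_fintype_fun_eq_card, hV, Fintype.card_sum (α := R ⊕ G)] at this
    omega
  obtain ⟨u, hu⟩ := lcext_extend _ hw (n - Fintype.card {s // p s}) (by
    rw [hV, Fintype.card_sum (α := R ⊕ G)]
    omega)
  let τ : Fin n ≃ {s // p s} ⊕ Fin (n - Fintype.card {s // p s}) :=
    Fintype.equivOfCardEq (by
      rw [Fintype.card_sum, Fintype.card_fin, Fintype.card_fin]
      omega)
  let ζ : Fin n → MvPolynomial V ℂ := fun i => Sum.elim (fun s => h s.1) (fun j => X (u j)) (τ i)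
  refine ⟨ζ, Finset.univ.map ⟨fun s => τ.symm (Sum.inl s),
    τ.symm.injective.comp Sum.inl_injective⟩, ∏ s : {s // ¬ p s}, h s.1, ?_, ?_, ?_⟩
  · let σ := (Equiv.sumCongr (Equiv.refl (R ⊕ G)) τ).trans (Equiv.sumAssoc _ _ _).symm
    have h1 := (hu.comp σ σ.injective).map' (LinearEquiv.funCongrLeft K K e).toLinearMap
      (LinearEquiv.ker _)
    have h2 : LinearIndependent K (Matrix.of fun i j =>
        aeval x (pderiv (e j) (Sum.elim (rel F I) ζ i))).row := by
      refine (congrArg (fun t : (R ⊕ G) ⊕ Fin n → (R ⊕ G) ⊕ Fin n → K =>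
        LinearIndependent K t) ?_).mp h1
      funext i j
      rcases i with i | i
      · rfl
      · simp only [σ, ζ, Function.comp, Equiv.trans_apply, Equiv.sumCongr_apply, Sum.map_inr,
          Matrix.row, Matrix.of_apply, Sum.elim_inr]
        rcases τ i with s | k
        · rfl
        · simp [Pi.single_apply, apply_ite (aeval x), eq_comm]
    have h3 := (Matrix.isUnit_iff_isUnit_det _).1 (Matrix.linearIndependent_rows_iff_isUnit.1 h2)
    rw [jacDet, AlgHom.map_det]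
    exact h3.ne_zero
  · rw [map_prod]
    exact Finset.prod_ne_zero_iff.2 fun s _ => s.2
  · rw [Finset.prod_map, ← Fintype.prod_subtype_mul_prod_subtype p]
    congr 1
    refine Finset.prod_congr rfl fun s _ => ?_
    simp [ζ]

end

end Pool.Agent.P.MP_dc0411_ag
end

-- part Pool.Agent.P.MP_dc0411_ag.LcAsm
section

/-!
A complete intersection in a product of projective spaces with a normal crossings boundary:
smoothness and adjunction.
-/

set_option linter.unusedSectionVars false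

open CategoryTheory AlgebraicGeometry MvPolynomial

namespace Pool.Agent.P.MP_dc0411_ag

noncomputable section

attribute [local instance] secAlgebra

variable {V G R S : Type} [Fintype V] [DecidableEq V] [Fintype G] [DecidableEq G] [Fintype R]
  [DecidableEq R] [Fintype S] [DecidableEq S]

/-- The transition rule of the boundary equations which says `K + D = O(m)`. -/
def Adj (g : V → G) (F : R → MvPolynomial V ℂ) (dF : R → G → ℕ)
    (P : Chart g → MvPolynomial V ℂ) (m : G → ℕ) : Prop :=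
  ∀ (A : Type) [CommRing A] [Algebra ℂ A] (I J : Chart g) (x : V → A) (c : G → A),
    (∀ γ, x (J.1 γ) = 1) → (∀ γ, c γ * x (I.1 γ) = 1) → (∀ r, aeval x (F r) = 0) →
    (∏ γ, c γ ^ m γ) * (∏ v, c (g v)) * aeval x (P J) =
      (∏ r, ∏ γ, c γ ^ dF r γ) * aeval (fun v => c (g v) * x v) (P I)

variable {g : V → G} {F : R → MvPolynomial V ℂ} {Y : Over SpecC}

theorem lcasm_res_mul {U W : Y.left.Opens} (h : W ≤ U) (s t : Γ(Y.left, U)) :
    res h (s * t) = res h s * res h t := map_mul (resAlg h) s t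

theorem lcasm_res_one {U W : Y.left.Opens} (h : W ≤ U) : res h (1 : Γ(Y.left, U)) = 1 :=
  map_one (resAlg h)

theorem lcasm_res_zero {U W : Y.left.Opens} (h : W ≤ U) : res h (0 : Γ(Y.left, U)) = 0 :=
  map_zero (resAlg h)

theorem lcasm_res_prod {U W : Y.left.Opens} (h : W ≤ U) {ι : Type} (T : Finset ι)
    (s : ι → Γ(Y.left, U)) : res h (∏ i ∈ T, s i) = ∏ i ∈ T, res h (s i) :=
  map_prod (resAlg h) s T

theorem lcasm_res_pow {U W : Y.left.Opens} (h : W ≤ U) (s : Γ(Y.left, U)) (k : ℕ) :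
    res h (s ^ k) = res h s ^ k := map_pow (resAlg h) s k

theorem lcasm_bo_unit {U : Y.left.Opens} {u : Γ(Y.left, U)} (hu : IsUnit u) (s : Γ(Y.left, U)) :
    Y.left.basicOpen (u * s) = Y.left.basicOpen s := by
  rw [Scheme.basicOpen_mul, Scheme.basicOpen_of_isUnit _ hu]
  exact inf_eq_right.2 (Y.left.basicOpen_le s)

theorem lcasm_bo_prod_pow {U : Y.left.Opens} {ι : Type} (T : Finset ι) (s : ι → Γ(Y.left, U))
    (m : ι → ℕ) (hm : ∀ i, 0 < m i) :
    Y.left.basicOpen (∏ i ∈ T, s i ^ m i) = Y.left.basicOpen (∏ i ∈ T, s i) := by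
  classical
  induction T using Finset.induction_on with
  | empty => simp
  | insert a T ha ih =>
    rw [Finset.prod_insert ha, Finset.prod_insert ha, Scheme.basicOpen_mul, Scheme.basicOpen_mul,
      ih, Scheme.basicOpen_pow _ _ (hm a)]

theorem lcasm_trans (D : MPData g F Y) {I J : Chart g} {W : Y.left.Opens} (hI : W ≤ D.U I)
    (hJ : W ≤ D.U J) (v : V) :
    res hI (D.Z I v) = res hI (D.Z I (J.1 (g v))) * res hJ (D.Z J v) := by
  have h := congrArg (res (le_inf hI hJ : W ≤ D.U I ⊓ D.U J)) (D.trans I J v)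
  rwa [lcasm_res_mul, res_res, res_res, res_res] at h

theorem lcasm_one (D : MPData g F Y) {J : Chart g} {W : Y.left.Opens} (hJ : W ≤ D.U J) (γ : G) :
    res hJ (D.Z J (J.1 γ)) = 1 := by
  rw [D.Z_self, lcasm_res_one]

theorem lcasm_inv (D : MPData g F Y) {I J : Chart g} {W : Y.left.Opens} (hI : W ≤ D.U I)
    (hJ : W ≤ D.U J) (γ : G) : res hI (D.Z I (J.1 γ)) * res hJ (D.Z J (I.1 γ)) = 1 := by
  have h := lcasm_trans D hI hJ (I.1 γ)
  rw [I.2 γ, lcasm_one] at h
  exact h.symm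

theorem lcasm_zero (D : MPData g F Y) {J : Chart g} {W : Y.left.Opens} (hJ : W ≤ D.U J) (r : R) :
    aeval (fun v => res hJ (D.Z J v)) (F r) = 0 := by
  rw [← res_aeval, D.aeval_F, lcasm_res_zero]

theorem lcasm_aeval (D : MPData g F Y) {I J : Chart g} {W : Y.left.Opens} (hI : W ≤ D.U I)
    (hJ : W ≤ D.U J) (p : MvPolynomial V ℂ) :
    aeval (fun v => res hI (D.Z I (J.1 (g v))) * res hJ (D.Z J v)) p =
      res hI (aeval (D.Z I) p) := by
  rw [res_aeval]
  congr 2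
  funext v
  exact (lcasm_trans D hI hJ v).symm

theorem lcasm_unit (D : MPData g F Y) {I J : Chart g} {W : Y.left.Opens} (hI : W ≤ D.U I)
    (hJ : W ≤ D.U J) (γ : G) : IsUnit (res hI (D.Z I (J.1 γ))) :=
  IsUnit.of_mul_eq_one _ (lcasm_inv D hI hJ γ)

/-- The transition rule on an open subset of two charts. -/
theorem lcasm_adj (D : MPData g F Y) {dF : R → G → ℕ} {P : Chart g → MvPolynomial V ℂ}
    {m : G → ℕ} (hP : Adj g F dF P m) {I J : Chart g} {W : Y.left.Opens} (hI : W ≤ D.U I)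
    (hJ : W ≤ D.U J) :
    (∏ γ, res hI (D.Z I (J.1 γ)) ^ m γ) * (∏ v, res hI (D.Z I (J.1 (g v)))) *
        res hJ (aeval (D.Z J) (P J)) =
      (∏ r, ∏ γ, res hI (D.Z I (J.1 γ)) ^ dF r γ) * res hI (aeval (D.Z I) (P I)) := by
  have h := hP Γ(Y.left, W) I J (fun v => res hJ (D.Z J v)) (fun γ => res hI (D.Z I (J.1 γ)))
    (lcasm_one D hJ) (lcasm_inv D hI hJ) (lcasm_zero D hJ)
  rwa [lcasm_aeval D hI hJ, ← res_aeval] at h

theorem MPData.basicOpen_P (D : MPData g F Y) {dF : R → G → ℕ} {P : Chart g → MvPolynomial V ℂ}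
    {m : G → ℕ} (hP : Adj g F dF P m) (I : Chart g) :
    Y.left.basicOpen (aeval (D.Z I) (P I)) = D.U I ⊓ D.intr P := by
  refine le_antisymm (le_inf (Y.left.basicOpen_le _)
    (le_iSup (fun I => Y.left.basicOpen (aeval (D.Z I) (P I))) I)) ?_
  unfold MPData.intr
  rw [inf_iSup_eq]
  refine iSup_le fun J => ?_
  have hI : D.U I ⊓ D.U J ≤ D.U I := inf_le_left
  have hJ : D.U I ⊓ D.U J ≤ D.U J := inf_le_right
  have hu := lcasm_unit D hI hJ
  have h := congrArg Y.left.basicOpen (lcasm_adj D hP hI hJ)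
  rw [lcasm_bo_unit ((IsUnit.prod_univ_iff.2 fun γ => (hu γ).pow _).mul
      (IsUnit.prod_univ_iff.2 fun v => hu (g v))),
    lcasm_bo_unit (IsUnit.prod_univ_iff.2 fun r => IsUnit.prod_univ_iff.2 fun γ => (hu γ).pow _),
    basicOpen_res', basicOpen_res'] at h
  refine le_trans ?_ (h.le.trans inf_le_right)
  exact le_inf (inf_le_inf_left _ (Y.left.basicOpen_le _)) inf_le_right

theorem lcasm_ring {A : Type} [CommRing A] {Cm Cv Cf N ia ib ja jb δa δb ea eb t : A}
    (hCf : IsUnit Cf) (h1 : ja * Cv = t * Cf * jb) (h2 : Cm * Cv * (eb * δb) = Cf * (ea * δa))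
    (ha : ja * δa * ia = 1) (hb : jb * δb * ib = 1) :
    Cm * N * ia * (t * eb) ^ 1 = N * ib * ea ^ 1 := by
  apply hCf.mul_left_cancel
  linear_combination (-(Cf * Cm * N * ia * t * eb)) * hb - (Cm * N * ia * eb * δb * ib) * h1 +
    (N * ia * ib * ja) * h2 + (N * ib * Cf * ea) * ha

theorem lcasm_isUnit_res {U : Y.left.Opens} (s : Γ(Y.left, U)) :
    IsUnit (res (Y.left.basicOpen_le s) s) := RingedSpace.isUnit_res_basicOpen _ s

theorem lcasm_exists_chart (D : MPData g F Y) (y : Y.left) : ∃ I, y ∈ D.U I := by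
  have h : y ∈ (⊤ : Y.left.Opens) := trivial
  rw [← D.cover] at h
  exact TopologicalSpace.Opens.mem_iSup.1 h

/-- Coordinates near a point. -/
theorem lcasm_point (D : MPData g F Y) (dF : R → G → ℕ) (hF : ∀ r, MH g (F r) (dF r))
    {n : ℕ} (e : (R ⊕ G) ⊕ Fin n ≃ V) (h : Chart g → S → MvPolynomial V ℂ)
    (hh : ∀ I s, ∃ d, MH g (h I s) d)
    (hr : ∀ (K : Type) [Field K] [Algebra ℂ K] (I : Chart g) (x : V → K),
      (∀ γ, x (I.1 γ) = 1) → (∀ r, aeval x (F r) = 0) → RankAt F (h I) x) (y : Y.left) :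
    ∃ (I : Chart g) (ζ : Fin n → MvPolynomial V ℂ) (k : Finset (Fin n)) (δ : MvPolynomial V ℂ),
      y ∈ Y.left.basicOpen (aeval (D.Z I) (jacDet e (rel F I) ζ * δ)) ∧
        (∏ i ∈ k, ζ i) * δ = ∏ s, h I s := by
  obtain ⟨I, hy⟩ := lcasm_exists_chart D y
  let _ : Algebra ℂ (Y.left.residueField y) :=
    ((Y.left.evaluation (D.U I) y hy).hom.comp (algebraMap ℂ Γ(Y.left, D.U I))).toAlgebra
  let φ : Γ(Y.left, D.U I) →ₐ[ℂ] Y.left.residueField y :=
    { toRingHom := (Y.left.evaluation (D.U I) y hy).hom, commutes' := fun _ => rfl }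
  have hφ : ∀ p : MvPolynomial V ℂ, aeval (fun v => φ (D.Z I v)) p = φ (aeval (D.Z I) p) := by
    intro p
    rw [← AlgHom.comp_apply, comp_aeval]
  have h1 : ∀ γ, φ (D.Z I (I.1 γ)) = 1 := fun γ => by rw [D.Z_self, map_one]
  have h0 : ∀ r, aeval (fun v => φ (D.Z I v)) (F r) = 0 := fun r => by
    rw [hφ, D.aeval_F, map_zero]
  obtain ⟨ζ, k, δ, hj, hδ, hk⟩ := exists_coords F dF hF e I (h I) (hh I)
    (fun v => φ (D.Z I v)) h1 h0 (hr _ I _ h1 h0)
  refine ⟨I, ζ, k, δ, ?_, hk⟩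
  have h2 : φ (aeval (D.Z I) (jacDet e (rel F I) ζ * δ)) ≠ 0 := by
    rw [← hφ, map_mul]
    exact mul_ne_zero hj hδ
  exact (Y.left.evaluation_ne_zero_iff_mem_basicOpen y hy _).1 h2

/-- The chart on which the Jacobian determinant is invertible. -/
theorem lcasm_chart (D : MPData g F Y) {n : ℕ} (e : (R ⊕ G) ⊕ Fin n ≃ V) (I : Chart g)
    (ζ : Fin n → MvPolynomial V ℂ) (δ : MvPolynomial V ℂ) (ε : Γ(Y.left, D.U I))
    (hε : ε = aeval (D.Z I) (jacDet e (rel F I) ζ * δ)) :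
    Algebra.IsStandardSmoothOfRelativeDimension n ℂ Γ(Y.left, Y.left.basicOpen ε) ∧
      (LinearIndependent Γ(Y.left, Y.left.basicOpen ε) fun i =>
        dif (res (Y.left.basicOpen_le ε) (aeval (D.Z I) (ζ i)))) ∧
      Submodule.span Γ(Y.left, Y.left.basicOpen ε) (Set.range fun i =>
        dif (res (Y.left.basicOpen_le ε) (aeval (D.Z I) (ζ i)))) = ⊤ := by
  have := (D.aff I).isLocalization_basicOpen ε
  have : IsScalarTower ℂ Γ(Y.left, D.U I) Γ(Y.left, Y.left.basicOpen ε) :=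
    IsScalarTower.of_algebraMap_eq fun c => ((resAlg (Y.left.basicOpen_le ε)).commutes c).symm
  have hu : IsUnit (res (Y.left.basicOpen_le ε) (aeval (D.Z I) (jacDet e (rel F I) ζ)) *
      res (Y.left.basicOpen_le ε) (aeval (D.Z I) δ)) := by
    rw [← lcasm_res_mul, ← map_mul, ← hε]
    exact lcasm_isUnit_res ε
  exact chart_smooth e (rel F I) ζ (D.Z I) (D.surj I) (D.ker I) ε (isUnit_of_mul_isUnit_left hu)

theorem MPData.polarized (D : MPData g F Y) (dF : R → G → ℕ) (hF : ∀ r, MH g (F r) (dF r))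
    {n : ℕ} (e : (R ⊕ G) ⊕ Fin n ≃ V) (h : Chart g → S → MvPolynomial V ℂ)
    (hh : ∀ I s, ∃ d, MH g (h I s) d) (m : G → ℕ) (hm : ∀ γ, 0 < m γ)
    (hP : Adj g F dF (fun I => ∏ s, h I s) m)
    (hr : ∀ (K : Type) [Field K] [Algebra ℂ K] (I : Chart g) (x : V → K),
      (∀ γ, x (I.1 γ) = 1) → (∀ r, aeval x (F r) = 0) → RankAt F (h I) x) :
    SmoothOfRelativeDimension n Y.hom ∧
      LogCanonicallyPolarized Y.hom (D.intr fun I => ∏ s, h I s) n := by
  choose I ζ k δ hy hk using lcasm_point D dF hF e h hh hr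
  obtain ⟨ε, hε⟩ : ∃ ε : ∀ a, Γ(Y.left, D.U (I a)),
      ∀ a, ε a = aeval (D.Z (I a)) (jacDet e (rel F (I a)) (ζ a) * δ a) := ⟨_, fun _ => rfl⟩
  have hy' : ∀ a, a ∈ Y.left.basicOpen (ε a) := fun a => by
    rw [hε a]
    exact hy a
  have hc := fun a => lcasm_chart D e (I a) (ζ a) (δ a) (ε a) (hε a)
  have haff : ∀ a, IsAffineOpen (Y.left.basicOpen (ε a)) := fun a => (D.aff (I a)).basicOpen _
  have hle : ∀ a, Y.left.basicOpen (ε a) ≤ D.U (I a) := fun a => Y.left.basicOpen_le _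
  refine ⟨⟨fun y => ⟨⊤, isAffineOpen_top _, Y.left.basicOpen (ε y), haff y, hy' y, le_top, ?_⟩⟩, ?_⟩
  · exact (RingHom.isStandardSmoothOfRelativeDimension_respectsIso.cancel_left_isIso
      (Scheme.ΓSpecIso (CommRingCat.of ℂ)).inv _).1 (hc y).1
  have hinv : ∀ a, ∃ b : Γ(Y.left, Y.left.basicOpen (ε a)),
      res (hle a) (aeval (D.Z (I a)) (jacDet e (rel F (I a)) (ζ a))) *
        res (hle a) (aeval (D.Z (I a)) (δ a)) * b = 1 := by
    intro a
    rw [← lcasm_res_mul, ← map_mul, ← hε]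
    exact (lcasm_isUnit_res (ε a)).exists_right_inv
  choose iv hiv using hinv
  have heq : ∀ a, (∏ i ∈ k a, res (hle a) (aeval (D.Z (I a)) (ζ a i))) *
      res (hle a) (aeval (D.Z (I a)) (δ a)) = res (hle a) (aeval (D.Z (I a)) (∏ s, h (I a) s)) := by
    intro a
    rw [← lcasm_res_prod, ← lcasm_res_mul, ← map_prod, ← map_mul, hk a]
  let A : Y.left → LogChart Y.hom (D.intr fun I => ∏ s, h I s) n := fun a =>
    { U := Y.left.basicOpen (ε a)
      affine := haff a
      z := fun i => res (hle a) (aeval (D.Z (I a)) (ζ a i))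
      k := k a
      coord := (hc a).2
      boundary := by
        have hu : IsUnit (res (hle a) (aeval (D.Z (I a)) (δ a))) :=
          isUnit_of_mul_isUnit_right (IsUnit.of_mul_eq_one _ (hiv a))
        rw [← lcasm_bo_unit hu, mul_comm, heq a, basicOpen_res', D.basicOpen_P hP, ← inf_assoc,
          inf_eq_left.2 (hle a)] }
  have hcov : ⨆ a, Y.left.basicOpen (ε a) = ⊤ :=
    top_unique fun y _ => TopologicalSpace.Opens.mem_iSup.2 ⟨y, hy' y⟩
  refine ⟨Y.left, A, hcov, fun y => ?_⟩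
  obtain ⟨J, hJ⟩ := lcasm_exists_chart D y
  have hloc : ⨆ a, Y.left.basicOpen (res (hle a) (∏ γ, D.Z (I a) (J.1 γ) ^ m γ) * iv a) =
      D.U J := by
    have h1 : ∀ a, Y.left.basicOpen (res (hle a) (∏ γ, D.Z (I a) (J.1 γ) ^ m γ) * iv a) =
        Y.left.basicOpen (ε a) ⊓ D.U J := by
      intro a
      rw [mul_comm, lcasm_bo_unit (IsUnit.of_mul_eq_one_right _ (hiv a)), basicOpen_res',
        lcasm_bo_prod_pow _ _ m hm, D.inter, ← inf_assoc, inf_eq_left.2 (hle a)]
    simp only [h1]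
    rw [← iSup_inf_eq, hcov, top_inf_eq]
  refine ⟨1, fun a => res (hle a) (∏ γ, D.Z (I a) (J.1 γ) ^ m γ) * iv a, one_pos, fun a b => ?_,
    ?_, ?_⟩
  rotate_left
  · exact hloc ▸ D.aff J
  · exact hloc ▸ hJ
  have ha : Y.left.basicOpen (ε a) ⊓ Y.left.basicOpen (ε b) ≤ Y.left.basicOpen (ε a) := inf_le_left
  have hb : Y.left.basicOpen (ε a) ⊓ Y.left.basicOpen (ε b) ≤ Y.left.basicOpen (ε b) := inf_le_right
  have hI := ha.trans (hle a)
  have hI' := hb.trans (hle b)
  have hia := congrArg (res ha) (hiv a)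
  have hib := congrArg (res hb) (hiv b)
  rw [lcasm_res_mul, lcasm_res_mul, lcasm_res_one, res_res, res_res] at hia hib
  obtain ⟨T, hT, hdet⟩ := cocycle
    (KaehlerDifferential.D ℂ Γ(Y.left, Y.left.basicOpen (ε a) ⊓ Y.left.basicOpen (ε b))) F dF hF e
    (I a) (I b) (ζ a) (ζ b) (fun v => res hI' (D.Z (I b) v))
    (fun γ => res hI (D.Z (I a) ((I b).1 γ))) (lcasm_one D hI') (lcasm_inv D hI hI')
    (lcasm_zero D hI') (by
      rw [← res_aeval]
      exact isUnit_of_mul_isUnit_left (IsUnit.of_mul_eq_one _ hib))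
  refine ⟨T, fun i => ?_, ?_⟩
  · have h1 := hT i
    rw [lcasm_aeval D hI hI'] at h1
    simp only [← res_aeval] at h1
    change dif (res ha (res (hle a) _)) = ∑ j, T i j • dif (res hb (res (hle b) _))
    simp only [res_res]
    exact h1
  · have hu := lcasm_unit D hI hI'
    have h1 := lcasm_adj D hP hI hI'
    have h2 := congrArg (res ha) (heq a)
    have h3 := congrArg (res hb) (heq b)
    rw [lcasm_res_mul, res_res, res_res] at h2 h3
    rw [← h2, ← h3] at h1
    rw [lcasm_aeval D hI hI', ← res_aeval] at hdet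
    have h4 : res hI (∏ γ, D.Z (I a) (J.1 γ) ^ m γ) =
        (∏ γ, res hI (D.Z (I a) ((I b).1 γ)) ^ m γ) * res hI' (∏ γ, D.Z (I b) (J.1 γ) ^ m γ) := by
      rw [lcasm_res_prod, lcasm_res_prod, ← Finset.prod_mul_distrib]
      refine Finset.prod_congr rfl fun γ _ => ?_
      rw [lcasm_res_pow, lcasm_res_pow, ← mul_pow, lcasm_trans D hI hI', J.2 γ]
    have h5 := lcasm_ring (N := res hI' (∏ γ, D.Z (I b) (J.1 γ) ^ m γ))
      (IsUnit.prod_univ_iff.2 fun r => IsUnit.prod_univ_iff.2 fun γ => (hu γ).pow _)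
      hdet h1 hia hib
    change res ha (res (hle a) _ * iv a) * (T.det * res hb (∏ i ∈ k b, _)) ^ 1 =
      res hb (res (hle b) _ * iv b) * res ha (∏ i ∈ k a, _) ^ 1
    rw [lcasm_res_mul, lcasm_res_mul, res_res, res_res, h4]
    exact h5

end

end Pool.Agent.P.MP_dc0411_ag
end

-- part Pool.Agent.P.MP_dc0411_ag.LcEx
section

/-!
The threefold in `ℙ³ × ℙ¹ × ℙ¹ × ℙ²` with coordinates
`(x, y, a, b; τ₀, τ₁; t₀, t₁; q, r, w) = (X 0, …, X 10)` and its boundary.
-/

open MvPolynomial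

namespace Pool.Agent.P.MP_dc0411_ag

noncomputable section

/-- The groups of variables. -/
def gE : Fin 11 → Fin 4 := ![0, 0, 0, 0, 1, 1, 2, 2, 3, 3, 3]

/-- The four equations. -/
def FE : Fin 4 → MvPolynomial (Fin 11) ℂ :=
  ![X 0 ^ 3 + X 1 ^ 3 - X 2 ^ 3 - X 3 ^ 3,
    X 2 * X 5 - X 3 * X 4,
    (X 2 ^ 3 + X 3 ^ 3) * X 7 - (X 0 ^ 3 - X 2 ^ 3) * X 6,
    X 7 ^ 3 * X 9 - X 6 ^ 3 * X 10]

/-- Their multi-degrees. -/
def dE : Fin 4 → Fin 4 → ℕ := ![![3, 0, 0, 0], ![1, 1, 0, 0], ![3, 0, 1, 0], ![0, 0, 3, 1]]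

/-- The local equations of the boundary in the chart `I`. -/
def hE (I : Chart gE) : Fin 7 → MvPolynomial (Fin 11) ℂ :=
  ![X 4 * X 5 * (X 4 - X 5),
    if I.1 1 = 4 then X 2 else X 3,
    if I.1 2 = 6 then X 2 ^ 3 + X 3 ^ 3 else X 0 ^ 3 - X 2 ^ 3,
    X 8,
    X 8 + X 9 + C 2 * X 10,
    X 8 + C 2 * X 9 - X 10,
    X 8 - C 3 * X 9 + X 10]

/-- `K + D = O(7, 1, 1, 2)`. -/
def mE : Fin 4 → ℕ := ![7, 1, 1, 2]

/-- The chart `a = τ₀ = t₀ = q = 1`. -/
def I₀ : Chart gE := ⟨![2, 4, 6, 8], by decide⟩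

/-- The chart `a = τ₀ = t₁ = q = 1`. -/
def I₁ : Chart gE := ⟨![2, 4, 7, 8], by decide⟩

theorem chart_one (I : Chart gE) : I.1 1 = 4 ∨ I.1 1 = 5 := by
  have h := I.2 1
  generalize I.1 1 = v at h
  revert v
  decide

theorem chart_two (I : Chart gE) : I.1 2 = 6 ∨ I.1 2 = 7 := by
  have h := I.2 2
  generalize I.1 2 = v at h
  revert v
  decide

theorem chart_zero (I : Chart gE) : I.1 0 = 0 ∨ I.1 0 = 1 ∨ I.1 0 = 2 ∨ I.1 0 = 3 := by
  have h := I.2 0
  generalize I.1 0 = v at h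
  revert v
  decide

theorem chart_three (I : Chart gE) : I.1 3 = 8 ∨ I.1 3 = 9 ∨ I.1 3 = 10 := by
  have h := I.2 3
  generalize I.1 3 = v at h
  revert v
  decide

theorem lcex_X0 (v : Fin 11) (hv : gE v = 0) : MH gE (X v) ![1, 0, 0, 0] :=
  (MH.X gE v).of_eq (by rw [hv]; decide)

theorem lcex_X1 (v : Fin 11) (hv : gE v = 1) : MH gE (X v) ![0, 1, 0, 0] :=
  (MH.X gE v).of_eq (by rw [hv]; decide)

theorem lcex_X2 (v : Fin 11) (hv : gE v = 2) : MH gE (X v) ![0, 0, 1, 0] :=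
  (MH.X gE v).of_eq (by rw [hv]; decide)

theorem lcex_X3 (v : Fin 11) (hv : gE v = 3) : MH gE (X v) ![0, 0, 0, 1] :=
  (MH.X gE v).of_eq (by rw [hv]; decide)

theorem lcex_cube0 (v : Fin 11) (hv : gE v = 0) : MH gE (X v ^ 3) ![3, 0, 0, 0] :=
  ((lcex_X0 v hv).pow 3).of_eq (by decide)

theorem lcex_cube2 (v : Fin 11) (hv : gE v = 2) : MH gE (X v ^ 3) ![0, 0, 3, 0] :=
  ((lcex_X2 v hv).pow 3).of_eq (by decide)

theorem FE_mh (r : Fin 4) : MH gE (FE r) (dE r) := by
  fin_cases r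
  · exact (((lcex_cube0 0 rfl).add (lcex_cube0 1 rfl)).sub (lcex_cube0 2 rfl)).sub
      (lcex_cube0 3 rfl)
  · exact (((lcex_X0 2 rfl).mul (lcex_X1 5 rfl)).sub
      ((lcex_X0 3 rfl).mul (lcex_X1 4 rfl))).of_eq (by decide)
  · exact ((((lcex_cube0 2 rfl).add (lcex_cube0 3 rfl)).mul (lcex_X2 7 rfl)).sub
      (((lcex_cube0 0 rfl).sub (lcex_cube0 2 rfl)).mul (lcex_X2 6 rfl))).of_eq (by decide)
  · exact (((lcex_cube2 7 rfl).mul (lcex_X3 9 rfl)).sub
      ((lcex_cube2 6 rfl).mul (lcex_X3 10 rfl))).of_eq (by decide)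

theorem hE_mh (I : Chart gE) (s : Fin 7) : ∃ d, MH gE (hE I s) d := by
  fin_cases s
  · exact ⟨_, ((lcex_X1 4 rfl).mul (lcex_X1 5 rfl)).mul ((lcex_X1 4 rfl).sub (lcex_X1 5 rfl))⟩
  · refine ⟨![1, 0, 0, 0], ?_⟩
    change MH gE (if I.1 1 = 4 then X 2 else X 3) _
    split_ifs
    · exact lcex_X0 2 rfl
    · exact lcex_X0 3 rfl
  · refine ⟨![3, 0, 0, 0], ?_⟩
    change MH gE (if I.1 2 = 6 then X 2 ^ 3 + X 3 ^ 3 else X 0 ^ 3 - X 2 ^ 3) _
    split_ifs
    · exact (lcex_cube0 2 rfl).add (lcex_cube0 3 rfl)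
    · exact (lcex_cube0 0 rfl).sub (lcex_cube0 2 rfl)
  · exact ⟨_, lcex_X3 8 rfl⟩
  · exact ⟨_, ((lcex_X3 8 rfl).add (lcex_X3 9 rfl)).add ((lcex_X3 10 rfl).C_mul 2)⟩
  · exact ⟨_, ((lcex_X3 8 rfl).add ((lcex_X3 9 rfl).C_mul 2)).sub (lcex_X3 10 rfl)⟩
  · exact ⟨_, ((lcex_X3 8 rfl).sub ((lcex_X3 9 rfl).C_mul 3)).add (lcex_X3 10 rfl)⟩

/-- The value of the product of the boundary equations. -/
theorem lcex_aeval_P {A : Type} [CommRing A] [Algebra ℂ A] (I : Chart gE) (x : Fin 11 → A) :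
    aeval x (∏ s, hE I s) =
      x 4 * x 5 * (x 4 - x 5) * (if I.1 1 = 4 then x 2 else x 3) *
        (if I.1 2 = 6 then x 2 ^ 3 + x 3 ^ 3 else x 0 ^ 3 - x 2 ^ 3) * x 8 *
        (x 8 + x 9 + algebraMap ℂ A 2 * x 10) * (x 8 + algebraMap ℂ A 2 * x 9 - x 10) *
        (x 8 - algebraMap ℂ A 3 * x 9 + x 10) := by
  rw [Fin.prod_univ_seven]
  change aeval x ((X 4 * X 5 * (X 4 - X 5) : MvPolynomial (Fin 11) ℂ) *
    (if I.1 1 = 4 then X 2 else X 3) *
    (if I.1 2 = 6 then X 2 ^ 3 + X 3 ^ 3 else X 0 ^ 3 - X 2 ^ 3) * X 8 *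
    (X 8 + X 9 + C 2 * X 10) * (X 8 + C 2 * X 9 - X 10) * (X 8 - C 3 * X 9 + X 10)) = _
  split_ifs <;> simp only [map_mul, map_add, map_sub, map_pow, aeval_X, aeval_C]

theorem lcex_z {A : Type} [CommRing A] (I J : Chart gE) (x : Fin 11 → A) (c : A)
    (hJ : x (J.1 1) = 1) (hI : c * x (I.1 1) = 1) (h : x 2 * x 5 - x 3 * x 4 = 0) :
    (if J.1 1 = 4 then x 2 else x 3) = c * (if I.1 1 = 4 then x 2 else x 3) := by
  rcases chart_one I with h1 | h1 <;> rcases chart_one J with h2 | h2 <;>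
    rw [h1] at hI ⊢ <;> rw [h2] at hJ ⊢
  · rw [if_pos rfl]
    linear_combination (-x 2) * hI + c * x 2 * hJ
  · rw [if_pos rfl, if_neg (by decide)]
    linear_combination (-x 3) * hI + c * x 2 * hJ - c * h
  · rw [if_pos rfl, if_neg (by decide)]
    linear_combination (-x 2) * hI + c * x 3 * hJ + c * h
  · rw [if_neg (by decide)]
    linear_combination (-x 3) * hI + c * x 3 * hJ

theorem lcex_eps {A : Type} [CommRing A] (I J : Chart gE) (x : Fin 11 → A) (c u v : A)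
    (hJ : x (J.1 2) = 1) (hI : c * x (I.1 2) = 1) (h : u * x 7 - v * x 6 = 0) :
    (if J.1 2 = 6 then u else v) = c * (if I.1 2 = 6 then u else v) := by
  rcases chart_two I with h1 | h1 <;> rcases chart_two J with h2 | h2 <;>
    rw [h1] at hI ⊢ <;> rw [h2] at hJ ⊢
  · rw [if_pos rfl]
    linear_combination (-u) * hI + c * u * hJ
  · rw [if_pos rfl, if_neg (by decide)]
    linear_combination (-v) * hI + c * u * hJ - c * h
  · rw [if_pos rfl, if_neg (by decide)]
    linear_combination (-u) * hI + c * v * hJ + c * h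
  · rw [if_neg (by decide)]
    linear_combination (-v) * hI + c * v * hJ

theorem adjE : Adj gE FE dE (fun I => ∏ s, hE I s) mE := by
  intro A _ _ I J x c hJ hI hF
  have h1 : x 2 * x 5 - x 3 * x 4 = 0 := by
    have h := hF 1
    change aeval x (X 2 * X 5 - X 3 * X 4 : MvPolynomial (Fin 11) ℂ) = 0 at h
    simpa only [map_mul, map_sub, aeval_X] using h
  have h2 : (x 2 ^ 3 + x 3 ^ 3) * x 7 - (x 0 ^ 3 - x 2 ^ 3) * x 6 = 0 := by
    have h := hF 2
    change aeval x ((X 2 ^ 3 + X 3 ^ 3) * X 7 - (X 0 ^ 3 - X 2 ^ 3) * X 6 :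
      MvPolynomial (Fin 11) ℂ) = 0 at h
    simpa only [map_mul, map_sub, map_add, map_pow, aeval_X] using h
  have hz := lcex_z I J x (c 1) (hJ 1) (hI 1) h1
  have he := lcex_eps I J x (c 2) _ _ (hJ 2) (hI 2) h2
  have e1 : ∏ γ, c γ ^ mE γ = c 0 ^ 7 * c 1 * c 2 * c 3 ^ 2 := by
    rw [Fin.prod_univ_four]
    change c 0 ^ 7 * c 1 ^ 1 * c 2 ^ 1 * c 3 ^ 2 = _
    ring
  have e2 : ∏ v, c (gE v) = c 0 ^ 4 * c 1 ^ 2 * c 2 ^ 2 * c 3 ^ 3 := by
    simp only [Fin.prod_univ_succ, Fin.prod_univ_zero]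
    change c 0 * (c 0 * (c 0 * (c 0 * (c 1 * (c 1 * (c 2 * (c 2 * (c 3 * (c 3 * (c 3 *
      1)))))))))) = _
    ring
  have e3 : ∏ r, ∏ γ, c γ ^ dE r γ = c 0 ^ 7 * c 1 * c 2 ^ 4 * c 3 := by
    simp only [Fin.prod_univ_four]
    change (c 0 ^ 3 * c 1 ^ 0 * c 2 ^ 0 * c 3 ^ 0) * (c 0 ^ 1 * c 1 ^ 1 * c 2 ^ 0 * c 3 ^ 0) *
      (c 0 ^ 3 * c 1 ^ 0 * c 2 ^ 1 * c 3 ^ 0) * (c 0 ^ 0 * c 1 ^ 0 * c 2 ^ 3 * c 3 ^ 1) = _
    ring
  change _ * _ * aeval x (∏ s, hE J s) = _ * aeval (fun v => c (gE v) * x v) (∏ s, hE I s)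
  rw [e1, e2, e3, lcex_aeval_P, lcex_aeval_P, hz, he]
  change _ = _ * (c 1 * x 4 * (c 1 * x 5) * (c 1 * x 4 - c 1 * x 5) *
    (if I.1 1 = 4 then c 0 * x 2 else c 0 * x 3) *
    (if I.1 2 = 6 then (c 0 * x 2) ^ 3 + (c 0 * x 3) ^ 3 else (c 0 * x 0) ^ 3 - (c 0 * x 2) ^ 3) *
    (c 3 * x 8) * (c 3 * x 8 + c 3 * x 9 + algebraMap ℂ A 2 * (c 3 * x 10)) *
    (c 3 * x 8 + algebraMap ℂ A 2 * (c 3 * x 9) - c 3 * x 10) *
    (c 3 * x 8 - algebraMap ℂ A 3 * (c 3 * x 9) + c 3 * x 10))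
  split_ifs <;> ring

end

end Pool.Agent.P.MP_dc0411_ag
end

-- part Pool.Agent.P.MP_dc0411_ag.LcRank
section

/-!
The rank condition: smoothness of the threefold and normal crossings of the boundary.
-/

open MvPolynomial

namespace Pool.Agent.P.MP_dc0411_ag

section scalar

variable {K : Type} [Field K] [CharZero K]

/-- What the equations of the last factor give when `l4` is not zero. -/
def LcrankGood (l4 P Q r w : K) : Prop :=
  l4 ≠ 0 ∧ P ≠ 0 ∧ Q ≠ 0 ∧ r ≠ 0 ∧ w ≠ 0 ∧ P ≠ Q ∧ P ≠ -Q ∧ P ≠ 8 * Q ∧ P ≠ -8 * Q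

omit [CharZero K] in
theorem lcrank_pair (da db m : K) {l4 P Q r w : K} (hda : da ≠ 0) (hdb : db ≠ 0)
    (h1 : da + db ≠ 0) (h2 : db - da ≠ 0) (h3 : 8 * da + db ≠ 0) (h4 : db - 8 * da ≠ 0)
    (hPQ : P ≠ 0 ∨ Q ≠ 0) (hrw : r ≠ 0 ∨ w ≠ 0) (e0 : da * r + db * w = 0)
    (e1 : l4 * Q + m * da = 0) (e2 : -l4 * P + m * db = 0) :
    (l4 = 0 ∧ m = 0) ∨ LcrankGood l4 P Q r w := by
  by_cases hl : l4 = 0
  · refine Or.inl ⟨hl, (mul_eq_zero.1 (?_ : m * da = 0)).resolve_right hda⟩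
    rw [hl] at e1
    linear_combination e1
  right
  have e3 : da * P + db * Q = 0 :=
    (mul_eq_zero.1 (by linear_combination db * e1 - da * e2 :
      l4 * (da * P + db * Q) = 0)).resolve_left hl
  have hQ : Q ≠ 0 := by
    rintro rfl
    have : P = 0 := (mul_eq_zero.1 (by linear_combination e3 : da * P = 0)).resolve_left hda
    exact hPQ.elim (fun h => h this) (fun h => h rfl)
  have hw : w ≠ 0 := by
    rintro rfl
    have : r = 0 := (mul_eq_zero.1 (by linear_combination e0 : da * r = 0)).resolve_left hda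
    exact hrw.elim (fun h => h this) (fun h => h rfl)
  refine ⟨hl, ?_, hQ, ?_, hw, ?_, ?_, ?_, ?_⟩
  · rintro rfl
    exact mul_ne_zero hdb hQ (by linear_combination e3)
  · rintro rfl
    exact mul_ne_zero hdb hw (by linear_combination e0)
  · rintro rfl
    exact mul_ne_zero h1 hQ (by linear_combination e3)
  · rintro rfl
    exact mul_ne_zero h2 hQ (by linear_combination e3)
  · rintro rfl
    exact mul_ne_zero h3 hQ (by linear_combination e3)
  · rintro rfl
    exact mul_ne_zero h4 hQ (by linear_combination e3)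

/-- The four lines. -/
theorem lcrank_lines {q r w P Q l4 m3 m4 m5 m6 : K} (hn : q ≠ 0 ∨ r ≠ 0 ∨ w ≠ 0)
    (hPQ : P ≠ 0 ∨ Q ≠ 0) (h3 : q ≠ 0 → m3 = 0) (h4 : q + r + 2 * w ≠ 0 → m4 = 0)
    (h5 : q + 2 * r - w ≠ 0 → m5 = 0) (h6 : q - 3 * r + w ≠ 0 → m6 = 0)
    (eq : m3 + m4 + m5 + m6 = 0) (er : l4 * Q + m4 + 2 * m5 - 3 * m6 = 0)
    (ew : -l4 * P + 2 * m4 - m5 + m6 = 0) :
    (l4 = 0 ∧ m3 = 0 ∧ m4 = 0 ∧ m5 = 0 ∧ m6 = 0) ∨ LcrankGood l4 P Q r w := by
  have one : m3 = 0 → m4 = 0 → m5 = 0 → m6 = 0 →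
      (l4 = 0 ∧ m3 = 0 ∧ m4 = 0 ∧ m5 = 0 ∧ m6 = 0) ∨ LcrankGood l4 P Q r w := by
    intro a3 a4 a5 a6
    refine Or.inl ⟨?_, a3, a4, a5, a6⟩
    rw [a4, a5, a6] at er ew
    rcases hPQ with h | h
    · exact (mul_eq_zero.1 (by linear_combination -ew : l4 * P = 0)).resolve_right h
    · exact (mul_eq_zero.1 (by linear_combination er : l4 * Q = 0)).resolve_right h
  have hrw : ∀ c d : K, q + c * r + d * w = 0 → r ≠ 0 ∨ w ≠ 0 := by
    intro c d h
    by_contra hc
    obtain ⟨a, b⟩ := not_or.1 hc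
    rw [not_not] at a b
    rw [a, b] at h
    exact hn.elim (fun e => e (by linear_combination h)) fun e => e.elim (· a) (· b)
  have three : r = 0 → w = 0 → ∀ c d : K, q + c * r + d * w = 0 → False :=
    fun a b c d h => (hrw c d h).elim (· a) (· b)
  by_cases a3 : q = 0 <;> by_cases a4 : q + r + 2 * w = 0 <;>
    by_cases a5 : q + 2 * r - w = 0 <;> by_cases a6 : q - 3 * r + w = 0
  · exact (three (by linear_combination (1 / 5) * a4 + (2 / 5) * a5 - (3 / 5) * a3)
      (by linear_combination (2 / 5) * a4 - (1 / 5) * a5 - (1 / 5) * a3) 0 0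
      (by linear_combination a3)).elim
  · exact (three (by linear_combination (1 / 5) * a4 + (2 / 5) * a5 - (3 / 5) * a3)
      (by linear_combination (2 / 5) * a4 - (1 / 5) * a5 - (1 / 5) * a3) 0 0
      (by linear_combination a3)).elim
  · exact (three (by linear_combination (1 / 7) * a4 - (2 / 7) * a6 + (1 / 7) * a3)
      (by linear_combination (3 / 7) * a4 + (1 / 7) * a6 - (4 / 7) * a3) 0 0
      (by linear_combination a3)).elim
  · have b5 := h5 a5
    have b6 := h6 a6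
    refine (lcrank_pair 1 2 m4 (by norm_num) (by norm_num) (by norm_num) (by norm_num)
      (by norm_num) (by norm_num) hPQ (hrw 0 0 (by linear_combination a3))
      (by linear_combination a4 - a3) (by linear_combination er - 2 * b5 + 3 * b6)
      (by linear_combination ew + b5 - b6)).imp_left fun h => ?_
    exact ⟨h.1, by linear_combination eq - h.2 - b5 - b6, h.2, b5, b6⟩
  · exact (three (by linear_combination 2 * a3 - a5 - a6)
      (by linear_combination 5 * a3 - 3 * a5 - 2 * a6) 0 0 (by linear_combination a3)).elim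
  · have b4 := h4 a4
    have b6 := h6 a6
    refine (lcrank_pair 2 (-1) m5 (by norm_num) (by norm_num) (by norm_num) (by norm_num)
      (by norm_num) (by norm_num) hPQ (hrw 0 0 (by linear_combination a3))
      (by linear_combination a5 - a3) (by linear_combination er - b4 + 3 * b6)
      (by linear_combination ew - 2 * b4 - b6)).imp_left fun h => ?_
    exact ⟨h.1, by linear_combination eq - h.2 - b4 - b6, b4, h.2, b6⟩
  · have b4 := h4 a4
    have b5 := h5 a5
    refine (lcrank_pair (-3) 1 m6 (by norm_num) (by norm_num) (by norm_num) (by norm_num)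
      (by norm_num) (by norm_num) hPQ (hrw 0 0 (by linear_combination a3))
      (by linear_combination a6 - a3) (by linear_combination er - b4 - 2 * b5)
      (by linear_combination ew - 2 * b4 + b5)).imp_left fun h => ?_
    exact ⟨h.1, by linear_combination eq - h.2 - b4 - b5, b4, b5, h.2⟩
  · exact one (by linear_combination eq - h4 a4 - h5 a5 - h6 a6) (h4 a4) (h5 a5) (h6 a6)
  · exact (three (by linear_combination (2 / 13) * a4 + (1 / 13) * a5 - (3 / 13) * a6)
      (by linear_combination (5 / 13) * a4 - (4 / 13) * a5 - (1 / 13) * a6) 1 2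
      (by linear_combination a4)).elim
  · have b3 := h3 a3
    have b6 := h6 a6
    refine (lcrank_pair 1 (-3) m5 (by norm_num) (by norm_num) (by norm_num) (by norm_num)
      (by norm_num) (by norm_num) hPQ (hrw 1 2 (by linear_combination a4))
      (by linear_combination a5 - a4) (by linear_combination er - eq + b3 + 4 * b6)
      (by linear_combination ew - 2 * eq + 2 * b3 + b6)).imp_left fun h => ?_
    exact ⟨h.1, b3, by linear_combination eq - h.2 - b3 - b6, h.2, b6⟩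
  · have b3 := h3 a3
    have b5 := h5 a5
    refine (lcrank_pair (-4) (-1) m6 (by norm_num) (by norm_num) (by norm_num) (by norm_num)
      (by norm_num) (by norm_num) hPQ (hrw 1 2 (by linear_combination a4))
      (by linear_combination a6 - a4) (by linear_combination er - eq + b3 - b5)
      (by linear_combination ew - 2 * eq + 2 * b3 + 3 * b5)).imp_left fun h => ?_
    exact ⟨h.1, b3, by linear_combination eq - h.2 - b3 - b5, b5, h.2⟩
  · exact one (h3 a3) (by linear_combination eq - h3 a3 - h5 a5 - h6 a6) (h5 a5) (h6 a6)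
  · have b3 := h3 a3
    have b4 := h4 a4
    refine (lcrank_pair (-5) 2 m6 (by norm_num) (by norm_num) (by norm_num) (by norm_num)
      (by norm_num) (by norm_num) hPQ (hrw 2 (-1) (by linear_combination a5))
      (by linear_combination a6 - a5) (by linear_combination er - 2 * eq + 2 * b3 + b4)
      (by linear_combination ew + eq - b3 - 3 * b4)).imp_left fun h => ?_
    exact ⟨h.1, b3, b4, by linear_combination eq - h.2 - b3 - b4, h.2⟩
  · exact one (h3 a3) (h4 a4) (by linear_combination eq - h3 a3 - h4 a4 - h6 a6) (h6 a6)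
  · exact one (h3 a3) (h4 a4) (h5 a5) (by linear_combination eq - h3 a3 - h4 a4 - h5 a5)
  · exact one (h3 a3) (h4 a4) (h5 a5) (h6 a6)

omit [CharZero K] in
theorem lcrank_c {a b : K} (ha : a ≠ 0) (h : a * b = 0) : b = 0 := (mul_eq_zero.1 h).resolve_left ha

omit [CharZero K] in
theorem lcrank_z {a b s0 s1 za zb : K}
    (hs : (s0 = 1 ∧ za = 1 ∧ zb = 0) ∨ (s1 = 1 ∧ za = 0 ∧ zb = 1)) (F2 : a * s1 - b * s0 = 0)
    (hab : ¬ (a = 0 ∧ b = 0)) : za * a + zb * b ≠ 0 := by
  intro h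
  rcases hs with ⟨rfl, rfl, rfl⟩ | ⟨rfl, rfl, rfl⟩
  · have ha : a = 0 := by linear_combination h
    exact hab ⟨ha, by linear_combination s1 * ha - F2⟩
  · have hb : b = 0 := by linear_combination h
    exact hab ⟨by linear_combination s0 * hb + F2, hb⟩

omit [CharZero K] in
theorem lcrank_h {a b s0 s1 za zb : K}
    (hs : (s0 = 1 ∧ za = 1 ∧ zb = 0) ∨ (s1 = 1 ∧ za = 0 ∧ zb = 1)) (F2 : a * s1 - b * s0 = 0)
    (h : s0 * s1 * (s0 - s1) = 0) : a = 0 ∨ b = 0 ∨ a = b := by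
  rcases hs with ⟨rfl, -, -⟩ | ⟨rfl, -, -⟩
  · rcases mul_eq_zero.1 h with h | h
    · exact Or.inr (Or.inl (by linear_combination a * h - F2))
    · exact Or.inr (Or.inr (by linear_combination a * h + F2))
  · rcases mul_eq_zero.1 h with h | h
    · exact Or.inl (by linear_combination b * h + F2)
    · exact Or.inr (Or.inr (by linear_combination b * h + F2))

theorem lcrank_sq {x : K} (hx : x ≠ 0) : 3 * x ^ 2 ≠ 0 :=
  mul_ne_zero three_ne_zero (pow_ne_zero 2 hx)

/-- The case where `l4` is not zero does not occur. -/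
theorem lcrank_one {x y a b s0 s1 t0 t1 r w l1 l2 l3 l4 m0 m1 m2 za zb eu ev : K}
    (hs : (s0 = 1 ∧ za = 1 ∧ zb = 0) ∨ (s1 = 1 ∧ za = 0 ∧ zb = 1))
    (ht : (t0 = 1 ∧ eu = 1 ∧ ev = 0) ∨ (t1 = 1 ∧ eu = 0 ∧ ev = 1))
    (F1 : x ^ 3 + y ^ 3 - a ^ 3 - b ^ 3 = 0) (F2 : a * s1 - b * s0 = 0)
    (F3 : (a ^ 3 + b ^ 3) * t1 - (x ^ 3 - a ^ 3) * t0 = 0)
    (h0 : s0 * s1 * (s0 - s1) ≠ 0 → m0 = 0) (h1 : za * a + zb * b ≠ 0 → m1 = 0)
    (h2 : eu * (a ^ 3 + b ^ 3) + ev * (x ^ 3 - a ^ 3) ≠ 0 → m2 = 0)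
    (ex : 3 * x ^ 2 * (l1 - l3 * t0 + m2 * ev) = 0) (ey : 3 * y ^ 2 * l1 = 0)
    (ea : 3 * a ^ 2 * (-l1 + l3 * t1 + m2 * eu + l3 * t0 - m2 * ev) + l2 * s1 + m1 * za = 0)
    (eb : 3 * b ^ 2 * (-l1 + l3 * t1 + m2 * eu) - l2 * s0 + m1 * zb = 0)
    (es0 : -l2 * b + m0 * (2 * s0 * s1 - s1 ^ 2) = 0)
    (es1 : l2 * a + m0 * (s0 ^ 2 - 2 * s0 * s1) = 0)
    (et0 : -l3 * (x ^ 3 - a ^ 3) - 3 * l4 * t0 ^ 2 * w = 0)
    (et1 : l3 * (a ^ 3 + b ^ 3) + 3 * l4 * t1 ^ 2 * r = 0)
    (hg : LcrankGood l4 (t0 ^ 3) (t1 ^ 3) r w) : False := by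
  obtain ⟨g1, g2, g3, g4, g5, g6, g7, g8, g9⟩ := hg
  have n0 : t0 ≠ 0 := fun h => g2 (by rw [h]; ring)
  have n1 : t1 ≠ 0 := fun h => g3 (by rw [h]; ring)
  have k6 : t0 - t1 ≠ 0 := fun h => g6 (by rw [sub_eq_zero.1 h])
  have k7 : t0 + t1 ≠ 0 := fun h => g7 (by rw [eq_neg_of_add_eq_zero_left h]; ring)
  have k8 : t0 - 2 * t1 ≠ 0 := fun h => g8 (by rw [sub_eq_zero.1 h]; ring)
  have k9 : t0 + 2 * t1 ≠ 0 := fun h => g9 (by rw [eq_neg_of_add_eq_zero_left h]; ring)
  have p0 : l3 * (x ^ 3 - a ^ 3) ≠ 0 := fun h =>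
    mul_ne_zero (lcrank_sq n0) (mul_ne_zero g1 g5) (by linear_combination -et0 - h)
  have p1 : l3 * (a ^ 3 + b ^ 3) ≠ 0 := fun h =>
    mul_ne_zero (lcrank_sq n1) (mul_ne_zero g1 g4) (by linear_combination et1 - h)
  have n3 : l3 ≠ 0 := left_ne_zero_of_mul p0
  have nv : x ^ 3 - a ^ 3 ≠ 0 := right_ne_zero_of_mul p0
  have nu : a ^ 3 + b ^ 3 ≠ 0 := right_ne_zero_of_mul p1
  have nab : ¬ (a = 0 ∧ b = 0) := fun h => nu (by rw [h.1, h.2]; ring)
  have z2 : m2 = 0 := h2 (by rcases ht with ⟨-, rfl, rfl⟩ | ⟨-, rfl, rfl⟩ <;> simpa)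
  have z1 : m1 = 0 := h1 (lcrank_z hs F2 nab)
  subst z1 z2
  have cy : y ≠ 0 → l1 = 0 ∧ x = 0 := fun hy => by
    have e1 := lcrank_c (lcrank_sq hy) ey
    refine ⟨e1, by_contra fun hx => mul_ne_zero n3 n0 ?_⟩
    linear_combination e1 - lcrank_c (lcrank_sq hx) ex
  by_cases z0 : m0 = 0
  · subst z0
    have z : l2 = 0 := by_contra fun h => nab
      ⟨lcrank_c h (by linear_combination es1), lcrank_c h (by linear_combination -es0)⟩
    subst z
    by_cases hy : y = 0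
    · subst hy
      have hx : x ≠ 0 := fun h => nu (by linear_combination x ^ 2 * h - F1)
      have e1 := lcrank_c (lcrank_sq hx) ex
      have ha : a = 0 := by_contra fun h => mul_ne_zero (lcrank_sq h) (mul_ne_zero n3 n1)
        (by linear_combination ea + 3 * a ^ 2 * e1)
      exact mul_ne_zero (lcrank_sq fun h => nab ⟨ha, h⟩) (mul_ne_zero n3 k6)
        (by linear_combination -eb - 3 * b ^ 2 * e1)
    · obtain ⟨rfl, rfl⟩ := cy hy
      have hb : b = 0 := by_contra fun h => mul_ne_zero (lcrank_sq h) (mul_ne_zero n3 n1)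
        (by linear_combination eb)
      exact mul_ne_zero (lcrank_sq fun h => nab ⟨h, hb⟩) (mul_ne_zero n3 k7)
        (by linear_combination ea)
  · have hab := lcrank_h hs F2 (by_contra fun h => z0 (h0 h))
    by_cases hy : y = 0
    · subst hy
      rcases hab with rfl | rfl | rfl
      · exact mul_ne_zero nu k6 (by linear_combination -F3 - t0 * F1)
      · exact nv (by linear_combination F1)
      · exact mul_ne_zero nu k8 (by linear_combination -2 * F3 - 2 * t0 * F1)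
    · obtain ⟨-, rfl⟩ := cy hy
      rcases hab with rfl | rfl | rfl
      · exact nv (by ring)
      · exact mul_ne_zero nu k7 (by linear_combination F3)
      · exact mul_ne_zero nu k9 (by linear_combination 2 * F3)

/-- The case where `l4` is zero. -/
theorem lcrank_two {x y a b s0 s1 t0 t1 l1 l2 l3 m0 m1 m2 za zb eu ev : K}
    (hn : x ≠ 0 ∨ y ≠ 0 ∨ a ≠ 0 ∨ b ≠ 0)
    (hs : (s0 = 1 ∧ za = 1 ∧ zb = 0) ∨ (s1 = 1 ∧ za = 0 ∧ zb = 1))
    (ht : (t0 = 1 ∧ eu = 1 ∧ ev = 0) ∨ (t1 = 1 ∧ eu = 0 ∧ ev = 1))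
    (F1 : x ^ 3 + y ^ 3 - a ^ 3 - b ^ 3 = 0) (F2 : a * s1 - b * s0 = 0)
    (F3 : (a ^ 3 + b ^ 3) * t1 - (x ^ 3 - a ^ 3) * t0 = 0)
    (h0 : s0 * s1 * (s0 - s1) ≠ 0 → m0 = 0) (h1 : za * a + zb * b ≠ 0 → m1 = 0)
    (h2 : eu * (a ^ 3 + b ^ 3) + ev * (x ^ 3 - a ^ 3) ≠ 0 → m2 = 0)
    (ex : 3 * x ^ 2 * (l1 - l3 * t0 + m2 * ev) = 0) (ey : 3 * y ^ 2 * l1 = 0)
    (ea : 3 * a ^ 2 * (-l1 + l3 * t1 + m2 * eu + l3 * t0 - m2 * ev) + l2 * s1 + m1 * za = 0)
    (eb : 3 * b ^ 2 * (-l1 + l3 * t1 + m2 * eu) - l2 * s0 + m1 * zb = 0)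
    (es0 : -l2 * b + m0 * (2 * s0 * s1 - s1 ^ 2) = 0)
    (es1 : l2 * a + m0 * (s0 ^ 2 - 2 * s0 * s1) = 0)
    (et0 : l3 * (x ^ 3 - a ^ 3) = 0) (et1 : l3 * (a ^ 3 + b ^ 3) = 0) :
    l1 = 0 ∧ l2 = 0 ∧ l3 = 0 ∧ m0 = 0 ∧ m1 = 0 ∧ m2 = 0 := by
  have cube : ∀ {c : K}, c ^ 3 = 0 → c = 0 := fun h => pow_eq_zero_iff three_ne_zero |>.1 h
  have gen : a ^ 3 + b ^ 3 = 0 → a ≠ 0 → b ≠ 0 ∧ m0 = 0 ∧ m1 = 0 ∧ l2 = 0 := by
    intro hu ha
    have hb : b ≠ 0 := fun h => ha (cube (by linear_combination hu - b ^ 2 * h))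
    have hab : a ≠ b := fun h => ha (cube (by rw [← h] at hu; linear_combination (1 / 2) * hu))
    have z0 : m0 = 0 := h0 fun h => (lcrank_h hs F2 h).elim ha fun h => h.elim hb hab
    have z1 : m1 = 0 := h1 (lcrank_z hs F2 fun h => ha h.1)
    exact ⟨hb, z0, z1,
      lcrank_c ha (by linear_combination es1 - (s0 ^ 2 - 2 * s0 * s1) * z0)⟩
  by_cases huv : a ^ 3 + b ^ 3 = 0 ∧ x ^ 3 - a ^ 3 = 0
  · obtain ⟨hu, hv⟩ := huv
    have ha : a ≠ 0 := by
      rintro rfl
      rcases hn with h | h | h | h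
      · exact h (cube (by linear_combination hv))
      · exact h (cube (by linear_combination F1 - hv + hu))
      · exact h rfl
      · exact h (cube (by linear_combination hu))
    obtain ⟨hb, z0, z1, z2⟩ := gen hu ha
    have hx : x ≠ 0 := fun h => ha (cube (by linear_combination x ^ 2 * h - hv))
    have hy : y ≠ 0 := fun h => hb (cube (by linear_combination y ^ 2 * h - F1 + hv))
    have e1 := lcrank_c (lcrank_sq hy) ey
    subst z0 z1 z2 e1
    have eB := lcrank_c (lcrank_sq hx) ex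
    have eA : l3 * t1 + m2 * eu = 0 := lcrank_c (lcrank_sq hb) (by linear_combination eb)
    rcases ht with ⟨rfl, rfl, rfl⟩ | ⟨rfl, rfl, rfl⟩
    · exact ⟨rfl, rfl, by linear_combination -eB, rfl, rfl, by linear_combination eA + t1 * eB⟩
    · exact ⟨rfl, rfl, by linear_combination eA, rfl, rfl, by linear_combination eB + t0 * eA⟩
  · have z3 : l3 = 0 := by_contra fun h => huv ⟨lcrank_c h et1, lcrank_c h et0⟩
    have z2 : m2 = 0 := h2 fun h => huv (by
      rcases ht with ⟨rfl, rfl, rfl⟩ | ⟨rfl, rfl, rfl⟩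
      · exact ⟨by linear_combination h, by linear_combination t1 * h - F3⟩
      · exact ⟨by linear_combination t0 * h + F3, by linear_combination h⟩)
    subst z3 z2
    by_cases hxy : x = 0 ∧ y = 0
    · obtain ⟨rfl, rfl⟩ := hxy
      have hu : a ^ 3 + b ^ 3 = 0 := by linear_combination -F1
      have ha : a ≠ 0 := fun h => huv ⟨hu, by rw [h]; ring⟩
      obtain ⟨-, z0, z1, z2⟩ := gen hu ha
      subst z0 z1 z2
      exact ⟨lcrank_c (lcrank_sq ha) (by linear_combination -ea), rfl, rfl, rfl, rfl, rfl⟩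
    · have e1 : l1 = 0 := by
        rcases not_and_or.1 hxy with h | h
        · exact lcrank_c (lcrank_sq h) (by linear_combination ex)
        · exact lcrank_c (lcrank_sq h) ey
      subst e1
      rcases hs with ⟨rfl, rfl, rfl⟩ | ⟨rfl, rfl, rfl⟩
      · have e2 : l2 = 0 := by linear_combination -eb
        subst e2
        exact ⟨rfl, rfl, rfl,
          by linear_combination (4 / 3) * (es0 - (s1 / 2 - 3 / 4) * es1),
          by linear_combination ea, rfl⟩
      · have e2 : l2 = 0 := by linear_combination ea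
        subst e2
        exact ⟨rfl, rfl, rfl, by linear_combination (4 / 3) * ((s0 / 2 - 3 / 4) * es0 - es1),
          by linear_combination eb, rfl⟩

end scalar

theorem lcrank_d {K : Type} [Field K] [Algebra ℂ K] (x : Fin 11 → K) (v i : Fin 11) :
    aeval x (pderiv v (X i : MvPolynomial (Fin 11) ℂ)) = if i = v then 1 else 0 := by
  rw [pderiv_X, Pi.single_apply]
  split_ifs <;> simp

theorem lcrank_grad {K : Type} [Field K] [Algebra ℂ K] (I : Chart gE) (x : Fin 11 → K)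
    (l : Fin 4 → K) (μ : Fin 7 → K) (v : Fin 11) (d : Fin 11 → K)
    (hd : ∀ i, d i = if i = v then 1 else 0) (za zb eu ev : K)
    (ha : za = if I.1 1 = 4 then 1 else 0) (hb : zb = if I.1 1 = 4 then 0 else 1)
    (hu : eu = if I.1 2 = 6 then 1 else 0) (hv : ev = if I.1 2 = 6 then 0 else 1) :
    ∑ r, l r * aeval x (pderiv v (FE r)) + ∑ s, μ s * aeval x (pderiv v (hE I s)) =
      d 0 * (3 * x 0 ^ 2 * (l 0 - l 2 * x 6 + μ 2 * ev)) + d 1 * (3 * x 1 ^ 2 * l 0) +
      d 2 * (3 * x 2 ^ 2 * (-l 0 + l 2 * x 7 + μ 2 * eu + l 2 * x 6 - μ 2 * ev) + l 1 * x 5 +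
        μ 1 * za) +
      d 3 * (3 * x 3 ^ 2 * (-l 0 + l 2 * x 7 + μ 2 * eu) - l 1 * x 4 + μ 1 * zb) +
      d 4 * (-l 1 * x 3 + μ 0 * (2 * x 4 * x 5 - x 5 ^ 2)) +
      d 5 * (l 1 * x 2 + μ 0 * (x 4 ^ 2 - 2 * x 4 * x 5)) +
      d 6 * (-l 2 * (x 0 ^ 3 - x 2 ^ 3) - 3 * l 3 * x 6 ^ 2 * x 10) +
      d 7 * (l 2 * (x 2 ^ 3 + x 3 ^ 3) + 3 * l 3 * x 7 ^ 2 * x 9) +
      d 8 * (μ 3 + μ 4 + μ 5 + μ 6) + d 9 * (l 3 * x 7 ^ 3 + μ 4 + 2 * μ 5 - 3 * μ 6) +
      d 10 * (-l 3 * x 6 ^ 3 + 2 * μ 4 - μ 5 + μ 6) := by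
  have hd' : ∀ i, aeval x (pderiv v (X i : MvPolynomial (Fin 11) ℂ)) = d i := fun i => by
    rw [lcrank_d, hd]
  have c2 : algebraMap ℂ K 2 = 2 := map_ofNat _ 2
  have c3 : algebraMap ℂ K 3 = 3 := map_ofNat _ 3
  rw [Fin.sum_univ_four, Fin.sum_univ_seven]
  by_cases h1 : I.1 1 = 4 <;> by_cases h2 : I.1 2 = 6 <;>
    simp only [h1, h2, if_true, if_false] at ha hb hu hv <;>
    simp only [FE, hE, h1, h2, if_true, if_false, Matrix.cons_val, map_add, map_sub, map_mul,
      map_pow, pderiv_mul, pderiv_pow, pderiv_C, aeval_X, aeval_C, hd', map_natCast, map_zero,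
      c2, c3, ha, hb, hu, hv] <;>
    push_cast <;> ring

theorem rankE (K : Type) [Field K] [Algebra ℂ K] (I : Chart gE) (x : Fin 11 → K)
    (hI : ∀ γ, x (I.1 γ) = 1) (h0 : ∀ r, aeval x (FE r) = 0) : RankAt FE (hE I) x := by
  intro l μ hμ hg
  have : CharZero K := charZero_of_injective_algebraMap (algebraMap ℂ K).injective
  have c2 : algebraMap ℂ K 2 = 2 := map_ofNat _ 2
  have c3 : algebraMap ℂ K 3 = 3 := map_ofNat _ 3
  obtain ⟨za, ha⟩ : ∃ za : K, za = if I.1 1 = 4 then 1 else 0 := ⟨_, rfl⟩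
  obtain ⟨zb, hb⟩ : ∃ zb : K, zb = if I.1 1 = 4 then 0 else 1 := ⟨_, rfl⟩
  obtain ⟨eu, hu⟩ : ∃ eu : K, eu = if I.1 2 = 6 then 1 else 0 := ⟨_, rfl⟩
  obtain ⟨ev, hv⟩ : ∃ ev : K, ev = if I.1 2 = 6 then 0 else 1 := ⟨_, rfl⟩
  have e := fun v => (lcrank_grad I x l μ v _ (fun _ => rfl) za zb eu ev ha hb hu hv).symm.trans
    (hg v)
  have e0 := e 0
  have e1 := e 1
  have e2 := e 2
  have e3 := e 3
  have e4 := e 4
  have e5 := e 5
  have e6 := e 6
  have e7 := e 7
  have e8 := e 8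
  have e9 := e 9
  have e10 := e 10
  simp only [Fin.reduceEq, if_true, if_false, zero_mul, one_mul, add_zero, zero_add]
    at e0 e1 e2 e3 e4 e5 e6 e7 e8 e9 e10
  have hs : (x 4 = 1 ∧ za = 1 ∧ zb = 0) ∨ (x 5 = 1 ∧ za = 0 ∧ zb = 1) := by
    rcases chart_one I with h | h
    · exact Or.inl ⟨h ▸ hI 1, by rw [ha, if_pos h], by rw [hb, if_pos h]⟩
    · have h' : I.1 1 ≠ 4 := by rw [h]; decide
      exact Or.inr ⟨h ▸ hI 1, by rw [ha, if_neg h'], by rw [hb, if_neg h']⟩
  have ht : (x 6 = 1 ∧ eu = 1 ∧ ev = 0) ∨ (x 7 = 1 ∧ eu = 0 ∧ ev = 1) := by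
    rcases chart_two I with h | h
    · exact Or.inl ⟨h ▸ hI 2, by rw [hu, if_pos h], by rw [hv, if_pos h]⟩
    · have h' : I.1 2 ≠ 6 := by rw [h]; decide
      exact Or.inr ⟨h ▸ hI 2, by rw [hu, if_neg h'], by rw [hv, if_neg h']⟩
  have n : ∀ γ v, I.1 γ = v → x v ≠ 0 := fun γ v h => by
    rw [← h, hI]
    exact one_ne_zero
  have hn : x 0 ≠ 0 ∨ x 1 ≠ 0 ∨ x 2 ≠ 0 ∨ x 3 ≠ 0 :=
    (chart_zero I).imp (n 0 0) (Or.imp (n 0 1) (Or.imp (n 0 2) (n 0 3)))
  have hn' : x 8 ≠ 0 ∨ x 9 ≠ 0 ∨ x 10 ≠ 0 :=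
    (chart_three I).imp (n 3 8) (Or.imp (n 3 9) (n 3 10))
  have hPQ : x 6 ^ 3 ≠ 0 ∨ x 7 ^ 3 ≠ 0 :=
    (chart_two I).imp (fun h => pow_ne_zero 3 (n 2 6 h)) fun h => pow_ne_zero 3 (n 2 7 h)
  have F1 : x 0 ^ 3 + x 1 ^ 3 - x 2 ^ 3 - x 3 ^ 3 = 0 := by simpa [FE] using h0 0
  have F2 : x 2 * x 5 - x 3 * x 4 = 0 := by simpa [FE] using h0 1
  have F3 : (x 2 ^ 3 + x 3 ^ 3) * x 7 - (x 0 ^ 3 - x 2 ^ 3) * x 6 = 0 := by
    simpa [FE] using h0 2
  have g0 : x 4 * x 5 * (x 4 - x 5) ≠ 0 → μ 0 = 0 := fun h => hμ 0 (by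
    simpa only [hE, Matrix.cons_val, map_mul, map_sub, aeval_X] using h)
  have g1 : za * x 2 + zb * x 3 ≠ 0 → μ 1 = 0 := fun h => hμ 1 (by
    by_cases h1 : I.1 1 = 4 <;> simpa [hE, ha, hb, h1] using h)
  have g2 : eu * (x 2 ^ 3 + x 3 ^ 3) + ev * (x 0 ^ 3 - x 2 ^ 3) ≠ 0 → μ 2 = 0 := fun h => hμ 2 (by
    by_cases h1 : I.1 2 = 6 <;> simpa [hE, hu, hv, h1] using h)
  have g3 : x 8 ≠ 0 → μ 3 = 0 := fun h => hμ 3 (by simpa [hE] using h)
  have g4 : x 8 + x 9 + 2 * x 10 ≠ 0 → μ 4 = 0 := fun h => hμ 4 (by simpa [hE, c2] using h)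
  have g5 : x 8 + 2 * x 9 - x 10 ≠ 0 → μ 5 = 0 := fun h => hμ 5 (by simpa [hE, c2] using h)
  have g6 : x 8 - 3 * x 9 + x 10 ≠ 0 → μ 6 = 0 := fun h => hμ 6 (by simpa [hE, c3] using h)
  rcases lcrank_lines hn' hPQ g3 g4 g5 g6 e8 e9 e10 with ⟨z3, y3, y4, y5, y6⟩ | hgood
  · obtain ⟨z0, z1, z2, y0, y1, y2⟩ := lcrank_two hn hs ht F1 F2 F3 g0 g1 g2 e0 e1 e2 e3 e4 e5
      (by linear_combination -e6 - 3 * x 6 ^ 2 * x 10 * z3)
      (by linear_combination e7 - 3 * x 7 ^ 2 * x 9 * z3)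
    refine ⟨fun r => ?_, fun s => ?_⟩
    · fin_cases r
      exacts [z0, z1, z2, z3]
    · fin_cases s
      exacts [y0, y1, y2, y3, y4, y5, y6]
  · exact (lcrank_one hs ht F1 F2 F3 g0 g1 g2 e0 e1 e2 e3 e4 e5 e6 e7 hgood).elim

end Pool.Agent.P.MP_dc0411_ag
end

-- part Pool.Agent.P.MP_dc0411_ag.LcPt
section

/-!
Complex points of a scheme over `ℂ`, and passage to an open subscheme.
-/

open CategoryTheory AlgebraicGeometry

namespace Pool.Agent.P.MP_dc0411_ag

noncomputable section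

attribute [local instance] secAlgebra

variable {Y : Over SpecC}

/-- The underlying point of a complex point. -/
def CPoint.pt (p : CPoint Y) : Y.left := p.left (IsLocalRing.closedPoint ℂ)

theorem lcpt_eval (p : CPoint Y) {U : Y.left.Opens} (hp : p.Mem U) (s : Γ(Y.left, U)) :
    p.eval U s = (Scheme.ΓSpecIso (CommRingCat.of ℂ)).hom (p.left.appLE U ⊤ hp s) :=
  dif_pos hp

theorem lcpt_appLE_id (g : SpecC ⟶ SpecC) (hg : g = 𝟙 _) (e : ⊤ ≤ g ⁻¹ᵁ ⊤) :
    g.appLE ⊤ ⊤ e = 𝟙 _ := by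
  subst hg
  exact (Scheme.Hom.appLE_eq_app _).trans (Scheme.Hom.id_app _)

theorem lcpt_closed (c : ℂ) : c ∈ (IsLocalRing.closedPoint ℂ).asIdeal ↔ c = 0 := by
  change c ∈ IsLocalRing.maximalIdeal ℂ ↔ c = 0
  rw [IsLocalRing.maximalIdeal_eq_bot, Ideal.mem_bot]

/-- The inclusion of the open part. -/
def lcpt_incl (X : Y.left.Opens) : openPart Y X ⟶ Y := Over.homMk X.ι rfl

theorem lcpt_cancel (X : Y.left.Opens) {T : Over SpecC} {p q : T ⟶ openPart Y X}
    (h : p ≫ lcpt_incl X = q ≫ lcpt_incl X) : p = q := by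
  ext1
  exact (cancel_mono X.ι).1 (congrArg CommaMorphism.left h)

theorem CPoint.mem_iff (p : CPoint Y) (U : Y.left.Opens) : p.Mem U ↔ p.pt ∈ U := by
  refine ⟨fun h => h (x := IsLocalRing.closedPoint ℂ) trivial, fun h x _ => ?_⟩
  have hx : x = IsLocalRing.closedPoint ℂ := Subsingleton.elim (α := PrimeSpectrum ℂ) _ _
  rw [hx]
  exact h

/-- Evaluation at a complex point is a homomorphism of `ℂ`-algebras. -/
theorem CPoint.exists_evalHom (p : CPoint Y) {U : Y.left.Opens} (hp : p.Mem U) :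
    ∃ φ : Γ(Y.left, U) →ₐ[ℂ] ℂ, ∀ s, p.eval U s = φ s := by
  refine ⟨{ toRingHom := (p.left.appLE U ⊤ hp ≫ (Scheme.ΓSpecIso (CommRingCat.of ℂ)).hom).hom
            commutes' := fun c => ?_ }, fun s => lcpt_eval p hp s⟩
  have h1 := Scheme.Hom.appLE_comp_appLE p.left Y.hom ⊤ U ⊤ le_top hp
  rw [lcpt_appLE_id (p.left ≫ Y.hom) (Over.w p)] at h1
  have h2 : (Scheme.ΓSpecIso (CommRingCat.of ℂ)).inv ≫ (Y.hom.appLE ⊤ U le_top ≫
      p.left.appLE U ⊤ hp) ≫ (Scheme.ΓSpecIso (CommRingCat.of ℂ)).hom = 𝟙 _ := by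
    rw [h1]
    exact (Scheme.ΓSpecIso (CommRingCat.of ℂ)).inv_hom_id
  exact congrArg (fun f : CommRingCat.of ℂ ⟶ CommRingCat.of ℂ => f.hom c) h2

theorem CPoint.eval_aeval (p : CPoint Y) {U : Y.left.Opens} (hp : p.Mem U) {V : Type}
    (Z : V → Γ(Y.left, U)) (q : MvPolynomial V ℂ) :
    p.eval U (MvPolynomial.aeval Z q) = MvPolynomial.aeval (fun v => p.eval U (Z v)) q := by
  obtain ⟨φ, hφ⟩ := p.exists_evalHom hp
  simp only [hφ]
  rw [← AlgHom.comp_apply, MvPolynomial.comp_aeval]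

theorem CPoint.eval_res (p : CPoint Y) {U W : Y.left.Opens} (h : W ≤ U) (hp : p.Mem W)
    (s : Γ(Y.left, U)) : p.eval W (res h s) = p.eval U s := by
  have hU : p.Mem U := fun x hx => h (hp hx)
  rw [lcpt_eval p hp, lcpt_eval p hU]
  have h1 := Scheme.Hom.map_appLE p.left hp (homOfLE h).op
  exact congrArg (fun f : Γ(Y.left, U) ⟶ Γ(SpecC, ⊤) =>
    (Scheme.ΓSpecIso (CommRingCat.of ℂ)).hom (f s)) h1

theorem CPoint.mem_basicOpen (p : CPoint Y) {U : Y.left.Opens} (hp : p.Mem U)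
    (s : Γ(Y.left, U)) : p.Mem (Y.left.basicOpen s) ↔ p.eval U s ≠ 0 := by
  have h1 := Scheme.basicOpen_appLE p.left ⊤ U hp s
  have h2 := basicOpen_eq_of_affine' (R := CommRingCat.of ℂ) (p.left.appLE U ⊤ hp s)
  have h3 := h1.symm.trans h2
  rw [top_inf_eq] at h3
  rw [lcpt_eval p hp, p.mem_iff]
  change IsLocalRing.closedPoint ℂ ∈ p.left ⁻¹ᵁ Y.left.basicOpen s ↔ _
  rw [h3]
  exact not_congr (lcpt_closed _)

theorem CPoint.ext_eval {p q : CPoint Y} {U : Y.left.Opens} (hU : IsAffineOpen U) (hp : p.Mem U)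
    (hq : q.Mem U) (h : ∀ s, p.eval U s = q.eval U s) : p = q := by
  have h1 : p.left.appLE U ⊤ hp = q.left.appLE U ⊤ hq := by
    ext s
    have h2 := h s
    rw [lcpt_eval p hp, lcpt_eval q hq] at h2
    exact (Scheme.ΓSpecIso (CommRingCat.of ℂ)).commRingCatIsoToRingEquiv.injective h2
  have h3 := IsAffineOpen.SpecMap_appLE_fromSpec p.left hU (isAffineOpen_top SpecC) hp
  have h4 := IsAffineOpen.SpecMap_appLE_fromSpec q.left hU (isAffineOpen_top SpecC) hq
  rw [h1] at h3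
  have h5 := h3.symm.trans h4
  have h6 : (isAffineOpen_top SpecC).fromSpec = SpecC.isoSpec.inv := IsAffineOpen.fromSpec_top
  ext1
  refine (cancel_epi SpecC.isoSpec.inv).1 ?_
  rw [← h6]
  exact h5

theorem brody_openPart (X : Y.left.Opens)
    (h : ∀ f : ℂ → CPoint Y, IsHolomorphic f → (∀ z, (f z).Mem X) → ∀ z w, f z = f w) :
    BrodyHyperbolic (openPart Y X) := by
  intro f hf z w
  refine lcpt_cancel X (h (fun z => f z ≫ lcpt_incl X) (fun U => ⟨(hf (X.ι ⁻¹ᵁ U)).1, fun s => ?_⟩)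
    (fun z => ?_) z w)
  · have h1 : (fun z => CPoint.eval (f z ≫ lcpt_incl X) U s) =
        fun z => (f z).eval (X.ι ⁻¹ᵁ U) (X.ι.app U s) := by
      funext z
      by_cases hz : (f z).Mem (X.ι ⁻¹ᵁ U)
      · rw [lcpt_eval (f z) hz, lcpt_eval (f z ≫ lcpt_incl X) (U := U) hz]
        have h2 := Scheme.Hom.comp_appLE (f z).left X.ι U ⊤ hz
        exact congrArg (fun g : Γ(Y.left, U) ⟶ Γ(SpecC, ⊤) =>
          (Scheme.ΓSpecIso (CommRingCat.of ℂ)).hom (g s)) h2
      · have h3 : (f z).eval (X.ι ⁻¹ᵁ U) (X.ι.app U s) = 0 := dif_neg hz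
        rw [h3]
        exact dif_neg hz
    rw [h1]
    exact (hf (X.ι ⁻¹ᵁ U)).2 _
  · rw [CPoint.mem_iff]
    exact (f z).pt.2

theorem quasiProjective_openPart (hY : IsProjective Y) (X : Y.left.Opens) :
    IsQuasiProjective (openPart Y X) := by
  obtain ⟨n, i, hi⟩ := hY
  refine ⟨n, lcpt_incl X ≫ i, ?_⟩
  change IsImmersion (X.ι ≫ i.left)
  infer_instance

theorem not_pointedFinite_openPart (X : Y.left.Opens) (C : Over SpecC)
    (h1 : IsQuasiProjective C) (h2 : SmoothOfRelativeDimension 1 C.hom)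
    (h3 : ConnectedSpace C.left) (c : CPoint C) (f : ℕ → (C ⟶ Y))
    (hX : ∀ n y, (f n).left y ∈ X) (hc : ∀ n, c ≫ f n = c ≫ f 0)
    (hf : Function.Injective f) : ¬ PointedFinite (openPart Y X) := by
  intro h
  have hr : ∀ n, Set.range (f n).left ⊆ Set.range X.ι := by
    rintro n _ ⟨y, rfl⟩
    rw [Scheme.Opens.range_ι]
    exact hX n y
  let g : ℕ → (C ⟶ openPart Y X) := fun n =>
    Over.homMk (IsOpenImmersion.lift X.ι (f n).left (hr n)) (by
      change IsOpenImmersion.lift X.ι (f n).left (hr n) ≫ X.ι ≫ Y.hom = C.hom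
      rw [IsOpenImmersion.lift_fac_assoc, Over.w])
  have hg : ∀ n, g n ≫ lcpt_incl X = f n := fun n => by
    ext1
    exact IsOpenImmersion.lift_fac X.ι (f n).left (hr n)
  refine Set.infinite_of_injective_forall_mem (f := g) (fun a b hab => hf ?_) (fun n => ?_)
    (h C h1 h2 h3 c (c ≫ g 0))
  · rw [← hg, ← hg, hab]
  · refine lcpt_cancel X ?_
    rw [Category.assoc, Category.assoc, hg, hg, hc]

section affine

variable {A : Type} [CommRing A] [Algebra ℂ A]

theorem exists_cpoint_specOf (e : A →ₐ[ℂ] ℂ) :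
    ∃ (c : CPoint (specOf A)) (P : PrimeSpectrum A), c.pt = P ∧ ∀ s, s ∈ P.asIdeal ↔ e s = 0 := by
  refine ⟨Over.homMk (Spec.map (CommRingCat.ofHom e.toRingHom)) ?_,
    PrimeSpectrum.comap e.toRingHom (IsLocalRing.closedPoint ℂ), rfl, fun s => lcpt_closed (e s)⟩
  change Spec.map (CommRingCat.ofHom e.toRingHom) ≫
    Spec.map (CommRingCat.ofHom (algebraMap ℂ A)) = 𝟙 SpecC
  rw [← Spec.map_comp, ← Spec.map_id]
  congr 1
  ext c
  exact e.commutes c

theorem quasiProjective_specOf [Algebra.FiniteType ℂ A] : IsQuasiProjective (specOf A) := by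
  obtain ⟨n, ψ, hψ⟩ := (Algebra.FiniteType.iff_quotient_mvPolynomial'' (R := ℂ) (S := A)).1 inferInstance
  obtain ⟨m, i, hi⟩ := quasiProjective_opn (⊤ : (SpecR n).Opens)
  have hcl : IsClosedImmersion (algMap ψ) := IsClosedImmersion.spec_of_surjective _ hψ
  let j : specOf A ⟶ opn (⊤ : (SpecR n).Opens) := Over.homMk (algMap ψ ≫ (SpecR n).topIso.inv) (by
    change (algMap ψ ≫ (SpecR n).topIso.inv) ≫ (⊤ : (SpecR n).Opens).ι ≫ strMap n = _
    rw [Category.assoc, Scheme.toIso_inv_ι_assoc, algMap_strMap]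
    rfl)
  refine ⟨m, j ≫ i, ?_⟩
  change IsImmersion ((algMap ψ ≫ (SpecR n).topIso.inv) ≫ i.left)
  infer_instance

theorem smooth_specOf {n : ℕ} (h : Algebra.IsStandardSmoothOfRelativeDimension n ℂ A) :
    SmoothOfRelativeDimension n (specOf A).hom := by
  change SmoothOfRelativeDimension n (Spec.map (CommRingCat.ofHom (algebraMap ℂ A)))
  rw [HasRingHomProperty.Spec_iff (P := @SmoothOfRelativeDimension n)]
  refine RingHom.locally_of RingHom.isStandardSmoothOfRelativeDimension_respectsIso _ ?_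
  exact (RingHom.isStandardSmoothOfRelativeDimension_algebraMap n).mpr h

theorem connected_specOf [IsDomain A] : ConnectedSpace (specOf A).left := by
  exact inferInstanceAs (ConnectedSpace (PrimeSpectrum A))

end affine

end

end Pool.Agent.P.MP_dc0411_ag
end

-- part Pool.Agent.P.MP_dc0411_ag.LcEntire
section

/-!
The analytic part of the hyperbolicity proof.
-/

namespace Pool.Agent.P.MP_dc0411_ag

theorem lcentire_cube {g : ℂ → ℂ} (hg : Differentiable ℂ g) (h : ∀ z, g z ^ 3 = g 0 ^ 3)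
    (z z' : ℂ) : g z = g z' := by
  by_cases h0 : g 0 = 0
  · have e : ∀ z, g z = 0 := fun z => by
      have := h z
      rw [h0] at this
      exact pow_eq_zero_iff (by norm_num : (3 : ℕ) ≠ 0) |>.mp (by rw [this]; norm_num)
    rw [e z, e z']
  · refine little_picard' hg (a := 0) (b := 2 * g 0) (mul_ne_zero two_ne_zero h0).symm
      (fun z hz => h0 ?_) (fun z hz => h0 ?_) z z'
    · have := h z
      rw [hz] at this
      exact pow_eq_zero_iff (by norm_num : (3 : ℕ) ≠ 0) |>.mp (by rw [← this]; norm_num)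
    · have := h z
      rw [hz] at this
      exact pow_eq_zero_iff (by norm_num : (3 : ℕ) ≠ 0) |>.mp (by linear_combination this / 7)

theorem lcentire_omega : ∃ ω : ℂ, ω ^ 2 + ω + 1 = 0 := by
  obtain ⟨s, hs⟩ := IsAlgClosed.exists_pow_nat_eq (-3 : ℂ) (by norm_num : 0 < 2)
  exact ⟨(s - 1) / 2, by linear_combination hs / 4⟩

theorem lcentire_fermat {x y : ℂ → ℂ} (hx : Differentiable ℂ x) (hy : Differentiable ℂ y)
    {u : ℂ} (hu : u ≠ 0) (h : ∀ z, x z ^ 3 + y z ^ 3 = u) (z z' : ℂ) :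
    x z = x z' ∧ y z = y z' := by
  obtain ⟨ω, hω⟩ := lcentire_omega
  have hω0 : ω ≠ 0 := fun e => by rw [e] at hω; norm_num at hω
  have hω1 : 1 - ω ≠ 0 := fun e => by
    have : ω = 1 := by linear_combination -e
    rw [this] at hω; norm_num at hω
  have hf : ∀ z, (x z + y z) * (x z + ω * y z) * (x z + ω ^ 2 * y z) = u := fun z => by
    linear_combination h z + (x z ^ 2 * y z + ω * x z * y z ^ 2 + (ω - 1) * y z ^ 3) * hω
  have hp : ∀ z, x z + y z ≠ 0 := fun z e => hu (by rw [← hf z, e]; ring)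
  have hq : ∀ z, x z + ω * y z ≠ 0 := fun z e => hu (by rw [← hf z, e]; ring)
  have ht : ∀ z, x z + ω ^ 2 * y z ≠ 0 := fun z e => hu (by rw [← hf z, e]; ring)
  have hqd : Differentiable ℂ fun z => x z + ω * y z := by fun_prop
  have hc := little_picard' (f := fun z => (x z + y z) / (x z + ω * y z))
    ((hx.add hy).div hqd hq) (a := 0) (b := -ω) (neg_ne_zero.mpr hω0).symm
    (fun z => div_ne_zero (hp z) (hq z))
    (fun z e => ht z (by
      rw [div_eq_iff (hq z)] at e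
      linear_combination (-ω) * e + (x z + ω * y z) * hω))
  obtain ⟨c, hc'⟩ : ∃ c, ∀ z, x z + y z = c * (x z + ω * y z) :=
    ⟨(x 0 + y 0) / (x 0 + ω * y 0), fun z => by
      have := hc z 0
      rw [← this, div_mul_cancel₀ _ (hq z)]⟩
  have hk : ∀ z, c * (-ω * c - ω ^ 2) * (x z + ω * y z) ^ 3 = u := fun z => by
    have e : x z + ω ^ 2 * y z = (-ω * c - ω ^ 2) * (x z + ω * y z) := by
      linear_combination (-ω) * hc' z + (x z + ω * y z) * hω
    rw [← hf z, e, hc' z]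
    ring
  have hk0 : c * (-ω * c - ω ^ 2) ≠ 0 := fun e => hu (by rw [← hk 0, e, zero_mul])
  have hqc := lcentire_cube hqd
    (fun z => mul_left_cancel₀ hk0 ((hk z).trans (hk 0).symm)) z z'
  have hyc : y z = y z' := by
    apply mul_left_cancel₀ hω1
    linear_combination hc' z - hc' z' + (c - 1) * hqc
  exact ⟨by linear_combination hqc - ω * hyc, hyc⟩

theorem lcentire_two {ρ : ℂ → ℂ} (hρ : Differentiable ℂ ρ) {m n : ℂ} (hm : m ≠ 0) (hn : n ≠ 0)
    (hmn : m ≠ n) (h1 : ∀ z, 1 + ρ z * m ≠ 0) (h2 : ∀ z, 1 + ρ z * n ≠ 0) (z z' : ℂ) :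
    ρ z = ρ z' := by
  refine little_picard' hρ (a := -m⁻¹) (b := -n⁻¹) (fun e => hmn (inv_injective (neg_injective e)))
    (fun z e => h1 z ?_) (fun z e => h2 z ?_) z z'
  · rw [e, neg_mul, inv_mul_cancel₀ hm]; ring
  · rw [e, neg_mul, inv_mul_cancel₀ hn]; ring

theorem lcentire_line {r w : ℂ → ℂ} (hr : Differentiable ℂ r) (hw : Differentiable ℂ w)
    {U V : ℂ} (h0 : U ≠ 0 ∨ V ≠ 0) (h5 : ∀ z, V * r z = U * w z)
    (h6 : ∀ z, 1 + r z + 2 * w z ≠ 0) (h7 : ∀ z, 1 + 2 * r z - w z ≠ 0)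
    (h8 : ∀ z, 1 - 3 * r z + w z ≠ 0) (z z' : ℂ) : r z = r z' ∧ w z = w z' := by
  obtain ⟨a, b, hab⟩ : ∃ a b : ℂ, a * U + b * V = 1 := by
    rcases h0 with h | h
    · exact ⟨U⁻¹, 0, by rw [inv_mul_cancel₀ h]; ring⟩
    · exact ⟨0, V⁻¹, by rw [inv_mul_cancel₀ h]; ring⟩
  have hρ : Differentiable ℂ fun z => a * r z + b * w z := by fun_prop
  have e1 : ∀ z, (a * r z + b * w z) * U = r z := fun z => by
    linear_combination r z * hab - b * h5 z
  have e2 : ∀ z, (a * r z + b * w z) * V = w z := fun z => by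
    linear_combination w z * hab + a * h5 z
  have k6 : ∀ z, 1 + (a * r z + b * w z) * (U + 2 * V) ≠ 0 := fun z e =>
    h6 z (by linear_combination e - e1 z - 2 * e2 z)
  have k7 : ∀ z, 1 + (a * r z + b * w z) * (2 * U - V) ≠ 0 := fun z e =>
    h7 z (by linear_combination e - 2 * e1 z + e2 z)
  have k8 : ∀ z, 1 + (a * r z + b * w z) * (-3 * U + V) ≠ 0 := fun z e =>
    h8 z (by linear_combination e + 3 * e1 z - e2 z)
  have hz : ¬ (U = 0 ∧ V = 0) := fun h => h0.elim (fun e => e h.1) fun e => e h.2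
  have key : a * r z + b * w z = a * r z' + b * w z' := by
    by_cases c1 : U + 2 * V = 0
    · refine lcentire_two hρ (fun e => hz ⟨?_, ?_⟩) (fun e => hz ⟨?_, ?_⟩)
        (fun e => hz ⟨?_, ?_⟩) k7 k8 z z'
      · linear_combination (c1 + 2 * e) / 5
      · linear_combination (2 * c1 - e) / 5
      · linear_combination (c1 - 2 * e) / 7
      · linear_combination (3 * c1 + e) / 7
      · linear_combination (c1 + e) / 6
      · linear_combination (5 * c1 - e) / 12
    by_cases c2 : 2 * U - V = 0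
    · refine lcentire_two hρ c1 (fun e => hz ⟨?_, ?_⟩) (fun e => hz ⟨?_, ?_⟩) k6 k8 z z'
      · linear_combination -c2 - e
      · linear_combination -3 * c2 - 2 * e
      · linear_combination (c2 + e) / 6
      · linear_combination (e - 2 * c2) / 3
    by_cases c3 : U + 2 * V = 2 * U - V
    · refine lcentire_two hρ c1 (fun e => hz ⟨?_, ?_⟩) (fun e => hz ⟨?_, ?_⟩) k6 k8 z z'
      · linear_combination (c3 - 3 * e) / 8
      · linear_combination (3 * c3 - e) / 8
      · linear_combination (3 * e - c3) / 13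
      · linear_combination (4 * c3 + e) / 13
    · exact lcentire_two hρ c1 c2 c3 k6 k7 z z'
  exact ⟨by rw [← e1 z, ← e1 z', key], by rw [← e2 z, ← e2 z', key]⟩

theorem entire_const_three {x y b r w : ℂ → ℂ} (hx : Differentiable ℂ x)
    (hy : Differentiable ℂ y) (hb : Differentiable ℂ b) (hr : Differentiable ℂ r)
    (hw : Differentiable ℂ w) (h1 : ∀ z, x z ^ 3 + y z ^ 3 = 1 + b z ^ 3) (h2 : ∀ z, b z ≠ 0)
    (h3 : ∀ z, b z ≠ 1) (h4 : ∀ z, 1 + b z ^ 3 ≠ 0 ∨ x z ^ 3 - 1 ≠ 0)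
    (h5 : ∀ z, (x z ^ 3 - 1) ^ 3 * r z = (1 + b z ^ 3) ^ 3 * w z)
    (h6 : ∀ z, 1 + r z + 2 * w z ≠ 0) (h7 : ∀ z, 1 + 2 * r z - w z ≠ 0)
    (h8 : ∀ z, 1 - 3 * r z + w z ≠ 0) (z z' : ℂ) :
    x z = x z' ∧ y z = y z' ∧ b z = b z' ∧ r z = r z' ∧ w z = w z' := by
  have hbc := little_picard' hb (by norm_num : (0 : ℂ) ≠ 1) h2 h3
  have hxy : ∀ z z', x z = x z' ∧ y z = y z' := by
    by_cases hu : 1 + b 0 ^ 3 = 0
    · obtain ⟨ω, hω⟩ := lcentire_omega
      have hv : ∀ z, x z ^ 3 - 1 ≠ 0 := fun z =>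
        (h4 z).resolve_left (by rw [hbc z 0]; exact not_not.mpr hu)
      have hω1 : (1 : ℂ) ≠ ω := fun e => by rw [← e] at hω; norm_num at hω
      have hxc := little_picard' hx hω1 (fun z e => hv z (by rw [e]; ring))
        (fun z e => hv z (by rw [e]; linear_combination (ω - 1) * hω))
      refine fun z z' => ⟨hxc z z', lcentire_cube hy (fun z => ?_) z z'⟩
      have a1 := h1 z
      have a2 := h1 0
      rw [hbc z 0, hxc z 0] at a1
      linear_combination a1 - a2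
    · exact lcentire_fermat hx hy hu fun z => by rw [h1 z, hbc z 0]
  have hrw := lcentire_line hr hw (U := (1 + b 0 ^ 3) ^ 3) (V := (x 0 ^ 3 - 1) ^ 3)
    ((h4 0).imp (pow_ne_zero 3) (pow_ne_zero 3))
    (fun z => by have := h5 z; rwa [hbc z 0, (hxy z 0).1] at this) h6 h7 h8 z z'
  exact ⟨(hxy z z').1, (hxy z z').2, hbc z z', hrw.1, hrw.2⟩

end Pool.Agent.P.MP_dc0411_ag
end

-- part Pool.Agent.P.MP_dc0411_ag.LcBrody
section

/-!
The open threefold is Brody hyperbolic.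
-/

open CategoryTheory AlgebraicGeometry MvPolynomial

namespace Pool.Agent.P.MP_dc0411_ag

attribute [local instance] secAlgebra

/-- The value of the coordinate `v` of the chart `I` at a complex point. -/
noncomputable def lcbrodyVal {Y : Over SpecC} (D : MPData gE FE Y) (p : CPoint Y) (I : Chart gE)
    (v : Fin 11) : ℂ :=
  p.eval (D.U I) (D.Z I v)

section

variable {Y : Over SpecC} (D : MPData gE FE Y) {p : CPoint Y}

theorem lcbrody_aeval {I : Chart gE} (hp : p.Mem (D.U I)) (q : MvPolynomial (Fin 11) ℂ) :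
    p.eval (D.U I) (aeval (D.Z I) q) = aeval (lcbrodyVal D p I) q :=
  p.eval_aeval hp (D.Z I) q

theorem lcbrody_self {I : Chart gE} (hp : p.Mem (D.U I)) (γ : Fin 4) :
    lcbrodyVal D p I (I.1 γ) = 1 := by
  obtain ⟨φ, hφ⟩ := p.exists_evalHom hp
  rw [lcbrodyVal, D.Z_self, hφ, map_one]

theorem lcbrody_F {I : Chart gE} (hp : p.Mem (D.U I)) (r : Fin 4) :
    aeval (lcbrodyVal D p I) (FE r) = 0 := by
  obtain ⟨φ, hφ⟩ := p.exists_evalHom hp
  rw [← lcbrody_aeval D hp, D.aeval_F, hφ, map_zero]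

theorem lcbrody_h {I : Chart gE} (hp : p.Mem (D.U I))
    (hX : p.Mem (D.intr fun I => ∏ s, hE I s)) (s : Fin 7) :
    aeval (lcbrodyVal D p I) (hE I s) ≠ 0 := by
  have h1 : p.Mem (Y.left.basicOpen (aeval (D.Z I) (∏ s, hE I s))) := by
    rw [D.basicOpen_P adjE I, CPoint.mem_iff]
    exact ⟨(p.mem_iff _).1 hp, (p.mem_iff _).1 hX⟩
  rw [p.mem_basicOpen hp, lcbrody_aeval D hp, map_prod] at h1
  exact Finset.prod_ne_zero_iff.1 h1 s (Finset.mem_univ s)

theorem lcbrody_mem {I : Chart gE} (hp : p.Mem (D.U I)) (J : Chart gE)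
    (h : ∀ γ, lcbrodyVal D p I (J.1 γ) ≠ 0) : p.Mem (D.U J) := by
  obtain ⟨φ, hφ⟩ := p.exists_evalHom hp
  have h1 : p.Mem (Y.left.basicOpen (∏ γ, D.Z I (J.1 γ))) := by
    rw [p.mem_basicOpen hp, hφ, map_prod]
    refine Finset.prod_ne_zero_iff.2 fun γ _ => ?_
    rw [← hφ]
    exact h γ
  rw [D.inter, CPoint.mem_iff] at h1
  exact (p.mem_iff _).2 h1.2

theorem lcbrody_trans {I J : Chart gE} (hI : p.Mem (D.U I)) (hJ : p.Mem (D.U J)) (v : Fin 11) :
    lcbrodyVal D p I v = lcbrodyVal D p I (J.1 (gE v)) * lcbrodyVal D p J v := by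
  have hIJ : p.Mem (D.U I ⊓ D.U J) := by
    rw [CPoint.mem_iff]
    exact ⟨(p.mem_iff _).1 hI, (p.mem_iff _).1 hJ⟩
  obtain ⟨φ, hφ⟩ := p.exists_evalHom hIJ
  unfold lcbrodyVal
  rw [← p.eval_res inf_le_left hIJ (D.Z I v), ← p.eval_res inf_le_left hIJ (D.Z I (J.1 (gE v))),
    ← p.eval_res inf_le_right hIJ (D.Z J v), D.trans I J v, hφ, hφ, hφ, map_mul]

theorem lcbrody_cover (hX : p.Mem (D.intr fun I => ∏ s, hE I s)) :
    p.Mem (D.U I₀) ∨ p.Mem (D.U I₁) := by
  have h0 := (p.mem_iff _).1 hX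
  rw [MPData.intr, TopologicalSpace.Opens.mem_iSup] at h0
  obtain ⟨I, hI⟩ := h0
  have hp : p.Mem (D.U I) := (p.mem_iff _).2 (Y.left.basicOpen_le _ hI)
  have e0 := lcbrody_h D hp hX 0
  have e1 := lcbrody_h D hp hX 1
  have e3 := lcbrody_h D hp hX 3
  have f2 := lcbrody_F D hp 1
  have s2 := lcbrody_self D hp 2
  simp only [hE, FE, Matrix.cons_val, map_mul, map_sub, aeval_X] at e0 e1 e3 f2
  have a4 : lcbrodyVal D p I 4 ≠ 0 := left_ne_zero_of_mul (left_ne_zero_of_mul e0)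
  have a2 : lcbrodyVal D p I 2 ≠ 0 := by
    intro h2
    split_ifs at e1 with h
    · exact e1 (by rw [aeval_X, h2])
    · rw [aeval_X] at e1
      rw [h2, zero_mul, zero_sub, neg_eq_zero] at f2
      exact mul_ne_zero e1 a4 f2
  rcases chart_two I with h | h
  · left
    refine lcbrody_mem D hp I₀ fun γ => ?_
    rw [h] at s2
    fin_cases γ
    · exact a2
    · exact a4
    · exact s2 ▸ one_ne_zero
    · exact e3
  · right
    refine lcbrody_mem D hp I₁ fun γ => ?_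
    rw [h] at s2
    fin_cases γ
    · exact a2
    · exact a4
    · exact s2 ▸ one_ne_zero
    · exact e3

/-- The scalar relations in a chart with `a = τ₀ = q = 1`. -/
structure lcbrodyRel (x : Fin 11 → ℂ) : Prop where
  e2 : x 2 = 1
  e4 : x 4 = 1
  e8 : x 8 = 1
  e5 : x 5 = x 3
  f1 : x 0 ^ 3 + x 1 ^ 3 = 1 + x 3 ^ 3
  b0 : x 3 ≠ 0
  b1 : x 3 ≠ 1
  f3 : (1 + x 3 ^ 3) * x 7 = (x 0 ^ 3 - 1) * x 6
  f4 : x 7 ^ 3 * x 9 = x 6 ^ 3 * x 10
  l1 : 1 + x 9 + 2 * x 10 ≠ 0
  l2 : 1 + 2 * x 9 - x 10 ≠ 0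
  l3 : 1 - 3 * x 9 + x 10 ≠ 0

theorem lcbrody_rel {I : Chart gE} (hp : p.Mem (D.U I))
    (hX : p.Mem (D.intr fun I => ∏ s, hE I s)) (h0 : I.1 0 = 2) (h1 : I.1 1 = 4)
    (h3 : I.1 3 = 8) : lcbrodyRel (lcbrodyVal D p I) := by
  have s0 := lcbrody_self D hp 0
  have s1 := lcbrody_self D hp 1
  have s3 := lcbrody_self D hp 3
  rw [h0] at s0
  rw [h1] at s1
  rw [h3] at s3
  have e0 := lcbrody_h D hp hX 0
  have e4 := lcbrody_h D hp hX 4
  have e5 := lcbrody_h D hp hX 5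
  have e6 := lcbrody_h D hp hX 6
  have f1 := lcbrody_F D hp 0
  have f2 := lcbrody_F D hp 1
  have f3 := lcbrody_F D hp 2
  have f4 := lcbrody_F D hp 3
  simp only [hE, FE, Matrix.cons_val, map_mul, map_sub, map_add, map_pow, aeval_X, aeval_C,
    Algebra.algebraMap_self, RingHom.id_apply, s0, s1, s3] at e0 e4 e5 e6 f1 f2 f3 f4
  have e53 : lcbrodyVal D p I 5 = lcbrodyVal D p I 3 := by linear_combination f2
  rw [e53] at e0
  refine ⟨s0, s1, s3, e53, by linear_combination f1, ?_, ?_, by linear_combination f3,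
    by linear_combination f4, e4, e5, e6⟩
  · intro h
    exact e0 (by rw [h]; ring)
  · intro h
    exact e0 (by rw [h]; ring)

theorem lcbrody_zero (hp : p.Mem (D.U I₀)) (hX : p.Mem (D.intr fun I => ∏ s, hE I s)) :
    lcbrodyRel (lcbrodyVal D p I₀) ∧ lcbrodyVal D p I₀ 6 = 1 ∧
      1 + lcbrodyVal D p I₀ 3 ^ 3 ≠ 0 := by
  have hr := lcbrody_rel D hp hX rfl rfl rfl
  refine ⟨hr, lcbrody_self D hp 2, ?_⟩
  have e2 := lcbrody_h D hp hX 2
  have : hE I₀ 2 = X 2 ^ 3 + X 3 ^ 3 := by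
    have h : I₀.1 2 = 6 := rfl
    simp only [hE, Matrix.cons_val, h, if_true]
  rw [this, map_add, map_pow, map_pow, aeval_X, aeval_X, hr.e2, one_pow] at e2
  exact e2

theorem lcbrody_one (hp : p.Mem (D.U I₁)) (hX : p.Mem (D.intr fun I => ∏ s, hE I s)) :
    lcbrodyRel (lcbrodyVal D p I₁) ∧ lcbrodyVal D p I₁ 7 = 1 ∧
      lcbrodyVal D p I₁ 0 ^ 3 - 1 ≠ 0 := by
  have hr := lcbrody_rel D hp hX rfl rfl rfl
  refine ⟨hr, lcbrody_self D hp 2, ?_⟩
  have e2 := lcbrody_h D hp hX 2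
  have : hE I₁ 2 = X 0 ^ 3 - X 2 ^ 3 := by
    have h : ¬ I₁.1 2 = 6 := by decide
    simp only [hE, Matrix.cons_val, h, if_false]
  rw [this, map_sub, map_pow, map_pow, aeval_X, aeval_X, hr.e2, one_pow] at e2
  exact e2

theorem lcbrody_agree (h0 : p.Mem (D.U I₀)) (h1 : p.Mem (D.U I₁)) {v : Fin 11} (hv : gE v ≠ 2) :
    lcbrodyVal D p I₀ v = lcbrodyVal D p I₁ v := by
  have : I₁.1 (gE v) = I₀.1 (gE v) := by
    revert hv
    generalize gE v = γ
    revert γ
    decide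
  rw [lcbrody_trans D h0 h1 v, this, lcbrody_self D h0, one_mul]

theorem lcbrody_ext {q : CPoint Y} {I : Chart gE} (hp : p.Mem (D.U I)) (hq : q.Mem (D.U I))
    (h : ∀ v, lcbrodyVal D p I v = lcbrodyVal D q I v) : p = q := by
  refine CPoint.ext_eval (D.aff I) hp hq fun s => ?_
  obtain ⟨r, rfl⟩ := D.surj I s
  rw [lcbrody_aeval D hp, lcbrody_aeval D hq, funext h]

open Classical in
/-- The coordinates glued from the two charts. -/
noncomputable def lcbrodyGlue (p : CPoint Y) (v : Fin 11) : ℂ :=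
  if p.Mem (D.U I₀) then lcbrodyVal D p I₀ v else lcbrodyVal D p I₁ v

theorem lcbrody_glue_zero (h0 : p.Mem (D.U I₀)) (v : Fin 11) :
    lcbrodyGlue D p v = lcbrodyVal D p I₀ v := if_pos h0

theorem lcbrody_glue_one (h1 : p.Mem (D.U I₁)) {v : Fin 11} (hv : gE v ≠ 2) :
    lcbrodyGlue D p v = lcbrodyVal D p I₁ v := by
  unfold lcbrodyGlue
  split_ifs with h0
  · exact lcbrody_agree D h0 h1 hv
  · rfl

theorem lcbrody_entire {f : ℂ → CPoint Y} (hf : IsHolomorphic f)
    (hX : ∀ z, (f z).Mem (D.intr fun I => ∏ s, hE I s)) {v : Fin 11} (hv : gE v ≠ 2) :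
    Differentiable ℂ fun z => lcbrodyGlue D (f z) v := by
  intro z
  rcases lcbrody_cover D (hX z) with h | h
  · have hn := (hf (D.U I₀)).1.mem_nhds h
    refine (((hf (D.U I₀)).2 (D.Z I₀ v)).differentiableAt hn).congr_of_eventuallyEq ?_
    filter_upwards [hn] with w hw
    exact lcbrody_glue_zero D hw v
  · have hn := (hf (D.U I₁)).1.mem_nhds h
    refine (((hf (D.U I₁)).2 (D.Z I₁ v)).differentiableAt hn).congr_of_eventuallyEq ?_
    filter_upwards [hn] with w hw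
    exact lcbrody_glue_one D hw hv

theorem lcbrody_facts (hX : p.Mem (D.intr fun I => ∏ s, hE I s)) :
    lcbrodyGlue D p 0 ^ 3 + lcbrodyGlue D p 1 ^ 3 = 1 + lcbrodyGlue D p 3 ^ 3 ∧
    lcbrodyGlue D p 3 ≠ 0 ∧ lcbrodyGlue D p 3 ≠ 1 ∧
    (1 + lcbrodyGlue D p 3 ^ 3 ≠ 0 ∨ lcbrodyGlue D p 0 ^ 3 - 1 ≠ 0) ∧
    (lcbrodyGlue D p 0 ^ 3 - 1) ^ 3 * lcbrodyGlue D p 9 =
      (1 + lcbrodyGlue D p 3 ^ 3) ^ 3 * lcbrodyGlue D p 10 ∧
    1 + lcbrodyGlue D p 9 + 2 * lcbrodyGlue D p 10 ≠ 0 ∧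
    1 + 2 * lcbrodyGlue D p 9 - lcbrodyGlue D p 10 ≠ 0 ∧
    1 - 3 * lcbrodyGlue D p 9 + lcbrodyGlue D p 10 ≠ 0 := by
  rcases lcbrody_cover D hX with h | h
  · obtain ⟨r, h6, hu⟩ := lcbrody_zero D h hX
    simp only [lcbrody_glue_zero D h]
    refine ⟨r.f1, r.b0, r.b1, Or.inl hu, ?_, r.l1, r.l2, r.l3⟩
    have f3 := r.f3
    have f4 := r.f4
    rw [h6, mul_one] at f3
    rw [h6, one_pow, one_mul] at f4
    rw [← f3, ← f4]
    ring
  · obtain ⟨r, h7, hu⟩ := lcbrody_one D h hX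
    rw [lcbrody_glue_one D h (v := 0) (by decide), lcbrody_glue_one D h (v := 1) (by decide),
      lcbrody_glue_one D h (v := 3) (by decide), lcbrody_glue_one D h (v := 9) (by decide),
      lcbrody_glue_one D h (v := 10) (by decide)]
    refine ⟨r.f1, r.b0, r.b1, Or.inr hu, ?_, r.l1, r.l2, r.l3⟩
    have f3 := r.f3
    have f4 := r.f4
    rw [h7, mul_one] at f3
    rw [h7, one_pow, one_mul] at f4
    rw [f3, f4]
    ring

theorem lcbrody_mem_zero (hX : p.Mem (D.intr fun I => ∏ s, hE I s))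
    (hu : 1 + lcbrodyGlue D p 3 ^ 3 ≠ 0) : p.Mem (D.U I₀) := by
  rcases lcbrody_cover D hX with h | h
  · exact h
  · obtain ⟨r, h7, -⟩ := lcbrody_one D h hX
    rw [lcbrody_glue_one D h (v := 3) (by decide)] at hu
    have f3 := r.f3
    rw [h7, mul_one] at f3
    rw [f3] at hu
    refine lcbrody_mem D h I₀ fun γ => ?_
    fin_cases γ
    · exact r.e2 ▸ one_ne_zero
    · exact r.e4 ▸ one_ne_zero
    · exact right_ne_zero_of_mul hu
    · exact r.e8 ▸ one_ne_zero

theorem lcbrody_mem_one (hX : p.Mem (D.intr fun I => ∏ s, hE I s))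
    (hu : 1 + lcbrodyGlue D p 3 ^ 3 = 0) : p.Mem (D.U I₁) := by
  rcases lcbrody_cover D hX with h | h
  · obtain ⟨-, -, h'⟩ := lcbrody_zero D h hX
    rw [lcbrody_glue_zero D h] at hu
    exact absurd hu h'
  · exact h

theorem lcbrody_eq {x y : Fin 11 → ℂ} (rx : lcbrodyRel x) (ry : lcbrodyRel y) (h0 : x 0 = y 0)
    (h1 : x 1 = y 1) (h3 : x 3 = y 3) (h9 : x 9 = y 9) (h10 : x 10 = y 10) (h6 : x 6 = y 6)
    (h7 : x 7 = y 7) (v : Fin 11) : x v = y v := by
  fin_cases v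
  · exact h0
  · exact h1
  · exact rx.e2.trans ry.e2.symm
  · exact h3
  · exact rx.e4.trans ry.e4.symm
  · exact (rx.e5.trans h3).trans ry.e5.symm
  · exact h6
  · exact h7
  · exact rx.e8.trans ry.e8.symm
  · exact h9
  · exact h10

end

theorem brodyE {Y : Over SpecC} (D : MPData gE FE Y) :
    BrodyHyperbolic (openPart Y (D.intr fun I => ∏ s, hE I s)) := by
  refine brody_openPart _ fun f hf hX z w => ?_
  obtain ⟨h0, h1, h3, h9, h10⟩ := entire_const_three
    (lcbrody_entire D hf hX (v := 0) (by decide)) (lcbrody_entire D hf hX (v := 1) (by decide))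
    (lcbrody_entire D hf hX (v := 3) (by decide)) (lcbrody_entire D hf hX (v := 9) (by decide))
    (lcbrody_entire D hf hX (v := 10) (by decide))
    (fun z => (lcbrody_facts D (hX z)).1) (fun z => (lcbrody_facts D (hX z)).2.1)
    (fun z => (lcbrody_facts D (hX z)).2.2.1) (fun z => (lcbrody_facts D (hX z)).2.2.2.1)
    (fun z => (lcbrody_facts D (hX z)).2.2.2.2.1) (fun z => (lcbrody_facts D (hX z)).2.2.2.2.2.1)
    (fun z => (lcbrody_facts D (hX z)).2.2.2.2.2.2.1)
    (fun z => (lcbrody_facts D (hX z)).2.2.2.2.2.2.2) z w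
  by_cases hu : 1 + lcbrodyGlue D (f z) 3 ^ 3 = 0
  · have hz := lcbrody_mem_one D (hX z) hu
    have hw := lcbrody_mem_one D (hX w) (h3 ▸ hu)
    obtain ⟨rz, z7, vz⟩ := lcbrody_one D hz (hX z)
    obtain ⟨rw', w7, -⟩ := lcbrody_one D hw (hX w)
    rw [lcbrody_glue_one D hz (by decide), lcbrody_glue_one D hw (by decide)] at h0 h1 h3 h9 h10
    refine lcbrody_ext D hz hw (lcbrody_eq rz rw' h0 h1 h3 h9 h10 ?_ (z7.trans w7.symm))
    have a := rz.f3
    have b := rw'.f3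
    rw [← h0, ← h3, w7] at b
    rw [z7] at a
    exact mul_left_cancel₀ vz (a.symm.trans b)
  · have hz := lcbrody_mem_zero D (hX z) hu
    have hw := lcbrody_mem_zero D (hX w) (h3 ▸ hu)
    obtain ⟨rz, z6, uz⟩ := lcbrody_zero D hz (hX z)
    obtain ⟨rw', w6, -⟩ := lcbrody_zero D hw (hX w)
    rw [lcbrody_glue_zero D hz, lcbrody_glue_zero D hw] at h0 h1 h3 h9 h10
    refine lcbrody_ext D hz hw (lcbrody_eq rz rw' h0 h1 h3 h9 h10 (z6.trans w6.symm) ?_)
    have a := rz.f3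
    have b := rw'.f3
    rw [← h0, ← h3, w6] at b
    rw [z6] at a
    exact mul_left_cancel₀ uz (a.trans b.symm)

end Pool.Agent.P.MP_dc0411_ag
end

-- part Pool.Agent.P.MP_dc0411_ag.LcCurve
section

/-!
The affine curve `s³ = 1 + b³`, `b ≠ 0, 1`.
-/

namespace Pool.Agent.P.MP_dc0411_ag

open Polynomial

theorem lccurve_monic : (X ^ 3 - C (X ^ 3 - 1) : ℂ[X][X]).Monic :=
  monic_X_pow_sub_C _ (by norm_num)

/-- The standard etale pair over `ℂ[s]` that defines the curve. -/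
noncomputable def lccurvePair : StandardEtalePair ℂ[X] where
  f := X ^ 3 - C (X ^ 3 - 1)
  monic_f := lccurve_monic
  g := X * (1 - X)
  cond := by
    refine ⟨C (C (1 / 3)) * (1 - X) ^ 2, 0, 2, ?_⟩
    have h3 : (3 : ℂ[X][X]) * C (C (1 / 3)) = 1 := by
      have : (3 : ℂ[X][X]) = C (C 3) := by
        rw [map_ofNat, map_ofNat]
      rw [this, ← map_mul, ← map_mul]
      norm_num
    have hd : derivative (X ^ 3 - C (X ^ 3 - 1) : ℂ[X][X]) = 3 * X ^ 2 := by
      rw [derivative_sub, derivative_C, sub_zero, derivative_X_pow]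
      norm_num
      rfl
    rw [hd]
    linear_combination (X ^ 2 * (1 - X) ^ 2) * h3

theorem lccurve_irreducible : Irreducible (X ^ 3 - C (X ^ 3 - 1) : ℂ[X][X]) := by
  have hprime : (Ideal.span {(X - C 1 : ℂ[X])}).IsPrime :=
    (Ideal.span_singleton_prime (X_sub_C_ne_zero 1)).mpr (prime_X_sub_C 1)
  have hdeg : (X ^ 3 - C (X ^ 3 - 1) : ℂ[X][X]).degree = 3 :=
    degree_X_pow_sub_C (by norm_num) _
  have hdvd : (X - C 1 : ℂ[X]) ∣ X ^ 3 - 1 := ⟨X ^ 2 + X + 1, by rw [C_1]; ring⟩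
  refine irreducible_of_eisenstein_criterion hprime ?_ ?_ ?_ ?_ lccurve_monic.isPrimitive
  · rw [lccurve_monic.leadingCoeff]
    exact (Ideal.ne_top_iff_one _).mp hprime.ne_top
  · intro n hn
    rw [hdeg] at hn
    have hn' : n < 3 := by exact_mod_cast hn
    rw [coeff_sub, coeff_X_pow, coeff_C, if_neg (by omega), zero_sub]
    refine neg_mem ?_
    split_ifs
    · exact Ideal.mem_span_singleton.mpr hdvd
    · exact zero_mem _
  · rw [hdeg]; norm_num
  · rw [coeff_sub, coeff_X_pow, coeff_C, if_neg (by norm_num), if_pos rfl, zero_sub,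
      Ideal.span_singleton_pow, Ideal.mem_span_singleton, dvd_neg]
    rintro ⟨q, hq⟩
    have h1 : (X - C 1 : ℂ[X]) * (X ^ 2 + X + 1) = (X - C 1) * ((X - C 1) * q) := by
      rw [← mul_assoc, ← pow_two, ← hq, C_1]; ring
    have h2 := mul_left_cancel₀ (X_sub_C_ne_zero (1 : ℂ)) h1
    have h3 := congrArg (eval 1) h2
    norm_num at h3

theorem lccurve_point (c x : ℂ) (hx : x ^ 3 = c ^ 3 - 1) (hu : x * (1 - x) ≠ 0) :
    ∃ e : lccurvePair.Ring →+* ℂ, ∀ p : ℂ[X], e (algebraMap ℂ[X] lccurvePair.Ring p) = eval c p := by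
  letI : Algebra ℂ[X] ℂ := (evalRingHom c).toAlgebra
  have ha : ∀ p : ℂ[X], algebraMap ℂ[X] ℂ p = eval c p := fun _ => rfl
  have h : lccurvePair.HasMap x := by
    constructor
    · show aeval x (X ^ 3 - C (X ^ 3 - 1) : ℂ[X][X]) = 0
      rw [map_sub, map_pow, aeval_X, aeval_C, ha, hx]
      simp
    · show IsUnit (aeval x (X * (1 - X) : ℂ[X][X]))
      rw [map_mul, map_sub, map_one, aeval_X]
      exact isUnit_iff_ne_zero.mpr hu
  exact ⟨(lccurvePair.lift x h).toRingHom, fun p => ((lccurvePair.lift x h).commutes p).trans (ha p)⟩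

theorem lccurve_domain : IsDomain lccurvePair.Ring := by
  have hp : Prime lccurvePair.f := lccurve_irreducible.prime
  haveI : IsDomain (AdjoinRoot lccurvePair.f) := AdjoinRoot.isDomain_of_prime hp
  have hg : AdjoinRoot.mk lccurvePair.f lccurvePair.g ≠ 0 := by
    rw [Ne, AdjoinRoot.mk_eq_zero]
    intro hd
    have hne : (X * (1 - X) : ℂ[X][X]) ≠ 0 := by
      refine mul_ne_zero X_ne_zero ?_
      intro h
      have := congrArg (fun p : ℂ[X][X] => p.coeff 0) h
      simp at this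
    have h1 : (X ^ 3 - C (X ^ 3 - 1) : ℂ[X][X]).natDegree ≤ (X * (1 - X) : ℂ[X][X]).natDegree :=
      natDegree_le_of_dvd hd hne
    have h2 : (X * (1 - X) : ℂ[X][X]).natDegree ≤ 2 := by compute_degree
    rw [natDegree_X_pow_sub_C] at h1
    omega
  haveI : IsDomain (Localization.Away (AdjoinRoot.mk lccurvePair.f lccurvePair.g)) :=
    IsLocalization.isDomain_localization
      (powers_le_nonZeroDivisors_of_noZeroDivisors hg)
  exact lccurvePair.equivAwayAdjoinRoot.toMulEquiv.isDomain _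

theorem lccurve_line : Algebra.IsStandardSmoothOfRelativeDimension 1 ℂ ℂ[X] := by
  let v : Empty → MvPolynomial Unit ℂ := Empty.elim
  let P : Algebra.SubmersivePresentation ℂ (MvPolynomial Unit ℂ ⧸ Ideal.span (Set.range v))
      Unit Empty :=
    { toPreSubmersivePresentation := Algebra.PreSubmersivePresentation.naive (v := v)
        Empty.elim (fun a => a.elim)
      jacobian_isUnit := by
        rw [Algebra.PreSubmersivePresentation.jacobian_eq_jacobiMatrix_det]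
        simp }
  have h1 : Algebra.IsStandardSmoothOfRelativeDimension 1 ℂ
      (MvPolynomial Unit ℂ ⧸ Ideal.span (Set.range v)) :=
    P.isStandardSmoothOfRelativeDimension (by simp [Algebra.Presentation.dimension])
  have hbot : Ideal.span (Set.range v) = ⊥ := by
    rw [Set.range_eq_empty v, Ideal.span_empty]
  exact Algebra.IsStandardSmoothOfRelativeDimension.of_algEquiv 1
    (((Ideal.quotientEquivAlgOfEq ℂ hbot).trans
      (AlgEquiv.quotientBot ℂ (MvPolynomial Unit ℂ))).trans (MvPolynomial.uniqueAlgEquiv ℂ Unit))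

theorem exists_curve : ∃ (A : Type) (_ : CommRing A) (_ : Algebra ℂ A) (s b : A)
    (e₀ e₁ : A →ₐ[ℂ] ℂ), IsDomain A ∧ Algebra.IsStandardSmoothOfRelativeDimension 1 ℂ A ∧
      s ^ 3 = 1 + b ^ 3 ∧ IsUnit (b * (1 - b)) ∧ e₀ s = 0 ∧ e₁ s ≠ 0 := by
  letI : Algebra ℂ lccurvePair.Ring :=
    ((algebraMap ℂ[X] lccurvePair.Ring).comp (algebraMap ℂ ℂ[X])).toAlgebra
  haveI : IsScalarTower ℂ ℂ[X] lccurvePair.Ring := IsScalarTower.of_algebraMap_eq' rfl
  have hC : ∀ z : ℂ, algebraMap ℂ lccurvePair.Ring z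
      = algebraMap ℂ[X] lccurvePair.Ring (C z) := fun _ => rfl
  obtain ⟨e₀, he₀⟩ := lccurve_point 0 (-1) (by norm_num) (by norm_num)
  obtain ⟨c, hc⟩ := IsAlgClosed.exists_pow_nat_eq (9 : ℂ) (by norm_num : 0 < 3)
  obtain ⟨e₁, he₁⟩ := lccurve_point c 2 (by rw [hc]; norm_num) (by norm_num)
  have hX := lccurvePair.hasMap_X
  have k₀ : ∀ z : ℂ, e₀ (algebraMap ℂ lccurvePair.Ring z) = z := fun z => by
    rw [hC, he₀, eval_C]
  have k₁ : ∀ z : ℂ, e₁ (algebraMap ℂ lccurvePair.Ring z) = z := fun z => by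
    rw [hC, he₁, eval_C]
  refine ⟨lccurvePair.Ring, inferInstance, inferInstance, algebraMap ℂ[X] _ X, lccurvePair.X,
    ⟨e₀, k₀⟩, ⟨e₁, k₁⟩, lccurve_domain, ?_, ?_, ?_, ?_, ?_⟩
  · haveI := lccurve_line
    haveI : Algebra.IsStandardSmoothOfRelativeDimension 0 ℂ[X] lccurvePair.Ring :=
      Algebra.Etale.iff_isStandardSmoothOfRelativeDimension_zero.mp inferInstance
    exact Algebra.IsStandardSmoothOfRelativeDimension.trans 1 0 ℂ ℂ[X] lccurvePair.Ring
  · have h : aeval lccurvePair.X (X ^ 3 - C (X ^ 3 - 1) : ℂ[X][X]) = 0 := hX.1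
    rw [map_sub, map_pow, aeval_X, aeval_C, map_sub, map_pow, map_one] at h
    linear_combination -h
  · have h : IsUnit (aeval lccurvePair.X (X * (1 - X) : ℂ[X][X])) := hX.2
    rwa [map_mul, map_sub, map_one, aeval_X] at h
  · show e₀ (algebraMap ℂ[X] lccurvePair.Ring X) = 0
    rw [he₀, eval_X]
  · show e₁ (algebraMap ℂ[X] lccurvePair.Ring X) ≠ 0
    rw [he₁, eval_X]
    rintro rfl
    norm_num at hc

end Pool.Agent.P.MP_dc0411_ag
end

-- part Pool.Agent.P.MP_dc0411_ag.LcMaps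
section

/-!
Infinitely many pointed maps from the curve `s³ = 1 + b³` to the open threefold.
-/

open CategoryTheory AlgebraicGeometry MvPolynomial

namespace Pool.Agent.P.MP_dc0411_ag

attribute [local instance] secAlgebra

section value

variable {V G R : Type} [Fintype V] [DecidableEq V] [Fintype G] [DecidableEq G]
  {g : V → G} {F : R → MvPolynomial V ℂ} {Y : Over SpecC}

/-- The description of a morphism from an affine scheme by its coordinates `z`. -/
def lcmapsPts (D : MPData g F Y) {A : Type} [CommRing A] [Algebra ℂ A] (z : V → A)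
    (f : specOf A ⟶ Y) : Prop :=
  ∀ (I : Chart g) (p : MvPolynomial V ℂ) (d : G → ℕ), MH g p d →
    ∀ P : PrimeSpectrum A, f.left P ∈ Y.left.basicOpen (aeval (D.Z I) p) ↔
      (∀ γ, z (I.1 γ) ∉ P.asIdeal) ∧ aeval z p ∉ P.asIdeal

theorem lcmaps_value (D : MPData g F Y) {A : Type} [CommRing A] [Algebra ℂ A] {z : V → A}
    {f : specOf A ⟶ Y} (hf : lcmapsPts D z f) (e : A →ₐ[ℂ] ℂ) (c : CPoint (specOf A))
    (P : PrimeSpectrum A) (hc : c.pt = P) (hP : ∀ s, s ∈ P.asIdeal ↔ e s = 0) (I : Chart g)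
    (hI : ∀ γ, e (z (I.1 γ)) ≠ 0) :
    CPoint.Mem (c ≫ f) (D.U I) ∧
      ∀ v, e (z (I.1 (g v))) * CPoint.eval (c ≫ f) (D.U I) (D.Z I v) = e (z v) := by
  have hpt : CPoint.pt (c ≫ f) = f.left P := by
    rw [← hc]
    rfl
  have hI' : ∀ γ, z (I.1 γ) ∉ P.asIdeal := fun γ h => hI γ ((hP _).1 h)
  have hmem : CPoint.Mem (c ≫ f) (D.U I) := by
    rw [CPoint.mem_iff, hpt]
    refine Y.left.basicOpen_le _ ((hf I 1 0 (MH.one g) P).2 ⟨hI', ?_⟩)
    rw [map_one, hP, map_one]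
    exact one_ne_zero
  refine ⟨hmem, fun v => ?_⟩
  have h1 : MH g (C (e (z (I.1 (g v)))) * X v - C (e (z v)) * X (I.1 (g v)))
      (Pi.single (g v) 1) :=
    ((MH.X g v).C_mul _).sub (((MH.X g (I.1 (g v))).C_mul _).of_eq (by rw [I.2]))
  have h2 : ¬ CPoint.Mem (c ≫ f) (Y.left.basicOpen (aeval (D.Z I)
      (C (e (z (I.1 (g v)))) * X v - C (e (z v)) * X (I.1 (g v))))) := by
    rw [CPoint.mem_iff, hpt, hf I _ _ h1 P]
    rintro ⟨-, h⟩
    apply h
    rw [hP]
    simp only [map_sub, map_mul, aeval_C, aeval_X, AlgHom.commutes, Algebra.algebraMap_self,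
      RingHom.id_apply]
    ring
  rw [CPoint.mem_basicOpen _ hmem, not_not, CPoint.eval_aeval _ hmem] at h2
  obtain ⟨φ, hφ⟩ := CPoint.exists_evalHom _ hmem
  have h3 : CPoint.eval (c ≫ f) (D.U I) (D.Z I (I.1 (g v))) = 1 := by
    rw [D.Z_self, hφ, map_one]
  simp only [map_sub, map_mul, aeval_C, aeval_X, Algebra.algebraMap_self, RingHom.id_apply,
    h3, mul_one] at h2
  exact sub_eq_zero.1 h2

theorem lcmaps_same (D : MPData g F Y) {A : Type} [CommRing A] [Algebra ℂ A] {z z' : V → A}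
    {f f' : specOf A ⟶ Y} (hf : lcmapsPts D z f) (hf' : lcmapsPts D z' f') (e : A →ₐ[ℂ] ℂ)
    (c : CPoint (specOf A)) (P : PrimeSpectrum A) (hc : c.pt = P)
    (hP : ∀ s, s ∈ P.asIdeal ↔ e s = 0) (I : Chart g) (hI : ∀ γ, e (z (I.1 γ)) ≠ 0)
    (hz : ∀ v, e (z' v) = e (z v)) : c ≫ f = c ≫ f' := by
  obtain ⟨m1, v1⟩ := lcmaps_value D hf e c P hc hP I hI
  obtain ⟨m2, v2⟩ := lcmaps_value D hf' e c P hc hP I (fun γ => by rw [hz]; exact hI γ)
  refine CPoint.ext_eval (D.aff I) m1 m2 (fun t => ?_)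
  obtain ⟨q, rfl⟩ := D.surj I t
  rw [CPoint.eval_aeval _ m1, CPoint.eval_aeval _ m2]
  have h : (fun v => CPoint.eval (c ≫ f) (D.U I) (D.Z I v)) =
      fun v => CPoint.eval (c ≫ f') (D.U I) (D.Z I v) := by
    funext v
    have h1 := v1 v
    have h2 := v2 v
    rw [hz, hz] at h2
    exact mul_left_cancel₀ (hI (g v)) (h1.trans h2.symm)
  rw [h]

end value

section curve

variable {A : Type} [CommRing A] [Algebra ℂ A]

/-- The coordinates of the maps from the curve. -/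
def lcmapsZ (s b : A) (al be : ℂ) : Fin 11 → A :=
  ![algebraMap ℂ A al * s, algebraMap ℂ A be * s, 1, b, 1, b, s ^ 3,
    (algebraMap ℂ A al * s) ^ 3 - 1, 1, 0, 0]

theorem lcmaps_F {s b : A} (h : s ^ 3 = 1 + b ^ 3) {al be : ℂ} (hb : be ^ 3 = 1 - al ^ 3)
    (r : Fin 4) : aeval (lcmapsZ s b al be) (FE r) = 0 := by
  have h1 : algebraMap ℂ A be ^ 3 = 1 - algebraMap ℂ A al ^ 3 := by
    rw [← map_pow, hb, map_sub, map_one, map_pow]
  fin_cases r
  · simp [FE, lcmapsZ]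
    linear_combination s ^ 3 * h1 + h
  · simp [FE, lcmapsZ]
  · simp [FE, lcmapsZ]
    linear_combination (-(algebraMap ℂ A al * s) ^ 3 + 1) * h
  · simp [FE, lcmapsZ]

theorem lcmaps_last {s : A} (al : ℂ) {P : PrimeSpectrum A} (hs : s ∈ P.asIdeal) :
    (algebraMap ℂ A al * s) ^ 3 - 1 ∉ P.asIdeal := by
  intro h
  have h1 : (algebraMap ℂ A al * s) ^ 3 ∈ P.asIdeal :=
    Ideal.pow_mem_of_mem _ (Ideal.mul_mem_left _ _ hs) 3 (by norm_num)
  have h2 := P.asIdeal.sub_mem h1 h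
  rw [sub_sub_cancel] at h2
  exact P.isPrime.ne_top ((Ideal.eq_top_iff_one _).2 h2)

theorem lcmaps_chart₀ {s : A} (b : A) (al be : ℂ) {P : PrimeSpectrum A} (hs : s ∉ P.asIdeal)
    (γ : Fin 4) : lcmapsZ s b al be (I₀.1 γ) ∉ P.asIdeal := by
  have h1 : (1 : A) ∉ P.asIdeal := fun h => P.isPrime.ne_top ((Ideal.eq_top_iff_one _).2 h)
  fin_cases γ
  · exact h1
  · exact h1
  · exact fun h => hs (P.isPrime.mem_of_pow_mem 3 h)
  · exact h1

theorem lcmaps_chart₁ {s : A} (b : A) (al be : ℂ) {P : PrimeSpectrum A} (hs : s ∈ P.asIdeal)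
    (γ : Fin 4) : lcmapsZ s b al be (I₁.1 γ) ∉ P.asIdeal := by
  have h1 : (1 : A) ∉ P.asIdeal := fun h => P.isPrime.ne_top ((Ideal.eq_top_iff_one _).2 h)
  fin_cases γ
  · exact h1
  · exact h1
  · exact lcmaps_last al hs
  · exact h1

theorem lcmaps_h₀ {s b : A} (h : s ^ 3 = 1 + b ^ 3) (al be : ℂ) :
    aeval (lcmapsZ s b al be) (∏ i, hE I₀ i) = b * (1 - b) * s ^ 3 := by
  rw [h]
  simp [Fin.prod_univ_seven, hE, I₀, lcmapsZ]

theorem lcmaps_h₁ (s b : A) (al be : ℂ) :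
    aeval (lcmapsZ s b al be) (∏ i, hE I₁ i) =
      b * (1 - b) * ((algebraMap ℂ A al * s) ^ 3 - 1) := by
  simp [Fin.prod_univ_seven, hE, I₁, lcmapsZ]

theorem lcmaps_zero (s b : A) (al be : ℂ) : lcmapsZ s b al be 0 = algebraMap ℂ A al * s := rfl

theorem lcmaps_two (s b : A) (al be : ℂ) : lcmapsZ s b al be (I₀.1 (gE 0)) = 1 := rfl

theorem lcmaps_base {s : A} (b : A) (al be al' be' : ℂ) (e : A →ₐ[ℂ] ℂ) (h0 : e s = 0)
    (v : Fin 11) : e (lcmapsZ s b al be v) = e (lcmapsZ s b al' be' v) := by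
  fin_cases v <;> simp [lcmapsZ, h0]

theorem lcmaps_mh (I : Chart gE) : ∃ d, MH gE (∏ i, hE I i) d := by
  choose d hd using hE_mh I
  exact ⟨_, MH.prod Finset.univ (fun i _ => hd i)⟩

theorem lcmaps_mem {Y : Over SpecC} (D : MPData gE FE Y) {s b : A} (h : s ^ 3 = 1 + b ^ 3)
    (hu : IsUnit (b * (1 - b))) {al be : ℂ} {f : specOf A ⟶ Y}
    (hf : lcmapsPts D (lcmapsZ s b al be) f) (P : PrimeSpectrum A) :
    f.left P ∈ D.intr fun I => ∏ i, hE I i := by
  have h1 : b * (1 - b) ∉ P.asIdeal := fun hm =>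
    P.isPrime.ne_top (Ideal.eq_top_of_isUnit_mem _ hm hu)
  refine TopologicalSpace.Opens.mem_iSup.2 ?_
  by_cases hs : s ∈ P.asIdeal
  · obtain ⟨d, hd⟩ := lcmaps_mh I₁
    refine ⟨I₁, (hf I₁ _ d hd P).2 ⟨lcmaps_chart₁ b al be hs, ?_⟩⟩
    rw [lcmaps_h₁]
    exact fun hm => (P.isPrime.mem_or_mem hm).elim h1 (lcmaps_last al hs)
  · obtain ⟨d, hd⟩ := lcmaps_mh I₀
    refine ⟨I₀, (hf I₀ _ d hd P).2 ⟨lcmaps_chart₀ b al be hs, ?_⟩⟩
    rw [lcmaps_h₀ h]
    exact fun hm => (P.isPrime.mem_or_mem hm).elim h1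
      (fun h3 => hs (P.isPrime.mem_of_pow_mem 3 h3))

end curve

theorem not_pointedFiniteE {Y : Over SpecC} (D : MPData gE FE Y) :
    ¬ PointedFinite (openPart Y (D.intr fun I => ∏ s, hE I s)) := by
  obtain ⟨A, _, _, s, b, e₀, e₁, hdom, hsm, hsb, hu, h0, h1⟩ := exists_curve
  have := hsm
  have : Algebra.IsStandardSmooth ℂ A :=
    Algebra.IsStandardSmoothOfRelativeDimension.isStandardSmooth 1
  have hbe : ∀ n : ℕ, ∃ be : ℂ, be ^ 3 = 1 - (n : ℂ) ^ 3 := fun n =>
    IsAlgClosed.exists_pow_nat_eq _ (by norm_num)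
  choose be hbe using hbe
  have hf : ∀ n : ℕ, ∃ f : specOf A ⟶ Y, lcmapsPts D (lcmapsZ s b n (be n)) f := fun n =>
    D.pts A _ (lcmaps_F hsb (hbe n)) (fun P => by
      by_cases hs : s ∈ P.asIdeal
      · exact ⟨I₁, lcmaps_chart₁ b _ _ hs⟩
      · exact ⟨I₀, lcmaps_chart₀ b _ _ hs⟩)
  choose f hf using hf
  obtain ⟨c₀, P₀, hc₀, hP₀⟩ := exists_cpoint_specOf e₀
  obtain ⟨c₁, P₁, hc₁, hP₁⟩ := exists_cpoint_specOf e₁
  refine not_pointedFinite_openPart _ (specOf A) quasiProjective_specOf (smooth_specOf hsm)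
    connected_specOf c₀ f (fun n y => lcmaps_mem D hsb hu (hf n) y) (fun n => ?_)
    (fun n m hnm => ?_)
  · exact lcmaps_same D (hf n) (hf 0) e₀ c₀ P₀ hc₀ hP₀ I₁
      (fun γ h => lcmaps_chart₁ b _ _ ((hP₀ s).2 h0) γ ((hP₀ _).2 h))
      (lcmaps_base b _ _ _ _ e₀ h0)
  · have hs : s ∉ P₁.asIdeal := fun h => h1 ((hP₁ s).1 h)
    have v1 := (lcmaps_value D (hf n) e₁ c₁ P₁ hc₁ hP₁ I₀
      (fun γ h => lcmaps_chart₀ b _ _ hs γ ((hP₁ _).2 h))).2 0
    have v2 := (lcmaps_value D (hf m) e₁ c₁ P₁ hc₁ hP₁ I₀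
      (fun γ h => lcmaps_chart₀ b _ _ hs γ ((hP₁ _).2 h))).2 0
    rw [lcmaps_two, lcmaps_zero] at v1 v2
    rw [hnm] at v1
    have h2 : e₁ (algebraMap ℂ A n * s) = e₁ (algebraMap ℂ A m * s) := v1.symm.trans v2
    rw [map_mul, map_mul, AlgHom.commutes, AlgHom.commutes] at h2
    exact Nat.cast_injective (R := ℂ) (mul_right_cancel₀ h1 h2)

end Pool.Agent.P.MP_dc0411_ag
end

-- part Pool.Agent.P.MP_dc0411_ag.LcNzd
section

/-!
A smooth scheme covered by log charts is reduced, and the complement of the boundary is dense.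
-/

open CategoryTheory AlgebraicGeometry

namespace Pool.Agent.P.MP_dc0411_ag

attribute [local instance] secAlgebra

open TensorProduct in
theorem nzd_etale {R S T : Type} [CommRing R] [CommRing S] [CommRing T] [Algebra R S]
    [Algebra R T] [Algebra S T] [IsScalarTower R S T] [Algebra.FormallySmooth R T]
    (h : Function.Bijective (KaehlerDifferential.mapBaseChange R S T)) :
    Algebra.FormallyEtale S T := by
  constructor
  · refine subsingleton_of_forall_eq 0 fun x => ?_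
    obtain ⟨y, rfl⟩ := KaehlerDifferential.map_surjective R S T x
    exact (KaehlerDifferential.exact_mapBaseChange_map R S T y).2 (h.2 y)
  · refine subsingleton_of_forall_eq 0 fun x => ?_
    have a : Algebra.H1Cotangent.δ R S T x = 0 := h.1 (by
      rw [map_zero]
      exact (Algebra.H1Cotangent.exact_δ_mapBaseChange R S T _).2 ⟨x, rfl⟩)
    obtain ⟨y, rfl⟩ := (Algebra.H1Cotangent.exact_map_δ R S T x).1 a
    rw [Subsingleton.elim y 0, map_zero]

open TensorProduct in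
theorem nzd_reduced {R A : Type} [CommRing R] [IsDomain R] [CommRing A] [Algebra R A]
    [Algebra.Etale R A] : _root_.IsReduced A := by
  have : _root_.IsReduced (FractionRing R ⊗[R] A) :=
    Algebra.FormallyUnramified.isReduced_of_field (FractionRing R) _
  exact isReduced_of_injective (Algebra.TensorProduct.includeRight (R := R) (A := FractionRing R)
    (B := A)) (Algebra.TensorProduct.includeRight_injective
      (IsFractionRing.injective R (FractionRing R)))

theorem etale_coords {A : Type} [CommRing A] [Algebra ℂ A] [Algebra.Smooth ℂ A] {n : ℕ}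
    (z : Fin n → A) (h1 : LinearIndependent A fun i => KaehlerDifferential.D ℂ A (z i))
    (h2 : Submodule.span A (Set.range fun i => KaehlerDifferential.D ℂ A (z i)) = ⊤) :
    IsReduced A ∧ ∀ i, z i ∈ nonZeroDivisors A := by
  let : Algebra (MvPolynomial (Fin n) ℂ) A := (MvPolynomial.aeval z).toRingHom.toAlgebra
  have e : ∀ i, algebraMap (MvPolynomial (Fin n) ℂ) A (MvPolynomial.X i) = z i := fun i =>
    MvPolynomial.aeval_X z i
  have : IsScalarTower ℂ (MvPolynomial (Fin n) ℂ) A :=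
    IsScalarTower.of_algebraMap_eq fun c => ((MvPolynomial.aeval z).commutes c).symm
  have hb : KaehlerDifferential.mapBaseChange ℂ (MvPolynomial (Fin n) ℂ) A =
      (((KaehlerDifferential.mvPolynomialBasis ℂ (Fin n)).baseChange A).equiv
        (Module.Basis.mk h1 h2.ge) (Equiv.refl _)).toLinearMap := by
    refine ((KaehlerDifferential.mvPolynomialBasis ℂ (Fin n)).baseChange A).ext fun i => ?_
    rw [LinearEquiv.coe_coe, Module.Basis.equiv_apply, Module.Basis.baseChange_apply,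
      KaehlerDifferential.mapBaseChange_tmul, one_smul, KaehlerDifferential.mvPolynomialBasis_apply,
      KaehlerDifferential.map_D, e, Equiv.refl_apply, Module.Basis.mk_apply]
  have : Algebra.FormallyEtale (MvPolynomial (Fin n) ℂ) A :=
    nzd_etale (R := ℂ) (hb ▸ LinearEquiv.bijective _)
  have : Algebra.FinitePresentation (MvPolynomial (Fin n) ℂ) A :=
    Algebra.FinitePresentation.of_restrict_scalars_finitePresentation ℂ _ _
  have : Algebra.Etale (MvPolynomial (Fin n) ℂ) A := {}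
  refine ⟨nzd_reduced (R := MvPolynomial (Fin n) ℂ), fun i => ?_⟩
  have h := Module.Flat.isSMulRegular_of_nonZeroDivisors (M := A)
    (mem_nonZeroDivisors_of_ne_zero (MvPolynomial.X_ne_zero (R := ℂ) i))
  refine mem_nonZeroDivisors_iff_left.2 fun x hx => h ?_
  change MvPolynomial.X i • x = MvPolynomial.X i • (0 : A)
  rw [smul_zero, Algebra.smul_def, e, hx]

theorem nzd_smooth {Y : Over SpecC} [Smooth Y.hom] {U : Y.left.Opens} (hU : IsAffineOpen U) :
    Algebra.Smooth ℂ Γ(Y.left, U) := by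
  have h := HasRingHomProperty.appLE (P := @Smooth) Y.hom inferInstance
    ⟨⊤, isAffineOpen_top _⟩ ⟨U, hU⟩ le_top
  exact RingHom.Smooth.respectsIso.2 _
    (Scheme.ΓSpecIso (CommRingCat.of ℂ)).symm.commRingCatIsoToRingEquiv h

theorem reduced_dense {Y : Over SpecC} {X : Y.left.Opens} {n : ℕ}
    (h1 : SmoothOfRelativeDimension n Y.hom) (h2 : LogCanonicallyPolarized Y.hom X n) :
    IsReduced Y.left ∧ Dense (X : Set Y.left) := by
  obtain ⟨ι, A, hA, -⟩ := h2
  have : Smooth Y.hom := SmoothOfRelativeDimension.smooth n Y.hom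
  have hc : ∀ a, _root_.IsReduced Γ(Y.left, (A a).U) ∧
      ∀ i, (A a).z i ∈ nonZeroDivisors Γ(Y.left, (A a).U) := fun a =>
    have := nzd_smooth (A a).affine
    etale_coords (A a).z (A a).coord.1 (A a).coord.2
  have hx : ∀ x : Y.left, ∃ a, x ∈ (A a).U := fun x =>
    TopologicalSpace.Opens.mem_iSup.1 (hA.ge (Set.mem_univ x))
  have : ∀ x : Y.left, _root_.IsReduced (Y.left.presheaf.stalk x) := by
    intro x
    obtain ⟨a, ha⟩ := hx x
    let := Y.left.presheaf.algebra_section_stalk (⟨x, ha⟩ : (A a).U)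
    have := (A a).affine.isLocalization_stalk ⟨x, ha⟩
    exact isReduced_localizationPreserves ((A a).affine.primeIdealOf ⟨x, ha⟩).asIdeal.primeCompl
      _ (hc a).1
  have : IsReduced Y.left := isReduced_of_isReduced_stalk _
  refine ⟨this, dense_iff_inter_open.2 fun V hV ⟨x, hxV⟩ => ?_⟩
  obtain ⟨a, ha⟩ := hx x
  obtain ⟨g, g1, g2⟩ := (A a).affine.exists_basicOpen_le (V := ⟨V, hV⟩) ⟨x, hxV⟩ ha
  have g0 : g * ∏ i ∈ (A a).k, (A a).z i ≠ 0 := fun h => by
    rw [(mem_nonZeroDivisors_iff_right.1 (prod_mem fun i _ => (hc a).2 i)) g h,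
      Scheme.basicOpen_zero] at g2
    exact g2
  obtain ⟨y, hy⟩ := (TopologicalSpace.Opens.ne_bot_iff_nonempty _).1
    (mt (basicOpen_eq_bot_iff _).1 g0)
  rw [Scheme.basicOpen_mul, (A a).boundary] at hy
  exact ⟨y, g1 hy.1, hy.2.2⟩

end Pool.Agent.P.MP_dc0411_ag
end

-- part Pool.Agent.P.MP_dc0411_ag.LcDom
section

/-!
The coordinate ring of the affine Fermat cubic surface times a line is a domain.
-/

namespace Pool.Agent.P.MP_dc0411_ag

section
open Polynomial

/-- The constant term of the cubic. -/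
noncomputable def lcdomA : MvPolynomial (Fin 3) ℂ :=
  1 + MvPolynomial.X 1 ^ 3 - MvPolynomial.X 0 ^ 3

/-- The cubic in the variable `y`. -/
noncomputable def lcdomF : (MvPolynomial (Fin 3) ℂ)[X] := X ^ 3 - C lcdomA

/-- Evaluation at the point `x = 0`, `b = -1`, `ρ = 0`. -/
noncomputable def lcdomE : MvPolynomial (Fin 3) ℂ →+* ℂ := MvPolynomial.eval ![0, -1, 0]

theorem lcdom_monic : lcdomF.Monic := monic_X_pow_sub_C _ (by norm_num)

theorem lcdom_degree : lcdomF.degree = 3 := degree_X_pow_sub_C (by norm_num) _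

theorem lcdom_sq {q : MvPolynomial (Fin 3) ℂ} (hq : q ∈ RingHom.ker lcdomE ^ 2) :
    lcdomE (MvPolynomial.pderiv 1 q) = 0 := by
  rw [pow_two] at hq
  refine Submodule.mul_induction_on hq ?_ ?_
  · intro a ha b hb
    rw [RingHom.mem_ker] at ha hb
    rw [Derivation.leibniz, smul_eq_mul, smul_eq_mul, map_add, map_mul, map_mul, ha, hb,
      zero_mul, zero_mul, add_zero]
  · intro a b ha hb
    rw [map_add, map_add, ha, hb, add_zero]

theorem lcdom_irreducible : Irreducible lcdomF := by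
  have hprime : (RingHom.ker lcdomE).IsPrime := RingHom.ker_isPrime _
  refine irreducible_of_eisenstein_criterion hprime ?_ ?_ ?_ ?_ lcdom_monic.isPrimitive
  · rw [lcdom_monic.leadingCoeff]
    exact (Ideal.ne_top_iff_one _).mp hprime.ne_top
  · intro n hn
    rw [lcdom_degree] at hn
    have hn' : n < 3 := by exact_mod_cast hn
    rw [lcdomF, coeff_sub, coeff_X_pow, coeff_C, if_neg (by omega), zero_sub]
    refine neg_mem ?_
    split_ifs
    · rw [RingHom.mem_ker]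
      simp [lcdomA, lcdomE]
      norm_num
    · exact zero_mem _
  · rw [lcdom_degree]
    norm_num
  · rw [lcdomF, coeff_sub, coeff_X_pow, coeff_C, if_neg (by norm_num), if_pos rfl, zero_sub,
      neg_mem_iff]
    intro h
    have h1 := lcdom_sq h
    simp [lcdomA, lcdomE, MvPolynomial.pderiv_X] at h1

theorem lcdom_root : AdjoinRoot.root lcdomF ^ 3 = AdjoinRoot.of lcdomF lcdomA := by
  have h := AdjoinRoot.eval₂_root lcdomF
  rw [lcdomF, eval₂_sub, eval₂_pow, eval₂_X, eval₂_C, sub_eq_zero] at h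
  exact h

end

theorem exists_fermat_domain : ∃ (A : Type) (_ : CommRing A) (_ : Algebra ℂ A) (x y b ρ : A),
    IsDomain A ∧ x ^ 3 + y ^ 3 = 1 + b ^ 3 ∧ 1 + b ^ 3 ≠ 0 ∧ x ^ 3 - 1 ≠ 0 ∧
      ∀ (B : Type) [CommRing B] [Algebra ℂ B] (x' y' b' ρ' : B), x' ^ 3 + y' ^ 3 = 1 + b' ^ 3 →
        ∃ η : A →ₐ[ℂ] B, η x = x' ∧ η y = y' ∧ η b = b' ∧ η ρ = ρ' := by
  have hinj : Function.Injective (AdjoinRoot.of lcdomF) :=
    AdjoinRoot.of.injective_of_degree_ne_zero (by rw [lcdom_degree]; norm_num)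
  refine ⟨AdjoinRoot lcdomF, inferInstance, inferInstance,
    AdjoinRoot.of lcdomF (MvPolynomial.X 0), AdjoinRoot.root lcdomF,
    AdjoinRoot.of lcdomF (MvPolynomial.X 1), AdjoinRoot.of lcdomF (MvPolynomial.X 2),
    AdjoinRoot.isDomain_of_prime lcdom_irreducible.prime, ?_, ?_, ?_, ?_⟩
  · rw [lcdom_root, lcdomA, map_sub, map_add, map_one, map_pow, map_pow]
    ring
  · intro h
    have h1 : (1 + MvPolynomial.X 1 ^ 3 : MvPolynomial (Fin 3) ℂ) = 0 :=
      hinj (by rw [map_add, map_one, map_pow, h, map_zero])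
    simpa using congrArg (MvPolynomial.eval fun _ => (0 : ℂ)) h1
  · intro h
    have h1 : (MvPolynomial.X 0 ^ 3 - 1 : MvPolynomial (Fin 3) ℂ) = 0 :=
      hinj (by rw [map_sub, map_one, map_pow, h, map_zero])
    simpa using congrArg (MvPolynomial.eval fun _ => (0 : ℂ)) h1
  · intro B _ _ x' y' b' ρ' h
    have h1 : lcdomF.eval₂ (MvPolynomial.aeval ![x', b', ρ'] :
        MvPolynomial (Fin 3) ℂ →ₐ[ℂ] B) y' = 0 := by
      rw [lcdomF, Polynomial.eval₂_sub, Polynomial.eval₂_pow, Polynomial.eval₂_X,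
        Polynomial.eval₂_C]
      simp [lcdomA]
      linear_combination h
    refine ⟨AdjoinRoot.liftAlgHom lcdomF (MvPolynomial.aeval ![x', b', ρ']) y' h1, ?_, ?_, ?_,
      ?_⟩ <;> simp

end Pool.Agent.P.MP_dc0411_ag
end

-- part Pool.Agent.P.MP_dc0411_ag.LcLoc
section

/-!
Two affine open subsets of the threefold whose coordinate rings are domains.
-/

open MvPolynomial

namespace Pool.Agent.P.MP_dc0411_ag

theorem lcloc_core {V ρ B L A : Type} [CommRing B] [Algebra ℂ B] [CommRing L] [Algebra B L]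
    [CommRing A] [Algebra ℂ A] [IsDomain A] (Z : V → B) (Q : ρ → MvPolynomial V ℂ)
    (hs : Function.Surjective (aeval Z : MvPolynomial V ℂ →ₐ[ℂ] B))
    (hk : RingHom.ker (aeval Z : MvPolynomial V ℂ →ₐ[ℂ] B) = Ideal.span (Set.range Q))
    (p : MvPolynomial V ℂ) [IsLocalization.Away (aeval Z p) L] (w : V → A)
    (hw : ∀ r, aeval w (Q r) = 0) (hp : IsUnit (aeval w p)) (η : A →+* L)
    (hC : ∀ c, η (algebraMap ℂ A c) = algebraMap B L (algebraMap ℂ B c))
    (hη : ∀ v, η (w v) = algebraMap B L (Z v)) : IsDomain L := by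
  have hle : RingHom.ker (aeval Z : MvPolynomial V ℂ →ₐ[ℂ] B).toRingHom ≤
      RingHom.ker (aeval w : MvPolynomial V ℂ →ₐ[ℂ] A).toRingHom := by
    change RingHom.ker (aeval Z : MvPolynomial V ℂ →ₐ[ℂ] B) ≤ _
    rw [hk, Ideal.span_le]
    rintro _ ⟨r, rfl⟩
    exact hw r
  obtain ⟨θ, hθ⟩ : ∃ θ : B →+* A, ∀ q, θ (aeval Z q) = aeval w q :=
    ⟨RingHom.liftOfSurjective (aeval Z : MvPolynomial V ℂ →ₐ[ℂ] B).toRingHom hs ⟨_, hle⟩,
      fun q => RingHom.liftOfRightInverse_comp_apply _ _ _ ⟨_, hle⟩ q⟩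
  have hu : IsUnit (θ (aeval Z p)) := by rwa [hθ]
  have hq : ∀ q : MvPolynomial V ℂ, η (aeval w q) = algebraMap B L (aeval Z q) := by
    intro q
    induction q using MvPolynomial.induction_on with
    | C c => rw [aeval_C, aeval_C, hC]
    | add p q hp hq => rw [map_add, map_add, map_add, map_add, hp, hq]
    | mul_X p v hp => rw [map_mul, map_mul, map_mul, map_mul, hp, aeval_X, aeval_X, hη]
  have hid : η.comp (IsLocalization.Away.lift (S := L) (aeval Z p) hu) = RingHom.id L := by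
    refine IsLocalization.ringHom_ext (Submonoid.powers (aeval Z p)) (RingHom.ext fun t => ?_)
    obtain ⟨q, rfl⟩ := hs t
    rw [RingHom.comp_apply, RingHom.comp_apply, IsLocalization.Away.lift_eq, hθ, hq]
    rfl
  have hinj : Function.Injective (IsLocalization.Away.lift (S := L) (aeval Z p) hu) :=
    Function.LeftInverse.injective (g := η) fun t => RingHom.congr_fun hid t
  exact hinj.isDomain _

theorem lcloc_away {A : Type} [CommRing A] [Algebra ℂ A] [IsDomain A] {a : A} (ha : a ≠ 0) :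
    ∃ (A' : Type) (_ : CommRing A') (_ : Algebra ℂ A') (φ : A →ₐ[ℂ] A') (i : A'), IsDomain A' ∧
      φ a * i = 1 ∧ ∀ (L : Type) [CommRing L] (η : A →+* L), IsUnit (η a) →
        ∃ η' : A' →+* L, ∀ t, η' (φ t) = η t := by
  refine ⟨Localization.Away a, inferInstance, inferInstance,
    IsScalarTower.toAlgHom ℂ A (Localization.Away a), IsLocalization.Away.invSelf a,
    IsLocalization.isDomain_localization (powers_le_nonZeroDivisors_of_noZeroDivisors ha),
    IsLocalization.Away.mul_invSelf a, fun L _ η hη => ?_⟩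
  exact ⟨IsLocalization.Away.lift a hη, fun t => IsLocalization.Away.lift_eq a hη t⟩

theorem lcloc_rel {A : Type} [CommRing A] [Algebra ℂ A] (I : Chart gE) (x : Fin 11 → A) :
    (∀ r, aeval x (rel FE I r) = 0) ↔ (x 0 ^ 3 + x 1 ^ 3 - x 2 ^ 3 - x 3 ^ 3 = 0 ∧
      x 2 * x 5 - x 3 * x 4 = 0 ∧ (x 2 ^ 3 + x 3 ^ 3) * x 7 - (x 0 ^ 3 - x 2 ^ 3) * x 6 = 0 ∧
      x 7 ^ 3 * x 9 - x 6 ^ 3 * x 10 = 0) ∧
      x (I.1 0) = 1 ∧ x (I.1 1) = 1 ∧ x (I.1 2) = 1 ∧ x (I.1 3) = 1 := by
  simp [Sum.forall, Fin.forall_fin_succ, rel, FE, sub_eq_zero]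

theorem lcloc_rel_of_ker {B : Type} [CommRing B] [Algebra ℂ B] (I : Chart gE) (Z : Fin 11 → B)
    (hk : RingHom.ker (aeval Z : MvPolynomial (Fin 11) ℂ →ₐ[ℂ] B) =
      Ideal.span (Set.range (rel FE I))) (r : Fin 4 ⊕ Fin 4) : aeval Z (rel FE I r) = 0 := by
  have h : rel FE I r ∈ RingHom.ker (aeval Z : MvPolynomial (Fin 11) ℂ →ₐ[ℂ] B) := by
    rw [hk]
    exact Ideal.subset_span ⟨r, rfl⟩
  exact h

theorem isDomain_chart₀ {B L : Type} [CommRing B] [Algebra ℂ B] [CommRing L] [Algebra B L]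
    (Z : Fin 11 → B) (hs : Function.Surjective (aeval Z : MvPolynomial (Fin 11) ℂ →ₐ[ℂ] B))
    (hk : RingHom.ker (aeval Z : MvPolynomial (Fin 11) ℂ →ₐ[ℂ] B) =
      Ideal.span (Set.range (rel FE I₀)))
    [IsLocalization.Away (aeval Z (X 2 ^ 3 + X 3 ^ 3 : MvPolynomial (Fin 11) ℂ)) L] :
    IsDomain L := by
  let _ : Algebra ℂ L := ((algebraMap B L).comp (algebraMap ℂ B)).toAlgebra
  obtain ⟨⟨r0, r1, r2, r3⟩, r4, r5, r6, r7⟩ := (lcloc_rel I₀ Z).1 (lcloc_rel_of_ker I₀ Z hk)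
  change Z 2 = 1 at r4
  change Z 4 = 1 at r5
  change Z 6 = 1 at r6
  change Z 8 = 1 at r7
  have hU : IsUnit (algebraMap B L (aeval Z (X 2 ^ 3 + X 3 ^ 3 : MvPolynomial (Fin 11) ℂ))) :=
    IsLocalization.Away.algebraMap_isUnit _
  simp only [map_add, map_pow, aeval_X, r4, map_one, one_pow] at hU
  have e0 : Z 0 ^ 3 + Z 1 ^ 3 = 1 + Z 3 ^ 3 := by
    rw [r4] at r0
    linear_combination r0
  have e5 : Z 5 = Z 3 := by
    rw [r4, r5] at r1
    linear_combination r1
  have e7 : (1 + Z 3 ^ 3) * Z 7 = Z 0 ^ 3 - 1 := by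
    rw [r4, r6] at r2
    linear_combination r2
  have e10 : Z 10 = Z 7 ^ 3 * Z 9 := by
    rw [r6] at r3
    linear_combination -r3
  obtain ⟨A, _, _, x, y, b, ρ, _, hA, hu, -, hη⟩ := exists_fermat_domain
  obtain ⟨A', _, _, φ, i, _, hi, hη'⟩ := lcloc_away hu
  obtain ⟨η, hx, hy, hb, hρ⟩ := hη L (algebraMap B L (Z 0)) (algebraMap B L (Z 1))
    (algebraMap B L (Z 3)) (algebraMap B L (Z 9)) (by
      simpa only [map_add, map_pow, map_one] using congrArg (algebraMap B L) e0)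
  obtain ⟨η', h'⟩ := hη' L η.toRingHom (by
    change IsUnit (η (1 + b ^ 3))
    rw [map_add, map_pow, map_one, hb]
    exact hU)
  replace h' : ∀ t, η' (φ t) = η t := h'
  have hA' := congrArg φ hA
  simp only [map_add, map_pow, map_one] at hA' hi
  have hi' := congrArg η' hi
  simp only [map_add, map_mul, map_pow, map_one, h', hb] at hi'
  have h7 : η' ((φ x ^ 3 - 1) * i) = algebraMap B L (Z 7) := by
    have h := congrArg (algebraMap B L) e7
    simp only [map_add, map_mul, map_pow, map_one, map_sub] at h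
    simp only [map_mul, map_sub, map_pow, map_one, h', hx]
    linear_combination (-η' i) * h + algebraMap B L (Z 7) * hi'
  refine lcloc_core Z (rel FE I₀) hs hk (X 2 ^ 3 + X 3 ^ 3)
    ![φ x, φ y, 1, φ b, 1, φ b, 1, (φ x ^ 3 - 1) * i, 1, φ ρ, ((φ x ^ 3 - 1) * i) ^ 3 * φ ρ]
    ((lcloc_rel I₀ _).2 ⟨⟨?_, ?_, ?_, ?_⟩, rfl, rfl, rfl, rfl⟩) ?_ η' (fun c => ?_) fun v => ?_
  · change φ x ^ 3 + φ y ^ 3 - 1 ^ 3 - φ b ^ 3 = 0
    linear_combination hA'
  · change 1 * φ b - φ b * 1 = 0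
    ring
  · change (1 ^ 3 + φ b ^ 3) * ((φ x ^ 3 - 1) * i) - (φ x ^ 3 - 1 ^ 3) * 1 = 0
    linear_combination (φ x ^ 3 - 1) * hi
  · change ((φ x ^ 3 - 1) * i) ^ 3 * φ ρ - 1 ^ 3 * (((φ x ^ 3 - 1) * i) ^ 3 * φ ρ) = 0
    ring
  · rw [map_add, map_pow, map_pow, aeval_X, aeval_X]
    change IsUnit (1 ^ 3 + φ b ^ 3)
    rw [one_pow]
    exact IsUnit.of_mul_eq_one _ hi
  · rw [← φ.commutes, h', η.commutes]
    rfl
  · fin_cases v
    · exact (h' x).trans hx
    · exact (h' y).trans hy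
    · exact (map_one η').trans (by rw [← map_one (algebraMap B L), ← r4]; rfl)
    · exact (h' b).trans hb
    · exact (map_one η').trans (by rw [← map_one (algebraMap B L), ← r5]; rfl)
    · exact (h' b).trans (hb.trans (congrArg (algebraMap B L) e5.symm))
    · exact (map_one η').trans (by rw [← map_one (algebraMap B L), ← r6]; rfl)
    · exact h7
    · exact (map_one η').trans (by rw [← map_one (algebraMap B L), ← r7]; rfl)
    · exact (h' ρ).trans hρ
    · change η' (((φ x ^ 3 - 1) * i) ^ 3 * φ ρ) = algebraMap B L (Z 10)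
      rw [map_mul, map_pow, h7, h', hρ, e10, map_mul, map_pow]

theorem isDomain_chart₁ {B L : Type} [CommRing B] [Algebra ℂ B] [CommRing L] [Algebra B L]
    (Z : Fin 11 → B) (hs : Function.Surjective (aeval Z : MvPolynomial (Fin 11) ℂ →ₐ[ℂ] B))
    (hk : RingHom.ker (aeval Z : MvPolynomial (Fin 11) ℂ →ₐ[ℂ] B) =
      Ideal.span (Set.range (rel FE I₁)))
    [IsLocalization.Away (aeval Z (X 0 ^ 3 - X 2 ^ 3 : MvPolynomial (Fin 11) ℂ)) L] :
    IsDomain L := by
  let _ : Algebra ℂ L := ((algebraMap B L).comp (algebraMap ℂ B)).toAlgebra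
  obtain ⟨⟨r0, r1, r2, r3⟩, r4, r5, r6, r7⟩ := (lcloc_rel I₁ Z).1 (lcloc_rel_of_ker I₁ Z hk)
  change Z 2 = 1 at r4
  change Z 4 = 1 at r5
  change Z 7 = 1 at r6
  change Z 8 = 1 at r7
  have hU : IsUnit (algebraMap B L (aeval Z (X 0 ^ 3 - X 2 ^ 3 : MvPolynomial (Fin 11) ℂ))) :=
    IsLocalization.Away.algebraMap_isUnit _
  simp only [map_sub, map_pow, aeval_X, r4, map_one, one_pow] at hU
  have e0 : Z 0 ^ 3 + Z 1 ^ 3 = 1 + Z 3 ^ 3 := by
    rw [r4] at r0
    linear_combination r0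
  have e5 : Z 5 = Z 3 := by
    rw [r4, r5] at r1
    linear_combination r1
  have e6 : (Z 0 ^ 3 - 1) * Z 6 = 1 + Z 3 ^ 3 := by
    rw [r4, r6] at r2
    linear_combination -r2
  have e9 : Z 9 = Z 6 ^ 3 * Z 10 := by
    rw [r6] at r3
    linear_combination r3
  obtain ⟨A, _, _, x, y, b, ρ, _, hA, -, hu, hη⟩ := exists_fermat_domain
  obtain ⟨A', _, _, φ, i, _, hi, hη'⟩ := lcloc_away hu
  obtain ⟨η, hx, hy, hb, hρ⟩ := hη L (algebraMap B L (Z 0)) (algebraMap B L (Z 1))
    (algebraMap B L (Z 3)) (algebraMap B L (Z 10)) (by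
      simpa only [map_add, map_pow, map_one] using congrArg (algebraMap B L) e0)
  obtain ⟨η', h'⟩ := hη' L η.toRingHom (by
    change IsUnit (η (x ^ 3 - 1))
    rw [map_sub, map_pow, map_one, hx]
    exact hU)
  replace h' : ∀ t, η' (φ t) = η t := h'
  have hA' := congrArg φ hA
  simp only [map_add, map_sub, map_pow, map_one] at hA' hi
  have hi' := congrArg η' hi
  simp only [map_sub, map_mul, map_pow, map_one, h', hx] at hi'
  have h6 : η' ((1 + φ b ^ 3) * i) = algebraMap B L (Z 6) := by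
    have h := congrArg (algebraMap B L) e6
    simp only [map_add, map_mul, map_pow, map_one, map_sub] at h
    simp only [map_mul, map_add, map_pow, map_one, h', hb]
    linear_combination (-η' i) * h + algebraMap B L (Z 6) * hi'
  refine lcloc_core Z (rel FE I₁) hs hk (X 0 ^ 3 - X 2 ^ 3)
    ![φ x, φ y, 1, φ b, 1, φ b, (1 + φ b ^ 3) * i, 1, 1, ((1 + φ b ^ 3) * i) ^ 3 * φ ρ, φ ρ]
    ((lcloc_rel I₁ _).2 ⟨⟨?_, ?_, ?_, ?_⟩, rfl, rfl, rfl, rfl⟩) ?_ η' (fun c => ?_) fun v => ?_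
  · change φ x ^ 3 + φ y ^ 3 - 1 ^ 3 - φ b ^ 3 = 0
    linear_combination hA'
  · change 1 * φ b - φ b * 1 = 0
    ring
  · change (1 ^ 3 + φ b ^ 3) * 1 - (φ x ^ 3 - 1 ^ 3) * ((1 + φ b ^ 3) * i) = 0
    linear_combination (-(1 + φ b ^ 3)) * hi
  · change 1 ^ 3 * (((1 + φ b ^ 3) * i) ^ 3 * φ ρ) - ((1 + φ b ^ 3) * i) ^ 3 * φ ρ = 0
    ring
  · rw [map_sub, map_pow, map_pow, aeval_X, aeval_X]
    change IsUnit (φ x ^ 3 - 1 ^ 3)
    rw [one_pow]
    exact IsUnit.of_mul_eq_one _ hi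
  · rw [← φ.commutes, h', η.commutes]
    rfl
  · fin_cases v
    · exact (h' x).trans hx
    · exact (h' y).trans hy
    · exact (map_one η').trans (by rw [← map_one (algebraMap B L), ← r4]; rfl)
    · exact (h' b).trans hb
    · exact (map_one η').trans (by rw [← map_one (algebraMap B L), ← r5]; rfl)
    · exact (h' b).trans (hb.trans (congrArg (algebraMap B L) e5.symm))
    · exact h6
    · exact (map_one η').trans (by rw [← map_one (algebraMap B L), ← r6]; rfl)
    · exact (map_one η').trans (by rw [← map_one (algebraMap B L), ← r7]; rfl)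
    · change η' (((1 + φ b ^ 3) * i) ^ 3 * φ ρ) = algebraMap B L (Z 9)
      rw [map_mul, map_pow, h6, h', hρ, e9, map_mul, map_pow]
    · exact (h' ρ).trans hρ

end Pool.Agent.P.MP_dc0411_ag
end

-- part Pool.Agent.P.MP_dc0411_ag.LcInt
section

/-!
The threefold is integral.
-/

open CategoryTheory AlgebraicGeometry MvPolynomial

namespace Pool.Agent.P.MP_dc0411_ag

attribute [local instance] secAlgebra

theorem lcint_top {T : Type} [TopologicalSpace T] {A B S : Set T} (hA : IsIrreducible A)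
    (hB : IsIrreducible B) (hAo : IsOpen A) (hAB : (B ∩ A).Nonempty) (hS : S ⊆ A ∪ B)
    (hd : Dense S) : IrreducibleSpace T := by
  have h1 : B ⊆ closure A :=
    (subset_closure_inter_of_isPreirreducible_of_isOpen hB.isPreirreducible hAo hAB).trans
      (closure_mono Set.inter_subset_right)
  have h2 : S ⊆ closure A := hS.trans (Set.union_subset subset_closure h1)
  have h3 : closure A = Set.univ := by
    refine Set.eq_univ_of_univ_subset ?_
    rw [← hd.closure_eq]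
    exact closure_minimal h2 isClosed_closure
  rw [irreducibleSpace_def]
  change IsIrreducible (Set.univ : Set T)
  rw [← h3]
  exact hA.closure

theorem lcint_irr {T : Scheme.{0}} {W : T.Opens} (hW : IsAffineOpen W) [IsDomain Γ(T, W)] :
    IsIrreducible (W : Set T) := by
  have h0 : IrreducibleSpace (Spec Γ(T, W)) :=
    inferInstanceAs (IrreducibleSpace (PrimeSpectrum Γ(T, W)))
  have h1 := (IrreducibleSpace.isIrreducible_univ (Spec Γ(T, W))).image hW.fromSpec
    hW.fromSpec.continuous.continuousOn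
  rwa [Set.image_univ, hW.range_fromSpec] at h1

theorem lcint_mul {T : Scheme.{0}} {U : T.Opens} {y : T} {s t : Γ(T, U)} :
    y ∈ T.basicOpen (s * t) ↔ y ∈ T.basicOpen s ∧ y ∈ T.basicOpen t := by
  rw [Scheme.basicOpen_mul]
  rfl

section

variable {Y : Over SpecC} (D : MPData gE FE Y) {y : Y.left}

theorem lcint_fac {I : Chart gE} (hy : y ∈ D.U I) (hX : y ∈ D.intr fun I => ∏ s, hE I s) :
    y ∈ Y.left.basicOpen (D.Z I 4) ∧
      y ∈ Y.left.basicOpen (if I.1 1 = 4 then D.Z I 2 else D.Z I 3) ∧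
      y ∈ Y.left.basicOpen
        (if I.1 2 = 6 then D.Z I 2 ^ 3 + D.Z I 3 ^ 3 else D.Z I 0 ^ 3 - D.Z I 2 ^ 3) ∧
      y ∈ Y.left.basicOpen (D.Z I 8) := by
  have h1 : y ∈ Y.left.basicOpen (aeval (D.Z I) (∏ s, hE I s)) := by
    rw [D.basicOpen_P adjE I]
    exact ⟨hy, hX⟩
  rw [lcex_aeval_P] at h1
  simp only [lcint_mul] at h1
  exact ⟨h1.1.1.1.1.1.1.1.1, h1.1.1.1.1.1.2, h1.1.1.1.1.2, h1.1.1.1.2⟩

theorem lcint_mem {I : Chart gE} (J : Chart gE)
    (h : ∀ γ, y ∈ Y.left.basicOpen (D.Z I (J.1 γ))) : y ∈ D.U J := by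
  have h1 : y ∈ Y.left.basicOpen (∏ γ, D.Z I (J.1 γ)) := by
    rw [Fin.prod_univ_four]
    simp only [lcint_mul]
    exact ⟨⟨⟨h 0, h 1⟩, h 2⟩, h 3⟩
  rw [D.inter] at h1
  exact h1.2

theorem lcint_cover (hX : y ∈ D.intr fun I => ∏ s, hE I s) : y ∈ D.U I₀ ∨ y ∈ D.U I₁ := by
  have h0 := hX
  rw [MPData.intr, TopologicalSpace.Opens.mem_iSup] at h0
  obtain ⟨I, hI⟩ := h0
  have hy : y ∈ D.U I := Y.left.basicOpen_le _ hI
  obtain ⟨a4, e1, -, a8⟩ := lcint_fac D hy hX
  have f2 : D.Z I 2 * D.Z I 5 = D.Z I 3 * D.Z I 4 := by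
    have h := D.aeval_F I 1
    change aeval (D.Z I) (X 2 * X 5 - X 3 * X 4 : MvPolynomial (Fin 11) ℂ) = 0 at h
    rw [map_sub, map_mul, map_mul, aeval_X, aeval_X, aeval_X, aeval_X] at h
    exact sub_eq_zero.1 h
  have a2 : y ∈ Y.left.basicOpen (D.Z I 2) := by
    split_ifs at e1 with h
    · exact e1
    · have h2 : y ∈ Y.left.basicOpen (D.Z I 3 * D.Z I 4) := lcint_mul.2 ⟨e1, a4⟩
      rw [← f2] at h2
      exact (lcint_mul.1 h2).1
  have s2 : y ∈ Y.left.basicOpen (D.Z I (I.1 2)) := by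
    rw [D.Z_self, Scheme.basicOpen_of_isUnit _ isUnit_one]
    exact hy
  rcases chart_two I with h | h
  · left
    refine lcint_mem D (I := I) I₀ fun γ => ?_
    rw [h] at s2
    fin_cases γ
    · exact a2
    · exact a4
    · exact s2
    · exact a8
  · right
    refine lcint_mem D (I := I) I₁ fun γ => ?_
    rw [h] at s2
    fin_cases γ
    · exact a2
    · exact a4
    · exact s2
    · exact a8

theorem lcint_sub (hX : y ∈ D.intr fun I => ∏ s, hE I s) :
    y ∈ Y.left.basicOpen (aeval (D.Z I₀) (X 2 ^ 3 + X 3 ^ 3 : MvPolynomial (Fin 11) ℂ)) ∨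
      y ∈ Y.left.basicOpen (aeval (D.Z I₁) (X 0 ^ 3 - X 2 ^ 3 : MvPolynomial (Fin 11) ℂ)) := by
  rcases lcint_cover D hX with h | h
  · left
    have h1 := (lcint_fac D h hX).2.2.1
    rw [if_pos (show I₀.1 2 = 6 from rfl)] at h1
    rw [map_add, map_pow, map_pow, aeval_X, aeval_X]
    exact h1
  · right
    have h1 := (lcint_fac D h hX).2.2.1
    rw [if_neg (show ¬ I₁.1 2 = 6 by decide)] at h1
    rw [map_sub, map_pow, map_pow, aeval_X, aeval_X]
    exact h1

theorem lcint_meet : ∃ y : Y.left,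
    y ∈ Y.left.basicOpen (aeval (D.Z I₀) (X 2 ^ 3 + X 3 ^ 3 : MvPolynomial (Fin 11) ℂ)) ∧
      y ∈ Y.left.basicOpen (aeval (D.Z I₁) (X 0 ^ 3 - X 2 ^ 3 : MvPolynomial (Fin 11) ℂ)) := by
  have hP : ∀ (P : PrimeSpectrum ℂ) (c : ℂ), c ≠ 0 → c ∉ P.asIdeal := fun P c hc h =>
    P.isPrime.ne_top (Ideal.eq_top_of_isUnit_mem _ h (isUnit_iff_ne_zero.2 hc))
  have h0 : ∀ γ, (![0, 1, 1, 0, 1, 0, 1, -1, 1, 0, 0] : Fin 11 → ℂ) (I₀.1 γ) ≠ 0 := by
    intro γ
    fin_cases γ
    · exact (one_ne_zero : (1 : ℂ) ≠ 0)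
    · exact (one_ne_zero : (1 : ℂ) ≠ 0)
    · exact (one_ne_zero : (1 : ℂ) ≠ 0)
    · exact (one_ne_zero : (1 : ℂ) ≠ 0)
  have h1 : ∀ γ, (![0, 1, 1, 0, 1, 0, 1, -1, 1, 0, 0] : Fin 11 → ℂ) (I₁.1 γ) ≠ 0 := by
    intro γ
    fin_cases γ
    · exact (one_ne_zero : (1 : ℂ) ≠ 0)
    · exact (one_ne_zero : (1 : ℂ) ≠ 0)
    · exact (neg_ne_zero.2 one_ne_zero : (-1 : ℂ) ≠ 0)
    · exact (one_ne_zero : (1 : ℂ) ≠ 0)
  obtain ⟨f, hf⟩ := D.pts ℂ ![0, 1, 1, 0, 1, 0, 1, -1, 1, 0, 0]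
    (fun r => by fin_cases r <;> simp [FE]) (fun P => ⟨I₀, fun γ => hP P _ (h0 γ)⟩)
  refine ⟨f.left (IsLocalRing.closedPoint ℂ), ?_, ?_⟩
  · refine (hf I₀ _ _ ((lcex_cube0 2 rfl).add (lcex_cube0 3 rfl)) _).2
      ⟨fun γ => hP _ _ (h0 γ), hP _ _ ?_⟩
    simp
  · refine (hf I₁ _ _ ((lcex_cube0 0 rfl).sub (lcex_cube0 2 rfl)) _).2
      ⟨fun γ => hP _ _ (h1 γ), hP _ _ ?_⟩
    simp

end

theorem integralE {Y : Over SpecC} (D : MPData gE FE Y) (hr : IsReduced Y.left)
    (hd : Dense ((D.intr fun I => ∏ s, hE I s : Y.left.Opens) : Set Y.left)) :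
    IsIntegral Y.left := by
  have l0 := (D.aff I₀).isLocalization_basicOpen
    (aeval (D.Z I₀) (X 2 ^ 3 + X 3 ^ 3 : MvPolynomial (Fin 11) ℂ))
  have l1 := (D.aff I₁).isLocalization_basicOpen
    (aeval (D.Z I₁) (X 0 ^ 3 - X 2 ^ 3 : MvPolynomial (Fin 11) ℂ))
  have d0 : IsDomain Γ(Y.left, Y.left.basicOpen
      (aeval (D.Z I₀) (X 2 ^ 3 + X 3 ^ 3 : MvPolynomial (Fin 11) ℂ))) :=
    isDomain_chart₀ (D.Z I₀) (D.surj I₀) (D.ker I₀)
  have d1 : IsDomain Γ(Y.left, Y.left.basicOpen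
      (aeval (D.Z I₁) (X 0 ^ 3 - X 2 ^ 3 : MvPolynomial (Fin 11) ℂ))) :=
    isDomain_chart₁ (D.Z I₁) (D.surj I₁) (D.ker I₁)
  have i0 := lcint_irr ((D.aff I₀).basicOpen
    (aeval (D.Z I₀) (X 2 ^ 3 + X 3 ^ 3 : MvPolynomial (Fin 11) ℂ)))
  have i1 := lcint_irr ((D.aff I₁).basicOpen
    (aeval (D.Z I₁) (X 0 ^ 3 - X 2 ^ 3 : MvPolynomial (Fin 11) ℂ)))
  obtain ⟨y, hy0, hy1⟩ := lcint_meet D
  have hirr : IrreducibleSpace Y.left :=
    lcint_top i0 i1 (TopologicalSpace.Opens.isOpen _) ⟨y, hy1, hy0⟩ (fun y hy => lcint_sub D hy) hd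
  exact isIntegral_of_irreducibleSpace_of_isReduced Y.left

end Pool.Agent.P.MP_dc0411_ag
end

-- part Pool.Agent.P.MP_dc0411_ag.LcMain
section

/-!
The log canonically polarized counterexample.
-/

open CategoryTheory AlgebraicGeometry

namespace Pool.Agent.P.MP_dc0411_ag

theorem lc_main : ∃ (Y : Over SpecC) (X : Y.left.Opens), IsProjective Y ∧
    IsIntegral Y.left ∧ SmoothOfRelativeDimension 3 Y.hom ∧ LogCanonicallyPolarized Y.hom X 3 ∧
    IsQuasiProjective (openPart Y X) ∧ BrodyHyperbolic (openPart Y X) ∧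
    ¬ PointedFinite (openPart Y X) := by
  have : Nonempty (Chart gE) := ⟨I₀⟩
  obtain ⟨Y, hY, ⟨D⟩⟩ := exists_mpdata gE FE dE FE_mh
  have e : (Fin 4 ⊕ Fin 4) ⊕ Fin 3 ≃ Fin 11 := Fintype.equivOfCardEq (by simp)
  obtain ⟨h1, h2⟩ := D.polarized dE FE_mh e hE hE_mh mE (by decide) adjE rankE
  obtain ⟨h3, h4⟩ := reduced_dense h1 h2
  exact ⟨Y, _, hY, integralE D h3 h4, h1, h2, quasiProjective_openPart hY _, brodyE D,
    not_pointedFiniteE D⟩

end Pool.Agent.P.MP_dc0411_ag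
end
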