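import Pool.Agent.P.MP_dc0411_ag.Defs
import Mathlib
import Pool.Agent.P.MP_dc0411_ag.DefsModel
import Pool.Agent.K.MP_dc0411_ag.C1

-- part Pool.Agent.P.MP_dc0411_ag.DefsLog
section

/-!
Statement definitions for condition (2) of the Lang-Vojta question: rational pluricanonical forms,
forms with logarithmic poles, and varieties of log-general type.

On a resolution `Y' → Y` with smooth projective compactification `Y' ⊆ Z` and simple normal
crossings boundary `D`, the sections of `m (K_Z + D)` are exactly the rational `m`-canonical forms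
that have a pole of order at most `m` at every discrete valuation ring of the function field and no
pole at those with a centre on `Y`.  The log Kodaira dimension is the largest transcendence degree
of a field generated by ratios of such sections.
-/

open CategoryTheory AlgebraicGeometry
open scoped TensorProduct

namespace Pool.Agent.P.MP_dc0411_ag

noncomputable section

/-- The form `df₁ ∧ ⋯ ∧ dfₙ`; below `d` will be the universal derivation `K → Ω[K⁄ℂ]`. -/
def wedge {K M : Type} [Field K] [AddCommGroup M] [Module K M] (d : K → M) (n : ℕ)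
    (f : Fin n → K) : ⋀[K]^n M :=
  exteriorPower.ιMulti K n fun i => d (f i)

section

variable {K W : Type} [Field K] [Algebra ℂ K] [AddCommGroup W] [Module K W] {n : ℕ}

/-- Here and below `w` will be `wedge d n`, so that `⨂[K]^m W` is the space of rational
`m`-canonical forms.  The forms without pole at the valuation ring `O`: the `O`-span of the tensor
products of `m` forms `w f` with all `fᵢ` in `O`. -/
def regularAt (w : (Fin n → K) → W) (O : ValuationSubring K) (m : ℕ) : Submodule O (⨂[K]^m W) :=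
  Submodule.span O {ω | ∃ f : Fin m → Fin n → K, (∀ k i, f k i ∈ O) ∧
    ω = PiTensorProduct.tprod K fun k => w (f k)}

/-- `ω` has a pole of order at most `m` at every discrete valuation ring `O` with
`ℂ ⊆ O ⊆ K` and fraction field `K`, and no pole if `O` belongs to `S`. -/
def IsLogForm (w : (Fin n → K) → W) (S : Set (ValuationSubring K)) {m : ℕ} (ω : ⨂[K]^m W) :
    Prop :=
  ∀ O : ValuationSubring K, IsDiscreteValuationRing O → (∀ c : ℂ, algebraMap ℂ K c ∈ O) →
    (∀ π : O, Irreducible π → (π : K) ^ m • ω ∈ regularAt w O m) ∧ (O ∈ S → ω ∈ regularAt w O m)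

/-- For some `m > 0` there are logarithmic `m`-canonical forms `ω ≠ 0`, `ρ₁ ω, …, ρₙ ω` whose
ratios `ρᵢ` are a transcendence basis of `K` over `ℂ`. -/
def Big (w : (Fin n → K) → W) (S : Set (ValuationSubring K)) : Prop :=
  ∃ (m : ℕ) (ω : ⨂[K]^m W) (ρ : Fin n → K),
    0 < m ∧ ω ≠ 0 ∧ IsTranscendenceBasis ℂ ρ ∧ IsLogForm w S ω ∧ ∀ i, IsLogForm w S (ρ i • ω)

end

/-- The log Kodaira dimension of `(K, S)` equals the transcendence degree `n` of `K`. -/
def FieldBig (K : Type) [Field K] [Algebra ℂ K] (S : Set (ValuationSubring K)) : Prop :=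
  ∃ n : ℕ, Big (wedge (KaehlerDifferential.D ℂ K) n) S

/-- The valuation rings of the function field with a centre on `Y`: those that contain the local
ring of some point of `Y`. -/
def centred (Y : Scheme.{0}) [IsIntegral Y] : Set (ValuationSubring Y.functionField) :=
  {O | ∃ y : Y, ∀ s : Y.presheaf.stalk y, algebraMap (Y.presheaf.stalk y) Y.functionField s ∈ O}

/-- The function field of an integral scheme over `ℂ` as a `ℂ`-algebra. -/
abbrev fieldAlgebra (Y : Over SpecC) [IsIntegral Y.left] : Algebra ℂ Y.left.functionField :=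
  ((Scheme.ΓSpecIso (CommRingCat.of ℂ)).inv ≫ Y.hom.appTop ≫
    Y.left.presheaf.germ ⊤ (genericPoint Y.left) trivial).hom.toAlgebra

/-- `Y` is of log-general type: its log Kodaira dimension equals its dimension. -/
def LogGeneralType (Y : Over SpecC) [IsIntegral Y.left] : Prop :=
  letI := fieldAlgebra Y
  FieldBig Y.left.functionField (centred Y.left)

/-- Condition (2): every closed integral subscheme of `X` is of log-general type. -/
def SubvarietiesLogGeneral (X : Over SpecC) : Prop :=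
  ∀ (Y : Over SpecC) [IsIntegral Y.left] (i : Y ⟶ X), IsClosedImmersion i.left → LogGeneralType Y

end

end Pool.Agent.P.MP_dc0411_ag
end

-- part Pool.Agent.P.MP_dc0411_ag.CmpHartogs
section

/-!
An element of the fraction field of a normal Noetherian domain that lies outside the domain lies
outside one of its localisations that is a discrete valuation ring; smooth domains over `ℂ` are
normal and have etale coordinates.
-/

open scoped TensorProduct nonZeroDivisors

set_option linter.style.haveILetI false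

namespace Pool.Agent.P.MP_dc0411_ag.Cmp

theorem exists_dvr {A K : Type} [CommRing A] [IsDomain A] [IsNoetherianRing A]
    [IsIntegrallyClosed A] [Field K] [Algebra A K] [IsFractionRing A K] (h : K)
    (hh : ∀ a : A, algebraMap A K a ≠ h) :
    ∃ (p : Ideal A) (_ : p.IsPrime) (O : ValuationSubring K), IsDiscreteValuationRing O ∧
      (∀ x : K, x ∈ O ↔ ∃ a s : A, s ∉ p ∧ x = algebraMap A K a * (algebraMap A K s)⁻¹) ∧
      h ∉ O := by
  classical
  have inj := IsFractionRing.injective A K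
  let N : Submodule A K := 1
  have hN : ∀ x : K, x ∈ N ↔ ∃ a : A, algebraMap A K a = x := fun x => Submodule.mem_one
  have h0 : N.mkQ h ≠ 0 := by
    intro e
    obtain ⟨a, ha⟩ := (hN h).1 ((Submodule.Quotient.mk_eq_zero N).1 e)
    exact hh a ha
  obtain ⟨p, hp, hle⟩ := exists_le_isAssociatedPrime_of_isNoetherianRing A (N.mkQ h) h0
  obtain ⟨hprime, y', hy'⟩ := isAssociatedPrime_iff.1 hp
  obtain ⟨y, rfl⟩ := N.mkQ_surjective y'
  have hcol : ∀ (x : K) (r : A), r ∈ (⊥ : Submodule A (K ⧸ N)).colon {N.mkQ x} ↔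
      ∃ a : A, algebraMap A K a = algebraMap A K r * x := by
    intro x r
    rw [Submodule.mem_colon_singleton, Submodule.mem_bot, ← map_smul, Submodule.mkQ_apply,
      Submodule.Quotient.mk_eq_zero, hN, Algebra.smul_def]
  have hpy : ∀ r : A, r ∈ p ↔ ∃ a : A, algebraMap A K a = algebraMap A K r * y := by
    intro r; rw [hy']; exact hcol y r
  let R : Subalgebra A K := Localization.subalgebra.ofField K p.primeCompl
    p.primeCompl_le_nonZeroDivisors
  have hR : ∀ x : K, x ∈ R ↔ ∃ a s : A, s ∉ p ∧ x = algebraMap A K a * (algebraMap A K s)⁻¹ := by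
    intro x
    constructor
    · rintro ⟨a, s, hs, e⟩; exact ⟨a, s, hs, e⟩
    · rintro ⟨a, s, hs, e⟩; exact ⟨a, s, hs, e⟩
  haveI : IsLocalization.AtPrime R p := Localization.subalgebra.isLocalization_ofField K _ _
  haveI : IsLocalRing R := IsLocalization.AtPrime.isLocalRing R p
  haveI : IsNoetherianRing R := IsLocalization.isNoetherianRing p.primeCompl R inferInstance
  haveI : IsIntegrallyClosed R :=
    isIntegrallyClosed_of_isLocalization R p.primeCompl p.primeCompl_le_nonZeroDivisors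
  have hs0 : ∀ s : A, s ∉ p → algebraMap A K s ≠ 0 := by
    intro s hs e
    rw [map_eq_zero_iff _ inj] at e
    exact hs (e ▸ p.zero_mem)
  have hout : ∀ x : K, (∀ r : A, (∃ a : A, algebraMap A K a = algebraMap A K r * x) → r ∈ p) →
      x ∉ R := by
    intro x hx hxR
    obtain ⟨a, s, hs, e⟩ := (hR x).1 hxR
    refine hs (hx s ⟨a, ?_⟩)
    rw [e]; field_simp [hs0 s hs]
  have hyR : y ∉ R := hout y fun r hr => (hpy r).2 hr
  have hhR : h ∉ R := hout h fun r hr => hle ((hcol h r).2 hr)
  have hy0 : y ≠ 0 := fun e => hyR (e ▸ R.zero_mem)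
  have hmax : IsLocalRing.maximalIdeal R = p.map (algebraMap A R) :=
    (IsLocalization.AtPrime.map_eq_maximalIdeal p R).symm
  have hym : ∀ t : R, t ∈ IsLocalRing.maximalIdeal R → y * (t : K) ∈ R := by
    intro t ht
    rw [hmax] at ht
    induction ht using Submodule.span_induction with
    | mem x hx =>
      obtain ⟨r, hr, rfl⟩ := hx
      obtain ⟨a, ha⟩ := (hpy r).1 hr
      have : y * ((algebraMap A R r : R) : K) = algebraMap A K a := by
        rw [ha, mul_comm]; rfl
      rw [this]; exact R.algebraMap_mem a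
    | zero => simp
    | add x z _ _ hx hz => rw [Subalgebra.coe_add, mul_add]; exact R.add_mem hx hz
    | smul c x _ hx =>
      have : y * ((c • x : R) : K) = (c : K) * (y * (x : K)) := by
        rw [smul_eq_mul, Subalgebra.coe_mul]; ring
      rw [this]; exact R.mul_mem c.2 hx
  have hm0 : IsLocalRing.maximalIdeal R ≠ ⊥ := by
    obtain ⟨a, b, hb, e⟩ := IsFractionRing.div_surjective A y
    have hb0 : algebraMap A K b ≠ 0 := by
      rw [Ne, map_eq_zero_iff _ inj]; exact nonZeroDivisors.ne_zero hb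
    have hbp : b ∈ p := (hpy b).2 ⟨a, by rw [← e]; field_simp⟩
    intro e0
    have : algebraMap A R b ∈ IsLocalRing.maximalIdeal R := hmax ▸ Ideal.mem_map_of_mem _ hbp
    rw [e0, Ideal.mem_bot] at this
    exact hb0 (congrArg Subtype.val this)
  have hnf : ¬ IsField R := fun hf => hm0 (IsLocalRing.isField_iff_maximalIdeal_eq.1 hf)
  have hprin : (IsLocalRing.maximalIdeal R).IsPrincipal := by
    by_cases hall : ∀ (t : R) (ht : t ∈ IsLocalRing.maximalIdeal R),
        (⟨y * (t : K), hym t ht⟩ : R) ∈ IsLocalRing.maximalIdeal R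
    · exfalso
      let M : Submodule R K := Submodule.map (Algebra.linearMap R K) (IsLocalRing.maximalIdeal R)
      have hM0 : M ≠ ⊥ := by
        obtain ⟨t, ht, ht0⟩ := (Submodule.ne_bot_iff _).1 hm0
        refine (Submodule.ne_bot_iff _).2 ⟨_, Submodule.mem_map_of_mem ht, ?_⟩
        intro e; exact ht0 (Subtype.ext e)
      have hMfg : M.FG := (IsNoetherian.noetherian _).map _
      have hint : IsIntegral R y := isIntegral_of_smul_mem_submodule M hM0 hMfg y (by
        rintro _ ⟨t, ht, rfl⟩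
        exact ⟨_, hall t ht, rfl⟩)
      obtain ⟨r, hr⟩ := IsIntegrallyClosed.algebraMap_eq_of_integral hint
      exact hyR (hr ▸ r.2)
    · push Not at hall
      obtain ⟨t, ht, hu⟩ := hall
      have hu' : IsUnit (⟨y * (t : K), hym t ht⟩ : R) := by
        by_contra hn; exact hu ((IsLocalRing.mem_maximalIdeal _).2 hn)
      obtain ⟨v, hv⟩ := hu'.exists_right_inv
      have hv' : y * (t : K) * (v : K) = 1 := congrArg Subtype.val hv
      refine ⟨t, le_antisymm (fun s hs => ?_) ((Submodule.span_singleton_le_iff_mem _ _).2 ht)⟩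
      refine Submodule.mem_span_singleton.2 ⟨⟨y * (s : K), hym s hs⟩ * v, Subtype.ext ?_⟩
      change y * (s : K) * (v : K) * (t : K) = s
      linear_combination (s : K) * hv'
  have hdvr : IsDiscreteValuationRing R := ((IsDiscreteValuationRing.TFAE R hnf).out 4 0).1 hprin
  have hval : ∀ x : K, x ∈ R.toSubring ∨ x⁻¹ ∈ R.toSubring := by
    intro x
    rcases ValuationRing.isInteger_or_isInteger R x with ⟨r, hr⟩ | ⟨r, hr⟩
    · exact Or.inl (hr ▸ r.2)
    · exact Or.inr (hr ▸ r.2)
  exact ⟨p, hprime, ValuationSubring.ofSubring R.toSubring hval, hdvr, hR, hhR⟩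

theorem normal_of_etale {P S : Type} [CommRing P] [IsDomain P] [IsIntegrallyClosed P]
    [CommRing S] [IsDomain S] [Algebra P S] [Algebra.Etale P S] : IsIntegrallyClosed S := by
  haveI : Module.IsTorsionFree P S := inferInstance
  haveI : FaithfulSMul P S := inferInstance
  let F := FractionRing P
  let L := FractionRing S
  letI : Algebra F L := FractionRing.liftAlgebra P L
  haveI : IsScalarTower P F L := FractionRing.isScalarTower_liftAlgebra P L
  haveI : Algebra.FormallyUnramified S L := Algebra.FormallyUnramified.of_isLocalization S⁰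
  haveI : Algebra.FormallyUnramified P L := Algebra.FormallyUnramified.comp P S L
  haveI : Algebra.FormallyUnramified F L := Algebra.FormallyUnramified.of_restrictScalars P F L
  haveI : Algebra.EssFiniteType S L := Algebra.EssFiniteType.of_isLocalization L S⁰
  haveI : Algebra.EssFiniteType P L := Algebra.EssFiniteType.comp P S L
  haveI : Algebra.EssFiniteType F L := Algebra.EssFiniteType.of_comp P F L
  haveI : Algebra.IsSeparable F L := Algebra.FormallyUnramified.isSeparable F L
  haveI : Algebra.IsAlgebraic P L := (IsFractionRing.comap_isAlgebraic_iff (K := F)).2 inferInstance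
  haveI : Algebra.IsAlgebraic P S :=
    Algebra.IsAlgebraic.of_injective (IsScalarTower.toAlgHom P S L) (IsFractionRing.injective S L)
  let e : S ⊗[P] F ≃ₐ[S] L := Algebra.IsPushout.equiv P S F L
  refine (isIntegrallyClosed_iff L).2 fun {x} hx => ?_
  have hx' : IsIntegral S (e.symm x) := hx.map e.symm
  obtain ⟨t, ht⟩ := (TensorProduct.toIntegralClosure_bijective_of_smooth (R := P) (S := S)
    (B := F)).2 ⟨e.symm x, hx'⟩
  have key : ∀ t : S ⊗[P] integralClosure P F, ∃ y : S,
      algebraMap S (S ⊗[P] F) y = (TensorProduct.toIntegralClosure P S F t : S ⊗[P] F) := by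
    intro t
    induction t with
    | zero => exact ⟨0, by simp⟩
    | add a b ha hb =>
      obtain ⟨y, hy⟩ := ha
      obtain ⟨z, hz⟩ := hb
      exact ⟨y + z, by rw [map_add, map_add, hy, hz]; rfl⟩
    | tmul s c =>
      obtain ⟨r, hr⟩ := IsIntegrallyClosed.algebraMap_eq_of_integral (K := F) c.2
      refine ⟨r • s, ?_⟩
      change (r • s) ⊗ₜ[P] (1 : F) = s ⊗ₜ[P] (c : F)
      rw [TensorProduct.smul_tmul, ← hr, Algebra.algebraMap_eq_smul_one]
  obtain ⟨y, hy⟩ := key t
  refine ⟨y, ?_⟩
  rw [ht] at hy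
  have := congrArg e hy
  rwa [AlgEquiv.commutes, AlgEquiv.apply_symm_apply] at this

theorem exists_chart {B A : Type} [CommRing B] [IsDomain B] [Algebra ℂ B] [Algebra.Smooth ℂ B]
    (q : Ideal B) [q.IsPrime] [CommRing A] [Algebra B A] [IsLocalization.AtPrime A q]
    [Algebra ℂ A] [IsScalarTower ℂ B A] :
    IsIntegrallyClosed A ∧ ∃ (n : ℕ) (_ : Algebra (MvPolynomial (Fin n) ℂ) A),
      IsScalarTower ℂ (MvPolynomial (Fin n) ℂ) A ∧
        Algebra.FormallyEtale (MvPolynomial (Fin n) ℂ) A := by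
  haveI : Algebra.IsSmoothAt ℂ q := inferInstance
  obtain ⟨f, hf, n, inst, htow, het⟩ :=
    Algebra.IsSmoothAt.exists_isStandardEtale_mvPolynomial (R := ℂ) (p := q)
  let S := Localization.Away f
  have hle : Submonoid.powers f ≤ q.primeCompl := Submonoid.powers_le.2 hf
  have hf0 : f ≠ 0 := fun e => hf (e ▸ q.zero_mem)
  haveI : IsDomain S := IsLocalization.isDomain_localization (powers_le_nonZeroDivisors_of_noZeroDivisors hf0)
  letI : Algebra S A := IsLocalization.localizationAlgebraOfSubmonoidLe S A _ _ hle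
  haveI : IsScalarTower B S A := IsLocalization.localization_isScalarTower_of_submonoid_le S A _ _ hle
  haveI hloc : IsLocalization (q.primeCompl.map (algebraMap B S)) A :=
    IsLocalization.isLocalization_of_submonoid_le S A _ _ hle
  haveI : IsIntegrallyClosed S := normal_of_etale (P := MvPolynomial (Fin n) ℂ)
  have hnz : q.primeCompl.map (algebraMap B S) ≤ S⁰ := by
    rintro _ ⟨b, hb, rfl⟩
    refine mem_nonZeroDivisors_of_ne_zero fun e => ?_
    rw [map_eq_zero_iff _ (IsLocalization.injective S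
      (powers_le_nonZeroDivisors_of_noZeroDivisors hf0))] at e
    exact hb (e ▸ q.zero_mem)
  refine ⟨isIntegrallyClosed_of_isLocalization A _ hnz, n,
    ((algebraMap S A).comp (algebraMap (MvPolynomial (Fin n) ℂ) S)).toAlgebra, ?_⟩
  letI : Algebra (MvPolynomial (Fin n) ℂ) A :=
    ((algebraMap S A).comp (algebraMap (MvPolynomial (Fin n) ℂ) S)).toAlgebra
  haveI : IsScalarTower (MvPolynomial (Fin n) ℂ) S A := IsScalarTower.of_algebraMap_eq fun _ => rfl
  haveI : Algebra.FormallyEtale S A :=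
    Algebra.FormallyEtale.of_isLocalization (q.primeCompl.map (algebraMap B S))
  refine ⟨IsScalarTower.of_algebraMap_eq fun c => ?_, Algebra.FormallyEtale.comp _ S A⟩
  change algebraMap ℂ A c = algebraMap S A (algebraMap (MvPolynomial (Fin n) ℂ) S
    (algebraMap ℂ (MvPolynomial (Fin n) ℂ) c))
  rw [← IsScalarTower.algebraMap_apply ℂ (MvPolynomial (Fin n) ℂ) S,
    IsScalarTower.algebraMap_apply ℂ B S, ← IsScalarTower.algebraMap_apply B S A,
    ← IsScalarTower.algebraMap_apply ℂ B A]

end Pool.Agent.P.MP_dc0411_ag.Cmp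
end

-- part Pool.Agent.P.MP_dc0411_ag.CmpForms
section

/-!
Coordinates of pluricanonical forms, extension across codimension two, and transport along an
isomorphism of function fields.
-/

open scoped TensorProduct nonZeroDivisors
open Module KaehlerDifferential

set_option linter.style.haveILetI false

namespace Pool.Agent.P.MP_dc0411_ag.Cmp

noncomputable section

/-- Rational `m`-canonical forms. -/
abbrev PluriForm (K : Type) [Field K] [Algebra ℂ K] (n m : ℕ) : Type :=
  ⨂[K]^m (⋀[K]^n Ω[K⁄ℂ])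

/-- The forms `df₁ ∧ ⋯ ∧ dfₙ`. -/
abbrev dw (K : Type) [Field K] [Algebra ℂ K] (n : ℕ) : (Fin n → K) → ⋀[K]^n Ω[K⁄ℂ] :=
  wedge (D ℂ K) n

section coord

variable {K : Type} [Field K] [Algebra ℂ K] {n : ℕ} (b : Basis (Fin n) K Ω[K⁄ℂ]) (m : ℕ)

/-- The generator of the line of `m`-canonical forms given by a basis. -/
def eta : PluriForm K n m := PiTensorProduct.tprod K fun _ => exteriorPower.ιMulti K n b

/-- The coordinate on the line of `m`-canonical forms given by a basis. -/
def coord : PluriForm K n m →ₗ[K] K :=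
  PiTensorProduct.lift ((MultilinearMap.mkPiAlgebra K (Fin m) K).compLinearMap
    fun _ => exteriorPower.alternatingMapLinearEquiv b.det)

theorem coord_tprod (v : Fin m → Fin n → Ω[K⁄ℂ]) :
    coord b m (PiTensorProduct.tprod K fun k => exteriorPower.ιMulti K n (v k)) =
      ∏ k, b.det (v k) := by
  simp [coord]

theorem coord_eta : coord b m (eta b m) = 1 := by
  rw [eta, coord_tprod]; simp [Basis.det_self]

theorem wedge_eq (w : ⋀[K]^n Ω[K⁄ℂ]) :
    w = exteriorPower.alternatingMapLinearEquiv b.det w • exteriorPower.ιMulti K n b := by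
  have h : (LinearMap.id : ⋀[K]^n Ω[K⁄ℂ] →ₗ[K] _) =
      (LinearMap.toSpanSingleton K _ (exteriorPower.ιMulti K n b)).comp
        (exteriorPower.alternatingMapLinearEquiv b.det) := by
    apply exteriorPower.linearMap_ext
    refine Basis.ext_alternating b fun i h => ?_
    let σ : Equiv.Perm (Fin n) := Equiv.ofBijective i (Finite.injective_iff_bijective.1 h)
    change exteriorPower.ιMulti K n (b ∘ σ) =
      exteriorPower.alternatingMapLinearEquiv b.det (exteriorPower.ιMulti K n (b ∘ σ)) •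
        exteriorPower.ιMulti K n b
    rw [exteriorPower.alternatingMapLinearEquiv_apply_ιMulti, AlternatingMap.map_perm,
      AlternatingMap.map_perm, Basis.det_self, smul_assoc, one_smul]
  exact LinearMap.congr_fun h w

theorem eq_coord_smul (ω : PluriForm K n m) : ω = coord b m ω • eta b m := by
  induction ω using PiTensorProduct.induction_on with
  | smul_tprod r v =>
    rw [map_smul, smul_assoc]
    congr 1
    conv_lhs => rw [show v = fun k => exteriorPower.alternatingMapLinearEquiv b.det (v k) •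
      exteriorPower.ιMulti K n b from funext fun k => wedge_eq b (v k)]
    rw [MultilinearMap.map_smul_univ]
    simp [coord, eta]
  | add x y hx hy => rw [map_add, add_smul, ← hx, ← hy]

theorem eta_ne_zero : eta b m ≠ 0 := by
  intro e
  have := coord_eta b m
  rw [e, map_zero] at this
  exact zero_ne_one this

theorem coord_mem (O : ValuationSubring K) (hO : ∀ f ∈ O, ∀ j, b.repr (D ℂ K f) j ∈ O)
    {ω : PluriForm K n m} (hω : ω ∈ regularAt (dw K n) O m) : coord b m ω ∈ O := by
  induction hω using Submodule.span_induction with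
  | mem x hx =>
    obtain ⟨f, hf, rfl⟩ := hx
    rw [show coord b m (PiTensorProduct.tprod K fun k => dw K n (f k)) = _ from
      coord_tprod b m fun k i => D ℂ K (f k i)]
    refine prod_mem fun k _ => ?_
    rw [Basis.det_apply, Matrix.det_apply']
    refine sum_mem fun σ _ => mul_mem (intCast_mem O _) (prod_mem fun i _ => ?_)
    exact hO _ (hf k i) _
  | zero => simp
  | add x y _ _ hx hy => rw [map_add]; exact add_mem hx hy
  | smul a x _ hx =>
    change coord b m ((a : K) • x) ∈ O
    rw [map_smul, smul_eq_mul]; exact mul_mem a.2 hx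

end coord

/-- The basis `dx₁, …, dxₙ` given by etale coordinates. -/
def chartBasis (n : ℕ) (T : Type) [CommRing T] [Algebra ℂ T] [Algebra (MvPolynomial (Fin n) ℂ) T]
    [IsScalarTower ℂ (MvPolynomial (Fin n) ℂ) T]
    [Algebra.FormallyEtale (MvPolynomial (Fin n) ℂ) T] : Basis (Fin n) T Ω[T⁄ℂ] :=
  ((mvPolynomialBasis ℂ (Fin n)).baseChange T).map
    (tensorKaehlerEquivOfFormallyEtale ℂ (MvPolynomial (Fin n) ℂ) T)

theorem chartBasis_apply (n : ℕ) (T : Type) [CommRing T] [Algebra ℂ T]
    [Algebra (MvPolynomial (Fin n) ℂ) T] [IsScalarTower ℂ (MvPolynomial (Fin n) ℂ) T]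
    [Algebra.FormallyEtale (MvPolynomial (Fin n) ℂ) T] (i : Fin n) :
    chartBasis n T i = D ℂ T (algebraMap (MvPolynomial (Fin n) ℂ) T (MvPolynomial.X i)) := by
  simp [chartBasis]

/-- A transcendence basis gives a basis of the differentials. -/
theorem exists_basis {K : Type} [Field K] [Algebra ℂ K] {n : ℕ} {ρ : Fin n → K}
    (hρ : IsTranscendenceBasis ℂ ρ) : ∃ b : Basis (Fin n) K Ω[K⁄ℂ], ∀ i, b i = D ℂ K (ρ i) := by
  let P := MvPolynomial (Fin n) ℂ
  letI : Algebra P K := (MvPolynomial.aeval ρ : P →ₐ[ℂ] K).toRingHom.toAlgebra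
  haveI : IsScalarTower ℂ P K := IsScalarTower.of_algebraMap_eq fun c =>
    ((MvPolynomial.aeval ρ : P →ₐ[ℂ] K).commutes c).symm
  haveI : FaithfulSMul P K := (faithfulSMul_iff_algebraMap_injective P K).2 hρ.1
  let F := FractionRing P
  letI : Algebra F K := FractionRing.liftAlgebra P K
  haveI : IsScalarTower P F K := FractionRing.isScalarTower_liftAlgebra P K
  haveI : Algebra.IsAlgebraic P K := by
    refine (hρ.isAlgebraic_iff (S := P)).2 fun i => ?_
    have : ρ i = algebraMap P K (MvPolynomial.X i) := (MvPolynomial.aeval_X ρ i).symm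
    rw [this]; exact isAlgebraic_algebraMap _
  haveI : Algebra.IsAlgebraic F K := (IsFractionRing.comap_isAlgebraic_iff (A := P)).1 inferInstance
  haveI : CharZero F := algebraRat.charZero F
  haveI : Algebra.FormallyEtale F K := Algebra.FormallyEtale.of_isSeparable F K
  haveI : Algebra.FormallyEtale P F := Algebra.FormallyEtale.of_isLocalization P⁰
  haveI : Algebra.FormallyEtale P K := Algebra.FormallyEtale.comp P F K
  exact ⟨chartBasis n K, fun i => by
    rw [chartBasis_apply]; congr 1; exact MvPolynomial.aeval_X ρ i⟩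

/-- Extension across codimension two. -/
theorem mem_regularOver {A K : Type} [CommRing A] [IsDomain A] [IsNoetherianRing A]
    [IsIntegrallyClosed A] [Field K] [Algebra ℂ K] [Algebra ℂ A] [Algebra A K]
    [IsScalarTower ℂ A K] [IsFractionRing A K] {n : ℕ} [Algebra (MvPolynomial (Fin n) ℂ) A]
    [IsScalarTower ℂ (MvPolynomial (Fin n) ℂ) A]
    [Algebra.FormallyEtale (MvPolynomial (Fin n) ℂ) A] {n' m : ℕ} (b' : Basis (Fin n') K Ω[K⁄ℂ])
    (ω : PluriForm K n' m)
    (hω : ∀ (p : Ideal A) (_ : p.IsPrime) (O : ValuationSubring K), IsDiscreteValuationRing O →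
      (∀ x : K, x ∈ O ↔ ∃ a s : A, s ∉ p ∧ x = algebraMap A K a * (algebraMap A K s)⁻¹) →
      ω ∈ regularAt (dw K n') O m) :
    ω ∈ Lit.regularOver (dw K n') (algebraMap A K).range m := by
  let P := MvPolynomial (Fin n) ℂ
  letI : Algebra P K := ((algebraMap A K).comp (algebraMap P A)).toAlgebra
  haveI : IsScalarTower P A K := IsScalarTower.of_algebraMap_eq fun _ => rfl
  haveI : IsScalarTower ℂ P K := IsScalarTower.of_algebraMap_eq fun c => by
    rw [IsScalarTower.algebraMap_apply P A K, ← IsScalarTower.algebraMap_apply ℂ P A,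
      ← IsScalarTower.algebraMap_apply ℂ A K]
  haveI : Algebra.FormallyEtale A K := Algebra.FormallyEtale.of_isLocalization A⁰
  haveI : Algebra.FormallyEtale P K := Algebra.FormallyEtale.comp P A K
  have hn : n' = n := by
    simpa using Fintype.card_congr (b'.indexEquiv (chartBasis n K))
  subst hn
  let b := chartBasis n' K
  have hb : ∀ i, b i = D ℂ K (algebraMap A K (algebraMap P A (MvPolynomial.X i))) := fun i =>
    chartBasis_apply n' K i
  have hA : ∀ (a : A) (j : Fin n'), ∃ c : A, b.repr (D ℂ K (algebraMap A K a)) j =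
      algebraMap A K c := by
    intro a j
    refine ⟨(chartBasis n' A).repr (D ℂ A a) j, ?_⟩
    have e : D ℂ K (algebraMap A K a) =
        ∑ i, algebraMap A K ((chartBasis n' A).repr (D ℂ A a) i) • b i := by
      rw [← map_D ℂ ℂ A K a]
      conv_lhs => rw [← (chartBasis n' A).sum_repr (D ℂ A a)]
      rw [map_sum]
      refine Finset.sum_congr rfl fun i _ => ?_
      rw [map_smul, chartBasis_apply, map_D, hb, IsScalarTower.algebraMap_smul]
    rw [e, Basis.repr_sum_self]
  have hc : ∃ a : A, algebraMap A K a = coord b m ω := by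
    by_contra hno
    push Not at hno
    obtain ⟨p, hp, O, hO, hmem, hh⟩ := exists_dvr _ hno
    refine hh (coord_mem b m O (fun f hf j => ?_) (hω p hp O hO hmem))
    have hin : ∀ a : A, algebraMap A K a ∈ O := fun a =>
      (hmem _).2 ⟨a, 1, (Ideal.ne_top_iff_one p).1 hp.ne_top, by simp⟩
    obtain ⟨a, s, hs, e⟩ := (hmem f).1 hf
    have hs0 : algebraMap A K s ≠ 0 := by
      intro e
      rw [map_eq_zero_iff _ (IsFractionRing.injective A K)] at e
      exact hs (e ▸ p.zero_mem)
    have hinv : (algebraMap A K s)⁻¹ ∈ O := (hmem _).2 ⟨1, s, hs, by simp⟩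
    have e1 : algebraMap A K s * f = algebraMap A K a := by rw [e]; field_simp
    have e2 : D ℂ K f = (algebraMap A K s)⁻¹ •
        (D ℂ K (algebraMap A K a) - f • D ℂ K (algebraMap A K s)) := by
      rw [← e1, Derivation.leibniz, add_sub_cancel_right, smul_smul, inv_mul_cancel₀ hs0, one_smul]
    obtain ⟨c, hc⟩ := hA a j
    obtain ⟨d, hd⟩ := hA s j
    rw [e2, map_smul, map_sub, map_smul, Finsupp.smul_apply, Finsupp.sub_apply, Finsupp.smul_apply,
      hc, hd, smul_eq_mul, smul_eq_mul]
    exact mul_mem hinv (sub_mem (hin c) (mul_mem hf (hin d)))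
  obtain ⟨a, ha⟩ := hc
  rw [eq_coord_smul b m ω, ← ha]
  refine Submodule.smul_mem _ (⟨algebraMap A K a, a, rfl⟩ : (algebraMap A K).range)
    (Submodule.subset_span
      ⟨fun _ i => algebraMap A K (algebraMap P A (MvPolynomial.X i)), fun _ _ => ⟨_, rfl⟩, ?_⟩)
  rw [eta]
  congr 1
  funext k
  exact congrArg (exteriorPower.ιMulti K n') (funext hb)

section transport

variable {K L : Type} [Field K] [Field L] [Algebra ℂ K] [Algebra ℂ L] [Algebra K L]
  [IsScalarTower ℂ K L] (n m : ℕ)

/-- Pull-back of top forms. -/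
def wedgeMap : ⋀[K]^n Ω[K⁄ℂ] →ₗ[K] ⋀[L]^n Ω[L⁄ℂ] :=
  exteriorPower.alternatingMapLinearEquiv
    (AlternatingMap.compLinearMap
      { toMultilinearMap := (exteriorPower.ιMulti L n).toMultilinearMap.restrictScalars K
        map_eq_zero_of_eq' := fun v _ _ h hij =>
          (exteriorPower.ιMulti L n).map_eq_zero_of_eq v h hij }
      (KaehlerDifferential.map ℂ ℂ K L))

/-- Pull-back of pluricanonical forms. -/
def formMap : PluriForm K n m →ₗ[K] PluriForm L n m :=
  PiTensorProduct.lift (((PiTensorProduct.tprod L).restrictScalars K).compLinearMap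
    fun _ => wedgeMap n)

theorem formMap_tprod (f : Fin m → Fin n → K) :
    formMap n m (PiTensorProduct.tprod K fun k => exteriorPower.ιMulti K n fun i => D ℂ K (f k i))
      = PiTensorProduct.tprod L fun k => exteriorPower.ιMulti L n fun i =>
        D ℂ L (algebraMap K L (f k i)) := by
  simp [formMap, wedgeMap]

theorem formMap_mem (O : ValuationSubring L) {ω : PluriForm K n m}
    (hω : ω ∈ regularAt (dw K n) (O.comap (algebraMap K L)) m) :
    (formMap n m ω : PluriForm L n m) ∈ regularAt (dw L n) O m := by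
  induction hω using Submodule.span_induction with
  | mem x hx =>
    obtain ⟨f, hf, rfl⟩ := hx
    exact Submodule.subset_span ⟨fun k i => algebraMap K L (f k i), hf, formMap_tprod n m f⟩
  | zero => simp
  | add x y _ _ hx hy => rw [map_add]; exact add_mem hx hy
  | smul a x _ hx =>
    change (formMap n m ((a : K) • x) : PluriForm L n m) ∈ _
    rw [map_smul, ← IsScalarTower.algebraMap_smul L]
    exact Submodule.smul_mem _ (⟨algebraMap K L a, a.2⟩ : O) hx

end transport

theorem fieldBig_transport {K L : Type} [Field K] [Field L] [Algebra ℂ K] [Algebra ℂ L]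
    (e : K ≃ₐ[ℂ] L) {S : Set (ValuationSubring K)} {T : Set (ValuationSubring L)}
    (hST : ∀ O ∈ T, O.comap (e : K →+* L) ∈ S) (h : FieldBig K S) :
    FieldBig L T := by
  letI : Algebra K L := (e : K →+* L).toAlgebra
  haveI : IsScalarTower ℂ K L := IsScalarTower.of_algebraMap_eq fun c => (e.commutes c).symm
  obtain ⟨n, m, ω, ρ, hm, hω, hρ, h1, h2⟩ := h
  have hρ' : IsTranscendenceBasis ℂ (e ∘ ρ) := e.isTranscendenceBasis hρ
  have key : ∀ η : PluriForm K n m, IsLogForm (dw K n) S η →
      IsLogForm (dw L n) T (formMap n m η : PluriForm L n m) := by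
    intro η hη O hO hc
    let ε : O.comap (algebraMap K L) ≃+* O :=
      { toFun := fun x => ⟨e x, x.2⟩
        invFun := fun y => ⟨e.symm y, by
          change e (e.symm y) ∈ O
          rw [e.apply_symm_apply]; exact y.2⟩
        left_inv := fun x => Subtype.ext (e.symm_apply_apply x)
        right_inv := fun y => Subtype.ext (e.apply_symm_apply y)
        map_mul' := fun x y => Subtype.ext (map_mul e (x : K) y)
        map_add' := fun x y => Subtype.ext (map_add e (x : K) y) }
    obtain ⟨g1, g2⟩ := hη (O.comap (algebraMap K L))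
      (IsDiscreteValuationRing.RingEquivClass.isDiscreteValuationRing ε.symm)
      (fun c => by
        change e (algebraMap ℂ K c) ∈ O
        rw [e.commutes]; exact hc c)
    refine ⟨fun π hπ => ?_, fun hT => formMap_mem n m O (g2 (hST O hT))⟩
    have := formMap_mem n m O (g1 (ε.symm π) ((MulEquiv.irreducible_iff ε.symm).2 hπ))
    rw [map_smul, ← IsScalarTower.algebraMap_smul L, map_pow] at this
    have e3 : algebraMap K L ((ε.symm π : O.comap (algebraMap K L)) : K) = π :=
      e.apply_symm_apply π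
    rwa [e3] at this
  refine ⟨n, m, formMap n m ω, e ∘ ρ, hm, ?_, hρ', key ω h1, fun i => ?_⟩
  · obtain ⟨b, hb⟩ := exists_basis hρ
    obtain ⟨b', hb'⟩ := exists_basis hρ'
    have h3 : (formMap n m (eta b m) : PluriForm L n m) = eta b' m := by
      rw [eta, eta, show (b : Fin n → _) = fun i => D ℂ K (ρ i) from funext hb,
        show (b' : Fin n → _) = fun i => D ℂ L (e (ρ i)) from funext hb']
      exact formMap_tprod n m fun _ i => ρ i
    have h4 : coord b m ω ≠ 0 := fun e0 => hω (by rw [eq_coord_smul b m ω, e0, zero_smul])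
    rw [eq_coord_smul b m ω, map_smul, h3, ← IsScalarTower.algebraMap_smul L]
    exact smul_ne_zero ((map_ne_zero _).2 h4) (eta_ne_zero b' m)
  · have := key _ (h2 i)
    rwa [map_smul, ← IsScalarTower.algebraMap_smul L] at this

end

end Pool.Agent.P.MP_dc0411_ag.Cmp
end

-- part Pool.Agent.P.MP_dc0411_ag.CmpMain
section

/-!
The valuative definition of log-general type gives bigness of `K_Z + D` on every smooth model.
-/

open CategoryTheory AlgebraicGeometry
open scoped TensorProduct nonZeroDivisors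

set_option linter.style.haveILetI false

namespace Pool.Agent.P.MP_dc0411_ag.Cmp

noncomputable section

/-- The map of function fields of a dominant morphism. -/
def fmap {X Y : Scheme.{0}} [IsIntegral X] [IsIntegral Y] (p : X ⟶ Y)
    (hp : p (genericPoint X) = genericPoint Y) : Y.functionField ⟶ X.functionField :=
  Y.presheaf.stalkSpecializes (specializes_of_eq hp) ≫ p.stalkMap (genericPoint X)

theorem fmap_stalk {X Y : Scheme.{0}} [IsIntegral X] [IsIntegral Y] (p : X ⟶ Y)
    (hp : p (genericPoint X) = genericPoint Y) (x : X) (s : Y.presheaf.stalk (p x)) :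
    fmap p hp (algebraMap (Y.presheaf.stalk (p x)) Y.functionField s) =
      algebraMap (X.presheaf.stalk x) X.functionField (p.stalkMap x s) := by
  have h := p.stalkSpecializes_stalkMap_apply (genericPoint X) x
    ((genericPoint_spec X).specializes trivial) s
  refine Eq.trans ?_ h
  change p.stalkMap (genericPoint X) ((Y.presheaf.stalkSpecializes _ ≫
    Y.presheaf.stalkSpecializes (specializes_of_eq hp)) s) = _
  rw [TopCat.Presheaf.stalkSpecializes_comp]

theorem fmap_bijective {X Y : Scheme.{0}} [IsIntegral X] [IsIntegral Y] (p : X ⟶ Y)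
    (hp : Lit.IsBirational p) : Function.Bijective (fmap p hp.1) := by
  haveI := hp.2
  haveI : IsIso (Y.presheaf.stalkSpecializes (specializes_of_eq hp.1)) :=
    (Y.presheaf.stalkCongr (Inseparable.of_eq hp.1.symm)).isIso_hom
  haveI : IsIso (fmap p hp.1) := by unfold fmap; infer_instance
  exact ConcreteCategory.bijective_of_isIso _

/-- The isomorphism of function fields over `ℂ` of a birational morphism. -/
def fequiv {X Y : Over SpecC} [IsIntegral X.left] [IsIntegral Y.left] (p : X ⟶ Y)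
    (hp : Lit.IsBirational p.left) :
    letI := fieldAlgebra X
    letI := fieldAlgebra Y
    Y.left.functionField ≃ₐ[ℂ] X.left.functionField :=
  letI := fieldAlgebra X
  letI := fieldAlgebra Y
  { RingEquiv.ofBijective (fmap p.left hp.1).hom (fmap_bijective p.left hp) with
    commutes' := fun c => by
      have e : Y.hom.appTop ≫ Y.left.presheaf.germ ⊤ (genericPoint Y.left) trivial ≫
          fmap p.left hp.1 =
          X.hom.appTop ≫ X.left.presheaf.germ ⊤ (genericPoint X.left) trivial := by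
        rw [fmap, TopCat.Presheaf.germ_stalkSpecializes_assoc, Scheme.Hom.germ_stalkMap,
          ← Over.w p, Scheme.Hom.comp_appTop, Category.assoc]
        rfl
      exact congrArg (fun φ => φ.hom ((Scheme.ΓSpecIso (CommRingCat.of ℂ)).inv c)) e }

theorem isLogSection_of (Z : Over SpecC) [IsIntegral Z.left] [Smooth Z.hom] (U : Z.left.Opens)
    {n m : ℕ} (b : letI := fieldAlgebra Z;
      Module.Basis (Fin n) Z.left.functionField Ω[Z.left.functionField⁄ℂ])
    (ω : letI := fieldAlgebra Z; PluriForm Z.left.functionField n m)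
    (hω : letI := fieldAlgebra Z
      IsLogForm (dw Z.left.functionField n) {O | ∃ z ∈ U, ∀ s : Z.left.presheaf.stalk z,
        algebraMap (Z.left.presheaf.stalk z) Z.left.functionField s ∈ O} ω) :
    letI := fieldAlgebra Z
    Lit.IsSection (dw Z.left.functionField n) (Lit.boundaryPairs Z.left U) ω := by
  letI := fieldAlgebra Z
  rintro _ ⟨W, f, z, hz, hf, rfl⟩
  obtain ⟨V, hV, hzV, hVW⟩ := exists_isAffineOpen_mem_and_subset hz
  have hVW' : V ≤ W := hVW
  haveI : Nonempty V := ⟨⟨z, hzV⟩⟩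
  let φ : CommRingCat.of ℂ ⟶ Γ(Z.left, V) :=
    (Scheme.ΓSpecIso (CommRingCat.of ℂ)).inv ≫ Z.hom.appLE ⊤ V le_top
  letI : Algebra ℂ Γ(Z.left, V) := φ.hom.toAlgebra
  haveI : Algebra.Smooth ℂ Γ(Z.left, V) := by
    have h1 : RingHom.Smooth (Z.hom.appLE ⊤ V le_top).hom :=
      HasRingHomProperty.appLE @Smooth Z.hom inferInstance ⟨⊤, isAffineOpen_top _⟩ ⟨V, hV⟩ le_top
    exact RingHom.Smooth.comp (RingHom.Smooth.of_bijective
      (ConcreteCategory.bijective_of_isIso (Scheme.ΓSpecIso (CommRingCat.of ℂ)).inv)) h1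
  letI : Algebra Γ(Z.left, V) (Z.left.presheaf.stalk z) :=
    TopCat.Presheaf.algebra_section_stalk Z.left.presheaf (⟨z, hzV⟩ : V)
  haveI : IsLocalization.AtPrime (Z.left.presheaf.stalk z) (hV.primeIdealOf ⟨z, hzV⟩).asIdeal :=
    hV.isLocalization_stalk ⟨z, hzV⟩
  letI : Algebra ℂ (Z.left.presheaf.stalk z) :=
    ((algebraMap Γ(Z.left, V) (Z.left.presheaf.stalk z)).comp φ.hom).toAlgebra
  haveI : IsScalarTower ℂ Γ(Z.left, V) (Z.left.presheaf.stalk z) :=
    IsScalarTower.of_algebraMap_eq fun _ => rfl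
  have hgerm : ∀ (y : Z.left) (hy : y ∈ V) (g : Γ(Z.left, V)),
      algebraMap (Z.left.presheaf.stalk y) Z.left.functionField (Z.left.presheaf.germ V y hy g) =
      algebraMap (Z.left.presheaf.stalk z) Z.left.functionField
        (Z.left.presheaf.germ V z hzV g) := fun y hy g => by
    rw [Scheme.algebraMap_germ_eq_germToFunctionField, Scheme.algebraMap_germ_eq_germToFunctionField]
  haveI : IsScalarTower ℂ (Z.left.presheaf.stalk z) Z.left.functionField := by
    refine IsScalarTower.of_algebraMap_eq fun c => ?_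
    have e : Z.hom.appTop ≫ Z.left.presheaf.germ ⊤ (genericPoint Z.left) trivial =
        Z.hom.appLE ⊤ V le_top ≫ Z.left.presheaf.germ V z hzV ≫
          Z.left.presheaf.stalkSpecializes ((genericPoint_spec Z.left).specializes trivial) := by
      rw [TopCat.Presheaf.germ_stalkSpecializes, Scheme.Hom.appLE, Category.assoc,
        TopCat.Presheaf.germ_res]
      rfl
    exact congrArg (fun φ => φ.hom ((Scheme.ΓSpecIso (CommRingCat.of ℂ)).inv c)) e
  haveI : IsNoetherianRing Γ(Z.left, V) := Algebra.FiniteType.isNoetherianRing ℂ _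
  haveI : IsNoetherianRing (Z.left.presheaf.stalk z) :=
    IsLocalization.isNoetherianRing (hV.primeIdealOf ⟨z, hzV⟩).asIdeal.primeCompl _ inferInstance
  obtain ⟨hnormal, k, inst, htow, het⟩ :=
    exists_chart (A := Z.left.presheaf.stalk z) (hV.primeIdealOf ⟨z, hzV⟩).asIdeal
  refine mem_regularOver (n := k) b _ fun p hp O hO hmem => ?_
  have hin : ∀ a : Z.left.presheaf.stalk z, algebraMap _ Z.left.functionField a ∈ O := fun a =>
    (hmem _).2 ⟨a, 1, (Ideal.ne_top_iff_one p).1 hp.ne_top, by simp⟩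
  obtain ⟨g1, g2⟩ := hω O hO fun c => by
    rw [IsScalarTower.algebraMap_apply ℂ (Z.left.presheaf.stalk z)]; exact hin _
  dsimp only
  set a := Z.left.presheaf.germ W z hz f with ha
  by_cases hap : a ∈ p
  · obtain ⟨π, hπ⟩ := IsDiscreteValuationRing.exists_irreducible O
    have hnu : ¬ IsUnit (⟨_, hin a⟩ : O) := by
      intro hu
      obtain ⟨v, hv⟩ := hu.exists_right_inv
      have hv' : algebraMap _ Z.left.functionField a * (v : Z.left.functionField) = 1 :=
        congrArg Subtype.val hv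
      obtain ⟨c, s, hs, e⟩ := (hmem _).1 v.2
      have hs0 : algebraMap _ Z.left.functionField s ≠ 0 := by
        intro e
        rw [map_eq_zero_iff _ (IsFractionRing.injective _ _)] at e
        exact hs (e ▸ p.zero_mem)
      have e1 : a * c = s := by
        apply IsFractionRing.injective _ Z.left.functionField
        rw [e, ← mul_assoc, mul_inv_eq_one₀ hs0] at hv'
        rw [map_mul, hv']
      exact hs (e1 ▸ p.mul_mem_right c hap)
    have hmax : (⟨_, hin a⟩ : O) ∈ Ideal.span {π} := by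
      rw [← hπ.maximalIdeal_eq]; exact hnu
    obtain ⟨c, hc⟩ := Ideal.mem_span_singleton'.1 hmax
    have hc' : algebraMap _ Z.left.functionField a = (c : Z.left.functionField) * π :=
      (congrArg Subtype.val hc).symm
    rw [hc', mul_pow, mul_smul]
    exact Submodule.smul_mem _ (c ^ m) (g1 π hπ)
  · let q : PrimeSpectrum Γ(Z.left, V) :=
      ⟨p.comap (algebraMap Γ(Z.left, V) (Z.left.presheaf.stalk z)), inferInstance⟩
    have hy : hV.fromSpec q ∈ V := by
      have : hV.fromSpec q ∈ Set.range hV.fromSpec := ⟨q, rfl⟩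
      rwa [hV.range_fromSpec] at this
    letI : Algebra Γ(Z.left, V) (Z.left.presheaf.stalk (hV.fromSpec q)) :=
      TopCat.Presheaf.algebra_section_stalk Z.left.presheaf (⟨hV.fromSpec q, hy⟩ : V)
    haveI : IsLocalization.AtPrime (Z.left.presheaf.stalk (hV.fromSpec q)) q.asIdeal :=
      hV.isLocalization_stalk' q hy
    have hU : hV.fromSpec q ∈ U := by
      apply hf
      rw [Scheme.mem_basicOpen _ _ _ (hVW' hy), ← Z.left.presheaf.germ_res_apply (homOfLE hVW') _ hy]
      refine IsLocalization.map_units (Z.left.presheaf.stalk (hV.fromSpec q))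
        (⟨Z.left.presheaf.map (homOfLE hVW').op f, fun h => hap ?_⟩ : q.asIdeal.primeCompl)
      rw [ha, ← Z.left.presheaf.germ_res_apply (homOfLE hVW') _ hzV]
      exact h
    have hreg := g2 ⟨_, hU, fun s => by
      obtain ⟨⟨c, d⟩, e⟩ := IsLocalization.surj q.asIdeal.primeCompl s
      refine (hmem _).2 ⟨algebraMap _ _ c, algebraMap _ _ (d : Γ(Z.left, V)), d.2, ?_⟩
      have e1 := congrArg (algebraMap _ Z.left.functionField) e
      rw [map_mul] at e1
      have e2 := hgerm _ hy c
      have e3 := hgerm _ hy d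
      have hd0 : algebraMap (Z.left.presheaf.stalk z) Z.left.functionField
          (algebraMap _ _ (d : Γ(Z.left, V))) ≠ 0 := by
        intro e
        rw [map_eq_zero_iff _ (IsFractionRing.injective _ _)] at e
        exact d.2 (show algebraMap _ (Z.left.presheaf.stalk z) (d : Γ(Z.left, V)) ∈ p from
          e ▸ p.zero_mem)
      rw [eq_mul_inv_iff_mul_eq₀ hd0]
      exact (congrArg _ e3.symm).trans (e1.trans e2)⟩
    exact Submodule.smul_mem _ ((⟨_, hin a⟩ : O) ^ m) hreg

/-- If `Y` is of log-general type in the valuative sense, then for every birational morphism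
`Y' ⟶ Y` and every open immersion of `Y'` into a smooth `Z`, with complement `D`, the divisor
`K_Z + D` is big. -/
theorem logCanonicalBig_of_logGeneralType {Y Y' Z : Over SpecC} [IsIntegral Y.left]
    [IsIntegral Y'.left] [IsIntegral Z.left] (p : Y' ⟶ Y) (j : Y' ⟶ Z)
    (hp : Lit.IsBirational p.left) [IsOpenImmersion j.left] [Smooth Z.hom] (h : LogGeneralType Y) :
    Lit.LogCanonicalBig Z j.left.opensRange := by
  letI := fieldAlgebra Y
  letI := fieldAlgebra Y'
  letI := fieldAlgebra Z
  have hj : Lit.IsBirational j.left := ⟨genericPoint_eq_of_isOpenImmersion _, inferInstance⟩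
  have h1 : FieldBig Y.left.functionField (centred Y.left) := h
  have h2 := fieldBig_transport ((fequiv p hp).trans (fequiv j hj).symm)
    (T := {O | ∃ z ∈ j.left.opensRange, ∀ s : Z.left.presheaf.stalk z,
      algebraMap (Z.left.presheaf.stalk z) Z.left.functionField s ∈ O}) (by
      rintro O ⟨_, ⟨y, rfl⟩, hO⟩
      refine ⟨p.left y, fun s => ?_⟩
      obtain ⟨t, ht⟩ := (ConcreteCategory.bijective_of_isIso (j.left.stalkMap y)).2
        (p.left.stalkMap y s)
      have e : (fequiv j hj).symm (fequiv p hp (algebraMap _ Y.left.functionField s)) =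
          algebraMap _ Z.left.functionField t := by
        rw [AlgEquiv.symm_apply_eq]
        exact (fmap_stalk p.left hp.1 y s).trans
          ((congrArg _ ht.symm).trans (fmap_stalk j.left hj.1 y t).symm)
      change (fequiv j hj).symm (fequiv p hp (algebraMap _ Y.left.functionField s)) ∈ O
      rw [e]; exact hO t) h1
  obtain ⟨n, m, ω, ρ, hm, hω, hρ, g1, g2⟩ := h2
  obtain ⟨b, -⟩ := exists_basis hρ
  exact ⟨n, m, ω, ρ, hm, hω, hρ, isLogSection_of Z _ b ω g1,
    fun i => isLogSection_of Z _ b _ (g2 i)⟩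

theorem canonicalBig_of_fieldBig {K : Type} [Field K] [Algebra ℂ K] {ι : Type}
    (A : ι → Subring K) {S : Set (ValuationSubring K)}
    (hS : ∀ O : ValuationSubring K, (∃ y, A y ≤ O.toSubring) → O ∈ S) (h : FieldBig K S) :
    Lit.CanonicalBig K (Lit.valuationPairs K A) := by
  obtain ⟨n, m, ω, ρ, hm, hω, hρ, g1, g2⟩ := h
  have key : ∀ η : PluriForm K n m, IsLogForm (dw K n) S η →
      Lit.IsSection (dw K n) (Lit.valuationPairs K A) η := by
    rintro η hη _ ⟨O, hO, hc, ⟨π, hπ, rfl⟩ | ⟨hy, rfl⟩⟩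
    · exact (hη O hO hc).1 π hπ
    · dsimp only
      rw [one_pow, one_smul]
      exact (hη O hO hc).2 (hS O hy)
  exact ⟨n, m, ω, ρ, hm, hω, hρ, key ω g1, fun i => key _ (g2 i)⟩

theorem lit_of_logGeneralType {Y : Over SpecC} [IsIntegral Y.left] (h : LogGeneralType Y) :
    Lit.LogGeneralType Y :=
  letI := fieldAlgebra Y
  ⟨fun _ _ _ _ p j _ hp _ => logCanonicalBig_of_logGeneralType p j hp h,
    canonicalBig_of_fieldBig (S := centred Y.left) _
      (fun _ hO => hO.imp fun _ hy s => hy ⟨s, rfl⟩) h⟩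

theorem conditionTwo_of {X : Over SpecC} (h : SubvarietiesLogGeneral X) : Lit.ConditionTwo X :=
  fun Y _ i hi => lit_of_logGeneralType (h Y i hi)

end

end Pool.Agent.P.MP_dc0411_ag.Cmp
end

-- part Pool.Agent.P.MP_dc0411_ag.LogAlg
section

/-!
Algebra of logarithmic forms on a function field.
-/

open scoped TensorProduct IntermediateField.algebraAdjoinAdjoin
open KaehlerDifferential

namespace Pool.Agent.P.MP_dc0411_ag

noncomputable section

variable {K : Type} [Field K] [Algebra ℂ K]

/-- The differentials of a transcendence basis have a nonzero wedge product. -/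
theorem wedge_ne_zero {n : ℕ} {t : Fin n → K} (ht : IsTranscendenceBasis ℂ t) :
    (exteriorPower.ιMulti K n fun i => D ℂ K (t i)) ≠ 0 := by
  let P := MvPolynomial (Fin n) ℂ
  let aA : Algebra P (Algebra.adjoin ℂ (Set.range t)) := ht.1.aevalEquiv.toRingHom.toAlgebra
  let aK : Algebra P K := (MvPolynomial.aeval t : P →ₐ[ℂ] K).toRingHom.toAlgebra
  have : IsScalarTower ℂ P K := IsScalarTower.of_algebraMap_eq fun c =>
    ((MvPolynomial.aeval t : P →ₐ[ℂ] K).commutes c).symm
  have : IsScalarTower P (Algebra.adjoin ℂ (Set.range t)) K :=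
    IsScalarTower.of_algebraMap_eq fun p => (ht.1.algebraMap_aevalEquiv p).symm
  have : CharZero K := charZero_of_injective_algebraMap (algebraMap ℂ K).injective
  have : Algebra.IsAlgebraic (IntermediateField.adjoin ℂ (Set.range t)) K := ht.isAlgebraic_field
  have e1 : Algebra.FormallyEtale (IntermediateField.adjoin ℂ (Set.range t)) K :=
    Algebra.FormallyEtale.of_isSeparable _ K
  have e2 : Algebra.FormallyEtale (Algebra.adjoin ℂ (Set.range t))
      (IntermediateField.adjoin ℂ (Set.range t)) :=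
    Algebra.FormallyEtale.of_isLocalization (nonZeroDivisors _)
  have e3 : Algebra.FormallyEtale (Algebra.adjoin ℂ (Set.range t)) K :=
    Algebra.FormallyEtale.comp _ (IntermediateField.adjoin ℂ (Set.range t)) K
  have e4 : Algebra.FormallyEtale P (Algebra.adjoin ℂ (Set.range t)) :=
    Algebra.FormallyEtale.of_equiv
      (AlgEquiv.ofBijective (Algebra.ofId P _) ht.1.aevalEquiv.bijective)
  have e5 : Algebra.FormallyEtale P K :=
    Algebra.FormallyEtale.comp P (Algebra.adjoin ℂ (Set.range t)) K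
  let b := ((mvPolynomialBasis ℂ (Fin n)).baseChange K).map
    (tensorKaehlerEquivOfFormallyEtale ℂ P K)
  have hb : (fun i => D ℂ K (t i)) = b := by
    funext i
    have h1 : algebraMap P K (MvPolynomial.X i) = t i := MvPolynomial.aeval_X t i
    have h2 := tensorKaehlerEquivOfFormallyEtale_symm_D_algebraMap ℂ P K (MvPolynomial.X i)
    rw [LinearEquiv.symm_apply_eq, h1] at h2
    rw [h2]
    simp only [b, Module.Basis.map_apply, Module.Basis.baseChange_apply, mvPolynomialBasis_apply]
    rfl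
  intro h
  have h3 := exteriorPower.alternatingMapLinearEquiv_apply_ιMulti b.det b
  rw [hb] at h
  rw [h, map_zero, b.det_self] at h3
  exact zero_ne_one h3

/-- Regular `n`-forms at a valuation ring. -/
def reg1 (O : ValuationSubring K) (n : ℕ) : Submodule O (⋀[K]^n Ω[K⁄ℂ]) :=
  Submodule.span O {η | ∃ f : Fin n → K, (∀ i, f i ∈ O) ∧
    η = exteriorPower.ιMulti K n fun i => D ℂ K (f i)}

theorem reg1_smul {O : ValuationSubring K} {n : ℕ} {a : K} (ha : a ∈ O) {η : ⋀[K]^n Ω[K⁄ℂ]}
    (h : η ∈ reg1 O n) : a • η ∈ reg1 O n :=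
  (reg1 O n).smul_mem (⟨a, ha⟩ : O) h

/-- An `n`-form as a pluricanonical form of weight one. -/
def tens (n : ℕ) : (⋀[K]^n Ω[K⁄ℂ]) ≃ₗ[K] ⨂[K]^1 (⋀[K]^n Ω[K⁄ℂ]) :=
  (PiTensorProduct.subsingletonEquiv (s := fun _ : Fin 1 => ⋀[K]^n Ω[K⁄ℂ]) 0).symm

theorem tens_mem {O : ValuationSubring K} {n : ℕ} {η : ⋀[K]^n Ω[K⁄ℂ]} (h : η ∈ reg1 O n) :
    tens n η ∈ regularAt (wedge (D ℂ K) n) O 1 := by
  induction h using Submodule.span_induction with
  | mem x hx =>
    obtain ⟨f, hf, rfl⟩ := hx
    refine Submodule.subset_span ⟨fun _ => f, fun _ => hf, ?_⟩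
    exact PiTensorProduct.subsingletonEquiv_symm_apply' 0 _
  | zero => rw [map_zero]; exact zero_mem _
  | add x y _ _ hx hy => rw [map_add]; exact add_mem hx hy
  | smul a x _ hx =>
    have h : tens n ((a : K) • x) ∈ regularAt (wedge (D ℂ K) n) O 1 := by
      rw [map_smul]
      exact Submodule.smul_mem _ a hx
    exact h

/-- At most a simple pole at every discrete valuation ring. -/
def Simple {n : ℕ} (η : ⋀[K]^n Ω[K⁄ℂ]) : Prop :=
  ∀ O : ValuationSubring K, IsDiscreteValuationRing O → (∀ c : ℂ, algebraMap ℂ K c ∈ O) →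
    ∀ π : O, Irreducible π → (π : K) • η ∈ reg1 O n

theorem Simple.comb {n : ℕ} {η θ : ⋀[K]^n Ω[K⁄ℂ]} (h : Simple η) (h' : Simple θ) (a b : ℂ) :
    Simple (algebraMap ℂ K a • η + algebraMap ℂ K b • θ) := by
  intro O hO hC π hπ
  rw [smul_add, smul_comm, smul_comm (π : K)]
  exact add_mem (reg1_smul (hC a) (h O hO hC π hπ)) (reg1_smul (hC b) (h' O hO hC π hπ))

theorem isLogForm_tens {S : Set (ValuationSubring K)} {n : ℕ} {η : ⋀[K]^n Ω[K⁄ℂ]}
    (h1 : Simple η) (h2 : ∀ O ∈ S, η ∈ reg1 O n) : IsLogForm (wedge (D ℂ K) n) S (tens n η) := by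
  intro O hO hC
  refine ⟨fun π hπ => ?_, fun hS => tens_mem (h2 O hS)⟩
  rw [pow_one, ← map_smul]
  exact tens_mem (h1 O hO hC π hπ)

/-- The conclusion of `LogGeneralType` for a field and a set of valuation rings. -/
abbrev LGT (S : Set (ValuationSubring K)) : Prop := FieldBig K S

theorem lgt_of {S : Set (ValuationSubring K)} {n : ℕ} {η : ⋀[K]^n Ω[K⁄ℂ]} {ρ : Fin n → K}
    (h0 : η ≠ 0) (hρ : IsTranscendenceBasis ℂ ρ) (h1 : Simple η) (h2 : ∀ i, Simple (ρ i • η))
    (h3 : ∀ O ∈ S, η ∈ reg1 O n) (h4 : ∀ i, ∀ O ∈ S, ρ i • η ∈ reg1 O n) : LGT S := by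
  refine ⟨n, 1, tens n η, ρ, one_pos, ?_, hρ, isLogForm_tens h1 h3, fun i => ?_⟩
  · rwa [Ne, LinearEquiv.map_eq_zero_iff]
  · rw [← map_smul]
    exact isLogForm_tens (h2 i) (h4 i)

theorem dlog_decomp {O : ValuationSubring K} (hO : IsDiscreteValuationRing O) {π : O}
    (hπ : Irreducible π) {f : K} (hf : f ≠ 0) :
    ∃ (u v : K) (k : ℤ), u ∈ O ∧ v ∈ O ∧
      f⁻¹ • D ℂ K f = v • D ℂ K u + ((k : K) * (π : K)⁻¹) • D ℂ K (π : K) := by
  obtain ⟨k, u, hu⟩ := IsDiscreteValuationRing.exists_units_eq_smul_zpow_of_irreducible hπ hf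
  have hπ0 : (π : K) ≠ 0 := fun h => hπ.ne_zero (Subtype.ext h)
  have hinv : ((u : O) : K) * ((u⁻¹ : Oˣ) : O) = 1 := by
    exact congrArg (fun z : O => (z : K)) u.mul_inv
  have hu0 : ((u : O) : K) ≠ 0 := left_ne_zero_of_mul_eq_one hinv
  have hf' : f = ((u : O) : K) * (π : K) ^ k := hu
  refine ⟨(u : O), ((u⁻¹ : Oˣ) : O), k, (u : O).2, ((u⁻¹ : Oˣ) : O).2, ?_⟩
  rw [eq_inv_of_mul_eq_one_right hinv, hf', Derivation.leibniz, Derivation.leibniz_zpow,
    ← Int.cast_smul_eq_zsmul K, smul_add, smul_smul, smul_smul, smul_smul, smul_smul, add_comm]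
  have hz : (π : K) ^ k ≠ 0 := zpow_ne_zero k hπ0
  congr 2
  · field_simp
  · rw [zpow_sub_one₀ hπ0]
    field_simp

/-- One-forms. -/
def w1 : Ω[K⁄ℂ] →ₗ[K] ⋀[K]^1 Ω[K⁄ℂ] := (exteriorPower.oneEquiv K Ω[K⁄ℂ]).symm.toLinearMap

theorem w1_eq (a : Ω[K⁄ℂ]) : w1 a = exteriorPower.ιMulti K 1 fun _ => a :=
  (LinearEquiv.symm_apply_eq _).mpr (exteriorPower.oneEquiv_ιMulti (fun _ => a)).symm

theorem w1_mem {O : ValuationSubring K} {u : K} (hu : u ∈ O) : w1 (D ℂ K u) ∈ reg1 O 1 :=
  Submodule.subset_span ⟨fun _ => u, fun _ => hu, w1_eq _⟩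

theorem simple_dlog {f : K} (hf : f ≠ 0) : Simple (w1 (f⁻¹ • D ℂ K f)) := by
  intro O hO hC π hπ
  obtain ⟨u, v, k, hu, hv, h⟩ := dlog_decomp hO hπ hf
  have hπ0 : (π : K) ≠ 0 := fun h => hπ.ne_zero (Subtype.ext h)
  rw [h, map_add, map_smul, map_smul, smul_add, smul_smul, smul_smul]
  refine add_mem (reg1_smul (mul_mem π.2 hv) (w1_mem hu)) (reg1_smul ?_ (w1_mem π.2))
  have : (π : K) * ((k : K) * (π : K)⁻¹) = k := by field_simp
  rw [this]
  exact intCast_mem O k

/-- Two-forms. -/
def w2 (a b : Ω[K⁄ℂ]) : ⋀[K]^2 Ω[K⁄ℂ] := exteriorPower.ιMulti K 2 ![a, b]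

theorem w2_self (a : Ω[K⁄ℂ]) : w2 a a = 0 :=
  (exteriorPower.ιMulti K 2).map_eq_zero_of_eq ![a, a] (i := 0) (j := 1) rfl (by decide)

theorem w2_left (r s : K) (a a' b : Ω[K⁄ℂ]) :
    w2 (r • a + s • a') b = r • w2 a b + s • w2 a' b := by
  simp only [w2]
  rw [AlternatingMap.map_vecCons_add, AlternatingMap.map_vecCons_smul,
    AlternatingMap.map_vecCons_smul]

theorem w2_swap (a b : Ω[K⁄ℂ]) : w2 b a = -w2 a b := by
  have h := (exteriorPower.ιMulti K 2).map_swap ![a, b] (i := 0) (j := 1) (by decide)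
  have h2 : (![a, b] : Fin 2 → Ω[K⁄ℂ]) ∘ Equiv.swap 0 1 = ![b, a] := by
    funext i
    fin_cases i <;> rfl
  rwa [h2] at h

theorem w2_det (r s p q : K) (a b : Ω[K⁄ℂ]) :
    w2 (r • a + s • b) (p • a + q • b) = (r * q - s * p) • w2 a b := by
  rw [w2_left, w2_swap (p • a + q • b) a, w2_swap (p • a + q • b) b, w2_left, w2_left, w2_self,
    w2_self, w2_swap a b]
  module

theorem w2_bil (r s p q : K) (a b c d : Ω[K⁄ℂ]) :
    w2 (r • a + s • b) (p • c + q • d) =
      (r * p) • w2 a c + (r * q) • w2 a d + (s * p) • w2 b c + (s * q) • w2 b d := by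
  rw [w2_left, w2_swap (p • c + q • d) a, w2_swap (p • c + q • d) b, w2_left, w2_left,
    w2_swap a c, w2_swap a d, w2_swap b c, w2_swap b d]
  module

theorem w2_mem {O : ValuationSubring K} {u v : K} (hu : u ∈ O) (hv : v ∈ O) :
    w2 (D ℂ K u) (D ℂ K v) ∈ reg1 O 2 := by
  refine Submodule.subset_span ⟨![u, v], fun i => ?_, ?_⟩
  · fin_cases i
    · exact hu
    · exact hv
  · unfold w2
    congr 1
    funext i
    fin_cases i <;> rfl

theorem simple_dlog2 {f g : K} (hf : f ≠ 0) (hg : g ≠ 0) :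
    Simple (w2 (f⁻¹ • D ℂ K f) (g⁻¹ • D ℂ K g)) := by
  intro O hO hC π hπ
  obtain ⟨u, v, k, hu, hv, h⟩ := dlog_decomp hO hπ hf
  obtain ⟨u', v', k', hu', hv', h'⟩ := dlog_decomp hO hπ hg
  have hπ0 : (π : K) ≠ 0 := fun h => hπ.ne_zero (Subtype.ext h)
  rw [h, h', w2_bil, w2_self, smul_zero, add_zero, smul_add, smul_add, smul_smul, smul_smul,
    smul_smul]
  refine add_mem (add_mem (reg1_smul (mul_mem π.2 (mul_mem hv hv')) (w2_mem hu hu'))
    (reg1_smul ?_ (w2_mem hu π.2))) (reg1_smul ?_ (w2_mem π.2 hu'))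
  · have : (π : K) * (v * ((k' : K) * (π : K)⁻¹)) = v * k' := by field_simp
    rw [this]
    exact mul_mem hv (intCast_mem O k')
  · have : (π : K) * ((k : K) * (π : K)⁻¹ * v') = k * v' := by field_simp
    rw [this]
    exact mul_mem (intCast_mem O k) hv'

end

end Pool.Agent.P.MP_dc0411_ag
end

-- part Pool.Agent.P.MP_dc0411_ag.LogField
section

/-!
Explicit logarithmic forms on points, curves and on the surface.
-/

open scoped TensorProduct
open KaehlerDifferential

namespace Pool.Agent.P.MP_dc0411_ag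

noncomputable section

variable {K : Type} [Field K] [Algebra ℂ K] {S : Set (ValuationSubring K)}

theorem exists_const {z : K} (hz : IsAlgebraic ℂ z) : ∃ c : ℂ, algebraMap ℂ K c = z :=
  minpoly.mem_range_of_degree_eq_one ℂ z
    (IsAlgClosed.degree_eq_one_of_irreducible ℂ (minpoly.irreducible hz.isIntegral))

theorem lgt_point (h : Algebra.IsAlgebraic ℂ K) : LGT S := by
  have h0 : Algebra.trdeg ℂ K = 0 := trdeg_eq_zero
  have hb : IsTranscendenceBasis ℂ (Fin.elim0 : Fin 0 → K) :=
    (algebraicIndependent_empty_type_iff.mpr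
      (algebraMap ℂ K).injective).isTranscendenceBasis_of_trdeg_le_of_finite (by simp [h0])
  have hm : ∀ O : ValuationSubring K,
      (exteriorPower.ιMulti K 0 fun i => D ℂ K ((Fin.elim0 : Fin 0 → K) i)) ∈ reg1 O 0 :=
    fun O => Submodule.subset_span ⟨Fin.elim0, fun i => i.elim0, rfl⟩
  exact lgt_of (wedge_ne_zero hb) hb (fun O _ _ π _ => reg1_smul π.2 (hm O)) (fun i => i.elim0)
    (fun O _ => hm O) (fun i => i.elim0)

theorem D_sub_const (t : K) (a : ℂ) : D ℂ K (t - algebraMap ℂ K a) = D ℂ K t := by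
  rw [map_sub, Derivation.map_algebraMap, sub_zero]

theorem lgt_curve (h1 : Algebra.trdeg ℂ K ≤ 1) {t : K} (ht : Transcendental ℂ t) {a b : ℂ}
    (hab : a ≠ b)
    (hS : ∀ O ∈ S, t ∈ O ∧ ((t - algebraMap ℂ K a) * (t - algebraMap ℂ K b))⁻¹ ∈ O) : LGT S := by
  have hb : IsTranscendenceBasis ℂ (fun _ : Fin 1 => t) :=
    (algebraicIndependent_unique_type_iff.mpr ht).isTranscendenceBasis_of_trdeg_le_of_finite
      (by simpa using h1)
  have hne : ∀ c : ℂ, t - algebraMap ℂ K c ≠ 0 := fun c h =>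
    ht (by rw [sub_eq_zero.mp h]; exact isAlgebraic_algebraMap c)
  have hs : ∀ c : ℂ, Simple ((t - algebraMap ℂ K c)⁻¹ • w1 (D ℂ K t)) := fun c => by
    have := simple_dlog (hne c)
    rwa [D_sub_const, map_smul] at this
  have hab' : algebraMap ℂ K a - algebraMap ℂ K b ≠ 0 := by
    rw [← map_sub]
    exact (map_ne_zero _).mpr (sub_ne_zero.mpr hab)
  have ha := hne a
  have hb' := hne b
  have hw : w1 (D ℂ K t) ≠ 0 := by
    rw [w1_eq]
    exact wedge_ne_zero hb
  refine lgt_of (η := ((t - algebraMap ℂ K a) * (t - algebraMap ℂ K b))⁻¹ • w1 (D ℂ K t))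
    (smul_ne_zero (inv_ne_zero (mul_ne_zero ha hb')) hw) hb ?_ (fun _ => ?_)
    (fun O hO => reg1_smul (hS O hO).2 (w1_mem (hS O hO).1))
    (fun _ O hO => reg1_smul (hS O hO).1 (reg1_smul (hS O hO).2 (w1_mem (hS O hO).1)))
  · have h := (hs a).comb (hs b) (a - b)⁻¹ (-(a - b)⁻¹)
    rw [smul_smul, smul_smul, ← add_smul] at h
    have e : ((t - algebraMap ℂ K a) * (t - algebraMap ℂ K b))⁻¹ =
        algebraMap ℂ K (a - b)⁻¹ * (t - algebraMap ℂ K a)⁻¹ +
          algebraMap ℂ K (-(a - b)⁻¹) * (t - algebraMap ℂ K b)⁻¹ := by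
      rw [map_neg, map_inv₀, map_sub]
      field_simp
      ring
    rwa [e]
  · have h := (hs a).comb (hs b) (a * (a - b)⁻¹) (-(b * (a - b)⁻¹))
    rw [smul_smul, smul_smul, ← add_smul] at h
    have e : t * ((t - algebraMap ℂ K a) * (t - algebraMap ℂ K b))⁻¹ =
        algebraMap ℂ K (a * (a - b)⁻¹) * (t - algebraMap ℂ K a)⁻¹ +
          algebraMap ℂ K (-(b * (a - b)⁻¹)) * (t - algebraMap ℂ K b)⁻¹ := by
      rw [map_neg, map_mul, map_mul, map_inv₀, map_sub]
      field_simp
      ring
    rwa [smul_smul, e]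

theorem D_g (x y : K) : D ℂ K (x * y * (x + y)) =
    (y * (2 * x + y)) • D ℂ K x + (x * (x + 2 * y)) • D ℂ K y := by
  rw [Derivation.leibniz, Derivation.leibniz, map_add]
  module

theorem simple_xy {x y : K} (hx : x ≠ 0) (hy : y ≠ 0) {c : ℂ}
    (hc : x * y * (x + y) - algebraMap ℂ K c ≠ 0) :
    Simple ((x * (x * y * (x + y) - algebraMap ℂ K c)⁻¹) • w2 (D ℂ K x) (D ℂ K y)) ∧
      Simple ((y * (x * y * (x + y) - algebraMap ℂ K c)⁻¹) • w2 (D ℂ K x) (D ℂ K y)) := by
  have : CharZero K := charZero_of_injective_algebraMap (algebraMap ℂ K).injective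
  have hA := simple_dlog2 hx hc
  have hB := simple_dlog2 hy hc
  rw [D_sub_const, D_g, smul_add, smul_smul, smul_smul] at hA hB
  have e1 : x⁻¹ • D ℂ K x = x⁻¹ • D ℂ K x + (0 : K) • D ℂ K y := by rw [zero_smul, add_zero]
  have e2 : y⁻¹ • D ℂ K y = (0 : K) • D ℂ K x + y⁻¹ • D ℂ K y := by rw [zero_smul, zero_add]
  rw [e1, w2_det] at hA
  rw [e2, w2_det] at hB
  generalize (x * y * (x + y) - algebraMap ℂ K c)⁻¹ = r at hA hB ⊢
  constructor
  · have h := hA.comb hB (-1 / 3) (-2 / 3)
    rw [smul_smul, smul_smul, ← add_smul] at h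
    have e : x * r = algebraMap ℂ K (-1 / 3) * (x⁻¹ * (r * (x * (x + 2 * y))) -
        0 * (r * (y * (2 * x + y)))) + algebraMap ℂ K (-2 / 3) * (0 * (r * (x * (x + 2 * y))) -
          y⁻¹ * (r * (y * (2 * x + y)))) := by
      simp only [map_div₀, map_neg, map_one, map_ofNat]
      field_simp
      ring
    rwa [e]
  · have h := hA.comb hB (2 / 3) (1 / 3)
    rw [smul_smul, smul_smul, ← add_smul] at h
    have e : y * r = algebraMap ℂ K (2 / 3) * (x⁻¹ * (r * (x * (x + 2 * y))) -
        0 * (r * (y * (2 * x + y)))) + algebraMap ℂ K (1 / 3) * (0 * (r * (x * (x + 2 * y))) -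
          y⁻¹ * (r * (y * (2 * x + y)))) := by
      simp only [map_div₀, map_one, map_ofNat]
      field_simp
      ring
    rwa [e]

theorem lgt_surface {x y : K} (h : IsTranscendenceBasis ℂ ![x, y])
    (h1 : x * y * (x + y) - 1 ≠ 0) (h2 : x * y * (x + y) - 2 ≠ 0)
    (hS : ∀ O ∈ S, x ∈ O ∧ y ∈ O ∧ ((x * y * (x + y) - 1) * (x * y * (x + y) - 2))⁻¹ ∈ O) :
    LGT S := by
  have hx : x ≠ 0 := h.1.ne_zero 0
  have hy : y ≠ 0 := h.1.ne_zero 1
  have hxy : x + y ≠ 0 := by
    intro h0
    have h3 : MvPolynomial.aeval ![x, y]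
        (MvPolynomial.X 0 + MvPolynomial.X 1 : MvPolynomial (Fin 2) ℂ) = 0 := by simpa using h0
    have h4 := congrArg (MvPolynomial.eval ![1, 0]) (h.1.eq_zero_of_aeval_eq_zero _ h3)
    simp at h4
  set g := x * y * (x + y) with hg
  have hρ : IsTranscendenceBasis ℂ ![y / x, g] := by
    let A := Algebra.adjoin ℂ (Set.range ![y / x, g])
    let u : A := ⟨y / x, Algebra.subset_adjoin ⟨0, rfl⟩⟩
    let γ : A := ⟨g, Algebra.subset_adjoin ⟨1, rfl⟩⟩
    have hu : IsAlgebraic A (y / x) := isAlgebraic_algebraMap u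
    have hγ : IsAlgebraic A g := isAlgebraic_algebraMap γ
    have hne : y / x * (1 + y / x) ≠ 0 := by
      refine mul_ne_zero (div_ne_zero hy hx) ?_
      rw [one_add_div hx]
      exact div_ne_zero hxy hx
    have hx3 : IsAlgebraic A (x ^ 3) := by
      refine IsAlgebraic.of_mul (mem_nonZeroDivisors_of_ne_zero hne)
        (hu.mul (isAlgebraic_one.add hu)) ?_
      have e : y / x * (1 + y / x) * x ^ 3 = g := by
        rw [hg]
        field_simp
      rwa [e]
    have hxa : IsAlgebraic A x := hx3.of_pow (by norm_num)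
    have hya : IsAlgebraic A y := by
      have := hu.mul hxa
      rwa [div_mul_cancel₀ y hx] at this
    have : Algebra.IsAlgebraic A K := h.isAlgebraic_iff.mpr fun i => by
      fin_cases i
      · exact hxa
      · exact hya
    exact Algebra.IsAlgebraic.isTranscendenceBasis_of_le_trdeg_of_finite ℂ _
      h.cardinalMk_eq_trdeg.le
  have hV : w2 (D ℂ K x) (D ℂ K y) ≠ 0 := by
    have := wedge_ne_zero h
    have e : (fun i => D ℂ K (![x, y] i)) = ![D ℂ K x, D ℂ K y] := by
      funext i
      fin_cases i <;> rfl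
    rwa [e] at this
  obtain ⟨a1, b1⟩ := simple_xy hx hy (c := 1) (by rwa [map_one])
  obtain ⟨a2, b2⟩ := simple_xy hx hy (c := 2) (by rwa [map_ofNat])
  rw [map_one, ← hg] at a1 b1
  rw [map_ofNat, ← hg] at a2 b2
  have hinv : ((g - 1) * (g - 2))⁻¹ ≠ 0 := inv_ne_zero (mul_ne_zero h1 h2)
  have e0 : y / x * (x * ((g - 1) * (g - 2))⁻¹) = y * ((g - 1) * (g - 2))⁻¹ := by field_simp
  refine lgt_of (η := (x * ((g - 1) * (g - 2))⁻¹) • w2 (D ℂ K x) (D ℂ K y))
    (smul_ne_zero (mul_ne_zero hx hinv) hV) hρ ?_ (fun i => ?_)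
    (fun O hO => reg1_smul (mul_mem (hS O hO).1 (hS O hO).2.2) (w2_mem (hS O hO).1 (hS O hO).2.1))
    (fun i O hO => ?_)
  · have h := a2.comb a1 1 (-1)
    rw [smul_smul, smul_smul, ← add_smul] at h
    have e : x * ((g - 1) * (g - 2))⁻¹ =
        algebraMap ℂ K 1 * (x * (g - 2)⁻¹) + algebraMap ℂ K (-1) * (x * (g - 1)⁻¹) := by
      simp only [map_neg, map_one]
      field_simp
      ring
    rwa [e]
  · rw [smul_smul]
    fin_cases i
    · have h := b2.comb b1 1 (-1)
      rw [smul_smul, smul_smul, ← add_smul] at h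
      have e : y * ((g - 1) * (g - 2))⁻¹ =
          algebraMap ℂ K 1 * (y * (g - 2)⁻¹) + algebraMap ℂ K (-1) * (y * (g - 1)⁻¹) := by
        simp only [map_neg, map_one]
        field_simp
        ring
      change Simple ((y / x * (x * ((g - 1) * (g - 2))⁻¹)) • _)
      rwa [e0, e]
    · have h := a2.comb a1 2 (-1)
      rw [smul_smul, smul_smul, ← add_smul] at h
      have e : g * (x * ((g - 1) * (g - 2))⁻¹) =
          algebraMap ℂ K 2 * (x * (g - 2)⁻¹) + algebraMap ℂ K (-1) * (x * (g - 1)⁻¹) := by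
        simp only [map_neg, map_one, map_ofNat]
        field_simp
        ring
      change Simple ((g * (x * ((g - 1) * (g - 2))⁻¹)) • _)
      rwa [e]
  · obtain ⟨mx, my, mi⟩ := hS O hO
    rw [smul_smul]
    refine reg1_smul ?_ (w2_mem mx my)
    fin_cases i
    · change y / x * (x * ((g - 1) * (g - 2))⁻¹) ∈ O
      rw [e0]
      exact mul_mem my mi
    · exact mul_mem (mul_mem (mul_mem mx my) (add_mem mx my)) (mul_mem mx mi)

theorem lgt_field {x y : K}
    (halg : Algebra.IsAlgebraic (Algebra.adjoin ℂ (Set.range ![x, y])) K)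
    (h1 : x * y * (x + y) - 1 ≠ 0) (h2 : x * y * (x + y) - 2 ≠ 0)
    (hS : ∀ O ∈ S, (∀ c : ℂ, algebraMap ℂ K c ∈ O) ∧ x ∈ O ∧ y ∈ O ∧
      ((x * y * (x + y) - 1) * (x * y * (x + y) - 2))⁻¹ ∈ O ∧
      (x * y * (x + y) = 0 → (x ^ 2 + x * y + y ^ 2 - 1)⁻¹ ∈ O)) : LGT S := by
  by_cases h : 2 ≤ Algebra.trdeg ℂ K
  · exact lgt_surface (Algebra.IsAlgebraic.isTranscendenceBasis_of_le_trdeg_of_finite ℂ _
      (by simpa using h)) h1 h2 fun O hO => ⟨(hS O hO).2.1, (hS O hO).2.2.1, (hS O hO).2.2.2.1⟩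
  have ht : Algebra.trdeg ℂ K ≤ 1 := not_lt.mp fun h' => h (Cardinal.two_le_iff_one_lt.mpr h')
  have hpt : IsAlgebraic ℂ x → IsAlgebraic ℂ y → LGT S := fun hx hy => by
    have : Algebra.IsAlgebraic ℂ (Algebra.adjoin ℂ (Set.range ![x, y])) := by
      rw [← Subalgebra.isAlgebraic_iff, Algebra.isAlgebraic_adjoin_iff]
      rintro _ ⟨i, rfl⟩
      fin_cases i
      · exact hx
      · exact hy
    exact lgt_point (Algebra.IsAlgebraic.trans ℂ (Algebra.adjoin ℂ (Set.range ![x, y])) K)
  by_cases hg : IsAlgebraic ℂ (x * y * (x + y))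
  swap
  · refine lgt_curve ht hg (a := 1) (b := 2) (by norm_num) fun O hO => ?_
    obtain ⟨-, mx, my, mi, -⟩ := hS O hO
    rw [map_one, map_ofNat]
    exact ⟨mul_mem (mul_mem mx my) (add_mem mx my), mi⟩
  have hline : ∀ t : K, x * y * (x + y) = 0 → (t = x ∨ t = y) →
      x ^ 2 + x * y + y ^ 2 - 1 = (t - 1) * (t + 1) → ¬ IsAlgebraic ℂ t → LGT S := by
    intro t h0 hxy hq hta
    refine lgt_curve ht hta (a := 1) (b := -1) (by norm_num) fun O hO => ?_
    obtain ⟨-, mx, my, -, mq⟩ := hS O hO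
    rw [map_neg, map_one, sub_neg_eq_add, ← hq]
    refine ⟨?_, mq h0⟩
    rcases hxy with rfl | rfl
    · exact mx
    · exact my
  by_cases h0 : x * y * (x + y) = 0
  · rcases mul_eq_zero.mp h0 with h3 | h3
    · rcases mul_eq_zero.mp h3 with h4 | h4
      · by_cases hy : IsAlgebraic ℂ y
        · exact hpt (by rw [h4]; exact isAlgebraic_zero) hy
        · exact hline y h0 (Or.inr rfl) (by rw [h4]; ring) hy
      · by_cases hx : IsAlgebraic ℂ x
        · exact hpt hx (by rw [h4]; exact isAlgebraic_zero)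
        · exact hline x h0 (Or.inl rfl) (by rw [h4]; ring) hx
    · have h4 : y = -x := by linear_combination h3
      by_cases hx : IsAlgebraic ℂ x
      · exact hpt hx (by rw [h4]; exact hx.neg)
      · exact hline x h0 (Or.inl rfl) (by rw [h4]; ring) hx
  have hx : x ≠ 0 := fun h => h0 (by rw [h]; ring)
  have hy : y ≠ 0 := fun h => h0 (by rw [h]; ring)
  have hxy : x + y ≠ 0 := fun h => h0 (by rw [h]; ring)
  by_cases hu : IsAlgebraic ℂ (y / x)
  · have hne : y / x * (1 + y / x) ≠ 0 := by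
      refine mul_ne_zero (div_ne_zero hy hx) ?_
      rw [one_add_div hx]
      exact div_ne_zero hxy hx
    have hx3 : IsAlgebraic ℂ (x ^ 3) := by
      refine IsAlgebraic.of_mul (mem_nonZeroDivisors_of_ne_zero hne)
        (hu.mul (isAlgebraic_one.add hu)) ?_
      have e : y / x * (1 + y / x) * x ^ 3 = x * y * (x + y) := by field_simp
      rwa [e]
    have hxa : IsAlgebraic ℂ x := hx3.of_pow (by norm_num)
    refine hpt hxa ?_
    have := hu.mul hxa
    rwa [div_mul_cancel₀ y hx] at this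
  obtain ⟨γ, hγ⟩ := exists_const hg
  refine lgt_curve ht hu (a := 0) (b := -1) (by norm_num) fun O hO => ?_
  obtain ⟨mc, mx, my, -, -⟩ := hS O hO
  have mg : (x * y * (x + y))⁻¹ ∈ O := by
    rw [← hγ, ← map_inv₀]
    exact mc _
  have e1 : y / x = y * y * (x + y) * (x * y * (x + y))⁻¹ := by field_simp
  have e2 : ((y / x - algebraMap ℂ K 0) * (y / x - algebraMap ℂ K (-1)))⁻¹ =
      x * x * x * (x * y * (x + y))⁻¹ := by
    have : y + x ≠ 0 := by rwa [add_comm]
    rw [map_zero, map_neg, map_one, sub_zero, sub_neg_eq_add]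
    field_simp
    ring
  rw [e2, e1]
  exact ⟨mul_mem (mul_mem (mul_mem my my) (add_mem mx my)) mg,
    mul_mem (mul_mem (mul_mem mx mx) mx) mg⟩

end

end Pool.Agent.P.MP_dc0411_ag
end

-- part Pool.Agent.P.MP_dc0411_ag.LogMain
section

/-!
Every closed integral subscheme of the surface is of log-general type.
-/

open CategoryTheory AlgebraicGeometry MvPolynomial

namespace Pool.Agent.P.MP_dc0411_ag

noncomputable section

/-- Polynomials as germs at a point of a scheme over affine space. -/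
def ev {T : Scheme.{0}} {n : ℕ} (φ : T ⟶ SpecR n) (y : T) : Rn n →+* T.presheaf.stalk y :=
  ((Scheme.ΓSpecIso (CommRingCat.of (Rn n))).inv ≫ φ.appTop ≫ T.presheaf.germ ⊤ y trivial).hom

theorem ev_isUnit {T : Scheme.{0}} {n : ℕ} (φ : T ⟶ SpecR n) (y : T) (r : Rn n)
    (h : φ y ∈ PrimeSpectrum.basicOpen r) : IsUnit (ev φ y r) := by
  have h1 : y ∈ φ ⁻¹ᵁ (SpecR n).basicOpen ((Scheme.ΓSpecIso (CommRingCat.of (Rn n))).inv r) := by
    rw [basicOpen_eq_of_affine]
    exact h
  rw [Scheme.preimage_basicOpen_top, Scheme.mem_basicOpen_top] at h1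
  exact h1

theorem ev_field {T : Scheme.{0}} [IsIntegral T] {n : ℕ} (φ : T ⟶ SpecR n) (y : T) (r : Rn n) :
    algebraMap (T.presheaf.stalk y) T.functionField (ev φ y r) = ev φ (genericPoint T) r :=
  TopCat.Presheaf.germ_stalkSpecializes_apply T.presheaf _ _ _

theorem ev_surj {T : Scheme.{0}} {n : ℕ} (φ : T ⟶ SpecR n) (y : T)
    (h : Function.Surjective (φ.stalkMap y)) (z : T.presheaf.stalk y) :
    ∃ a b : Rn n, IsUnit (ev φ y b) ∧ z * ev φ y b = ev φ y a := by
  obtain ⟨s, rfl⟩ := h z
  let _ : Algebra Γ(SpecR n, ⊤) ((SpecR n).presheaf.stalk (φ y)) :=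
    TopCat.Presheaf.algebra_section_stalk (SpecR n).presheaf (U := ⊤) ⟨φ y, trivial⟩
  have hl : IsLocalization.AtPrime ((SpecR n).presheaf.stalk (φ y))
      ((isAffineOpen_top (SpecR n)).primeIdealOf ⟨φ y, trivial⟩).asIdeal :=
    (isAffineOpen_top (SpecR n)).isLocalization_stalk ⟨φ y, trivial⟩
  obtain ⟨⟨a, b⟩, hab⟩ := IsLocalization.surj
    ((isAffineOpen_top (SpecR n)).primeIdealOf ⟨φ y, trivial⟩).asIdeal.primeCompl s
  have hb := IsLocalization.map_units ((SpecR n).presheaf.stalk (φ y)) b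
  have key : ∀ c : Γ(SpecR n, ⊤), ev φ y ((Scheme.ΓSpecIso (CommRingCat.of (Rn n))).hom c) =
      φ.stalkMap y (algebraMap Γ(SpecR n, ⊤) ((SpecR n).presheaf.stalk (φ y)) c) := by
    intro c
    have h1 := φ.germ_stalkMap_apply ⊤ y trivial c
    have h2 := (Scheme.ΓSpecIso (CommRingCat.of (Rn n))).hom_inv_id_apply c
    change T.presheaf.germ ⊤ y trivial (φ.appTop ((Scheme.ΓSpecIso (CommRingCat.of (Rn n))).inv
      ((Scheme.ΓSpecIso (CommRingCat.of (Rn n))).hom c))) = _
    rw [h2]
    exact h1.symm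
  refine ⟨(Scheme.ΓSpecIso (CommRingCat.of (Rn n))).hom a,
    (Scheme.ΓSpecIso (CommRingCat.of (Rn n))).hom b, ?_, ?_⟩
  · rw [key]
    exact hb.map _
  · rw [key, key, ← map_mul]
    exact congrArg _ hab

theorem ev_C (Y : Over SpecC) {n : ℕ} (φ : Y.left ⟶ SpecR n) (hφ : φ ≫ strMap n = Y.hom)
    (y : Y.left) (c : ℂ) :
    ev φ y (C c) = ((Scheme.ΓSpecIso (CommRingCat.of ℂ)).inv ≫ Y.hom.appTop ≫
      Y.left.presheaf.germ ⊤ y trivial).hom c := by
  have h := Scheme.ΓSpecIso_inv_naturality (CommRingCat.ofHom (algebraMap ℂ (Rn n)))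
  rw [← hφ, Scheme.Hom.comp_appTop, Category.assoc, ← reassoc_of% h]
  rfl

theorem inv_mem_of_isUnit {T : Scheme.{0}} [IsIntegral T] {O : ValuationSubring T.functionField}
    {y : T} (hO : ∀ s : T.presheaf.stalk y,
      algebraMap (T.presheaf.stalk y) T.functionField s ∈ O) {s : T.presheaf.stalk y}
    (hs : IsUnit s) : (algebraMap (T.presheaf.stalk y) T.functionField s)⁻¹ ∈ O := by
  obtain ⟨u, rfl⟩ := hs
  rw [← map_units_inv]
  exact hO _

/-- The field-theoretic criterion for an integral scheme mapping to the surface with surjective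
stalk map at the generic point. -/
theorem lgt_of_map (Y : Over SpecC) [IsIntegral Y.left] (φ : Y.left ⟶ SpecR 2)
    (hφ : φ ≫ strMap 2 = Y.hom) (hU : ∀ y, φ y ∈ UX)
    (hs : Function.Surjective (φ.stalkMap (genericPoint Y.left))) : LogGeneralType Y := by
  let _ := fieldAlgebra Y
  let ψ : Rn 2 →ₐ[ℂ] Y.left.functionField :=
    { ev φ (genericPoint Y.left) with commutes' := fun c => ev_C Y φ hφ _ c }
  have hψ : ∀ (y : Y.left) (r : Rn 2),
      algebraMap (Y.left.presheaf.stalk y) Y.left.functionField (ev φ y r) = ψ r :=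
    fun y r => ev_field φ y r
  have hg : ψ gP = ψ (X 0) * ψ (X 1) * (ψ (X 0) + ψ (X 1)) := by
    simp only [gP, map_mul, map_add]
  have hq : ψ qP = ψ (X 0) ^ 2 + ψ (X 0) * ψ (X 1) + ψ (X 1) ^ 2 - 1 := by
    simp only [qP, map_mul, map_add, map_sub, map_pow, map_one]
  have h12 : ψ ((gP - 1) * (gP - 2)) = (ψ gP - 1) * (ψ gP - 2) := by
    simp only [map_mul, map_sub, map_one, map_ofNat]
  have hun : ∀ y : Y.left, IsUnit (ev φ y ((gP - 1) * (gP - 2))) ∧
      (IsUnit (ev φ y gP) ∨ IsUnit (ev φ y qP)) := by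
    intro y
    rcases hU y with h | h
    · have h' := ev_isUnit φ y _ h
      rw [map_mul, IsUnit.mul_iff] at h'
      exact ⟨h'.1, Or.inl h'.2⟩
    · have h' := ev_isUnit φ y _ h
      rw [map_mul, IsUnit.mul_iff] at h'
      exact ⟨h'.1, Or.inr h'.2⟩
  have hne : (ψ gP - 1) * (ψ gP - 2) ≠ 0 := by
    rw [← h12]
    exact (hun (genericPoint Y.left)).1.ne_zero
  have hadj : ∀ r : Rn 2, ψ r ∈ Algebra.adjoin ℂ (Set.range ![ψ (X 0), ψ (X 1)]) := by
    intro r
    rw [Algebra.adjoin_range_eq_range_aeval]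
    refine ⟨r, ?_⟩
    have : aeval ![ψ (X 0), ψ (X 1)] = ψ := by
      ext1 i
      fin_cases i <;> simp
    exact DFunLike.congr_fun this r
  have halg : Algebra.IsAlgebraic (Algebra.adjoin ℂ (Set.range ![ψ (X 0), ψ (X 1)]))
      Y.left.functionField := by
    refine ⟨fun z => ?_⟩
    obtain ⟨a, b, hb, hab⟩ := ev_surj φ _ hs z
    have hab' : ψ b * z = ψ a := (mul_comm _ _).trans hab
    refine IsAlgebraic.of_mul (y := ψ b) (mem_nonZeroDivisors_of_ne_zero hb.ne_zero)
      (isAlgebraic_algebraMap (⟨_, hadj b⟩ : Algebra.adjoin ℂ _)) ?_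
    rw [hab']
    exact isAlgebraic_algebraMap (⟨_, hadj a⟩ : Algebra.adjoin ℂ _)
  refine lgt_field (S := centred Y.left) halg (hg ▸ left_ne_zero_of_mul hne)
    (hg ▸ right_ne_zero_of_mul hne) ?_
  rintro O ⟨y, hy⟩
  have hm : ∀ r : Rn 2, ψ r ∈ O := fun r => hψ y r ▸ hy _
  refine ⟨fun c => ψ.commutes c ▸ hm _, hm _, hm _, ?_, fun h0 => ?_⟩
  · rw [← hg, ← h12, ← hψ y]
    exact inv_mem_of_isUnit hy (hun y).1
  · rcases (hun y).2 with h | h
    · have h' := h.map (algebraMap (Y.left.presheaf.stalk y) Y.left.functionField)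
      rw [hψ, hg, h0] at h'
      exact absurd h' not_isUnit_zero
    · rw [← hq, ← hψ y]
      exact inv_mem_of_isUnit hy h

theorem logGeneral : SubvarietiesLogGeneral (opn UX) := by
  intro Y _ i hi
  have : SurjectiveOnStalks (i.left ≫ UX.ι) := inferInstance
  refine lgt_of_map Y (i.left ≫ UX.ι) ?_ (fun y => (i.left y).2)
    ((i.left ≫ UX.ι).stalkMap_surjective _)
  rw [Category.assoc]
  exact Over.w i

end

end Pool.Agent.P.MP_dc0411_ag
end
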